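import Mathlib

/-!
Gap functionals of finite sets of integers.
-/

namespace Pool.Agent.helper885_ct

/-- the union of the intervals `[a, a + l]`, `a ∈ A` -/
def cov (l : ℕ) (A : Finset ℕ) : Finset ℕ := A.biUnion fun a => Finset.Icc a (a + l)

lemma mem_cov {l : ℕ} {A : Finset ℕ} {j : ℕ} : j ∈ cov l A ↔ ∃ a ∈ A, a ≤ j ∧ j ≤ a + l := by
  simp [cov]

lemma cov_mono {l : ℕ} {A B : Finset ℕ} (h : A ⊆ B) : cov l A ⊆ cov l B :=
  Finset.biUnion_subset_biUnion_of_subset_left _ h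

lemma cov_insert (l j : ℕ) (A : Finset ℕ) :
    cov l (insert j A) = Finset.Icc j (j + l) ∪ cov l A := by
  simp [cov, Finset.biUnion_insert]

lemma cov_zero (A : Finset ℕ) : cov 0 A = A := by
  ext j
  rw [mem_cov]
  constructor
  · rintro ⟨a, ha, h1, h2⟩
    have : j = a := by omega
    rw [this]; exact ha
  · intro h
    exact ⟨j, h, le_rfl, by omega⟩

lemma card_cov_insert_ge {l j g : ℕ} {A : Finset ℕ} (h : ∀ a ∈ A, a + g ≤ j) :
    (cov l A).card + min g (l + 1) ≤ (cov l (insert j A)).card := by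
  rw [cov_insert]
  have h1 : Finset.Icc (j + (l + 1 - min g (l + 1))) (j + l) ∪ cov l A ⊆
      Finset.Icc j (j + l) ∪ cov l A := by
    refine Finset.union_subset_union_left ?_
    intro i hi
    rw [Finset.mem_Icc] at hi ⊢
    omega
  have h2 : Disjoint (Finset.Icc (j + (l + 1 - min g (l + 1))) (j + l)) (cov l A) := by
    rw [Finset.disjoint_left]
    intro i hi hi'
    rw [Finset.mem_Icc] at hi
    obtain ⟨a, ha, h3, h4⟩ := mem_cov.1 hi'
    have := h a ha
    omega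
  have h3 := Finset.card_le_card h1
  rw [Finset.card_union_of_disjoint h2, Nat.card_Icc] at h3
  omega

lemma card_cov_insert_le (l j : ℕ) (A : Finset ℕ) :
    (cov l (insert j A)).card ≤ (cov l A).card + (l + 1) := by
  rw [cov_insert]
  refine (Finset.card_union_le _ _).trans ?_
  rw [Nat.card_Icc]
  omega

lemma card_cov_insert_le' {l j a : ℕ} {A : Finset ℕ} (ha : a ∈ A) (h : a ≤ j) :
    (cov l (insert j A)).card ≤ (cov l A).card + (j - a) := by
  rw [cov_insert]
  have h1 : Finset.Icc j (j + l) ∪ cov l A ⊆ Finset.Icc (a + l + 1) (j + l) ∪ cov l A := by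
    intro i hi
    rw [Finset.mem_union, Finset.mem_Icc] at hi ⊢
    rcases hi with hi | hi
    · by_cases h2 : a + l + 1 ≤ i
      · exact Or.inl ⟨h2, hi.2⟩
      · exact Or.inr (mem_cov.2 ⟨a, ha, by omega, by omega⟩)
    · exact Or.inr hi
  refine (Finset.card_le_card h1).trans ((Finset.card_union_le _ _).trans ?_)
  rw [Nat.card_Icc]
  omega

/-- the gap functional with weights `ω` -/
def VV (L : ℕ) (ω : ℕ → ℕ) (A : Finset ℕ) : ℕ := ∑ l ∈ Finset.range L, ω l * (cov l A).card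

/-- the weight of a gap -/
def ph (L : ℕ) (ω : ℕ → ℕ) (g : ℕ) : ℕ := ∑ l ∈ Finset.range L, ω l * min g (l + 1)

lemma VV_empty (L : ℕ) (ω : ℕ → ℕ) : VV L ω ∅ = 0 := by simp [VV, cov]

lemma VV_mono (L : ℕ) (ω : ℕ → ℕ) {A B : Finset ℕ} (h : A ⊆ B) : VV L ω A ≤ VV L ω B :=
  Finset.sum_le_sum fun _ _ => Nat.mul_le_mul_left _ (Finset.card_le_card (cov_mono h))

lemma ph_mono (L : ℕ) (ω : ℕ → ℕ) {g g' : ℕ} (h : g ≤ g') : ph L ω g ≤ ph L ω g' :=
  Finset.sum_le_sum fun _ _ => Nat.mul_le_mul_left _ (by omega)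

lemma ph_top (L : ℕ) (ω : ℕ → ℕ) {g : ℕ} (h : L ≤ g) : ph L ω g = ph L ω L := by
  refine Finset.sum_congr rfl fun l hl => ?_
  rw [Finset.mem_range] at hl
  congr 1
  omega

lemma VV_insert_ge (L : ℕ) (ω : ℕ → ℕ) {j g : ℕ} {A : Finset ℕ} (h : ∀ a ∈ A, a + g ≤ j) :
    VV L ω A + ph L ω g ≤ VV L ω (insert j A) := by
  unfold VV ph
  rw [← Finset.sum_add_distrib]
  refine Finset.sum_le_sum fun l _ => ?_
  rw [← Nat.mul_add]
  exact Nat.mul_le_mul_left _ (card_cov_insert_ge h)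

lemma VV_insert_le (L : ℕ) (ω : ℕ → ℕ) (j : ℕ) (A : Finset ℕ) :
    VV L ω (insert j A) ≤ VV L ω A + ph L ω L := by
  unfold VV ph
  rw [← Finset.sum_add_distrib]
  refine Finset.sum_le_sum fun l hl => ?_
  rw [Finset.mem_range] at hl
  rw [← Nat.mul_add]
  refine Nat.mul_le_mul_left _ ?_
  have := card_cov_insert_le l j A
  have h2 : min L (l + 1) = l + 1 := by omega
  rw [h2]
  exact this

lemma VV_insert_le' (L : ℕ) (ω : ℕ → ℕ) {j a : ℕ} {A : Finset ℕ} (ha : a ∈ A) (h : a ≤ j) :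
    VV L ω (insert j A) ≤ VV L ω A + ph L ω (j - a) := by
  unfold VV ph
  rw [← Finset.sum_add_distrib]
  refine Finset.sum_le_sum fun l _ => ?_
  rw [← Nat.mul_add]
  refine Nat.mul_le_mul_left _ ?_
  have h1 := card_cov_insert_le l j A
  have h2 := card_cov_insert_le' (l := l) ha h
  omega

lemma VV_le_card (L : ℕ) (ω : ℕ → ℕ) (A : Finset ℕ) : VV L ω A ≤ ph L ω L * A.card := by
  induction A using Finset.induction_on with
  | empty => simp [VV_empty]
  | insert a A ha ih =>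
    rw [Finset.card_insert_of_notMem ha, Nat.mul_add, Nat.mul_one]
    exact (VV_insert_le L ω a A).trans (Nat.add_le_add_right ih _)

lemma card_le_VV {L : ℕ} {ω : ℕ → ℕ} (hL : 0 < L) (h0 : 1 ≤ ω 0) (A : Finset ℕ) :
    A.card ≤ VV L ω A := by
  unfold VV
  refine le_trans ?_ (Finset.single_le_sum (f := fun l => ω l * (cov l A).card)
    (fun _ _ => Nat.zero_le _) (Finset.mem_range.2 hL))
  simp only [cov_zero]
  exact Nat.le_mul_of_pos_left _ h0

end Pool.Agent.helper885_ct
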