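import Pool.Agent.helper885_ct.Sym
import Pool.Agent.helper885_ct.Gap

/-!
Devices reading a row symbol by symbol.
-/

set_option linter.unusedSectionVars false
set_option linter.unusedVariables false

namespace Pool.Agent.helper885_ct

open MeasureTheory Set Measure
open scoped ENNReal

/-- the first upward edge is open -/
noncomputable def upO (p : ℝ) (x : Row) : Bool := decide (x.2 (Sum.inl (0, 0)) < p)

/-- the first horizontal edge is open -/
noncomputable def hrO (p : ℝ) (x : Row) : Bool := decide (x.2 (Sum.inr 0) < p)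

/-- a function of the first symbol and of the rest of the row -/
noncomputable def symF {β : Type*} (p : ℝ) (FB : Bool → Row → β) (FT : Bool → Bool → Row → β)
    (x : Row) : β :=
  if x.1 0 = 0 then FB (upO p x) (sB x) else FT (upO p x) (hrO p x) (sT x)

lemma measurable_dec' {Ω β : Type*} [MeasurableSpace Ω] [MeasurableSpace β] {p : ℝ} {g : Ω → ℝ}
    (hg : Measurable g) {F : Bool → Ω → β} (hF : ∀ b, Measurable (F b)) :
    Measurable (fun x => F (decide (g x < p)) x) := by
  have : (fun x => F (decide (g x < p)) x) = fun x => if g x < p then F true x else F false x := by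
    funext x
    by_cases h : g x < p <;> simp [h]
  rw [this]
  exact Measurable.ite (hg measurableSet_Iio) (hF true) (hF false)

lemma measurable_symF {β : Type*} [MeasurableSpace β] (p : ℝ) {FB : Bool → Row → β}
    {FT : Bool → Bool → Row → β} (hB : ∀ b, Measurable (FB b)) (hT : ∀ b c, Measurable (FT b c)) :
    Measurable (symF p FB FT) := by
  have hmB : Measurable (fun x : Row => FB (decide (x.2 (Sum.inl (0, 0)) < p)) (sB x)) :=
    measurable_dec' (g := fun x : Row => x.2 (Sum.inl (0, 0))) (by fun_prop)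
      (F := fun b x => FB b (sB x)) (fun b => (hB b).comp measurable_sB)
  have hmT : Measurable (fun x : Row => FT (decide (x.2 (Sum.inl (0, 0)) < p))
      (decide (x.2 (Sum.inr 0) < p)) (sT x)) :=
    measurable_dec' (g := fun x : Row => x.2 (Sum.inl (0, 0))) (by fun_prop)
      (F := fun b x => FT b (decide (x.2 (Sum.inr 0) < p)) (sT x)) (fun b =>
        measurable_dec' (g := fun x : Row => x.2 (Sum.inr 0)) (by fun_prop)
          (F := fun c x => FT b c (sT x)) (fun c => (hT b c).comp measurable_sT))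
  have hx0 : Measurable (fun x : Row => x.1 0) := by fun_prop
  exact Measurable.ite (ms1 hx0 (fun n => n = 0)) hmB hmT

/-- a device reading a row: reactions (new state, gain) to an upward edge, a child, a next
vertex; the first argument of `up` and `bb` says whether the present vertex is marked -/
structure Aut (Q : Type) where
  up : Bool → Bool → Q → Q × ℕ
  tt : Bool → Q → Q × ℕ
  bb : Bool → Q → Q × ℕ

variable {Q : Type}

/-- reaction to an upward edge and the end of a family -/
def Aut.oB (M : Aut Q) (a o : Bool) (q : Q) : Q × ℕ :=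
  ((M.bb a (M.up a o q).1).1, (M.up a o q).2 + (M.bb a (M.up a o q).1).2)

/-- reaction to an upward edge and a child -/
def Aut.oT (M : Aut Q) (a o h : Bool) (q : Q) : Q × ℕ :=
  ((M.tt h (M.up a o q).1).1, (M.up a o q).2 + (M.tt h (M.up a o q).1).2)

/-- shift of a pattern -/
def sh (a : ℕ → Bool) : ℕ → Bool := fun i => a (i + 1)

/-- the total gain -/
noncomputable def gn (M : Aut Q) (p : ℝ) : ℕ → ℕ → (ℕ → Bool) → Q → Row → ℕ
  | 0, _, _, _ => fun _ => 0
  | _ + 1, 0, _, _ => fun _ => 0
  | n + 1, k + 1, a, q => symF p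
      (fun o y => (M.oB (a 0) o q).2 + gn M p n k (sh a) (M.oB (a 0) o q).1 y)
      (fun o h y => (M.oT (a 0) o h q).2 + gn M p n (k + 1) a (M.oT (a 0) o h q).1 y)

/-- update of the distance to the last marked vertex -/
def nd (L d : ℕ) (b : Bool) : ℕ := if b then 0 else min (d + 1) (L - 1)

/-- the total charge of the marked vertices to come -/
def Ch (L : ℕ) (ch : ℕ → ℕ) : ℕ → ℕ → (ℕ → Bool) → ℕ
  | 0, _, _ => 0
  | k + 1, d, a => (if a 1 then ch d else 0) + Ch L ch k (nd L d (a 1)) (sh a)

/-- the exponent of the supermartingale -/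
noncomputable def ex (M : Aut Q) (L : ℕ) (W : Q → ℕ → Bool → Bool → ℕ) (ch : ℕ → ℕ) (p : ℝ) :
    ℕ → ℕ → ℕ → (ℕ → Bool) → Q → Row → ℕ
  | 0, k, d, a, q => fun _ => W q d (a 1) (a 2) + Ch L ch k d a
  | _ + 1, 0, d, a, q => fun _ => W q d (a 1) (a 2)
  | n + 1, k + 1, d, a, q => symF p
      (fun o y => (M.oB (a 0) o q).2 +
        ex M L W ch p n k (nd L d (a 1)) (sh a) (M.oB (a 0) o q).1 y)
      (fun o h y => (M.oT (a 0) o h q).2 + ex M L W ch p n (k + 1) d a (M.oT (a 0) o h q).1 y)

lemma measurable_gn (M : Aut Q) (p : ℝ) (n k : ℕ) (a : ℕ → Bool) (q : Q) :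
    Measurable (gn M p n k a q) := by
  induction n generalizing k a q with
  | zero => exact measurable_const
  | succ n ih =>
    cases k with
    | zero => exact measurable_const
    | succ k =>
      exact measurable_symF p (fun o => measurable_const.add (ih _ _ _))
        (fun o h => measurable_const.add (ih _ _ _))

lemma measurable_ex (M : Aut Q) (L : ℕ) (W : Q → ℕ → Bool → Bool → ℕ) (ch : ℕ → ℕ) (p : ℝ)
    (n k d : ℕ) (a : ℕ → Bool) (q : Q) : Measurable (ex M L W ch p n k d a q) := by
  induction n generalizing k d a q with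
  | zero => exact measurable_const
  | succ n ih =>
    cases k with
    | zero => exact measurable_const
    | succ k =>
      exact measurable_symF p (fun o => measurable_const.add (ih _ _ _ _))
        (fun o h => measurable_const.add (ih _ _ _ _))

/-- the set of admissible states is closed -/
structure Aut.Closed (M : Aut Q) (ok : Q → Prop) : Prop where
  up : ∀ a o q, ok q → ok (M.up a o q).1
  tt : ∀ h q, ok q → ok (M.tt h q).1
  bb : ∀ a q, ok q → ok (M.bb a q).1

lemma Aut.Closed.oB {M : Aut Q} {ok : Q → Prop} (h : M.Closed ok) (a o : Bool) {q : Q}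
    (hq : ok q) : ok (M.oB a o q).1 := h.bb _ _ (h.up _ _ _ hq)

lemma Aut.Closed.oT {M : Aut Q} {ok : Q → Prop} (h : M.Closed ok) (a o c : Bool) {q : Q}
    (hq : ok q) : ok (M.oT a o c q).1 := h.tt _ _ (h.up _ _ _ hq)

/-- the local inequality -/
def LocIneq (M : Aut Q) (ok : Q → Prop) (L : ℕ) (W : Q → ℕ → Bool → Bool → ℕ) (ch : ℕ → ℕ)
    (p α : ℝ) (s : ℝ≥0∞) : Prop :=
  ∀ q, ok q → ∀ d < L, ∀ b₁ b₂ b₃ : Bool,
    ENNReal.ofReal (1 - α) *
      (ENNReal.ofReal p * s ^ ((M.oB (decide (d = 0)) true q).2 +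
        W (M.oB (decide (d = 0)) true q).1 (nd L d b₁) b₂ b₃) +
      ENNReal.ofReal (1 - p) * s ^ ((M.oB (decide (d = 0)) false q).2 +
        W (M.oB (decide (d = 0)) false q).1 (nd L d b₁) b₂ b₃)) +
    ENNReal.ofReal α * (ENNReal.ofReal p *
      (ENNReal.ofReal p * s ^ ((M.oT (decide (d = 0)) true true q).2 +
        W (M.oT (decide (d = 0)) true true q).1 d b₁ b₂ + (if b₁ then ch d else 0)) +
      ENNReal.ofReal (1 - p) * s ^ ((M.oT (decide (d = 0)) true false q).2 +
        W (M.oT (decide (d = 0)) true false q).1 d b₁ b₂ + (if b₁ then ch d else 0))) +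
      ENNReal.ofReal (1 - p) *
      (ENNReal.ofReal p * s ^ ((M.oT (decide (d = 0)) false true q).2 +
        W (M.oT (decide (d = 0)) false true q).1 d b₁ b₂ + (if b₁ then ch d else 0)) +
      ENNReal.ofReal (1 - p) * s ^ ((M.oT (decide (d = 0)) false false q).2 +
        W (M.oT (decide (d = 0)) false false q).1 d b₁ b₂ + (if b₁ then ch d else 0)))) ≤
    s ^ (W q d b₁ b₂ + (if b₁ then ch d else 0))

lemma nd_lt {L d : ℕ} (hL : 2 ≤ L) (b : Bool) : nd L d b < L := by
  unfold nd
  split_ifs <;> omega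

lemma nd_eq {L d : ℕ} (hL : 2 ≤ L) (b : Bool) : decide (nd L d b = 0) = b := by
  unfold nd
  cases b
  · have : min (d + 1) (L - 1) ≠ 0 := by omega
    simp [this]
  · simp

lemma lintegral_pow_add' {Ω : Type*} [MeasurableSpace Ω] (μ : Measure Ω) (s : ℝ≥0∞) (g : ℕ)
    {f : Ω → ℕ} (hf : Measurable f) :
    ∫⁻ y, s ^ (g + f y) ∂μ = s ^ g * ∫⁻ y, s ^ f y ∂μ := by
  have hm : Measurable fun y => s ^ f y :=
    (measurable_from_top (f := fun m : ℕ => s ^ m)).comp hf
  rw [← lintegral_const_mul _ hm]
  refine lintegral_congr fun y => ?_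
  rw [pow_add]

variable {α : ℝ} [hα : Fact (0 < α ∧ α < 1)]

/-- the supermartingale inequality -/
lemma lintegral_ex_le {M : Aut Q} {ok : Q → Prop} (hok : M.Closed ok) {L : ℕ} (hL : 2 ≤ L)
    {W : Q → ℕ → Bool → Bool → ℕ} {ch : ℕ → ℕ} {p : ℝ} (hp0 : 0 ≤ p) (hp1 : p ≤ 1) {s : ℝ≥0∞}
    (hLI : LocIneq M ok L W ch p α s) (n k d : ℕ) (a : ℕ → Bool) (q : Q) (hq : ok q)
    (hd : d < L) (ha : a 0 = decide (d = 0)) :
    ∫⁻ x, s ^ ex M L W ch p n k d a q x ∂rowLaw α ≤ s ^ (W q d (a 1) (a 2) + Ch L ch k d a) := by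
  induction n generalizing k d a q with
  | zero => simp [ex]
  | succ n ih =>
    cases k with
    | zero => simp [ex, Ch]
    | succ k =>
      have hmeas : ∀ (g k d : ℕ) (a : ℕ → Bool) (q : Q),
          Measurable (fun y : Row => s ^ (g + ex M L W ch p n k d a q y)) := by
        intro g k d a q
        exact (measurable_from_top (f := fun m : ℕ => s ^ m)).comp
          (measurable_const.add (measurable_ex M L W ch p n k d a q))
      have h1 := lintegral_sym (α := α) hp0 hp1
        (FB := fun o y => s ^ ((M.oB (a 0) o q).2 +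
          ex M L W ch p n k (nd L d (a 1)) (sh a) (M.oB (a 0) o q).1 y))
        (FT := fun o h y => s ^ ((M.oT (a 0) o h q).2 +
          ex M L W ch p n (k + 1) d a (M.oT (a 0) o h q).1 y))
        (fun o => hmeas _ _ _ _ _) (fun o h => hmeas _ _ _ _ _)
      have h2 : ∀ x : Row, s ^ ex M L W ch p (n + 1) (k + 1) d a q x =
          (if x.1 0 = 0 then s ^ ((M.oB (a 0) (decide (x.2 (Sum.inl (0, 0)) < p)) q).2 +
            ex M L W ch p n k (nd L d (a 1)) (sh a)
              (M.oB (a 0) (decide (x.2 (Sum.inl (0, 0)) < p)) q).1 (sB x)) else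
            s ^ ((M.oT (a 0) (decide (x.2 (Sum.inl (0, 0)) < p))
              (decide (x.2 (Sum.inr 0) < p)) q).2 + ex M L W ch p n (k + 1) d a
              (M.oT (a 0) (decide (x.2 (Sum.inl (0, 0)) < p))
                (decide (x.2 (Sum.inr 0) < p)) q).1 (sT x))) := by
        intro x
        by_cases h : x.1 0 = 0
        · simp only [ex, symF, h, if_true, upO]
        · simp only [ex, symF, h, if_false, upO, hrO]
      simp_rw [h2]
      rw [h1]
      have hB : ∀ o, ∫⁻ y, s ^ ((M.oB (a 0) o q).2 +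
          ex M L W ch p n k (nd L d (a 1)) (sh a) (M.oB (a 0) o q).1 y) ∂rowLaw α ≤
          s ^ ((M.oB (a 0) o q).2 + W (M.oB (a 0) o q).1 (nd L d (a 1)) (a 2) (a 3)) *
            s ^ Ch L ch k (nd L d (a 1)) (sh a) := by
        intro o
        rw [lintegral_pow_add' _ _ _ (measurable_ex M L W ch p n k _ _ _), pow_add, mul_assoc,
          ← pow_add]
        refine mul_le_mul_right ?_ _
        exact ih k (nd L d (a 1)) (sh a) _ (hok.oB _ _ hq) (nd_lt hL _) (nd_eq hL _).symm
      have hT : ∀ o h, ∫⁻ y, s ^ ((M.oT (a 0) o h q).2 +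
          ex M L W ch p n (k + 1) d a (M.oT (a 0) o h q).1 y) ∂rowLaw α ≤
          s ^ ((M.oT (a 0) o h q).2 + W (M.oT (a 0) o h q).1 d (a 1) (a 2) +
            (if a 1 then ch d else 0)) * s ^ Ch L ch k (nd L d (a 1)) (sh a) := by
        intro o h
        have h3 := ih (k + 1) d a _ (hok.oT (a 0) o h hq) hd ha
        have h4 : W (M.oT (a 0) o h q).1 d (a 1) (a 2) + Ch L ch (k + 1) d a =
            W (M.oT (a 0) o h q).1 d (a 1) (a 2) + (if a 1 then ch d else 0) +
              Ch L ch k (nd L d (a 1)) (sh a) := by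
          simp only [Ch]; ring
        rw [h4] at h3
        rw [lintegral_pow_add' _ _ _ (measurable_ex M L W ch p n (k + 1) _ _ _)]
        refine (mul_le_mul_right h3 _).trans (le_of_eq ?_)
        rw [← pow_add, ← pow_add]
        congr 1
        ring
      have h6 : s ^ (W q d (a 1) (a 2) + Ch L ch (k + 1) d a) =
          s ^ (W q d (a 1) (a 2) + (if a 1 then ch d else 0)) *
            s ^ Ch L ch k (nd L d (a 1)) (sh a) := by
        rw [← pow_add]
        congr 1
        simp only [Ch]; ring
      rw [h6]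
      have h7 := hLI q hq d hd (a 1) (a 2) (a 3)
      rw [← ha] at h7
      refine le_trans ?_ (mul_le_mul_left h7 (s ^ Ch L ch k (nd L d (a 1)) (sh a)))
      refine (add_le_add (mul_le_mul_right (add_le_add (mul_le_mul_right (hB true) _)
        (mul_le_mul_right (hB false) _)) _) (mul_le_mul_right (add_le_add
        (mul_le_mul_right (add_le_add (mul_le_mul_right (hT true true) _)
          (mul_le_mul_right (hT true false) _)) _)
        (mul_le_mul_right (add_le_add (mul_le_mul_right (hT false true) _)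
          (mul_le_mul_right (hT false false) _)) _)) _)).trans (le_of_eq ?_)
      ring

lemma rS_sB (x : Row) (k : ℕ) : rS (sB x) k + x.1 0 = rS x (k + 1) := by
  unfold rS sB
  rw [Finset.sum_range_succ']

lemma rS_sT (x : Row) (k : ℕ) (h : x.1 0 ≠ 0) : rS (sT x) (k + 1) + 1 = rS x (k + 1) := by
  unfold rS sT
  rw [Finset.sum_range_succ', Finset.sum_range_succ']
  simp only [Nat.add_eq_zero_iff, one_ne_zero, and_false, if_false, if_true]
  omega

lemma ex_le_gn {M : Aut Q} {ok : Q → Prop} (hok : M.Closed ok) {L : ℕ}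
    {W : Q → ℕ → Bool → Bool → ℕ} {ch : ℕ → ℕ} {p : ℝ} {Wm : ℕ}
    (hW : ∀ q, ok q → ∀ d b c, W q d b c ≤ Wm) (n k d : ℕ) (a : ℕ → Bool) (q : Q)
    (hq : ok q) (x : Row) (hx : k + rS x k ≤ n) :
    ex M L W ch p n k d a q x ≤ gn M p n k a q x + Wm := by
  induction n generalizing k d a q x with
  | zero =>
    have hk : k = 0 := by omega
    subst hk
    simp only [ex, gn, Ch, zero_add, add_zero]
    exact hW q hq _ _ _
  | succ n ih =>
    cases k with
    | zero =>
      simp only [ex, gn, zero_add]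
      exact hW q hq _ _ _
    | succ k =>
      by_cases h : x.1 0 = 0
      · simp only [ex, gn, symF, h, if_true]
        have h1 := rS_sB x k
        have := ih k (nd L d (a 1)) (sh a) _ (hok.oB (a 0) (upO p x) hq) (sB x) (by omega)
        omega
      · simp only [ex, gn, symF, h, if_false]
        have h1 := rS_sT x k h
        have := ih (k + 1) d a _ (hok.oT (a 0) (upO p x) (hrO p x) hq) (sT x) (by omega)
        omega

end Pool.Agent.helper885_ct
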