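import Pool.Agent.helper885_ct.Aut

/-!
From integer certificates to one-row inequalities.
-/

set_option linter.unusedSectionVars false
set_option linter.unusedVariables false

namespace Pool.Agent.helper885_ct

open MeasureTheory Set Measure
open scoped ENNReal

/-- weighted sum of the six outcomes, denominators cleared -/
def wsum (a D P R n₁ n₂ n₃ n₄ n₅ n₆ : ℕ) : ℕ :=
  (D - a) * R * (P * n₁ + (R - P) * n₂) +
    a * (P * (P * n₃ + (R - P) * n₄) + (R - P) * (P * n₅ + (R - P) * n₆))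

/-- the certified inequality -/
def SixOK (a₀ a₁ D P R n₀ n₁ n₂ n₃ n₄ n₅ n₆ : ℕ) : Prop :=
  (D * R * R * n₀ < wsum a₀ D P R n₁ n₂ n₃ n₄ n₅ n₆ ∧
    D * R * R * n₀ < wsum a₁ D P R n₁ n₂ n₃ n₄ n₅ n₆) ∨
  (n₁ = n₀ ∧ n₂ = n₀ ∧ n₃ = n₀ ∧ n₄ = n₀ ∧ n₅ = n₀ ∧ n₆ = n₀)

lemma six_real {a₀ a₁ D P R n₀ n₁ n₂ n₃ n₄ n₅ n₆ : ℕ} (hD : 0 < D) (hR : 0 < R) (hPR : P ≤ R)
    (h1D : a₁ ≤ D) (h01 : a₀ ≤ a₁)
    {α y : ℝ} (hα0 : (a₀ : ℝ) / D ≤ α) (hα1 : α ≤ (a₁ : ℝ) / D) {Mx : ℕ}
    (m₁ : n₁ ≤ Mx) (m₂ : n₂ ≤ Mx) (m₃ : n₃ ≤ Mx) (m₄ : n₄ ≤ Mx) (m₅ : n₅ ≤ Mx) (m₆ : n₆ ≤ Mx)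
    (hy0 : 0 ≤ y) (hy1 : y ≤ 1) (hy : y * (Mx : ℝ) ^ 2 * (D * R * R) ≤ 2)
    (h : SixOK a₀ a₁ D P R n₀ n₁ n₂ n₃ n₄ n₅ n₆) :
    (1 - α) * ((P : ℝ) / R * (1 - y) ^ n₁ + (1 - (P : ℝ) / R) * (1 - y) ^ n₂) +
      α * ((P : ℝ) / R * ((P : ℝ) / R * (1 - y) ^ n₃ + (1 - (P : ℝ) / R) * (1 - y) ^ n₄) +
        (1 - (P : ℝ) / R) * ((P : ℝ) / R * (1 - y) ^ n₅ + (1 - (P : ℝ) / R) * (1 - y) ^ n₆)) ≤
      (1 - y) ^ n₀ := by
  have hD' : (0 : ℝ) < D := by exact_mod_cast hD
  have hR' : (0 : ℝ) < R := by exact_mod_cast hR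
  have hPR' : (P : ℝ) ≤ R := by exact_mod_cast hPR
  have hP0 : (0 : ℝ) ≤ P := Nat.cast_nonneg P
  set p : ℝ := (P : ℝ) / R with hp
  have hp0 : 0 ≤ p := div_nonneg hP0 hR'.le
  have hp1 : p ≤ 1 := (div_le_one hR').2 hPR'
  have hα0' : 0 ≤ α := le_trans (div_nonneg (Nat.cast_nonneg _) hD'.le) hα0
  have hα1' : α ≤ 1 := by
    refine hα1.trans ((div_le_one hD').2 ?_)
    exact_mod_cast h1D
  rcases h with ⟨h0, h1⟩ | ⟨e1, e2, e3, e4, e5, e6⟩
  · have hup : ∀ n : ℕ, n ≤ Mx → (1 - y) ^ n ≤ 1 - y * n + y ^ 2 / 2 * (Mx : ℝ) ^ 2 := by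
      intro n hn
      have h2 := pow_add_le hy0 hy1 n
      have h3 : (n : ℝ) ^ 2 ≤ (Mx : ℝ) ^ 2 := by
        have : (n : ℝ) ≤ Mx := by exact_mod_cast hn
        gcongr
      have h4 : y ^ 2 / 2 * (n : ℝ) ^ 2 ≤ y ^ 2 / 2 * (Mx : ℝ) ^ 2 := by gcongr
      linarith
    have hlo : 1 - y * n₀ ≤ (1 - y) ^ n₀ := by
      have := one_add_mul_le_pow (a := -y) (by linarith) n₀
      have e : (1 : ℝ) + -y = 1 - y := by ring
      rw [e] at this
      linarith
    -- the mean
    set E : ℝ → ℝ := fun β => (1 - β) * (p * n₁ + (1 - p) * n₂) +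
      β * (p * (p * n₃ + (1 - p) * n₄) + (1 - p) * (p * n₅ + (1 - p) * n₆)) with hE
    have hcast : ∀ a : ℕ, a ≤ D → D * R * R * n₀ < wsum a D P R n₁ n₂ n₃ n₄ n₅ n₆ →
        (n₀ : ℝ) + 1 / (D * R * R) ≤ E ((a : ℝ) / D) := by
      intro a ha h2
      have h3 : ((D * R * R * n₀ + 1 : ℕ) : ℝ) ≤ (wsum a D P R n₁ n₂ n₃ n₄ n₅ n₆ : ℕ) := by
        exact_mod_cast h2
      have h4 : ((wsum a D P R n₁ n₂ n₃ n₄ n₅ n₆ : ℕ) : ℝ) = D * R * R * E ((a : ℝ) / D) := by
        unfold wsum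
        rw [hE]
        push_cast [Nat.cast_sub ha, Nat.cast_sub hPR]
        rw [hp]
        field_simp
      rw [h4] at h3
      push_cast at h3
      have h5 : (0 : ℝ) < D * R * R := by positivity
      have h6 : (n₀ : ℝ) + 1 / (D * R * R) = (D * R * R * n₀ + 1) / (D * R * R) := by
        field_simp
      rw [h6, div_le_iff₀ h5]
      linarith
    have g0 := hcast a₀ (h01.trans h1D) h0
    have g1 := hcast a₁ h1D h1
    have hEα : (n₀ : ℝ) + 1 / (D * R * R) ≤ E α := by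
      rcases eq_or_lt_of_le (hα0.trans hα1) with heq | hlt
      · have : α = (a₀ : ℝ) / D := le_antisymm (by rw [heq]; exact hα1) hα0
        rw [this]; exact g0
      · set u := (a₀ : ℝ) / D with hu
        set v := (a₁ : ℝ) / D with hv
        have hvu : 0 < v - u := by linarith
        have key : (v - u) * E α = (v - α) * E u + (α - u) * E v := by
          rw [hE]; ring
        have h7 : (v - u) * ((n₀ : ℝ) + 1 / (D * R * R)) ≤ (v - u) * E α := by
          rw [key]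
          have e : (v - u) * ((n₀ : ℝ) + 1 / (D * R * R)) =
            (v - α) * ((n₀ : ℝ) + 1 / (D * R * R)) + (α - u) * ((n₀ : ℝ) + 1 / (D * R * R)) := by
            ring
          rw [e]
          exact add_le_add (mul_le_mul_of_nonneg_left g0 (by linarith))
            (mul_le_mul_of_nonneg_left g1 (by linarith))
        exact le_of_mul_le_mul_left h7 hvu
    have hy' : y / 2 * (Mx : ℝ) ^ 2 ≤ 1 / (D * R * R) := by
      have h5 : (0 : ℝ) < D * R * R := by positivity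
      rw [le_div_iff₀ h5]
      linarith
    set B : ℝ := y ^ 2 / 2 * (Mx : ℝ) ^ 2 with hB
    have hBy : B ≤ y * (1 / (D * R * R)) := by
      have : B = y * (y / 2 * (Mx : ℝ) ^ 2) := by rw [hB]; ring
      rw [this]
      exact mul_le_mul_of_nonneg_left hy' hy0
    have q0 : 0 ≤ 1 - p := by linarith
    have a0' : 0 ≤ 1 - α := by linarith
    calc _ ≤ (1 - α) * (p * (1 - y * n₁ + B) + (1 - p) * (1 - y * n₂ + B)) +
        α * (p * (p * (1 - y * n₃ + B) + (1 - p) * (1 - y * n₄ + B)) +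
        (1 - p) * (p * (1 - y * n₅ + B) + (1 - p) * (1 - y * n₆ + B))) := by
          have k1 := hup n₁ m₁
          have k2 := hup n₂ m₂
          have k3 := hup n₃ m₃
          have k4 := hup n₄ m₄
          have k5 := hup n₅ m₅
          have k6 := hup n₆ m₆
          gcongr
      _ = 1 - y * E α + B := by rw [hE]; ring
      _ ≤ 1 - y * n₀ := by nlinarith [mul_le_mul_of_nonneg_left hEα hy0]
      _ ≤ _ := hlo
  · rw [e1, e2, e3, e4, e5, e6]
    apply le_of_eq
    ring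

/-- the six outcomes -/
lemma locIneq_of_cert {Q : Type} {M : Aut Q} {ok : Q → Prop} {L : ℕ}
    {W : Q → ℕ → Bool → Bool → ℕ} {ch : ℕ → ℕ} {a₀ a₁ D P R : ℕ} (hD : 0 < D) (hR : 0 < R)
    (hPR : P ≤ R) (h1D : a₁ ≤ D) (h01 : a₀ ≤ a₁) {α y : ℝ} (hα0 : (a₀ : ℝ) / D ≤ α)
    (hα1 : α ≤ (a₁ : ℝ) / D) {Mx : ℕ}
    (hMB : ∀ q, ok q → ∀ a o d b c, (M.oB a o q).2 + W (M.oB a o q).1 d b c ≤ Mx)
    (hMT : ∀ q, ok q → ∀ (a o h : Bool) (d : ℕ) (b c e : Bool), d < L →
      (M.oT a o h q).2 + W (M.oT a o h q).1 d b c + (if e then ch d else 0) ≤ Mx)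
    (hy0 : 0 ≤ y) (hy1 : y ≤ 1) (hy : y * (Mx : ℝ) ^ 2 * (D * R * R) ≤ 2)
    (h : ∀ q, ok q → ∀ d < L, ∀ b₁ b₂ b₃ : Bool, SixOK a₀ a₁ D P R
      (W q d b₁ b₂ + (if b₁ then ch d else 0))
      ((M.oB (decide (d = 0)) true q).2 + W (M.oB (decide (d = 0)) true q).1 (nd L d b₁) b₂ b₃)
      ((M.oB (decide (d = 0)) false q).2 + W (M.oB (decide (d = 0)) false q).1 (nd L d b₁) b₂ b₃)
      ((M.oT (decide (d = 0)) true true q).2 +
        W (M.oT (decide (d = 0)) true true q).1 d b₁ b₂ + (if b₁ then ch d else 0))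
      ((M.oT (decide (d = 0)) true false q).2 +
        W (M.oT (decide (d = 0)) true false q).1 d b₁ b₂ + (if b₁ then ch d else 0))
      ((M.oT (decide (d = 0)) false true q).2 +
        W (M.oT (decide (d = 0)) false true q).1 d b₁ b₂ + (if b₁ then ch d else 0))
      ((M.oT (decide (d = 0)) false false q).2 +
        W (M.oT (decide (d = 0)) false false q).1 d b₁ b₂ + (if b₁ then ch d else 0))) :
    LocIneq M ok L W ch ((P : ℝ) / R) α (ENNReal.ofReal (1 - y)) := by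
  intro q hq d hd b₁ b₂ b₃
  have hD' : (0 : ℝ) < D := by exact_mod_cast hD
  have hR' : (0 : ℝ) < R := by exact_mod_cast hR
  have hPR' : (P : ℝ) ≤ R := by exact_mod_cast hPR
  have hp0 : (0 : ℝ) ≤ (P : ℝ) / R := div_nonneg (Nat.cast_nonneg P) hR'.le
  have hp1 : (P : ℝ) / R ≤ 1 := (div_le_one hR').2 hPR'
  have hα0' : 0 ≤ α := le_trans (div_nonneg (Nat.cast_nonneg _) hD'.le) hα0
  have hα1' : α ≤ 1 := by
    refine hα1.trans ((div_le_one hD').2 ?_)
    exact_mod_cast h1D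
  have key := six_real hD hR hPR h1D h01 hα0 hα1 (hMB q hq _ true _ _ _) (hMB q hq _ false _ _ _)
    (hMT q hq _ true true d b₁ b₂ b₁ hd) (hMT q hq _ true false d b₁ b₂ b₁ hd)
    (hMT q hq _ false true d b₁ b₂ b₁ hd) (hMT q hq _ false false d b₁ b₂ b₁ hd) hy0 hy1 hy
    (h q hq d hd b₁ b₂ b₃)
  set p : ℝ := (P : ℝ) / R with hp
  have q0 : 0 ≤ 1 - p := by linarith
  have a0' : 0 ≤ 1 - α := by linarith
  have y0 : 0 ≤ 1 - y := by linarith
  have hpw : ∀ n : ℕ, (0 : ℝ) ≤ (1 - y) ^ n := fun n => pow_nonneg y0 n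
  have two : ∀ {a b u v : ℝ}, 0 ≤ a → 0 ≤ b → 0 ≤ u → 0 ≤ v →
      ENNReal.ofReal a * ENNReal.ofReal u + ENNReal.ofReal b * ENNReal.ofReal v =
        ENNReal.ofReal (a * u + b * v) := by
    intro a b u v ha hb hu hv
    rw [ENNReal.ofReal_add (mul_nonneg ha hu) (mul_nonneg hb hv), ENNReal.ofReal_mul ha,
      ENNReal.ofReal_mul hb]
  have tn : ∀ {u v : ℝ}, 0 ≤ u → 0 ≤ v → 0 ≤ p * u + (1 - p) * v := fun hu hv =>
    add_nonneg (mul_nonneg hp0 hu) (mul_nonneg q0 hv)
  simp only [← ENNReal.ofReal_pow y0]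
  rw [two hp0 q0 (hpw _) (hpw _), two hp0 q0 (hpw _) (hpw _), two hp0 q0 (hpw _) (hpw _),
    two hp0 q0 (tn (hpw _) (hpw _)) (tn (hpw _) (hpw _)),
    two a0' hα0' (tn (hpw _) (hpw _)) (tn (tn (hpw _) (hpw _)) (tn (hpw _) (hpw _)))]
  exact ENNReal.ofReal_le_ofReal key

/-- the pattern of a set -/
def pat (A : Finset ℕ) : ℕ → Bool := fun i => decide (i ∈ A)

lemma Ch_ge {L : ℕ} (hL : 2 ≤ L) {ω ch : ℕ → ℕ} (hch : ∀ d < L, ph L ω (d + 1) + 1 ≤ ch d)
    (A : Finset ℕ) (k z d : ℕ) (hd : d < L) (hmem : d < L - 1 → d ≤ z ∧ z - d ∈ A)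
    (hA : ∀ j ∈ A, j < z + k) :
    VV L ω A + A.card ≤ VV L ω (A.filter (· ≤ z)) + (A.filter (· ≤ z)).card +
      Ch L ch k d (fun i => decide (z + i ∈ A)) := by
  induction k generalizing z d with
  | zero =>
    have : A.filter (· ≤ z) = A := Finset.filter_true_of_mem fun j hj => by
      have := hA j hj
      omega
    rw [this]
    simp [Ch]
  | succ k ih =>
    have hsh : (sh fun i => decide (z + i ∈ A)) = fun i => decide (z + 1 + i ∈ A) := by
      funext i
      simp only [sh]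
      have : z + (i + 1) = z + 1 + i := by omega
      rw [this]
    simp only [Ch]
    rw [hsh]
    have hA' : ∀ j ∈ A, j < z + 1 + k := fun j hj => by
      have := hA j hj
      omega
    by_cases h : z + 1 ∈ A
    · have hdec : decide (z + 1 ∈ A) = true := decide_eq_true h
      simp only [hdec]
      have hnd : nd L d true = 0 := rfl
      have h1 := ih (z + 1) 0 (by omega) (fun _ => ⟨by omega, by simpa using h⟩) hA'
      have h2 : A.filter (· ≤ z + 1) = insert (z + 1) (A.filter (· ≤ z)) := by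
        ext j
        simp only [Finset.mem_filter, Finset.mem_insert]
        constructor
        · rintro ⟨h3, h4⟩
          by_cases h5 : j ≤ z
          · exact Or.inr ⟨h3, h5⟩
          · left; omega
        · rintro (h3 | ⟨h3, h4⟩)
          · rw [h3]; exact ⟨h, le_rfl⟩
          · exact ⟨h3, by omega⟩
      rw [h2] at h1
      have h3 : VV L ω (insert (z + 1) (A.filter (· ≤ z))) ≤
          VV L ω (A.filter (· ≤ z)) + ph L ω (d + 1) := by
        by_cases h4 : d < L - 1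
        · obtain ⟨h5, h6⟩ := hmem h4
          have h7 := VV_insert_le' L ω (j := z + 1) (a := z - d) (A := A.filter (· ≤ z))
            (Finset.mem_filter.2 ⟨h6, by omega⟩) (by omega)
          have h8 : z + 1 - (z - d) = d + 1 := by omega
          rw [h8] at h7
          exact h7
        · have h5 : d + 1 = L := by omega
          rw [h5]
          exact VV_insert_le L ω _ _
      have h4 : (insert (z + 1) (A.filter (· ≤ z))).card ≤ (A.filter (· ≤ z)).card + 1 :=
        Finset.card_insert_le _ _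
      have h5 := hch d hd
      rw [hnd]
      simp only [if_true]
      omega
    · have hdec : decide (z + 1 ∈ A) = false := decide_eq_false h
      simp only [hdec]
      have hnd : nd L d false = min (d + 1) (L - 1) := rfl
      have h1 := ih (z + 1) (min (d + 1) (L - 1)) (by omega) (fun h3 => by
        have h4 : d < L - 1 := by omega
        obtain ⟨h5, h6⟩ := hmem h4
        have h7 : min (d + 1) (L - 1) = d + 1 := by omega
        rw [h7]
        refine ⟨by omega, ?_⟩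
        have h8 : z + 1 - (d + 1) = z - d := by omega
        rw [h8]; exact h6) hA'
      have h2 : A.filter (· ≤ z + 1) = A.filter (· ≤ z) := by
        ext j
        simp only [Finset.mem_filter]
        constructor
        · rintro ⟨h3, h4⟩
          refine ⟨h3, ?_⟩
          by_contra h5
          have : j = z + 1 := by omega
          rw [this] at h3
          exact h h3
        · rintro ⟨h3, h4⟩
          exact ⟨h3, by omega⟩
      rw [h2] at h1
      rw [hnd]
      simp only [Bool.false_eq_true, if_false]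
      omega

lemma lintegral_le_of_ind {Ω : Type*} [MeasurableSpace Ω] (μ : Measure Ω) {f : Ω → ℝ≥0∞}
    (hf : Measurable f) {r : Ω → ℕ} (hr : Measurable r) {C : ℝ≥0∞}
    (h : ∀ n, ∫⁻ x, {x | r x ≤ n}.indicator f x ∂μ ≤ C) : ∫⁻ x, f x ∂μ ≤ C := by
  have h1 : ∀ x, f x = ⨆ n, {x | r x ≤ n}.indicator f x := by
    intro x
    refine le_antisymm ?_ (iSup_le fun n => Set.indicator_le_self _ _ x)
    refine le_iSup_of_le (r x) ?_
    have : x ∈ {y | r y ≤ r x} := le_refl (r x)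
    rw [Set.indicator_of_mem this]
  simp_rw [h1]
  rw [lintegral_iSup]
  · exact iSup_le h
  · intro n
    exact hf.indicator (ms1 hr (fun m => m ≤ n))
  · intro n m hnm x
    simp only
    exact Set.indicator_le_indicator_of_subset (fun y hy => le_trans hy hnm) (fun _ => bot_le) x

variable {α : ℝ} [hα : Fact (0 < α ∧ α < 1)]

/-- one-row growth of the gap functional -/
theorem step_bound {Q : Type} {M : Aut Q} {ok : Q → Prop} (hok : M.Closed ok) {L : ℕ}
    (hL : 2 ≤ L) {ω : ℕ → ℕ} {W : Q → ℕ → Bool → Bool → ℕ} {ch : ℕ → ℕ}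
    (hch : ∀ d < L, ph L ω (d + 1) + 1 ≤ ch d) {Wm K : ℕ}
    (hW : ∀ q, ok q → ∀ d b c, W q d b c ≤ Wm) {p : ℝ} (hp0 : 0 ≤ p) (hp1 : p ≤ 1)
    {s : ℝ≥0∞} (hs0 : s ≠ 0) (hs1 : s ≤ 1) (hLI : LocIneq M ok L W ch p α s)
    {q₀ : Q} (hq₀ : ok q₀) {T : Row → St → St} (hT : Good T) (st : St)
    (hst : ∀ j ∈ st.A, j < st.k)
    (hcorr : ∀ x n, gn M p n st.k (pat st.A) q₀ x ≤ VV L ω (T x st).A + K)
    (hcard : K + Wm + ph L ω L + 1 ≤ st.A.card) :
    ∫⁻ x, s ^ VV L ω (T x st).A ∂rowLaw α ≤ s ^ VV L ω st.A := by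
  set d₀ : ℕ := if 0 ∈ st.A then 0 else L - 1 with hd₀
  have hd₀L : d₀ < L := by rw [hd₀]; split_ifs <;> omega
  have hpat : pat st.A 0 = decide (d₀ = 0) := by
    rw [hd₀]
    by_cases h : 0 ∈ st.A
    · simp [pat, h]
    · have : L - 1 ≠ 0 := by omega
      simp [pat, h, this]
  have hV : Measurable fun x => VV L ω (T x st).A :=
    (measurable_from_top (f := fun s' : St => VV L ω s'.A)).comp (hT.meas st)
  have hpow : ∀ {f : Row → ℕ}, Measurable f → Measurable fun x => s ^ f x := fun hf =>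
    (measurable_from_top (f := fun m : ℕ => s ^ m)).comp hf
  have hne : s ≠ ⊤ := ne_top_of_le_ne_top ENNReal.one_ne_top hs1
  -- the charges
  have hCh : VV L ω st.A + (K + Wm) ≤ Ch L ch st.k d₀ (pat st.A) := by
    have h1 := Ch_ge hL hch st.A st.k 0 d₀ hd₀L (by
      intro h
      rw [hd₀] at h ⊢
      by_cases h2 : 0 ∈ st.A
      · simp [h2]
      · rw [if_neg h2] at h
        exact absurd h (lt_irrefl _)) (by simpa using hst)
    have h2 : (fun i => decide (0 + i ∈ st.A)) = pat st.A := by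
      funext i
      simp [pat]
    rw [h2] at h1
    have h3 : st.A.filter (· ≤ 0) ⊆ {0} := by
      intro j hj
      simp only [Finset.mem_filter] at hj
      simp only [Finset.mem_singleton]
      omega
    have h4 : VV L ω (st.A.filter (· ≤ 0)) ≤ ph L ω L := by
      refine (VV_mono L ω h3).trans ?_
      have := VV_le_card L ω {0}
      simpa using this
    have h5 : (st.A.filter (· ≤ 0)).card ≤ 1 := by
      have := Finset.card_le_card h3
      simpa using this
    omega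
  -- the supermartingale
  have hsm : ∀ n, ∫⁻ x, {x : Row | st.k + rS x st.k ≤ n}.indicator
      (fun x => s ^ (K + Wm + VV L ω (T x st).A)) x ∂rowLaw α ≤
        s ^ (K + Wm + VV L ω st.A) := by
    intro n
    calc _ ≤ ∫⁻ x, s ^ ex M L W ch p n st.k d₀ (pat st.A) q₀ x ∂rowLaw α := by
          refine lintegral_mono fun x => ?_
          by_cases hx : x ∈ {x : Row | st.k + rS x st.k ≤ n}
          · rw [Set.indicator_of_mem hx]
            refine pow_le_pow_right_of_le_one' hs1 ?_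
            have h1 := ex_le_gn (L := L) (ch := ch) (p := p) hok hW n st.k d₀ (pat st.A) q₀ hq₀ x hx
            have h2 := hcorr x n
            omega
          · rw [Set.indicator_of_notMem hx]
            exact bot_le
      _ ≤ s ^ (W q₀ d₀ (pat st.A 1) (pat st.A 2) + Ch L ch st.k d₀ (pat st.A)) :=
          lintegral_ex_le hok hL hp0 hp1 hLI n st.k d₀ (pat st.A) q₀ hq₀ hd₀L hpat
      _ ≤ _ := pow_le_pow_right_of_le_one' hs1 (by omega)
  have h6 : ∫⁻ x, s ^ (K + Wm + VV L ω (T x st).A) ∂rowLaw α ≤ s ^ (K + Wm + VV L ω st.A) :=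
    lintegral_le_of_ind (rowLaw α) (hpow (measurable_const.add hV))
      (r := fun x : Row => st.k + rS x st.k) (measurable_const.add (measurable_rS st.k)) hsm
  rw [lintegral_pow_add' _ _ _ hV, pow_add s (K + Wm) (VV L ω st.A)] at h6
  exact (ENNReal.mul_le_mul_iff_right (pow_ne_zero _ hs0) (ENNReal.pow_ne_top hne)).1 h6

/-- survival from growth of the gap functional -/
lemma deadV {T : Row → St → St} (hT : Good T) (Inv : St → Prop)
    (hinv : ∀ x s, Inv s → Inv (T x s)) {V : Finset ℕ → ℕ} (hV0 : V ∅ = 0) {s : ℝ≥0∞}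
    (hs1 : s ≤ 1) {N : ℕ}
    (h : ∀ st : St, Inv st → N ≤ V st.A → ∫⁻ x, s ^ V (T x st).A ∂rowLaw α ≤ s ^ V st.A)
    (n : ℕ) (st : St) (hst : Inv st) :
    cfgLaw α {ω | ¬ (run T n ω st).A.Nonempty} * s ^ N ≤ s ^ V st.A := by
  induction n generalizing st with
  | zero =>
    by_cases h0 : st.A.Nonempty
    · have : {ω : Cfg | ¬ (run T 0 ω st).A.Nonempty} = ∅ := by
        ext ω
        simp only [run_zero, mem_ofPred_eq, mem_empty_iff_false, iff_false, not_not]
        exact h0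
      rw [this, measure_empty, zero_mul]
      exact bot_le
    · rw [Finset.not_nonempty_iff_eq_empty.1 h0, hV0, pow_zero]
      exact mul_le_one' prob_le_one (pow_le_one' hs1 N)
  | succ n ih =>
    by_cases hN : N ≤ V st.A
    · rw [measure_dead_succ hT]
      have hmeas : Measurable (fun x : Row =>
          cfgLaw α {ω | ¬ (run T n ω (T x st)).A.Nonempty}) :=
        (measurable_from_top (f := fun s' : St =>
          cfgLaw α {ω | ¬ (run T n ω s').A.Nonempty})).comp (hT.meas st)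
      rw [← lintegral_mul_const _ hmeas]
      exact (lintegral_mono fun x => ih (T x st) (hinv x st hst)).trans (h st hst hN)
    · have h1 : s ^ N ≤ s ^ V st.A := pow_le_pow_right_of_le_one' hs1 (by omega)
      refine le_trans ?_ h1
      calc _ ≤ 1 * s ^ N := by
            gcongr
            exact prob_le_one
        _ = s ^ N := one_mul _

lemma UiV {T : Row → St → St} (hT : Good T) (Inv : St → Prop)
    (hinv : ∀ x s, Inv s → Inv (T x s)) {V : Finset ℕ → ℕ} (hV0 : V ∅ = 0) {s : ℝ≥0∞}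
    (hs1 : s ≤ 1) (hs0 : s ≠ 0) {N : ℕ}
    (h : ∀ st : St, Inv st → N ≤ V st.A → ∫⁻ x, s ^ V (T x st).A ∂rowLaw α ≤ s ^ V st.A)
    (st : St) (hst : Inv st) {j : ℕ} (hj : N + j ≤ V st.A) :
    cfgLaw α {ω | ∀ n, (run T n ω st).A.Nonempty}ᶜ ≤ s ^ j := by
  have h1 : {ω | ∀ n, (run T n ω st).A.Nonempty}ᶜ = ⋃ n, {ω | ¬ (run T n ω st).A.Nonempty} := by
    ext ω
    simp
  have hmono : Monotone fun n => {ω | ¬ (run T n ω st).A.Nonempty} := by
    intro n m hnm ω hω
    exact fun h => hω (alive_mono hT hnm ω _ h)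
  rw [h1, hmono.measure_iUnion]
  refine iSup_le fun n => ?_
  have h2 := deadV hT Inv hinv hV0 hs1 h n st hst
  have h3 : s ^ V st.A ≤ s ^ (N + j) := pow_le_pow_right_of_le_one' hs1 hj
  have h4 := h2.trans h3
  rw [pow_add, mul_comm] at h4
  have hne : s ^ N ≠ 0 := pow_ne_zero _ hs0
  have hne' : s ^ N ≠ ⊤ := ENNReal.pow_ne_top (ne_top_of_le_ne_top ENNReal.one_ne_top hs1)
  exact (ENNReal.mul_le_mul_iff_right hne hne').1 h4

end Pool.Agent.helper885_ct
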