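import Pool.Agent.helper885_ct.UL

/-!
A surviving chain almost surely meets a vertex from which percolation survives.
-/

set_option linter.unusedSectionVars false
set_option linter.unusedVariables false

namespace Pool.Agent.helper885_ct

open MeasureTheory Set Measure
open scoped ENNReal

lemma measurable_iter_tail (n : ℕ) : Measurable (tail^[n]) := measurable_tail.iterate n

/-- the chain `T'` from `s` survives, but percolation at `p` dies out from each vertex it meets -/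
def Bad (T' : Row → St → St) (p : ℝ) (s : St) : Set Cfg :=
  {ω | (∀ n, (run T' n ω s).A.Nonempty) ∧ ∀ n, ∀ w ∈ (run T' n ω s).A,
    ¬ ∀ m, (run (nxt p) m (tail^[n] ω) ⟨(run T' n ω s).k, {w}⟩).A.Nonempty}

lemma ms_Bad {T' : Row → St → St} (hT' : Good T') (p : ℝ) (s : St) :
    MeasurableSet (Bad T' p s) := by
  have h1 := ms_aliveAll hT' s
  have h2 : ∀ n, MeasurableSet {ω | ∀ w ∈ (run T' n ω s).A,
      ¬ ∀ m, (run (nxt p) m (tail^[n] ω) ⟨(run T' n ω s).k, {w}⟩).A.Nonempty} := by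
    intro n
    have h3 : MeasurableSet {q : St × Cfg | ∀ w ∈ q.1.A,
        ¬ ∀ m, (run (nxt p) m q.2 ⟨q.1.k, {w}⟩).A.Nonempty} := by
      have h4 : {q : St × Cfg | ∀ w ∈ q.1.A,
          ¬ ∀ m, (run (nxt p) m q.2 ⟨q.1.k, {w}⟩).A.Nonempty} =
          ⋃ s' : St, ({s'} : Set St) ×ˢ {ω' : Cfg | ∀ w ∈ s'.A,
            ¬ ∀ m, (run (nxt p) m ω' ⟨s'.k, {w}⟩).A.Nonempty} := by
        ext ⟨a, b⟩
        simp
      rw [h4]
      refine MeasurableSet.iUnion fun s' => (MeasurableSet.singleton s').prod ?_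
      have h5 : {ω' : Cfg | ∀ w ∈ s'.A, ¬ ∀ m, (run (nxt p) m ω' ⟨s'.k, {w}⟩).A.Nonempty} =
          ⋂ w ∈ s'.A, {ω' : Cfg | ∀ m, (run (nxt p) m ω' ⟨s'.k, {w}⟩).A.Nonempty}ᶜ := by
        ext ω'
        simp
      rw [h5]
      exact MeasurableSet.biInter (Set.to_countable _) fun w _ =>
        (ms_aliveAll (good_nxt p) _).compl
    exact ((measurable_run hT' n s).prodMk (measurable_iter_tail n)) h3
  have h6 : Bad T' p s = {ω | ∀ n, (run T' n ω s).A.Nonempty} ∩
      ⋂ n, {ω | ∀ w ∈ (run T' n ω s).A,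
        ¬ ∀ m, (run (nxt p) m (tail^[n] ω) ⟨(run T' n ω s).k, {w}⟩).A.Nonempty} := by
    ext ω
    simp [Bad]
  rw [h6]
  exact h1.inter (MeasurableSet.iInter h2)

lemma Bad_cons {T' : Row → St → St} {p : ℝ} {s : St} {x : Row} {ω : Cfg}
    (h : cons x ω ∈ Bad T' p s) : ω ∈ Bad T' p (T' x s) := by
  obtain ⟨h1, h2⟩ := h
  refine ⟨fun n => by simpa using h1 (n + 1), fun n w hw => ?_⟩
  have := h2 (n + 1) w (by simpa using hw)
  simpa using this

variable {α : ℝ} [hα : Fact (0 < α ∧ α < 1)]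

/-- the set where the chain is dead after `n` rows -/
lemma measure_dead_succ {T : Row → St → St} (hT : Good T) (n : ℕ) (t : St) :
    cfgLaw α {ω | ¬ (run T (n + 1) ω t).A.Nonempty} =
      ∫⁻ x, cfgLaw α {ω | ¬ (run T n ω (T x t)).A.Nonempty} ∂rowLaw α := by
  have hm : MeasurableSet {ω | ¬ (run T (n + 1) ω t).A.Nonempty} := (ms_alive hT (n + 1) t).compl
  rw [measure_cons hm]
  simp only [mem_ofPred_eq, run_succ_cons]

lemma bad_dead_le {T' : Row → St → St} (hT' : Good T')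
    (hval : ∀ x s, ∀ j ∈ (T' x s).A, j < (T' x s).k) (p : ℝ) {e : ℝ≥0∞}
    (he : ∀ s : St, (∀ j ∈ s.A, j < s.k) → cfgLaw α (Bad T' p s) ≤ e) (n : ℕ) (s t : St)
    (hs : ∀ j ∈ s.A, j < s.k) :
    cfgLaw α (Bad T' p s ∩ {ω | ¬ (run (nxt p) n ω t).A.Nonempty}) ≤
      e * cfgLaw α {ω | ¬ (run (nxt p) n ω t).A.Nonempty} := by
  induction n generalizing s t with
  | zero =>
    by_cases h : t.A.Nonempty
    · have : {ω : Cfg | ¬ (run (nxt p) 0 ω t).A.Nonempty} = ∅ := by
        ext ω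
        simp only [run_zero, mem_ofPred_eq, mem_empty_iff_false, iff_false, not_not]
        exact h
      rw [this]
      simp
    · have : {ω : Cfg | ¬ (run (nxt p) 0 ω t).A.Nonempty} = univ := by
        ext ω; simpa using h
      rw [this, inter_univ, measure_univ, mul_one]
      exact he s hs
  | succ n ih =>
    have hm : MeasurableSet (Bad T' p s ∩ {ω | ¬ (run (nxt p) (n + 1) ω t).A.Nonempty}) :=
      (ms_Bad hT' p s).inter (ms_alive (good_nxt p) (n + 1) t).compl
    rw [measure_cons hm, measure_dead_succ (good_nxt p)]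
    have hmeas : Measurable (fun x : Row =>
        cfgLaw α {ω | ¬ (run (nxt p) n ω (nxt p x t)).A.Nonempty}) :=
      measurable_F_nxt p t (fun s => cfgLaw α {ω | ¬ (run (nxt p) n ω s).A.Nonempty})
    rw [← lintegral_const_mul _ hmeas]
    refine lintegral_mono fun x => ?_
    refine le_trans (measure_mono ?_) (ih (T' x s) (nxt p x t) (hval x s))
    rintro ω ⟨h1, h2⟩
    refine ⟨Bad_cons h1, ?_⟩
    simpa using h2

/-- if percolation at `p` survives from each vertex with probability at least `c > 0`, then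
the bad sets are null -/
lemma no_bad {T' : Row → St → St} (hT' : Good T')
    (hval : ∀ x s, ∀ j ∈ (T' x s).A, j < (T' x s).k) {p : ℝ} {c : ℝ≥0∞} (hc : c ≠ 0)
    (hU : ∀ k i, i < k → c ≤ Ui α (nxt p) ⟨k, {i}⟩) (s : St) (hs : ∀ j ∈ s.A, j < s.k) :
    cfgLaw α (Bad T' p s) = 0 := by
  have hc1 : c ≤ 1 := (hU 1 0 one_pos).trans (Ui_le_one _)
  set e : ℝ≥0∞ := ⨆ s : {s : St // ∀ j ∈ s.A, j < s.k}, cfgLaw α (Bad T' p s.1) with he
  have he0 : ∀ s : St, (∀ j ∈ s.A, j < s.k) → cfgLaw α (Bad T' p s) ≤ e := fun s hs =>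
    le_iSup (fun s : {s : St // ∀ j ∈ s.A, j < s.k} => cfgLaw α (Bad T' p s.1)) ⟨s, hs⟩
  have he1 : e ≤ 1 := iSup_le fun s => prob_le_one
  have key : ∀ s : St, (∀ j ∈ s.A, j < s.k) → cfgLaw α (Bad T' p s) ≤ e * (1 - c) := by
    intro s hs
    by_cases hne : s.A.Nonempty
    · obtain ⟨w, hw⟩ := hne
      have hmono : Monotone fun n => Bad T' p s ∩
          {ω | ¬ (run (nxt p) n ω ⟨s.k, {w}⟩).A.Nonempty} := by
        intro n m hnm ω hω
        exact ⟨hω.1, fun h => hω.2 (alive_mono (good_nxt p) hnm ω _ h)⟩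
      have hun : Bad T' p s = ⋃ n, (Bad T' p s ∩
          {ω | ¬ (run (nxt p) n ω ⟨s.k, {w}⟩).A.Nonempty}) := by
        ext ω
        simp only [mem_iUnion, mem_inter_iff, mem_ofPred_eq]
        constructor
        · intro h
          have := h.2 0 w hw
          simp only [run_zero, Function.iterate_zero, id, not_forall] at this
          obtain ⟨m, hm⟩ := this
          exact ⟨m, h, hm⟩
        · rintro ⟨n, h, _⟩
          exact h
      rw [hun, hmono.measure_iUnion]
      refine iSup_le fun n => (bad_dead_le hT' hval p he0 n s ⟨s.k, {w}⟩ hs).trans ?_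
      gcongr
      have h1 : {ω : Cfg | ¬ (run (nxt p) n ω ⟨s.k, {w}⟩).A.Nonempty} =
          {ω : Cfg | (run (nxt p) n ω ⟨s.k, {w}⟩).A.Nonempty}ᶜ := rfl
      rw [h1, prob_compl_eq_one_sub (ms_alive (good_nxt p) n _)]
      exact tsub_le_tsub_left ((hU s.k w (hs w hw)).trans (Ui_le_Un n _)) 1
    · have : Bad T' p s = ∅ := by
        ext ω
        simp only [mem_empty_iff_false, iff_false]
        intro h
        exact hne (h.1 0)
      rw [this, measure_empty]
      exact bot_le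
  have h2 : e ≤ e * (1 - c) := iSup_le fun s => key s.1 s.2
  have h3 : e = 0 := by
    by_contra h0
    have hlt : (1 - c : ℝ≥0∞) < 1 := ENNReal.sub_lt_self (by simp) (by simp) hc
    have h4 : e * (1 - c) < e * 1 :=
      (ENNReal.mul_lt_mul_iff_right h0 (ne_top_of_le_ne_top ENNReal.one_ne_top he1)).2 hlt
    rw [mul_one] at h4
    exact absurd (lt_of_le_of_lt h2 h4) (lt_irrefl _)
  exact le_antisymm ((he0 s hs).trans h3.le) bot_le

lemma tail_measurePreserving : MeasurePreserving tail (cfgLaw α) (cfgLaw α) := by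
  refine ⟨measurable_tail, ?_⟩
  ext E hE
  rw [Measure.map_apply measurable_tail hE, measure_cons (measurable_tail hE)]
  simp

lemma iter_tail_measurePreserving (n : ℕ) :
    MeasurePreserving (tail^[n]) (cfgLaw α) (cfgLaw α) :=
  tail_measurePreserving.iterate n

/-- almost surely no shifted bad event occurs -/
lemma ae_no_bad {T' : Row → St → St} (hT' : Good T')
    (hval : ∀ x s, ∀ j ∈ (T' x s).A, j < (T' x s).k) {p : ℝ} {c : ℝ≥0∞} (hc : c ≠ 0)
    (hU : ∀ k i, i < k → c ≤ Ui α (nxt p) ⟨k, {i}⟩) :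
    ∀ᵐ ω ∂cfgLaw α, ∀ r : ℕ, ∀ s : St, (∀ j ∈ s.A, j < s.k) → tail^[r] ω ∉ Bad T' p s := by
  rw [ae_all_iff]
  intro r
  rw [ae_all_iff]
  intro s
  by_cases hs : ∀ j ∈ s.A, j < s.k
  · have h1 : cfgLaw α (tail^[r] ⁻¹' Bad T' p s) = 0 := by
      rw [(iter_tail_measurePreserving r).measure_preimage (ms_Bad hT' p s).nullMeasurableSet]
      exact no_bad hT' hval hc hU s hs
    have h2 : ∀ᵐ ω ∂cfgLaw α, ω ∉ tail^[r] ⁻¹' Bad T' p s := measure_eq_zero_iff_ae_notMem.1 h1
    filter_upwards [h2] with ω hω _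
    exact hω
  · exact Filter.Eventually.of_forall fun ω h => absurd h hs

end Pool.Agent.helper885_ct
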