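import Pool.Agent.helper885_ct.Meas

/-!
Product formulas.
-/

set_option linter.unusedSectionVars false

namespace Pool.Agent.helper885_ct

open MeasureTheory Set Measure
open scoped ENNReal

section prodformula

variable {ι X : Type*} [MeasurableSpace X] (μ : Measure X) [IsProbabilityMeasure μ]

/-- integral of a product of functions of distinct coordinates -/
lemma lintegral_prod_coord (s : Finset ι) (g : ι → X → ℝ≥0∞) (hg : ∀ i, Measurable (g i)) :
    ∫⁻ f, ∏ i ∈ s, g i (f i) ∂(infinitePi fun _ : ι => μ) = ∏ i ∈ s, ∫⁻ y, g i y ∂μ := by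
  have h1 : ProbabilityTheory.iIndepFun (fun (i : ι) (f : ι → X) => g i (f i))
      (infinitePi fun _ : ι => μ) :=
    ProbabilityTheory.iIndepFun_infinitePi (P := fun _ => μ) (X := g) hg
  rw [ProbabilityTheory.lintegral_prod_eq_prod_lintegral_of_indepFun s
    (fun (i : ι) (f : ι → X) => g i (f i)) h1
    (fun i => (hg i).comp (measurable_pi_apply i))]
  refine Finset.prod_congr rfl fun i _ => ?_
  have h2 := (measurePreserving_eval_infinitePi (fun _ : ι => μ) i)
  exact h2.lintegral_comp (hg i)

/-- all labels of a finite set lie in a given set -/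
lemma measure_all_coord (s : Finset ι) (B : Set X) (hB : MeasurableSet B) :
    (infinitePi fun _ : ι => μ) {f | ∀ i ∈ s, f i ∈ B} = μ B ^ s.card := by
  have := infinitePi_pi (fun _ : ι => μ) (s := s) (t := fun _ => B) (fun _ _ => hB)
  rw [Finset.prod_const] at this
  rw [← this]
  rfl

end prodformula

variable {α : ℝ} [hα : Fact (0 < α ∧ α < 1)]

lemma lintegral_geomLaw (f : ℕ → ℝ≥0∞) :
    ∫⁻ n, f n ∂geomLaw α = ∑' k, ENNReal.ofReal (α ^ k * (1 - α)) * f k := by
  unfold geomLaw
  rw [lintegral_sum_measure]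
  refine tsum_congr fun k => ?_
  rw [lintegral_smul_measure, lintegral_dirac, smul_eq_mul]

lemma lintegral_geomLaw_pow {l : ℝ} (h0 : 0 ≤ l) (h1 : l ≤ 1) :
    ∫⁻ n, ENNReal.ofReal l ^ n ∂geomLaw α = ENNReal.ofReal ((1 - α) / (1 - α * l)) := by
  have hα0 := hα.out.1
  have hα1 := hα.out.2
  have hal : α * l < 1 := by nlinarith
  have hal0 : 0 ≤ α * l := by positivity
  rw [lintegral_geomLaw]
  have : ∀ k : ℕ, ENNReal.ofReal (α ^ k * (1 - α)) * ENNReal.ofReal l ^ k =
      ENNReal.ofReal ((α * l) ^ k * (1 - α)) := by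
    intro k
    rw [← ENNReal.ofReal_pow h0, ← ENNReal.ofReal_mul]
    · congr 1; ring
    · have : 0 ≤ 1 - α := by linarith
      positivity
  simp_rw [this]
  rw [← ENNReal.ofReal_tsum_of_nonneg]
  · rw [tsum_mul_right, tsum_geometric_of_lt_one hal0 hal]
    congr 1
    field_simp
  · intro n
    have : 0 ≤ 1 - α := by linarith
    positivity
  · exact (summable_geometric_of_lt_one hal0 hal).mul_right _

end Pool.Agent.helper885_ct
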