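import Mathlib

/-!
Supercritical causal triangulations with percolation: the model.
-/

namespace Pool.Agent.helper885_ct

open MeasureTheory Set
open scoped ENNReal

/-- Names of the edges of the triangulation. `Sum.inl (r, i, k)` is the `k`-th upward edge
(counted from the left) of the `i`-th vertex of level `r`; `Sum.inr (r, i)` is the horizontal edge
of level `r + 1` from its `i`-th vertex to the next one. -/
abbrev Edge := (ℕ × ℕ × ℕ) ⊕ (ℕ × ℕ)

/-- A configuration: the offspring numbers `ω.1 (r, i)` of all potential tree vertices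
and the labels `ω.2 e` of all potential edges. -/
abbrev Cfg := (ℕ × ℕ → ℕ) × (Edge → ℝ)

/-- The geometric offspring law `μ_α(k) = α ^ k * (1 - α)`. -/
noncomputable def geomLaw (α : ℝ) : Measure ℕ :=
  Measure.sum fun k : ℕ => ENNReal.ofReal (α ^ k * (1 - α)) • Measure.dirac k

/-- The uniform law on `[0,1]`. -/
noncomputable def unifLaw : Measure ℝ := volume.restrict (Icc 0 1)

/-- Offspring numbers are i.i.d. with law `μ_α`; labels are i.i.d. uniform on `[0,1]`
and independent of the offspring numbers. -/
noncomputable def cfgLaw (α : ℝ) : Measure Cfg :=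
  (Measure.infinitePi fun _ : ℕ × ℕ => geomLaw α).prod
    (Measure.infinitePi fun _ : Edge => unifLaw)

/-- The number of vertices of level `r` of the plane tree. -/
def Z (ω : Cfg) : ℕ → ℕ
  | 0 => 1
  | r + 1 => ∑ i ∈ Finset.range (Z ω r), ω.1 (r, i)

/-- The number of children of the vertices `0, …, i - 1` of level `r`; it is the index at level
`r + 1` of the first child of the `i`-th vertex of level `r`. -/
def S (ω : Cfg) (r i : ℕ) : ℕ := ∑ j ∈ Finset.range i, ω.1 (r, j)

/-- An open upward edge from `v` to `w`, at the parameter `p`. The vertex `(r, i)` has the upward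
edges `k = 0, …, ξ` (only `k < ξ` for the root), `ξ` being its offspring number; the `k`-th one
leads to the vertex `S r i + k` of level `r + 1`, indices being cyclic. For `k < ξ` this is the
`k`-th child, and for `k = ξ` it is the upper right vertex of the face on its right. -/
def OpenUp (p : ℝ) (ω : Cfg) (v w : ℕ × ℕ) : Prop :=
  v.2 < Z ω v.1 ∧ w.1 = v.1 + 1 ∧ w.2 < Z ω w.1 ∧
    ∃ k ≤ ω.1 v, (v.1 = 0 → k < ω.1 v) ∧ w.2 = (S ω v.1 v.2 + k) % Z ω w.1 ∧
      ω.2 (Sum.inl (v.1, v.2, k)) < p

/-- An open horizontal edge from `v` to the next vertex `w` of the same level. -/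
def OpenHor (p : ℝ) (ω : Cfg) (v w : ℕ × ℕ) : Prop :=
  ∃ r i, v = (r + 1, i) ∧ i < Z ω (r + 1) ∧ w = (r + 1, (i + 1) % Z ω (r + 1)) ∧
    ω.2 (Sum.inr (r, i)) < p

/-- One step of the exploration: an open upward edge, or an open horizontal edge in
either direction. -/
def Step (p : ℝ) (ω : Cfg) (v w : ℕ × ℕ) : Prop :=
  OpenUp p ω v w ∨ OpenHor p ω v w ∨ OpenHor p ω w v

/-- The (oriented) cluster of `v`. -/
def cluster (p : ℝ) (ω : Cfg) (v : ℕ × ℕ) : Set (ℕ × ℕ) :=
  {w | Relation.ReflTransGen (Step p ω) v w}

/-- The connected component of `v` in the open subgraph with orientations forgotten. -/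
def component (p : ℝ) (ω : Cfg) (v : ℕ × ℕ) : Set (ℕ × ℕ) :=
  {w | Relation.EqvGen (Step p ω) v w}

/-- The number of connected components of the open subgraph which contain an infinite cluster. -/
noncomputable def numInf (p : ℝ) (ω : Cfg) : ℕ∞ :=
  Set.encard {K : Set (ℕ × ℕ) | ∃ v : ℕ × ℕ, v.2 < Z ω v.1 ∧ (cluster p ω v).Infinite ∧
    K = component p ω v}

/-- The event that the tree survives. -/
def Surv : Set Cfg := {ω | ∀ r, 0 < Z ω r}

/-- The annealed law: the tree is conditioned to survive. -/
noncomputable def annLaw (α : ℝ) : Measure Cfg := ProbabilityTheory.cond (cfgLaw α) Surv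

/-- The annealed probability that the cluster of the root is infinite. -/
noncomputable def Theta (α p : ℝ) : ℝ≥0∞ := annLaw α {ω | (cluster p ω (0, 0)).Infinite}

/-- The critical parameter `p_c^h`. -/
noncomputable def pch (α : ℝ) : ℝ := sSup {p ∈ Icc (0 : ℝ) 1 | Theta α p = 0}

end Pool.Agent.helper885_ct
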