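import Pool.Agent.helper885_ct.Coord

/-!
Independence of functions of disjoint sets of coordinates.
-/

set_option linter.unusedSectionVars false

namespace Pool.Agent.helper885_ct

open MeasureTheory Set Measure
open scoped ENNReal

section dep

variable {ι X : Type*} [MeasurableSpace X] [Inhabited X] (μ : Measure X) [IsProbabilityMeasure μ]

/-- functions of complementary sets of coordinates are independent -/
lemma lintegral_mul_of_dep (I : Set ι) {f g : (ι → X) → ℝ≥0∞} (hf : Measurable f)
    (hg : Measurable g) (hfI : DependsOn f I) (hgI : DependsOn g Iᶜ) :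
    ∫⁻ u, f u * g u ∂(infinitePi fun _ : ι => μ) =
      (∫⁻ u, f u ∂(infinitePi fun _ : ι => μ)) * ∫⁻ u, g u ∂(infinitePi fun _ : ι => μ) := by
  classical
  set e : ↥I ⊕ ↥(Iᶜ) ≃ ι := Equiv.Set.sumCompl I with he
  have mp := glue_measurePreserving μ e
  have hel : ∀ i (hi : i ∈ I), e.symm i = Sum.inl ⟨i, hi⟩ := fun i hi => by
    rw [he, Equiv.Set.sumCompl_symm_apply_of_mem hi]
  have her : ∀ i (hi : i ∉ I), e.symm i = Sum.inr ⟨i, hi⟩ := fun i hi => by
    rw [he, Equiv.Set.sumCompl_symm_apply_of_notMem hi]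
  set F : (↥I → X) → ℝ≥0∞ := fun a => f (glue e (a, fun _ => default)) with hF
  set G : (↥(Iᶜ) → X) → ℝ≥0∞ := fun b => g (glue e (fun _ => default, b)) with hG
  have hF1 : ∀ q, f (glue e q) = F q.1 := by
    intro q
    refine hfI fun i hi => ?_
    simp only [glue, hel i hi, Sum.elim_inl]
  have hG1 : ∀ q, g (glue e q) = G q.2 := by
    intro q
    refine hgI fun i hi => ?_
    simp only [glue, her i hi, Sum.elim_inr]
  have hFm : Measurable F := hf.comp ((measurable_glue e).comp
    (measurable_id.prodMk measurable_const))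
  have hGm : Measurable G := hg.comp ((measurable_glue e).comp
    (measurable_const.prodMk measurable_id))
  have hfg : Measurable fun u => f u * g u := hf.mul hg
  rw [← mp.lintegral_comp hfg, ← mp.lintegral_comp hf, ← mp.lintegral_comp hg]
  simp only [hF1, hG1]
  rw [lintegral_prod_mul hFm.aemeasurable hGm.aemeasurable]
  congr 1
  · have := lintegral_prod_mul (μ := infinitePi fun _ : ↥I => μ)
      (ν := infinitePi fun _ : ↥(Iᶜ) => μ) hFm.aemeasurable
      (aemeasurable_const (b := (1 : ℝ≥0∞)))
    simp only [mul_one, lintegral_const, measure_univ] at this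
    exact this.symm
  · have := lintegral_prod_mul (μ := infinitePi fun _ : ↥I => μ)
      (ν := infinitePi fun _ : ↥(Iᶜ) => μ)
      (aemeasurable_const (b := (1 : ℝ≥0∞))) hGm.aemeasurable
    simp only [one_mul, lintegral_const, measure_univ] at this
    exact this.symm

lemma DependsOn.mono' {β : Type*} {f : (ι → X) → β} {I J : Set ι} (h : DependsOn f I)
    (hIJ : I ⊆ J) : DependsOn f J := fun _ _ hxy => h fun i hi => hxy i (hIJ hi)

lemma lintegral_mul_of_dep' {I J : Set ι} (hIJ : Disjoint I J) {f g : (ι → X) → ℝ≥0∞}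
    (hf : Measurable f) (hg : Measurable g) (hfI : DependsOn f I) (hgJ : DependsOn g J) :
    ∫⁻ u, f u * g u ∂(infinitePi fun _ : ι => μ) =
      (∫⁻ u, f u ∂(infinitePi fun _ : ι => μ)) * ∫⁻ u, g u ∂(infinitePi fun _ : ι => μ) :=
  lintegral_mul_of_dep μ I hf hg hfI (DependsOn.mono' hgJ fun _ hi hI =>
    Set.disjoint_left.1 hIJ hI hi)

/-- product version -/
lemma lintegral_prod_of_dep {κ : Type*} [DecidableEq κ] (S : Finset κ) (I : κ → Set ι)
    (f : κ → (ι → X) → ℝ≥0∞) (hf : ∀ z ∈ S, Measurable (f z))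
    (hdep : ∀ z ∈ S, DependsOn (f z) (I z))
    (hdisj : ∀ z ∈ S, ∀ w ∈ S, z ≠ w → Disjoint (I z) (I w)) :
    ∫⁻ u, ∏ z ∈ S, f z u ∂(infinitePi fun _ : ι => μ) =
      ∏ z ∈ S, ∫⁻ u, f z u ∂(infinitePi fun _ : ι => μ) := by
  induction S using Finset.induction_on with
  | empty => simp
  | insert a S ha ih =>
    have hS : ∀ z ∈ S, z ∈ insert a S := fun z hz => Finset.mem_insert_of_mem hz
    simp only [Finset.prod_insert ha]
    rw [lintegral_mul_of_dep' (I := I a) (J := ⋃ z ∈ S, I z) μ, ih (fun z hz => hf z (hS z hz))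
      (fun z hz => hdep z (hS z hz)) (fun z hz w hw => hdisj z (hS z hz) w (hS w hw))]
    · rw [Set.disjoint_left]
      intro i hi hi'
      simp only [mem_iUnion] at hi'
      obtain ⟨z, hz, hi'⟩ := hi'
      exact Set.disjoint_left.1 (hdisj a (Finset.mem_insert_self a S) z (hS z hz)
        (fun h => ha (h ▸ hz))) hi hi'
    · exact hf a (Finset.mem_insert_self a S)
    · exact Finset.measurable_prod _ fun z hz => hf z (hS z hz)
    · exact hdep a (Finset.mem_insert_self a S)
    · intro x y hxy
      refine Finset.prod_congr rfl fun z hz => hdep z (hS z hz) fun i hi => hxy i ?_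
      simp only [mem_iUnion]
      exact ⟨z, hz, hi⟩

/-- a set of configurations which is determined by the coordinates in `I` -/
def SDep (E : Set (ι → X)) (I : Set ι) : Prop := ∀ x y, (∀ i ∈ I, x i = y i) → (x ∈ E ↔ y ∈ E)

lemma SDep.mono {E : Set (ι → X)} {I J : Set ι} (h : SDep E I) (hIJ : I ⊆ J) : SDep E J :=
  fun x y hxy => h x y fun i hi => hxy i (hIJ hi)

lemma SDep.inter {E F : Set (ι → X)} {I : Set ι} (h : SDep E I) (h' : SDep F I) :
    SDep (E ∩ F) I := fun x y hxy => and_congr (h x y hxy) (h' x y hxy)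

lemma SDep.union {E F : Set (ι → X)} {I : Set ι} (h : SDep E I) (h' : SDep F I) :
    SDep (E ∪ F) I := fun x y hxy => or_congr (h x y hxy) (h' x y hxy)

lemma SDep.compl {E : Set (ι → X)} {I : Set ι} (h : SDep E I) : SDep Eᶜ I :=
  fun x y hxy => not_congr (h x y hxy)

lemma SDep.univ (I : Set ι) : SDep (Set.univ : Set (ι → X)) I := fun _ _ _ => Iff.rfl

lemma SDep.indicator {E : Set (ι → X)} {I : Set ι} (h : SDep E I) (c : ℝ≥0∞) :
    DependsOn (E.indicator fun _ => c) I := by
  intro x y hxy
  by_cases hx : x ∈ E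
  · rw [Set.indicator_of_mem hx, Set.indicator_of_mem ((h x y hxy).1 hx)]
  · rw [Set.indicator_of_notMem hx, Set.indicator_of_notMem fun hy => hx ((h x y hxy).2 hy)]

lemma measure_inter_of_dep {I J : Set ι} (hIJ : Disjoint I J) {E F : Set (ι → X)}
    (hE : MeasurableSet E) (hF : MeasurableSet F) (hEI : SDep E I) (hFJ : SDep F J) :
    (infinitePi fun _ : ι => μ) (E ∩ F) =
      (infinitePi fun _ : ι => μ) E * (infinitePi fun _ : ι => μ) F := by
  have h := lintegral_mul_of_dep' μ hIJ (f := E.indicator fun _ => 1) (g := F.indicator fun _ => 1)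
    (measurable_const.indicator hE) (measurable_const.indicator hF) (hEI.indicator 1)
    (hFJ.indicator 1)
  have h1 : ∀ u, (E.indicator (fun _ => (1 : ℝ≥0∞)) u) * (F.indicator (fun _ => 1) u) =
      (E ∩ F).indicator (fun _ => 1) u := by
    intro u
    by_cases h2 : u ∈ E <;> by_cases h3 : u ∈ F <;> simp [h2, h3]
  simp only [h1] at h
  rw [lintegral_indicator_const (hE.inter hF), lintegral_indicator_const hE,
    lintegral_indicator_const hF] at h
  simpa using h

end dep

end Pool.Agent.helper885_ct
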