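import Pool.Agent.helper885_ct.Pos

/-!
The complete dual chain and its reading device.
-/

set_option linter.unusedSectionVars false
set_option linter.unusedVariables false

namespace Pool.Agent.helper885_ct

open MeasureTheory Set Measure
open scoped ENNReal

/-- a closed dual path leads from behind the vertex `y` to behind the vertex `j` above: every open
upward edge starting at or before `y` ends at or before `j`, every other one ends after `j` -/
def cutrel (p : ℝ) (x : Row) (k y j : ℕ) : Prop :=
  ∀ z < k, ∀ i ≤ x.1 z, x.2 (Sum.inl (z, i)) < p →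
    (z ≤ y → rS x z + i ≤ j) ∧ (y < z → j < rS x z + i)

/-- the cut behind `j` is reached -/
def cutto (p : ℝ) (x : Row) (s : St) (j : ℕ) : Prop :=
  p ≤ x.2 (Sum.inr j) ∧ ∃ y ∈ s.A, cutrel p x s.k y j

/-- the complete dual chain -/
noncomputable def dC (p : ℝ) (x : Row) (s : St) : St := by
  classical
  exact ⟨rS x s.k, (Finset.range (rS x s.k)).filter fun j => j + 1 < rS x s.k ∧ cutto p x s j⟩

lemma dC_k (p : ℝ) (x : Row) (s : St) : (dC p x s).k = rS x s.k := rfl

lemma mem_dC {p : ℝ} {x : Row} {s : St} {j : ℕ} : j ∈ (dC p x s).A ↔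
    j + 1 < rS x s.k ∧ cutto p x s j := by
  classical
  simp only [dC, Finset.mem_filter, Finset.mem_range]
  constructor
  · exact fun h => h.2
  · exact fun h => ⟨by omega, h⟩

lemma dC_inv (p : ℝ) (x : Row) (s : St) : ∀ j ∈ (dC p x s).A, j + 1 < (dC p x s).k :=
  fun j hj => (mem_dC.1 hj).1

lemma ms_cutrel (p : ℝ) (k y j : ℕ) : MeasurableSet {x : Row | cutrel p x k y j} := by
  have h1 : {x : Row | cutrel p x k y j} = ⋂ z ∈ {z | z < k}, ⋂ i,
      ({x : Row | i ≤ x.1 z}ᶜ ∪ ({x : Row | x.2 (Sum.inl (z, i)) < p}ᶜ ∪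
        {x : Row | (z ≤ y → rS x z + i ≤ j) ∧ (y < z → j < rS x z + i)})) := by
    ext x
    simp only [cutrel, mem_ofPred_eq, mem_iInter, mem_union, mem_compl_iff]
    refine forall_congr' fun z => forall_congr' fun _ => forall_congr' fun i => ?_
    tauto
  rw [h1]
  refine MeasurableSet.biInter (Set.to_countable _) fun z _ => MeasurableSet.iInter fun i => ?_
  have hx : Measurable (fun x : Row => x.1 z) := by fun_prop
  exact (ms1 hx (fun n => i ≤ n)).compl.union ((ms_up p _).compl.union
    (ms1 (measurable_rS z) (fun n => (z ≤ y → n + i ≤ j) ∧ (y < z → j < n + i))))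

lemma good_dC (p : ℝ) : Good (dC p) where
  meas := by
    intro s
    refine measurable_St_of (measurable_rS s.k) fun j => ?_
    have : {x : Row | j ∈ (dC p x s).A} = {x | j + 1 < rS x s.k} ∩ ({x | p ≤ x.2 (Sum.inr j)} ∩
        ⋃ y ∈ {y | y ∈ s.A}, {x | cutrel p x s.k y j}) := by
      ext x
      simp only [mem_ofPred_eq, mem_dC, cutto, mem_iUnion, mem_inter_iff, exists_prop]
    rw [this]
    have hge : MeasurableSet {x : Row | p ≤ x.2 (Sum.inr j)} := by
      have : Measurable (fun x : Row => x.2 (Sum.inr j)) := by fun_prop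
      exact this measurableSet_Ici
    exact (ms1 (measurable_rS s.k) (fun m => j + 1 < m)).inter (hge.inter
      (MeasurableSet.biUnion (Set.to_countable _) fun y _ => ms_cutrel p s.k y j))
  empty := by
    rintro x s h ⟨j, hj⟩
    obtain ⟨_, _, y, hy, _⟩ := mem_dC.1 hj
    exact h ⟨y, hy⟩
  kk := fun x s => rfl

lemma dC_union (p : ℝ) (x : Row) (k : ℕ) (A B : Finset ℕ) :
    dC p x ⟨k, A ∪ B⟩ = ⟨rS x k, (dC p x ⟨k, A⟩).A ∪ (dC p x ⟨k, B⟩).A⟩ := by
  have h : (dC p x ⟨k, A ∪ B⟩).A = (dC p x ⟨k, A⟩).A ∪ (dC p x ⟨k, B⟩).A := by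
    ext j
    simp only [Finset.mem_union, mem_dC, cutto]
    constructor
    · rintro ⟨h1, h2, y, h3 | h3, h4⟩
      · exact Or.inl ⟨h1, h2, y, h3, h4⟩
      · exact Or.inr ⟨h1, h2, y, h3, h4⟩
    · rintro (⟨h1, h2, y, h3, h4⟩ | ⟨h1, h2, y, h3, h4⟩)
      · exact ⟨h1, h2, y, Or.inl h3, h4⟩
      · exact ⟨h1, h2, y, Or.inr h3, h4⟩
  have hk : (dC p x ⟨k, A ∪ B⟩).k = rS x k := rfl
  cases h2 : dC p x ⟨k, A ∪ B⟩
  simp_all

/-- states of the device for the dual chain: present component reached, `g` the distance to the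
last reached cut; not reached, `g` likewise; not reached with pending cuts, `g₀` the distance to
the last reached cut, `g` to the last pending one, `c` the value of the pending cuts -/
inductive DQ
  | fl : ℕ → DQ
  | un : ℕ → DQ
  | pe : ℕ → ℕ → ℕ → DQ
  deriving DecidableEq

/-- the device for the dual chain -/
def autD (C L : ℕ) (f : ℕ → ℕ) : Aut DQ where
  up := fun _ o q => if o then (match q with
    | DQ.fl g => (DQ.un g, 0)
    | DQ.un g => (DQ.un g, 0)
    | DQ.pe g₀ _ _ => (DQ.un g₀, 0)) else (q, 0)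
  tt := fun h q => match q with
    | DQ.fl g => if h then (DQ.fl (min (g + 1) L), 0) else (DQ.fl 1, f g)
    | DQ.un g => if h then (DQ.un (min (g + 1) L), 0) else
        (if f g ≤ C then (DQ.pe (min (g + 1) L) 1 (f g), 0)
          else (DQ.un (min (g + 1) L), 0))
    | DQ.pe g₀ g c => if h then (DQ.pe (min (g₀ + 1) L) (min (g + 1) L) c, 0) else
        (if c + f g ≤ C then (DQ.pe (min (g₀ + 1) L) 1 (c + f g), 0)
          else (DQ.pe (min (g₀ + 1) L) (min (g + 1) L) c, 0))
  bb := fun a q => if a then (match q with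
    | DQ.fl g => (DQ.fl g, 0)
    | DQ.un g => (DQ.fl g, 0)
    | DQ.pe _ g c => (DQ.fl g, c)) else (q, 0)

/-- certified set for the dual device -/
def CD (p : ℝ) (x : Row) (s : St) (L : ℕ) (ω : ℕ → ℕ) (w v : ℕ) (g : ℕ) (C : Finset ℕ) : Prop :=
  (∀ c ∈ C, c + g ≤ w) ∧ (∀ c ∈ C, cutto p x s c) ∧ v ≤ VV L ω C

/-- the processed upward edges: `pr z' i'` -/
def okE (p : ℝ) (x : Row) (s : St) (pr : ℕ → ℕ → Prop) (P : ℕ → ℕ → Prop) : Prop :=
  ∀ z' < s.k, ∀ i' ≤ x.1 z', pr z' i' → x.2 (Sum.inl (z', i')) < p → P z' i'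

/-- the invariant for the dual device; `pr` is the set of processed upward edges -/
def ID (p : ℝ) (x : Row) (s : St) (L : ℕ) (ω : ℕ → ℕ) (pr : ℕ → ℕ → Prop) (z w : ℕ) (q : DQ)
    (v : ℕ) : Prop :=
  w ≤ rS x s.k ∧ match q with
  | DQ.fl g => 1 ≤ g ∧ (∃ C, CD p x s L ω w v g C) ∧
      ∃ y ∈ s.A, y < z ∧ okE p x s pr fun z' _ => z' ≤ y
  | DQ.un g => 1 ≤ g ∧ ∃ C, CD p x s L ω w v g C
  | DQ.pe g₀ g c => 1 ≤ g ∧ 1 ≤ g₀ ∧ ∃ C P, CD p x s L ω w v g₀ C ∧ (∀ d ∈ C, d + g ≤ w) ∧
      (∀ d ∈ P, d + g ≤ w ∧ p ≤ x.2 (Sum.inr d) ∧ okE p x s pr fun z' i' => rS x z' + i' ≤ d) ∧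
      v + c ≤ VV L ω (C ∪ P)

/-- processed in front of the edge `(z, i)` -/
def prI (z i : ℕ) : ℕ → ℕ → Prop := fun z' i' => z' < z ∨ (z' = z ∧ i' < i)

/-- processed behind the edge `(z, i)` -/
def prJ (z i : ℕ) : ℕ → ℕ → Prop := fun z' i' => z' < z ∨ (z' = z ∧ i' ≤ i)

lemma ID_fin {p : ℝ} {x : Row} {s : St} {L : ℕ} {ω : ℕ → ℕ} {pr : ℕ → ℕ → Prop} {z w : ℕ}
    {q : DQ} {v : ℕ} (h : ID p x s L ω pr z w q v) : v ≤ VV L ω (dC p x s).A + ph L ω L := by
  have h1 : ∀ g C, 1 ≤ g → CD p x s L ω w v g C → v ≤ VV L ω (dC p x s).A + ph L ω L := by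
    rintro g C hg ⟨h2, h3, h4⟩
    have h5 : C ⊆ insert (rS x s.k - 1) (dC p x s).A := by
      intro c hc
      have h7 := h2 c hc
      have h8 := h.1
      by_cases h6 : c + 1 < rS x s.k
      · exact Finset.mem_insert_of_mem (mem_dC.2 ⟨h6, h3 c hc⟩)
      · rw [Finset.mem_insert]
        left
        omega
    exact h4.trans ((VV_mono L ω h5).trans (VV_insert_le L ω _ _))
  obtain ⟨h0, h⟩ := h
  cases q with
  | fl g => exact h1 g _ h.1 h.2.1.choose_spec
  | un g => exact h1 g _ h.1 h.2.choose_spec
  | pe g₀ g c =>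
    obtain ⟨h2, h3, C, P, h4, _⟩ := h
    exact h1 g₀ C h3 h4

lemma gnD_le {p : ℝ} (Cm : ℕ) (L : ℕ) (hL : 1 ≤ L) (ω : ℕ → ℕ) (x : Row) (s : St) (n : ℕ) :
    gn (autD Cm L (ph L ω)) p n s.k (pat s.A) (DQ.un L) x ≤ VV L ω (dC p x s).A + ph L ω L := by
  have hmain := gn_le (autD Cm L (ph L ω)) p x s.k (VV L ω (dC p x s).A + ph L ω L) (pat s.A)
    (fun z i q v => ID p x s L ω (prI z i) z (rS x z + i) q v)
    (fun z i q v => ID p x s L ω (prJ z i) z (rS x z + i) q v)
    (fun z i q v h => ID_fin h) ?_ ?_ ?_ n s.k 0 0 x (DQ.un L) 0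
    (by omega) (At_zero x) ?_
  · have h2 : (fun j => pat s.A (0 + j)) = pat s.A := by
      funext j
      rw [Nat.zero_add]
    rw [h2] at hmain
    omega
  · -- upward edge
    rintro z i q v hz hi ⟨h0, h⟩
    by_cases ho : x.2 (Sum.inl (z, i)) < p
    · simp only [autD, ho, decide_true, if_true]
      refine ⟨h0, ?_⟩
      cases q with
      | fl g => exact ⟨h.1, h.2.1⟩
      | un g => exact h
      | pe g₀ g c =>
        obtain ⟨h2, h3, C, P, h4, _⟩ := h
        exact ⟨h3, C, h4⟩
    · simp only [autD, ho, decide_false, Bool.false_eq_true, if_false]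
      refine ⟨h0, ?_⟩
      have hpr : ∀ P : ℕ → ℕ → Prop, okE p x s (prI z i) P → okE p x s (prJ z i) P := by
        intro P hP z' hz' i' hi' hpr' ho'
        refine hP z' hz' i' hi' ?_ ho'
        rcases hpr' with h1 | ⟨h1, h2⟩
        · exact Or.inl h1
        · by_cases h3 : i' = i
          · rw [h1, h3] at ho'
            exact absurd ho' ho
          · exact Or.inr ⟨h1, by omega⟩
      cases q with
      | fl g =>
        obtain ⟨h1, h2, y, h3, h4, h5⟩ := h
        exact ⟨h1, h2, y, h3, h4, hpr _ h5⟩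
      | un g => exact h
      | pe g₀ g c =>
        obtain ⟨h2, h3, C, P, h4, h5, h6, h7⟩ := h
        exact ⟨h2, h3, C, P, h4, h5, fun d hd => ⟨(h6 d hd).1, (h6 d hd).2.1,
          hpr _ (h6 d hd).2.2⟩, h7⟩
  · -- next vertex
    rintro z q v hz ⟨h0, h⟩
    have hpr : ∀ P : ℕ → ℕ → Prop, okE p x s (prJ z (x.1 z)) P → okE p x s (prI (z + 1) 0) P := by
      intro P hP z' hz' i' hi' hpr' ho'
      refine hP z' hz' i' hi' ?_ ho'
      rcases hpr' with h1 | ⟨h1, h2⟩
      · by_cases h3 : z' = z
        · rw [h3] at hi'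
          exact Or.inr ⟨h3, hi'⟩
        · exact Or.inl (by omega)
      · omega
    simp only [Nat.add_zero]
    rw [← rS_succ] at h0 h
    have hup : ∀ d, d < rS x (z + 1) → okE p x s (prJ z (x.1 z)) (fun z' i' => rS x z' + i' ≤ d) →
        cutrel p x s.k z d := by
      intro d hd hok z' hz' i' hi' ho'
      constructor
      · intro h1
        refine hok z' hz' i' hi' ?_ ho'
        rcases Nat.lt_or_eq_of_le h1 with h2 | h2
        · exact Or.inl h2
        · rw [h2] at hi'
          exact Or.inr ⟨h2, hi'⟩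
      · intro h1
        have : rS x (z + 1) ≤ rS x z' := rS_mono x h1
        omega
    by_cases ha : pat s.A z = true
    · have ha' : z ∈ s.A := of_decide_eq_true ha
      have hall : okE p x s (prI (z + 1) 0) fun z' _ => z' ≤ z := by
        intro z' hz' i' hi' hpr' ho'
        rcases hpr' with h1 | ⟨h1, h2⟩ <;> omega
      simp only [autD, ha, if_true]
      refine ⟨h0, ?_⟩
      cases q with
      | fl g => exact ⟨h.1, h.2.1, z, ha', by omega, hall⟩
      | un g => exact ⟨h.1, h.2, z, ha', by omega, hall⟩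
      | pe g₀ g c =>
        obtain ⟨h2, h3, C, P, h4, h5, h6, h7⟩ := h
        refine ⟨h2, ⟨C ∪ P, ?_, ?_, h7⟩, z, ha', by omega, hall⟩
        · intro d hd
          rw [Finset.mem_union] at hd
          rcases hd with hd | hd
          · exact h5 d hd
          · exact (h6 d hd).1
        · intro d hd
          rw [Finset.mem_union] at hd
          rcases hd with hd | hd
          · exact h4.2.1 d hd
          · refine ⟨(h6 d hd).2.1, z, ha', hup d ?_ (h6 d hd).2.2⟩
            have := (h6 d hd).1
            omega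
    · simp only [autD, ha, Bool.false_eq_true, if_false]
      refine ⟨h0, ?_⟩
      cases q with
      | fl g =>
        obtain ⟨h1, h2, y, h3, h4, h5⟩ := h
        exact ⟨h1, h2, y, h3, by omega, hpr _ h5⟩
      | un g => exact h
      | pe g₀ g c =>
        obtain ⟨h2, h3, C, P, h4, h5, h6, h7⟩ := h
        exact ⟨h2, h3, C, P, h4, h5, fun d hd => ⟨(h6 d hd).1, (h6 d hd).2.1,
          hpr _ (h6 d hd).2.2⟩, h7⟩
  · -- child
    rintro z i q v hz hi ⟨h0, h⟩
    have hwZ : rS x z + i < rS x s.k := by
      have h3 : rS x (z + 1) ≤ rS x s.k := rS_mono x hz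
      rw [rS_succ] at h3
      omega
    have hpr : ∀ P : ℕ → ℕ → Prop, okE p x s (prJ z i) P → okE p x s (prI z (i + 1)) P := by
      intro P hP z' hz' i' hi' hpr' ho'
      refine hP z' hz' i' hi' ?_ ho'
      rcases hpr' with h1 | ⟨h1, h2⟩
      · exact Or.inl h1
      · exact Or.inr ⟨h1, by omega⟩
    simp only [← Nat.add_assoc]
    set w := rS x z + i with hw
    refine ⟨hwZ, ?_⟩
    have hpend : okE p x s (prI z (i + 1)) fun z' i' => rS x z' + i' ≤ w := by
      intro z' hz' i' hi' hpr' ho'
      rcases hpr' with h1 | ⟨h1, h2⟩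
      · have h2 : rS x (z' + 1) ≤ rS x z := rS_mono x h1
        rw [rS_succ] at h2
        omega
      · subst h1
        omega
    cases q with
    | fl g =>
      obtain ⟨h1, ⟨C, hC1, hC2, hC3⟩, y, h3, h4, h5⟩ := h
      by_cases ho : x.2 (Sum.inr w) < p
      · simp only [autD, ho, decide_true, if_true]
        refine ⟨by omega, ⟨C, fun c hc => ?_, hC2, hC3⟩, y, h3, h4, hpr _ h5⟩
        have := hC1 c hc
        omega
      · simp only [autD, ho, decide_false, Bool.false_eq_true, if_false]
        refine ⟨le_rfl, ⟨insert w C, ?_, ?_, ?_⟩, y, h3, h4, hpr _ h5⟩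
        · intro c hc
          rw [Finset.mem_insert] at hc
          rcases hc with hc | hc
          · omega
          · have := hC1 c hc
            omega
        · intro c hc
          rw [Finset.mem_insert] at hc
          rcases hc with hc | hc
          · rw [hc]
            refine ⟨not_lt.1 ho, y, h3, ?_⟩
            intro z' hz' i' hi' ho'
            constructor
            · intro h6
              have h7 : rS x (z' + 1) ≤ rS x z := rS_mono x (by omega)
              rw [rS_succ] at h7
              omega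
            · intro h6
              by_contra h7
              have h8 : prJ z i z' i' := by
                by_contra h9
                unfold prJ at h9
                push Not at h9
                obtain ⟨h10, h11⟩ := h9
                rcases Nat.lt_or_eq_of_le h10 with h12 | h12
                · have h13 : rS x (z + 1) ≤ rS x z' := rS_mono x h12
                  rw [rS_succ] at h13
                  omega
                · have h13 := h11 h12.symm
                  rw [← h12] at h7
                  omega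
              have h14 : z' ≤ y := h5 z' hz' i' hi' h8 ho'
              omega
          · exact hC2 c hc
        · have := VV_insert_ge L ω (j := w) (g := g) (A := C) hC1
          omega
    | un g =>
      obtain ⟨h1, C, hC1, hC2, hC3⟩ := h
      by_cases ho : x.2 (Sum.inr w) < p
      · simp only [autD, ho, decide_true, if_true]
        refine ⟨by omega, C, fun c hc => ?_, hC2, hC3⟩
        have := hC1 c hc
        omega
      · simp only [autD, ho, decide_false, Bool.false_eq_true, if_false]
        by_cases hcap : ph L ω g ≤ Cm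
        · simp only [hcap, if_true]
          refine ⟨le_rfl, by omega, C, {w}, ⟨fun c hc => ?_, hC2, hC3⟩, fun c hc => ?_, ?_, ?_⟩
          · have := hC1 c hc
            omega
          · have := hC1 c hc
            omega
          · intro d hd
            rw [Finset.mem_singleton] at hd
            rw [hd]
            exact ⟨by omega, not_lt.1 ho, hpend⟩
          · have h2 := VV_insert_ge L ω (j := w) (g := g) (A := C) hC1
            have h3 : C ∪ {w} = insert w C := by
              rw [Finset.union_comm]; rfl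
            rw [h3]
            omega
        · simp only [hcap, if_false]
          refine ⟨by omega, C, fun c hc => ?_, hC2, hC3⟩
          have := hC1 c hc
          omega
    | pe g₀ g c =>
      obtain ⟨h2, h3, C, P, ⟨hC1, hC2, hC3⟩, h5, h6, h7⟩ := h
      have keep : ∀ g₁ g₂, 1 ≤ g₁ → 1 ≤ g₂ → g₁ ≤ g₀ + 1 → g₂ ≤ g + 1 →
          (1 ≤ g₂ ∧ 1 ≤ g₁ ∧ ∃ C P, CD p x s L ω (w + 1) (v + 0) g₁ C ∧
          (∀ d ∈ C, d + g₂ ≤ w + 1) ∧ (∀ d ∈ P, d + g₂ ≤ w + 1 ∧ p ≤ x.2 (Sum.inr d) ∧
            okE p x s (prI z (i + 1)) fun z' i' => rS x z' + i' ≤ d) ∧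
          v + 0 + c ≤ VV L ω (C ∪ P)) := by
        intro g₁ g₂ k1 k2 k3 k4
        refine ⟨k2, k1, C, P, ⟨fun d hd => ?_, hC2, hC3⟩, fun d hd => ?_, fun d hd => ⟨?_,
          (h6 d hd).2.1, hpr _ (h6 d hd).2.2⟩, h7⟩
        · have := hC1 d hd
          omega
        · have := h5 d hd
          omega
        · have := (h6 d hd).1
          omega
      by_cases ho : x.2 (Sum.inr w) < p
      · simp only [autD, ho, decide_true, if_true]
        exact keep _ _ (by omega) (by omega) (by omega) (by omega)
      · simp only [autD, ho, decide_false, Bool.false_eq_true, if_false]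
        by_cases hcap : c + ph L ω g ≤ Cm
        · simp only [hcap, if_true]
          refine ⟨le_rfl, by omega, C, insert w P, ⟨fun d hd => ?_, hC2, hC3⟩, fun d hd => ?_,
            ?_, ?_⟩
          · have := hC1 d hd
            omega
          · have := h5 d hd
            omega
          · intro d hd
            rw [Finset.mem_insert] at hd
            rcases hd with hd | hd
            · rw [hd]
              exact ⟨by omega, not_lt.1 ho, hpend⟩
            · exact ⟨by have := (h6 d hd).1; omega, (h6 d hd).2.1, hpr _ (h6 d hd).2.2⟩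
          · have h8 := VV_insert_ge L ω (j := w) (g := g) (A := C ∪ P) (by
              intro d hd
              rw [Finset.mem_union] at hd
              rcases hd with hd | hd
              · exact h5 d hd
              · exact (h6 d hd).1)
            have h9 : C ∪ insert w P = insert w (C ∪ P) := by
              rw [Finset.union_insert]
            rw [h9]
            omega
        · simp only [hcap, if_false]
          exact keep _ _ (by omega) (by omega) (by omega) (by omega)
  · refine ⟨by simp [rS], hL, ∅, by simp, by simp, by simp [VV_empty]⟩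

end Pool.Agent.helper885_ct
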