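import Pool.Agent.helper885_ct.Tables

/-!
The strict inequality for `α ≥ 3/5`.
-/

set_option linter.unusedSectionVars false
set_option linter.unusedVariables false

namespace Pool.Agent.helper885_ct

open MeasureTheory Set Measure
open scoped ENNReal

variable {α : ℝ} [hα : Fact (0 < α ∧ α < 1)]

lemma robustP (h0 : 3 / 5 ≤ α) (h1 : α ≤ 81 / 100) :
    Robust α (nxt (319 / 1000)) fun st => ∀ j ∈ st.A, j < st.k := by
  by_cases h : α ≤ 66 / 100
  · have := cert_P (α := α) (by norm_num) (by norm_num) (by norm_num) (by norm_num) (by norm_num)
      (by norm_num) (by norm_num) (by decide) (by norm_num) chkP0 (by norm_num; linarith)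
      (by norm_num; linarith)
    simpa using this
  · have := cert_P (α := α) (by norm_num) (by norm_num) (by norm_num) (by norm_num) (by norm_num)
      (by norm_num) (by norm_num) (by decide) (by norm_num) chkP1 (by norm_num; linarith)
      (by norm_num; linarith)
    simpa using this

lemma robustD (h0 : 3 / 5 ≤ α) (h1 : α ≤ 81 / 100) :
    Robust α (dC (8 / 25)) fun st => ∀ j ∈ st.A, j + 1 < st.k := by
  by_cases h2 : α ≤ 61 / 100
  · have := cert_D (α := α) (by norm_num) (by norm_num) (by norm_num) (by norm_num) (by norm_num)
      (by norm_num) (by decide) (by norm_num) chkD0 (by norm_num; linarith)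
      (by norm_num; linarith)
    simpa using this
  by_cases h3 : α ≤ 65 / 100
  · have := cert_D (α := α) (by norm_num) (by norm_num) (by norm_num) (by norm_num) (by norm_num)
      (by norm_num) (by decide) (by norm_num) chkD1 (by norm_num; linarith)
      (by norm_num; linarith)
    simpa using this
  by_cases h4 : α ≤ 73 / 100
  · have := cert_D (α := α) (by norm_num) (by norm_num) (by norm_num) (by norm_num) (by norm_num)
      (by norm_num) (by decide) (by norm_num) chkD2 (by norm_num; linarith)
      (by norm_num; linarith)
    simpa using this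
  · have := cert_D (α := α) (by norm_num) (by norm_num) (by norm_num) (by norm_num) (by norm_num)
      (by norm_num) (by decide) (by norm_num) chkD3 (by norm_num; linarith)
      (by norm_num; linarith)
    simpa using this

/-- non-uniqueness above the critical value for `α ≥ 3/5` -/
lemma not_one_three_fifths (h0 : 3 / 5 ≤ α) :
    ∃ p, pch α < p ∧ p < 1 ∧ annLaw α {ω | numInf p ω = 1} ≠ 1 := by
  by_cases h1 : α ≤ 81 / 100
  · exact ⟨8 / 25, not_one_of_robust (by linarith) (by norm_num) (by norm_num) (by norm_num)
      (robustP h0 h1) (robustD h0 h1)⟩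
  · refine not_one_large ?_
    have hs : Real.sqrt 5 < 2.24 := by
      rw [show (2.24 : ℝ) = Real.sqrt (2.24 ^ 2) by rw [Real.sqrt_sq (by norm_num)]]
      exact Real.sqrt_lt_sqrt (by norm_num) (by norm_num)
    push Not at h1
    linarith

end Pool.Agent.helper885_ct
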