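import Pool.Agent.helper885_ct.Peierls

/-!
Two branching processes: percolation along tree edges and the cut process.
-/

set_option linter.unusedSectionVars false
set_option linter.unusedVariables false

namespace Pool.Agent.helper885_ct

open MeasureTheory Set Measure
open scoped ENNReal

lemma rS_unique {x : Row} {i k i' k' : ℕ} (hk : k < x.1 i) (hk' : k' < x.1 i')
    (h : rS x i + k = rS x i' + k') : i = i' ∧ k = k' := by
  have h1 : i = i' := by
    rcases lt_trichotomy i i' with h2 | h2 | h2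
    · have h3 : rS x (i + 1) ≤ rS x i' := rS_mono x h2
      rw [rS_succ] at h3
      omega
    · exact h2
    · have h3 : rS x (i' + 1) ≤ rS x i := rS_mono x h2
      rw [rS_succ] at h3
      omega
  subst h1
  exact ⟨rfl, by omega⟩

lemma rS_lt {x : Row} {m i k : ℕ} (hi : i < m) (hk : k < x.1 i) : rS x i + k < rS x m := by
  have h3 : rS x (i + 1) ≤ rS x m := rS_mono x hi
  rw [rS_succ] at h3
  omega

/-- pairs (vertex, rank of a child) -/
def prs (ξ : ℕ → ℕ) (A : Finset ℕ) : Finset (ℕ × ℕ) :=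
  A.biUnion fun y => (Finset.range (ξ y)).image fun k => (y, k)

lemma mem_prs {ξ : ℕ → ℕ} {A : Finset ℕ} {q : ℕ × ℕ} : q ∈ prs ξ A ↔ q.1 ∈ A ∧ q.2 < ξ q.1 := by
  simp only [prs, Finset.mem_biUnion, Finset.mem_image, Finset.mem_range]
  constructor
  · rintro ⟨y, hy, k, hk, rfl⟩
    exact ⟨hy, hk⟩
  · rintro ⟨h1, h2⟩
    exact ⟨q.1, h1, q.2, h2, rfl⟩

lemma prod_prs (ξ : ℕ → ℕ) (A : Finset ℕ) (g : ℕ → ℕ → ℝ≥0∞) :
    ∏ q ∈ prs ξ A, g q.1 q.2 = ∏ y ∈ A, ∏ k ∈ Finset.range (ξ y), g y k := by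
  classical
  unfold prs
  rw [Finset.prod_biUnion]
  · refine Finset.prod_congr rfl fun y _ => ?_
    rw [Finset.prod_image]
    intro a _ b _ h
    simpa using h
  · intro a _ b _ hab
    simp only [Function.onFun]
    rw [Finset.disjoint_left]
    intro q h1 h2
    simp only [Finset.mem_image] at h1 h2
    obtain ⟨_, _, rfl⟩ := h1
    obtain ⟨_, _, h⟩ := h2
    simp only [Prod.mk.injEq] at h
    exact hab h.1.symm

/-- the chain in which the child `(y, k)` is reached when `P x y k` holds -/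
noncomputable def chT (P : Row → ℕ → ℕ → Prop) (x : Row) (s : St) : St := by
  classical
  exact ⟨rS x s.k, ((prs x.1 (s.A.filter (· < s.k))).filter fun q => P x q.1 q.2).image
    fun q => rS x q.1 + q.2⟩

lemma chT_k (P : Row → ℕ → ℕ → Prop) (x : Row) (s : St) : (chT P x s).k = rS x s.k := rfl

lemma mem_chT {P : Row → ℕ → ℕ → Prop} {x : Row} {s : St} {j : ℕ} : j ∈ (chT P x s).A ↔
    ∃ y ∈ s.A, y < s.k ∧ ∃ k < x.1 y, P x y k ∧ j = rS x y + k := by
  classical
  simp only [chT, Finset.mem_image, Finset.mem_filter, mem_prs]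
  constructor
  · rintro ⟨⟨y, k⟩, ⟨⟨⟨h1, h2⟩, h3⟩, h4⟩, rfl⟩
    exact ⟨y, h1, h2, k, h3, h4, rfl⟩
  · rintro ⟨y, h1, h2, k, h3, h4, rfl⟩
    exact ⟨(y, k), ⟨⟨⟨h1, h2⟩, h3⟩, h4⟩, rfl⟩

lemma card_chT {P : Row → ℕ → ℕ → Prop} [∀ x y k, Decidable (P x y k)] {x : Row} {s : St}
    (hs : ∀ j ∈ s.A, j < s.k) :
    (chT P x s).A.card = ((prs x.1 s.A).filter fun q => P x q.1 q.2).card := by
  classical
  have h1 : s.A.filter (· < s.k) = s.A := Finset.filter_true_of_mem hs
  unfold chT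
  simp only [h1]
  rw [Finset.card_image_of_injOn]
  · congr!
  · intro a ha b hb hab
    simp only [Finset.coe_filter, mem_prs, mem_ofPred_eq] at ha hb
    have := rS_unique ha.1.2 hb.1.2 hab
    exact Prod.ext this.1 this.2

lemma chT_lt {P : Row → ℕ → ℕ → Prop} {x : Row} {s : St} : ∀ j ∈ (chT P x s).A,
    j < (chT P x s).k := by
  intro j hj
  obtain ⟨y, _, h2, k, h3, _, rfl⟩ := mem_chT.1 hj
  exact rS_lt h2 h3

lemma good_chT {P : Row → ℕ → ℕ → Prop} (hP : ∀ y k, MeasurableSet {x | P x y k}) :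
    Good (chT P) where
  meas := by
    intro s
    refine measurable_St_of (measurable_rS s.k) fun j => ?_
    have : {x : Row | j ∈ (chT P x s).A} = ⋃ y ∈ {y | y ∈ s.A ∧ y < s.k}, ⋃ k,
        ({x : Row | k < x.1 y} ∩ ({x | P x y k} ∩ {x | j = rS x y + k})) := by
      ext x
      simp only [mem_ofPred_eq, mem_chT, mem_iUnion, mem_inter_iff]
      constructor
      · rintro ⟨y, h1, h2, k, h3, h4, h5⟩
        exact ⟨y, ⟨h1, h2⟩, k, h3, h4, h5⟩
      · rintro ⟨y, ⟨h1, h2⟩, k, h3, h4, h5⟩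
        exact ⟨y, h1, h2, k, h3, h4, h5⟩
    rw [this]
    refine MeasurableSet.biUnion (Set.to_countable _) fun y _ => MeasurableSet.iUnion fun k => ?_
    have h1 : Measurable (fun x : Row => x.1 y) := by fun_prop
    exact (ms1 h1 (fun m => k < m)).inter ((hP y k).inter
      (ms1 (measurable_rS y) (fun m => j = m + k)))
  empty := by
    rintro x s h ⟨j, hj⟩
    obtain ⟨y, h1, _⟩ := mem_chT.1 hj
    exact h ⟨y, h1⟩
  kk := fun x s => rfl

/-- each vertex of the initial set has its own progeny -/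
lemma chT_union {P : Row → ℕ → ℕ → Prop} (x : Row) (k : ℕ) (A B : Finset ℕ) :
    chT P x ⟨k, A ∪ B⟩ = ⟨rS x k, (chT P x ⟨k, A⟩).A ∪ (chT P x ⟨k, B⟩).A⟩ := by
  have h : (chT P x ⟨k, A ∪ B⟩).A = (chT P x ⟨k, A⟩).A ∪ (chT P x ⟨k, B⟩).A := by
    ext j
    simp only [Finset.mem_union, mem_chT]
    constructor
    · rintro ⟨y, h1 | h1, h2⟩
      · exact Or.inl ⟨y, h1, h2⟩
      · exact Or.inr ⟨y, h1, h2⟩
    · rintro (⟨y, h1, h2⟩ | ⟨y, h1, h2⟩)
      · exact ⟨y, Or.inl h1, h2⟩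
      · exact ⟨y, Or.inr h1, h2⟩
  have hk : (chT P x ⟨k, A ∪ B⟩).k = rS x k := rfl
  cases h2 : chT P x ⟨k, A ∪ B⟩
  simp_all

lemma run_chT_union {P : Row → ℕ → ℕ → Prop} (n : ℕ) (ω : Cfg) (k : ℕ) (A B : Finset ℕ) :
    (run (chT P) n ω ⟨k, A ∪ B⟩).A =
      (run (chT P) n ω ⟨k, A⟩).A ∪ (run (chT P) n ω ⟨k, B⟩).A := by
  induction n generalizing ω k A B with
  | zero => rfl
  | succ n ih =>
    rw [run_succ, run_succ, run_succ, chT_union, ih]
    rfl

/-- alive for ever from a finite set: alive for ever from one of its elements -/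
lemma exists_alive_single {P : Row → ℕ → ℕ → Prop} (hP : ∀ y k, MeasurableSet {x | P x y k})
    (ω : Cfg) (k : ℕ) (A : Finset ℕ) (h : ∀ n, (run (chT P) n ω ⟨k, A⟩).A.Nonempty) :
    ∃ y ∈ A, ∀ n, (run (chT P) n ω ⟨k, {y}⟩).A.Nonempty := by
  induction A using Finset.induction_on with
  | empty =>
    have := h 0
    simp at this
  | insert a A ha ih =>
    by_cases h1 : ∀ n, (run (chT P) n ω ⟨k, {a}⟩).A.Nonempty
    · exact ⟨a, Finset.mem_insert_self _ _, h1⟩
    · by_cases h2 : ∀ n, (run (chT P) n ω ⟨k, A⟩).A.Nonempty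
      · obtain ⟨y, hy, h3⟩ := ih h2
        exact ⟨y, Finset.mem_insert_of_mem hy, h3⟩
      · exfalso
        push Not at h1 h2
        obtain ⟨n, hn⟩ := h1
        obtain ⟨m, hm⟩ := h2
        have h3 := h (max n m)
        rw [Finset.insert_eq, run_chT_union] at h3
        rcases Finset.union_nonempty.1 h3 with h4 | h4
        · exact (Finset.not_nonempty_iff_eq_empty.2 hn)
            (alive_mono (good_chT hP) (le_max_left n m) ω _ h4)
        · exact (Finset.not_nonempty_iff_eq_empty.2 hm)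
            (alive_mono (good_chT hP) (le_max_right n m) ω _ h4)

variable {α : ℝ} [hα : Fact (0 < α ∧ α < 1)]

/-- exponential bound for the extinction probability -/
lemma dead_le {T : Row → St → St} (hT : Good T) (hval : ∀ x s, ∀ j ∈ (T x s).A, j < (T x s).k)
    {s : ℝ≥0∞} (h : ∀ st : St, (∀ j ∈ st.A, j < st.k) →
      ∫⁻ x, s ^ (T x st).A.card ∂rowLaw α ≤ s ^ st.A.card) (n : ℕ) (st : St)
    (hst : ∀ j ∈ st.A, j < st.k) :
    cfgLaw α {ω | ¬ (run T n ω st).A.Nonempty} ≤ s ^ st.A.card := by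
  induction n generalizing st with
  | zero =>
    by_cases h0 : st.A.Nonempty
    · have : {ω : Cfg | ¬ (run T 0 ω st).A.Nonempty} = ∅ := by
        ext ω
        simp only [run_zero, mem_ofPred_eq, mem_empty_iff_false, iff_false, not_not]
        exact h0
      rw [this, measure_empty]
      exact bot_le
    · rw [Finset.not_nonempty_iff_eq_empty.1 h0, Finset.card_empty, pow_zero]
      exact prob_le_one
  | succ n ih =>
    rw [measure_dead_succ hT]
    exact (lintegral_mono fun x => ih (T x st) (hval x st)).trans (h st hst)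

lemma Ui_ge {T : Row → St → St} (hT : Good T) (hval : ∀ x s, ∀ j ∈ (T x s).A, j < (T x s).k)
    {s : ℝ≥0∞} (h : ∀ st : St, (∀ j ∈ st.A, j < st.k) →
      ∫⁻ x, s ^ (T x st).A.card ∂rowLaw α ≤ s ^ st.A.card) (st : St)
    (hst : ∀ j ∈ st.A, j < st.k) :
    cfgLaw α {ω | ∀ n, (run T n ω st).A.Nonempty}ᶜ ≤ s ^ st.A.card := by
  have h1 : {ω | ∀ n, (run T n ω st).A.Nonempty}ᶜ = ⋃ n, {ω | ¬ (run T n ω st).A.Nonempty} := by
    ext ω
    simp
  have hmono : Monotone fun n => {ω | ¬ (run T n ω st).A.Nonempty} := by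
    intro n m hnm ω hω
    exact fun h => hω (alive_mono hT hnm ω _ h)
  rw [h1, hmono.measure_iUnion]
  exact iSup_le fun n => dead_le hT hval h n st hst

end Pool.Agent.helper885_ct
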