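import Pool.Agent.helper885_ct.GW

/-!
One-row estimates for the two branching processes.
-/

set_option linter.unusedSectionVars false
set_option linter.unusedVariables false

namespace Pool.Agent.helper885_ct

open MeasureTheory Set Measure
open scoped ENNReal

variable {α : ℝ} [hα : Fact (0 < α ∧ α < 1)]

lemma pow_card_filter {ι : Type*} (F : Finset ι) (P : ι → Prop) [DecidablePred P] (s : ℝ≥0∞) :
    s ^ (F.filter P).card = ∏ q ∈ F, if P q then s else 1 := by
  rw [Finset.prod_ite, Finset.prod_const, Finset.prod_const_one, mul_one]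

lemma lintegral_ite_lt {p s : ℝ} (hp0 : 0 ≤ p) (hp1 : p ≤ 1) (hs : 0 ≤ s) :
    ∫⁻ y, (if y < p then ENNReal.ofReal s else 1) ∂unifLaw =
      ENNReal.ofReal (p * s + (1 - p)) := by
  have h1 : ∀ y : ℝ, (if y < p then ENNReal.ofReal s else 1) =
      {y : ℝ | y < p}.indicator (fun _ => ENNReal.ofReal s) y +
        {y : ℝ | p ≤ y}.indicator (fun _ => (1 : ℝ≥0∞)) y := by
    intro y
    by_cases h : y < p
    · have h2 : y ∈ {y : ℝ | y < p} := h
      have h3 : y ∉ {y : ℝ | p ≤ y} := not_le.2 h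
      rw [if_pos h, Set.indicator_of_mem h2, Set.indicator_of_notMem h3, add_zero]
    · have h2 : y ∉ {y : ℝ | y < p} := h
      have h3 : y ∈ {y : ℝ | p ≤ y} := not_lt.1 h
      rw [if_neg h, Set.indicator_of_notMem h2, Set.indicator_of_mem h3, zero_add]
  simp_rw [h1]
  have m1 : MeasurableSet {y : ℝ | y < p} := measurableSet_Iio
  have m2 : MeasurableSet {y : ℝ | p ≤ y} := measurableSet_Ici
  rw [lintegral_add_left (measurable_const.indicator m1),
    lintegral_indicator_const m1, lintegral_indicator_const m2]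
  have h2 : unifLaw {y | y < p} = ENNReal.ofReal p := unifLaw_lt hp1
  have h3 : unifLaw {y | p ≤ y} = ENNReal.ofReal (1 - p) := unifLaw_ge hp0
  rw [h2, h3, one_mul, ← ENNReal.ofReal_mul hs, ← ENNReal.ofReal_add (by positivity)
    (by linarith), mul_comm]

lemma lintegral_ite_ge {p s : ℝ} (hp0 : 0 ≤ p) (hp1 : p ≤ 1) (hs : 0 ≤ s) :
    ∫⁻ y, (if p ≤ y then ENNReal.ofReal s else 1) ∂unifLaw =
      ENNReal.ofReal (p + (1 - p) * s) := by
  have h1 : ∀ y : ℝ, (if p ≤ y then ENNReal.ofReal s else 1) =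
      {y : ℝ | y < p}.indicator (fun _ => (1 : ℝ≥0∞)) y +
        {y : ℝ | p ≤ y}.indicator (fun _ => ENNReal.ofReal s) y := by
    intro y
    by_cases h : y < p
    · have h2 : y ∈ {y : ℝ | y < p} := h
      have h3 : y ∉ {y : ℝ | p ≤ y} := not_le.2 h
      rw [if_neg (not_le.2 h), Set.indicator_of_mem h2, Set.indicator_of_notMem h3, add_zero]
    · have h2 : y ∉ {y : ℝ | y < p} := h
      have h3 : y ∈ {y : ℝ | p ≤ y} := not_lt.1 h
      rw [if_pos (not_lt.1 h), Set.indicator_of_notMem h2, Set.indicator_of_mem h3, zero_add]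
  simp_rw [h1]
  have m1 : MeasurableSet {y : ℝ | y < p} := measurableSet_Iio
  have m2 : MeasurableSet {y : ℝ | p ≤ y} := measurableSet_Ici
  rw [lintegral_add_left (measurable_const.indicator m1),
    lintegral_indicator_const m1, lintegral_indicator_const m2]
  have h2 : unifLaw {y | y < p} = ENNReal.ofReal p := unifLaw_lt hp1
  have h3 : unifLaw {y | p ≤ y} = ENNReal.ofReal (1 - p) := unifLaw_ge hp0
  rw [h2, h3, one_mul, ← ENNReal.ofReal_mul hs, ← ENNReal.ofReal_add (by positivity)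
    (by nlinarith)]
  congr 1
  ring

/-- percolation along tree edges -/
def Ptp (p : ℝ) (x : Row) (y k : ℕ) : Prop := x.2 (Sum.inl (y, k)) < p

lemma ms_Ptp (p : ℝ) (y k : ℕ) : MeasurableSet {x | Ptp p x y k} := ms_up p _

lemma tp_step {p s : ℝ} (hp0 : 0 ≤ p) (hp1 : p ≤ 1) (hs0 : 0 ≤ s) (hs1 : s ≤ 1)
    (hs : (1 - α) / (1 - α * (p * s + (1 - p))) ≤ s) (st : St) (hst : ∀ j ∈ st.A, j < st.k) :
    ∫⁻ x, ENNReal.ofReal s ^ (chT (Ptp p) x st).A.card ∂rowLaw α ≤
      ENNReal.ofReal s ^ st.A.card := by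
  classical
  have ht0 : 0 ≤ p * s + (1 - p) := by nlinarith
  have ht1 : p * s + (1 - p) ≤ 1 := by nlinarith
  have hm : Measurable (fun x : Row => ENNReal.ofReal s ^ (chT (Ptp p) x st).A.card) :=
    (measurable_from_top (f := fun s' : St => ENNReal.ofReal s ^ s'.A.card)).comp
      ((good_chT (ms_Ptp p)).meas st)
  unfold rowLaw
  rw [lintegral_prod _ hm.aemeasurable]
  have h1 : ∀ ξ : ℕ → ℕ, ∫⁻ u, ENNReal.ofReal s ^ (chT (Ptp p) (ξ, u) st).A.card
      ∂(infinitePi fun _ : REdge => unifLaw) =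
        ∏ y ∈ st.A, ENNReal.ofReal (p * s + (1 - p)) ^ ξ y := by
    intro ξ
    have h2 : ∀ u : REdge → ℝ, ENNReal.ofReal s ^ (chT (Ptp p) (ξ, u) st).A.card =
        ∏ e ∈ (prs ξ st.A).map ⟨fun q => (Sum.inl q : REdge), Sum.inl_injective⟩,
          (if u e < p then ENNReal.ofReal s else 1) := by
      intro u
      rw [card_chT hst, pow_card_filter, Finset.prod_map]
      rfl
    simp_rw [h2]
    rw [lintegral_prod_coord unifLaw _ (fun _ y => if y < p then ENNReal.ofReal s else 1)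
      (fun _ => Measurable.ite measurableSet_Iio measurable_const measurable_const),
      Finset.prod_map]
    simp only [lintegral_ite_lt hp0 hp1 hs0]
    rw [prod_prs ξ st.A (fun _ _ => ENNReal.ofReal (p * s + (1 - p)))]
    simp
  simp_rw [h1]
  rw [lintegral_prod_coord (geomLaw α) st.A (fun _ n => ENNReal.ofReal (p * s + (1 - p)) ^ n)
    (fun _ => measurable_from_top), Finset.prod_const, lintegral_geomLaw_pow ht0 ht1]
  gcongr

/-- the cut process: the `k`-th child is reached by a closed dual path crossing the first `k`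
upward edges and then the horizontal edge on the left of this child -/
def Pcut (p : ℝ) (x : Row) (y k : ℕ) : Prop :=
  (1 ≤ k ∧ ∀ c < k, p ≤ x.2 (Sum.inl (y, c))) ∧ p ≤ x.2 (Sum.inr (rS x y + (k - 1)))

lemma ms_Pcut (p : ℝ) (y k : ℕ) : MeasurableSet {x | Pcut p x y k} := by
  have hc : ∀ e, MeasurableSet {x : Row | p ≤ x.2 e} := by
    intro e
    have : Measurable (fun x : Row => x.2 e) := by fun_prop
    exact this measurableSet_Ici
  have h1 : {x : Row | Pcut p x y k} = ({x | 1 ≤ k} ∩ ⋂ c ∈ {c | c < k},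
      {x : Row | p ≤ x.2 (Sum.inl (y, c))}) ∩
        ⋃ m, ({x : Row | rS x y = m} ∩ {x : Row | p ≤ x.2 (Sum.inr (m + (k - 1)))}) := by
    ext x
    simp [Pcut]
  rw [h1]
  refine ((MeasurableSet.const _).inter (MeasurableSet.biInter (Set.to_countable _)
    fun c _ => hc _)).inter (MeasurableSet.iUnion fun m => ?_)
  exact (ms1 (measurable_rS y) (fun a => a = m)).inter (hc _)

open Classical in
/-- weight of a run of closed edges -/
noncomputable def Frun (p : ℝ) (t : ℝ≥0∞) (n : ℕ) (u : ℕ → ℝ) : ℝ≥0∞ :=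
  ∏ k ∈ Finset.range n, if 1 ≤ k ∧ ∀ c < k, p ≤ u c then t else 1

lemma ms_runcl (p : ℝ) (n : ℕ) : MeasurableSet {u : ℕ → ℝ | ∀ c < n, p ≤ u c} := by
  have : {u : ℕ → ℝ | ∀ c < n, p ≤ u c} = ⋂ c ∈ {c | c < n}, {u : ℕ → ℝ | p ≤ u c} := by
    ext u; simp
  rw [this]
  exact MeasurableSet.biInter (Set.to_countable _) fun c _ =>
    (measurable_pi_apply c : Measurable fun u : ℕ → ℝ => u c) measurableSet_Ici

lemma measurable_Frun (p : ℝ) (t : ℝ≥0∞) (n : ℕ) : Measurable (Frun p t n) := by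
  classical
  unfold Frun
  refine Finset.measurable_fun_prod _ fun k _ => Measurable.ite ?_ measurable_const
    measurable_const
  exact (MeasurableSet.const _).inter (ms_runcl p k)

/-- expected weight of a run -/
noncomputable def phir (q t : ℝ) (n : ℕ) : ℝ := 1 - (1 - t) * q * (1 - (t * q) ^ (n - 1)) / (1 - t * q)

lemma phir_zero (q t : ℝ) : phir q t 0 = 1 := by simp [phir]
lemma phir_one (q t : ℝ) : phir q t 1 = 1 := by simp [phir]

lemma phir_succ {q t : ℝ} (h : 1 - t * q ≠ 0) {n : ℕ} (hn : 1 ≤ n) :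
    phir q t (n + 1) + (1 - t) * t ^ (n - 1) * q ^ n = phir q t n := by
  obtain ⟨m, rfl⟩ : ∃ m, n = m + 1 := ⟨n - 1, by omega⟩
  simp only [phir, Nat.add_sub_cancel]
  field_simp
  ring

lemma phir_nonneg {q t : ℝ} (hq0 : 0 ≤ q) (hq1 : q < 1) (ht0 : 0 ≤ t) (ht1 : t ≤ 1) (n : ℕ) :
    0 ≤ phir q t n := by
  have h1 : 0 < 1 - t * q := by nlinarith
  have h2 : 0 ≤ (t * q) ^ (n - 1) := by positivity
  unfold phir
  rw [sub_nonneg, div_le_one h1]
  have h3 : (1 - t) * q * (1 - (t * q) ^ (n - 1)) ≤ (1 - t) * q * 1 := by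
    have : 0 ≤ (1 - t) * q := mul_nonneg (by linarith) hq0
    nlinarith
  nlinarith

lemma lintegral_Frun {p t : ℝ} (hp0 : 0 < p) (hp1 : p ≤ 1) (ht0 : 0 ≤ t) (ht1 : t ≤ 1) (n : ℕ) :
    ∫⁻ u, Frun p (ENNReal.ofReal t) n u ∂(infinitePi fun _ : ℕ => unifLaw) =
      ENNReal.ofReal (phir (1 - p) t n) := by
  have hne : 1 - t * (1 - p) ≠ 0 := by
    have : t * (1 - p) < 1 := by nlinarith
    linarith
  rcases Nat.eq_zero_or_pos n with rfl | hn
  · simp [Frun, phir_zero]
  induction n, hn using Nat.le_induction with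
  | base =>
    have : ∀ u, Frun p (ENNReal.ofReal t) 1 u = 1 := by
      intro u; simp [Frun]
    simp only [this]
    simp [phir_one]
  | succ n hn ih =>
    have hpt : ∀ u : ℕ → ℝ, Frun p (ENNReal.ofReal t) (n + 1) u +
        {u : ℕ → ℝ | ∀ c < n, p ≤ u c}.indicator
          (fun _ => ENNReal.ofReal ((1 - t) * t ^ (n - 1))) u =
            Frun p (ENNReal.ofReal t) n u := by
      classical
      intro u
      by_cases h : ∀ c < n, p ≤ u c
      · have hmem : u ∈ {u : ℕ → ℝ | ∀ c < n, p ≤ u c} := h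
        rw [Set.indicator_of_mem hmem]
        have hF : Frun p (ENNReal.ofReal t) n u = ENNReal.ofReal t ^ (n - 1) := by
          obtain ⟨m, rfl⟩ : ∃ m, n = m + 1 := ⟨n - 1, by omega⟩
          unfold Frun
          rw [Finset.prod_range_succ']
          simp only [Nat.add_sub_cancel]
          have h2 : ∀ k ∈ Finset.range m, (if 1 ≤ k + 1 ∧ ∀ c < k + 1, p ≤ u c then
              ENNReal.ofReal t else 1) = ENNReal.ofReal t := by
            intro k hk
            rw [Finset.mem_range] at hk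
            rw [if_pos]
            exact ⟨by omega, fun c hc => h c (by omega)⟩
          rw [Finset.prod_congr rfl h2]
          simp
        have hF1 : Frun p (ENNReal.ofReal t) (n + 1) u =
            ENNReal.ofReal t ^ (n - 1) * ENNReal.ofReal t := by
          rw [← hF]
          unfold Frun
          rw [Finset.prod_range_succ, if_pos ⟨hn, h⟩]
        rw [hF1, hF, ← ENNReal.ofReal_pow ht0, ← ENNReal.ofReal_mul (by positivity),
          ← ENNReal.ofReal_add (by positivity) (mul_nonneg (by linarith) (by positivity))]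
        congr 1
        ring
      · have hmem : u ∉ {u : ℕ → ℝ | ∀ c < n, p ≤ u c} := h
        rw [Set.indicator_of_notMem hmem, add_zero]
        unfold Frun
        rw [Finset.prod_range_succ, if_neg (by tauto), mul_one]
    have h1 : ∫⁻ u, Frun p (ENNReal.ofReal t) (n + 1) u ∂(infinitePi fun _ : ℕ => unifLaw) +
        ENNReal.ofReal ((1 - t) * t ^ (n - 1) * (1 - p) ^ n) =
          ENNReal.ofReal (phir (1 - p) t n) := by
      rw [← ih]
      simp_rw [← hpt]
      rw [lintegral_add_right _ (measurable_const.indicator (ms_runcl p n)),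
        lintegral_indicator_const (ms_runcl p n)]
      congr 1
      have h2 := measure_all_coord unifLaw (Finset.range n) {y | p ≤ y} measurableSet_Ici
      have h3 : unifLaw {y | p ≤ y} = ENNReal.ofReal (1 - p) := unifLaw_ge hp0.le
      have h4 : {f : ℕ → ℝ | ∀ i ∈ Finset.range n, f i ∈ {y | p ≤ y}} =
          {u : ℕ → ℝ | ∀ c < n, p ≤ u c} := by
        ext u; simp
      rw [h4, h3, Finset.card_range] at h2
      rw [h2, ← ENNReal.ofReal_pow (by linarith), ← ENNReal.ofReal_mul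
        (mul_nonneg (by linarith) (by positivity))]
    have h5 := phir_succ (q := 1 - p) (t := t) hne hn
    have h6 : 0 ≤ phir (1 - p) t (n + 1) :=
      phir_nonneg (by linarith) (by linarith) ht0 ht1 _
    have h7 : ENNReal.ofReal (phir (1 - p) t (n + 1)) +
        ENNReal.ofReal ((1 - t) * t ^ (n - 1) * (1 - p) ^ n) =
          ENNReal.ofReal (phir (1 - p) t n) := by
      rw [← ENNReal.ofReal_add h6, h5]
      exact mul_nonneg (mul_nonneg (by linarith) (by positivity))
        (pow_nonneg (by linarith) _)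
    rw [← h7] at h1
    exact (ENNReal.add_left_inj ENNReal.ofReal_ne_top).1 h1

/-- expected weight over the offspring law -/
lemma lintegral_phir {q t : ℝ} (hq0 : 0 ≤ q) (hq1 : q < 1) (ht0 : 0 ≤ t) (ht1 : t ≤ 1) :
    ∫⁻ n, ENNReal.ofReal (phir q t n) ∂geomLaw α =
      ENNReal.ofReal (1 - (1 - t) * q * α ^ 2 / (1 - α * t * q)) := by
  have hα0 := hα.out.1
  have hα1 := hα.out.2
  have h1 : 0 < 1 - t * q := by nlinarith
  have htq : 0 ≤ t * q := by positivity
  have htq1 : t * q < 1 := by nlinarith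
  have h2 : α * (t * q) < 1 := by nlinarith
  have h2' : 0 ≤ α * (t * q) := by positivity
  rw [lintegral_geomLaw]
  have h3 : ∀ k : ℕ, ENNReal.ofReal (α ^ k * (1 - α)) * ENNReal.ofReal (phir q t k) =
      ENNReal.ofReal (α ^ k * (1 - α) * phir q t k) := by
    intro k
    rw [← ENNReal.ofReal_mul]
    exact mul_nonneg (by positivity) (by linarith)
  simp_rw [h3]
  have hsum : HasSum (fun k : ℕ => α ^ k * (1 - α) * phir q t k)
      (1 - (1 - t) * q * α ^ 2 / (1 - α * t * q)) := by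
    rw [← hasSum_nat_add_iff' 1]
    have g1 := (hasSum_geometric_of_lt_one hα0.le hα1).mul_left
      (1 - (1 - t) * q / (1 - t * q))
    have g2 := (hasSum_geometric_of_lt_one h2' h2).mul_left ((1 - t) * q / (1 - t * q))
    have g3 := (g1.add g2).mul_left (α * (1 - α))
    have n1 : 1 - t * q ≠ 0 := h1.ne'
    have n2 : 1 - α ≠ 0 := by linarith
    have n3 : 1 - α * (t * q) ≠ 0 := by linarith
    have n4 : 1 - α * t * q ≠ 0 := by rw [mul_assoc]; exact n3
    have e1 : (fun k : ℕ => α ^ (k + 1) * (1 - α) * phir q t (k + 1)) =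
        fun i => α * (1 - α) * ((1 - (1 - t) * q / (1 - t * q)) * α ^ i +
          (1 - t) * q / (1 - t * q) * (α * (t * q)) ^ i) := by
      funext k
      simp only [phir, Nat.add_sub_cancel]
      field_simp
      ring
    have e2 : 1 - (1 - t) * q * α ^ 2 / (1 - α * t * q) -
        ∑ i ∈ Finset.range 1, α ^ i * (1 - α) * phir q t i =
          α * (1 - α) * ((1 - (1 - t) * q / (1 - t * q)) * (1 - α)⁻¹ +
            (1 - t) * q / (1 - t * q) * (1 - α * (t * q))⁻¹) := by
      simp only [Finset.range_one, Finset.sum_singleton, pow_zero, phir_zero]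
      have n5 : 1 - α * (t * q) = 1 - α * t * q := by ring
      rw [n5]
      obtain ⟨D, hD⟩ : ∃ D, D = 1 - α * t * q := ⟨_, rfl⟩
      rw [← hD] at n4 ⊢
      obtain ⟨E, hE⟩ : ∃ E, E = 1 - t * q := ⟨_, rfl⟩
      rw [← hE] at n1 ⊢
      field_simp
      have hD' : α * t * q = 1 - D := by linarith
      have hE' : t * q = 1 - E := by linarith
      have hDE : D = 1 - α * (1 - E) := by rw [hD, ← hE']; ring
      rw [hDE]
      ring_nf
    rw [e1, e2]
    exact g3
  rw [← ENNReal.ofReal_tsum_of_nonneg, hsum.tsum_eq]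
  · intro k
    exact mul_nonneg (mul_nonneg (by positivity) (by linarith))
      (phir_nonneg hq0 hq1 ht0 ht1 k)
  · exact hsum.summable

/-- integrating the labels of a row in two stages -/
lemma lintegral_sum_split {f : (REdge → ℝ) → ℝ≥0∞} (hf : Measurable f) :
    ∫⁻ u, f u ∂(infinitePi fun _ : REdge => unifLaw) =
      ∫⁻ u₁, ∫⁻ u₂, f (Sum.elim u₁ u₂) ∂(infinitePi fun _ : ℕ => unifLaw)
        ∂(infinitePi fun _ : ℕ × ℕ => unifLaw) := by
  have h1 := glue_measurePreserving unifLaw (Equiv.refl (( ℕ × ℕ) ⊕ ℕ))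
  have h2 : Measurable (fun q : (ℕ × ℕ → ℝ) × (ℕ → ℝ) =>
      f (glue (Equiv.refl ((ℕ × ℕ) ⊕ ℕ)) q)) := hf.comp h1.measurable
  rw [← h1.lintegral_comp hf, lintegral_prod _ h2.aemeasurable]
  rfl

lemma cut_inner {p s : ℝ} (hp0 : 0 < p) (hp1 : p ≤ 1) (hs0 : 0 ≤ s) (hs1 : s ≤ 1) (st : St)
    (hst : ∀ j ∈ st.A, j < st.k) (ξ : ℕ → ℕ) :
    ∫⁻ u, ENNReal.ofReal s ^ (chT (Pcut p) (ξ, u) st).A.card
      ∂(infinitePi fun _ : REdge => unifLaw) =
        ∏ y ∈ st.A, ENNReal.ofReal (phir (1 - p) (p + (1 - p) * s) (ξ y)) := by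
  classical
  set t := p + (1 - p) * s with ht
  have ht0 : 0 ≤ t := by nlinarith
  have ht1 : t ≤ 1 := by nlinarith
  have hm : Measurable (fun x : Row => ENNReal.ofReal s ^ (chT (Pcut p) x st).A.card) :=
    (measurable_from_top (f := fun s' : St => ENNReal.ofReal s ^ s'.A.card)).comp
      ((good_chT (ms_Pcut p)).meas st)
  have hmξ : Measurable (fun u : REdge → ℝ =>
      ENNReal.ofReal s ^ (chT (Pcut p) (ξ, u) st).A.card) :=
    hm.comp (measurable_const.prodMk measurable_id)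
  rw [lintegral_sum_split hmξ]
  have hin : ∀ u₁ : ℕ × ℕ → ℝ, ∫⁻ u₂, ENNReal.ofReal s ^
      (chT (Pcut p) (ξ, Sum.elim u₁ u₂) st).A.card ∂(infinitePi fun _ : ℕ => unifLaw) =
        ∏ y ∈ st.A, Frun p (ENNReal.ofReal t) (ξ y) (fun c => u₁ (y, c)) := by
    intro u₁
    set J := (prs ξ st.A).filter fun q => 1 ≤ q.2 ∧ ∀ c < q.2, p ≤ u₁ (q.1, c) with hJ
    set pos : ℕ × ℕ → ℕ := fun q => (∑ j ∈ Finset.range q.1, ξ j) + (q.2 - 1) with hpos
    have hinj : ∀ a ∈ J, ∀ b ∈ J, pos a = pos b → a = b := by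
      intro a ha b hb hab
      rw [hJ, Finset.mem_filter, mem_prs] at ha hb
      have := rS_unique (x := (ξ, Sum.elim u₁ (fun _ => 0))) (i := a.1) (k := a.2 - 1)
        (i' := b.1) (k' := b.2 - 1) (by simp only; omega) (by simp only; omega) hab
      exact Prod.ext this.1 (by omega)
    have h2 : ∀ u₂ : ℕ → ℝ, ENNReal.ofReal s ^ (chT (Pcut p) (ξ, Sum.elim u₁ u₂) st).A.card =
        ∏ e ∈ J.image pos, (if p ≤ u₂ e then ENNReal.ofReal s else 1) := by
      intro u₂
      rw [Finset.prod_image hinj, card_chT hst, ← pow_card_filter]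
      congr 2
      ext q
      rw [Finset.mem_filter, hJ, Finset.mem_filter, Finset.mem_filter]
      unfold Pcut
      constructor
      · rintro ⟨h3, ⟨h4, h5⟩, h6⟩
        exact ⟨⟨h3, h4, h5⟩, h6⟩
      · rintro ⟨⟨h3, h4, h5⟩, h6⟩
        exact ⟨h3, ⟨h4, h5⟩, h6⟩
    simp_rw [h2]
    rw [lintegral_prod_coord unifLaw _ (fun _ y => if p ≤ y then ENNReal.ofReal s else 1)
      (fun _ => Measurable.ite measurableSet_Ici measurable_const measurable_const)]
    simp only [lintegral_ite_ge hp0.le hp1 hs0]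
    rw [Finset.prod_const, Finset.card_image_of_injOn hinj, ← ht, hJ, pow_card_filter,
      prod_prs ξ st.A (fun y k => if 1 ≤ k ∧ ∀ c < k, p ≤ u₁ (y, c) then ENNReal.ofReal t else 1)]
    refine Finset.prod_congr rfl fun y _ => ?_
    unfold Frun
    refine Finset.prod_congr rfl fun k _ => ?_
    congr
  simp_rw [hin]
  have hcurry := Measure.infinitePi_map_curry (ι := ℕ) (κ := ℕ) (fun _ _ => unifLaw)
  have hG : Measurable (fun v : ℕ → ℕ → ℝ =>
      ∏ y ∈ st.A, Frun p (ENNReal.ofReal t) (ξ y) (v y)) :=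
    Finset.measurable_fun_prod _ fun y _ =>
      (measurable_Frun p (ENNReal.ofReal t) (ξ y)).comp (measurable_pi_apply y)
  calc ∫⁻ u₁, ∏ y ∈ st.A, Frun p (ENNReal.ofReal t) (ξ y) (fun c => u₁ (y, c))
        ∂(infinitePi fun _ : ℕ × ℕ => unifLaw)
      = ∫⁻ v, ∏ y ∈ st.A, Frun p (ENNReal.ofReal t) (ξ y) (v y)
          ∂((infinitePi fun _ : ℕ × ℕ => unifLaw).map (MeasurableEquiv.curry ℕ ℕ ℝ)) := by
        rw [lintegral_map hG (MeasurableEquiv.measurable _)]
        rfl
    _ = ∫⁻ v, ∏ y ∈ st.A, Frun p (ENNReal.ofReal t) (ξ y) (v y)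
          ∂(infinitePi fun _ : ℕ => infinitePi fun _ : ℕ => unifLaw) := by
        rw [hcurry]
    _ = ∏ y ∈ st.A, ∫⁻ w, Frun p (ENNReal.ofReal t) (ξ y) w ∂(infinitePi fun _ : ℕ => unifLaw) :=
        lintegral_prod_coord (infinitePi fun _ : ℕ => unifLaw) st.A
          (fun y w => Frun p (ENNReal.ofReal t) (ξ y) w) (fun y => measurable_Frun _ _ _)
    _ = _ := Finset.prod_congr rfl fun y _ => lintegral_Frun hp0 hp1 ht0 ht1 (ξ y)

lemma cut_step {p s : ℝ} (hp0 : 0 < p) (hp1 : p ≤ 1) (hs0 : 0 ≤ s) (hs1 : s ≤ 1)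
    (hs : 1 - (1 - (p + (1 - p) * s)) * (1 - p) * α ^ 2 /
      (1 - α * (p + (1 - p) * s) * (1 - p)) ≤ s) (st : St) (hst : ∀ j ∈ st.A, j < st.k) :
    ∫⁻ x, ENNReal.ofReal s ^ (chT (Pcut p) x st).A.card ∂rowLaw α ≤
      ENNReal.ofReal s ^ st.A.card := by
  have ht0 : 0 ≤ p + (1 - p) * s := by nlinarith
  have ht1 : p + (1 - p) * s ≤ 1 := by nlinarith
  have hm : Measurable (fun x : Row => ENNReal.ofReal s ^ (chT (Pcut p) x st).A.card) :=
    (measurable_from_top (f := fun s' : St => ENNReal.ofReal s ^ s'.A.card)).comp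
      ((good_chT (ms_Pcut p)).meas st)
  unfold rowLaw
  rw [lintegral_prod _ hm.aemeasurable]
  simp_rw [cut_inner hp0 hp1 hs0 hs1 st hst]
  rw [lintegral_prod_coord (geomLaw α) st.A
    (fun _ n => ENNReal.ofReal (phir (1 - p) (p + (1 - p) * s) n))
    (fun _ => measurable_from_top), Finset.prod_const,
    lintegral_phir (by linarith) (by linarith) ht0 ht1]
  gcongr

end Pool.Agent.helper885_ct
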