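import Pool.Agent.helper885_ct.Rot
import Pool.Agent.helper885_ct.Coord

/-!
The level chain cut open, and its comparison with the cyclic chain.
-/

set_option linter.unusedSectionVars false

namespace Pool.Agent.helper885_ct

open MeasureTheory Set Measure
open scoped ENNReal

/-- directly reached, without going around -/
def ldirect (p : ℝ) (x : Row) (s : St) (j : ℕ) : Prop :=
  j < rS x s.k ∧ ∃ i ∈ s.A, i < s.k ∧ ∃ c ≤ x.1 i, x.2 (Sum.inl (i, c)) < p ∧ j = rS x i + c

/-- open horizontal edge, without the closing edge of the level -/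
def lnext (p : ℝ) (x : Row) (m a b : ℕ) : Prop := b < m ∧ b = a + 1 ∧ x.2 (Sum.inr a) < p

/-- open horizontal edge, without the closing edge of the level -/
def ladj (p : ℝ) (x : Row) (m a b : ℕ) : Prop := lnext p x m a b ∨ lnext p x m b a

open Classical in
/-- the one-row transition of the cut chain -/
noncomputable def lnxt (p : ℝ) (x : Row) (s : St) : St :=
  ⟨rS x s.k, (Finset.range (rS x s.k)).filter fun j =>
    ∃ d, ldirect p x s d ∧ Relation.ReflTransGen (ladj p x (rS x s.k)) d j⟩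

lemma lnxt_k (p : ℝ) (x : Row) (s : St) : (lnxt p x s).k = rS x s.k := rfl

lemma mem_lnxt {p : ℝ} {x : Row} {s : St} {j : ℕ} : j ∈ (lnxt p x s).A ↔ j < rS x s.k ∧
    ∃ d, ldirect p x s d ∧ Relation.ReflTransGen (ladj p x (rS x s.k)) d j := by
  classical
  simp [lnxt]

lemma ms_ldirect (p : ℝ) (s : St) (j : ℕ) : MeasurableSet {x : Row | ldirect p x s j} := by
  have h1 : MeasurableSet {x : Row | j < rS x s.k} := ms1 (measurable_rS s.k) (fun m => j < m)
  have h2 : ∀ i c : ℕ, MeasurableSet {x : Row | c ≤ x.1 i} := by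
    intro i c
    have : Measurable (fun x : Row => x.1 i) := by fun_prop
    exact ms1 this (fun m => c ≤ m)
  have h3 : ∀ i c : ℕ, MeasurableSet {x : Row | j = rS x i + c} := fun i c =>
    ms1 (measurable_rS i) (fun a => j = a + c)
  have : {x : Row | ldirect p x s j} = {x | j < rS x s.k} ∩ ⋃ i ∈ {i | i ∈ s.A ∧ i < s.k}, ⋃ c,
      ({x : Row | c ≤ x.1 i} ∩ ({x : Row | x.2 (Sum.inl (i, c)) < p} ∩
        {x : Row | j = rS x i + c})) := by
    ext x
    simp only [ldirect, mem_ofPred_eq, mem_inter_iff, mem_iUnion]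
    constructor
    · rintro ⟨h, i, hi, hik, c, hc, hp, hj⟩
      exact ⟨h, i, ⟨hi, hik⟩, c, hc, hp, hj⟩
    · rintro ⟨h, i, ⟨hi, hik⟩, c, hc, hp, hj⟩
      exact ⟨h, i, hi, hik, c, hc, hp, hj⟩
  rw [this]
  refine h1.inter (MeasurableSet.biUnion (Set.to_countable _) fun i _ => MeasurableSet.iUnion
    fun c => (h2 i c).inter ((ms_up p _).inter (h3 i c)))

lemma ms_lnext (p : ℝ) (k a b : ℕ) : MeasurableSet {x : Row | lnext p x (rS x k) a b} :=
  (ms1 (measurable_rS k) (fun m => b < m)).inter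
    ((MeasurableSet.const _).inter (ms_up p _))

lemma ms_ladj (p : ℝ) (k a b : ℕ) : MeasurableSet {x : Row | ladj p x (rS x k) a b} :=
  (ms_lnext p k a b).union (ms_lnext p k b a)

lemma ms_mem_lnxt (p : ℝ) (s : St) (j : ℕ) : MeasurableSet {x : Row | j ∈ (lnxt p x s).A} := by
  have : {x : Row | j ∈ (lnxt p x s).A} = {x | j < rS x s.k} ∩ ⋃ d, ({x | ldirect p x s d} ∩
      {x | Relation.ReflTransGen (ladj p x (rS x s.k)) d j}) := by
    ext x
    simp [mem_lnxt]
  rw [this]
  exact (ms1 (measurable_rS s.k) (fun m => j < m)).inter (MeasurableSet.iUnion fun d =>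
    (ms_ldirect p s d).inter (ms_reflTransGen (fun a b => ms_ladj p s.k a b) d j))

lemma good_lnxt (p : ℝ) : Good (lnxt p) where
  meas := fun s => measurable_St_of (measurable_rS s.k) (ms_mem_lnxt p s)
  empty := by
    rintro x s h ⟨j, hj⟩
    obtain ⟨_, d, ⟨_, i, hi, _⟩, _⟩ := mem_lnxt.1 hj
    exact h ⟨i, hi⟩
  kk := lnxt_k p

/-- the cut chain on the first vertices is dominated by the cyclic chain -/
def emb (s s' : St) : Prop := s.k ≤ s'.k ∧ s.A ⊆ s'.A

lemma emb_nxt (p : ℝ) (x : Row) (s s' : St) (h : emb s s') : emb (lnxt p x s) (nxt p x s') := by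
  have hm : rS x s.k ≤ rS x s'.k := rS_mono x h.1
  refine ⟨hm, fun j hj => ?_⟩
  obtain ⟨hj1, d, ⟨hd1, i, hi, hik, c, hc, hp, hd2⟩, hpath⟩ := mem_lnxt.1 hj
  refine mem_nxt.2 ⟨by omega, d, ⟨by omega, i, h.2 hi, by have := h.1; omega, c, hc, hp, ?_⟩, ?_⟩
  · rw [Nat.mod_eq_of_lt (by omega)]
    exact hd2
  · refine rtg_map id ?_ hpath
    intro a b hab
    rcases hab with ⟨h1, h2, h3⟩ | ⟨h1, h2, h3⟩
    · left
      refine ⟨by simp only [id]; omega, ?_, h3⟩
      simp only [id]
      rw [Nat.mod_eq_of_lt (by omega)]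
      exact h2
    · right
      refine ⟨by simp only [id]; omega, ?_, h3⟩
      simp only [id]
      rw [Nat.mod_eq_of_lt (by omega)]
      exact h2

section cut

variable {p : ℝ} {x : Row} {k a b : ℕ}

/-- if the level is cut on both sides, then going around has no effect -/
lemma nxt_eq_lnxt {A : Finset ℕ} (hA : ∀ j ∈ A, a ≤ j ∧ j + b < k) {eL eR : ℕ}
    (hL : eL < rS x a) (hLc : ¬ x.2 (Sum.inr eL) < p)
    (hR : rS x (k - b) ≤ eR) (hR' : eR < rS x k) (hRc : ¬ x.2 (Sum.inr eR) < p) :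
    nxt p x ⟨k, A⟩ = lnxt p x ⟨k, A⟩ ∧ ∀ j ∈ (nxt p x ⟨k, A⟩).A, eL + 1 ≤ j ∧ j ≤ eR := by
  have hd : ∀ d, direct p x ⟨k, A⟩ d → ldirect p x ⟨k, A⟩ d ∧ eL + 1 ≤ d ∧ d ≤ eR := by
    rintro d ⟨h1, i, hi, hik, c, hc, hp, hd⟩
    have h2 := hA i hi
    have h3 : rS x i + c ≤ rS x (i + 1) := by rw [rS_succ]; omega
    have h4 : rS x (i + 1) ≤ rS x (k - b) := rS_mono x (by omega)
    have h5 : rS x a ≤ rS x i := rS_mono x h2.1
    have h6 : d = rS x i + c := by
      rw [hd]
      exact Nat.mod_eq_of_lt (by simp only; omega)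
    exact ⟨⟨h1, i, hi, hik, c, hc, hp, h6⟩, by omega, by omega⟩
  have hpath : ∀ d j, eL + 1 ≤ d → d ≤ eR →
      Relation.ReflTransGen (hadj p x (rS x k)) d j →
        Relation.ReflTransGen (ladj p x (rS x k)) d j ∧ eL + 1 ≤ j ∧ j ≤ eR := by
    intro d j hd1 hd2 h
    induction h with
    | refl => exact ⟨Relation.ReflTransGen.refl, hd1, hd2⟩
    | @tail u v _ huv ih =>
      obtain ⟨ih1, ih2, ih3⟩ := ih
      rcases huv with ⟨h1, h2, h3⟩ | ⟨h1, h2, h3⟩
      · have h4 : u ≠ eR := by rintro rfl; exact hRc h3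
        have h5 : (u + 1) % rS x k = u + 1 := Nat.mod_eq_of_lt (by omega)
        rw [h5] at h2
        exact ⟨ih1.tail (Or.inl ⟨by omega, h2, h3⟩), by omega, by omega⟩
      · have h4 : v ≠ eL := by rintro rfl; exact hLc h3
        by_cases h5 : v + 1 < rS x k
        · rw [Nat.mod_eq_of_lt h5] at h2
          exact ⟨ih1.tail (Or.inr ⟨by omega, h2, h3⟩), by omega, by omega⟩
        · have h6 : v + 1 = rS x k := by omega
          rw [h6, Nat.mod_self] at h2
          omega
  have hmem : (nxt p x ⟨k, A⟩).A = (lnxt p x ⟨k, A⟩).A := by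
    ext j
    rw [mem_nxt, mem_lnxt]
    constructor
    · rintro ⟨h1, d, h2, h3⟩
      obtain ⟨h4, h5, h6⟩ := hd d h2
      exact ⟨h1, d, h4, (hpath d j h5 h6 h3).1⟩
    · intro h
      have := (emb_nxt p x ⟨k, A⟩ ⟨k, A⟩ ⟨le_rfl, Finset.Subset.refl _⟩).2 (mem_lnxt.2 h)
      exact mem_nxt.1 this
  constructor
  · have h1 : (nxt p x ⟨k, A⟩).k = (lnxt p x ⟨k, A⟩).k := rfl
    cases h2 : nxt p x ⟨k, A⟩
    cases h3 : lnxt p x ⟨k, A⟩
    simp_all
  · intro j hj
    obtain ⟨h1, d, h2, h3⟩ := mem_nxt.1 hj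
    obtain ⟨h4, h5, h6⟩ := hd d h2
    exact (hpath d j h5 h6 h3).2

end cut

/-- error term of an open run -/
noncomputable def runErr (p : ℝ) (L : ℝ≥0∞) (G : ℕ) (pos : ℕ → ℕ) (u : REdge → ℝ) : ℝ≥0∞ :=
  (∑ t ∈ Finset.range G, {u : REdge → ℝ | ∀ i < t, u (Sum.inr (pos i)) < p}.indicator
    (fun _ => L ^ (G - 1 - t)) u) +
    {u : REdge → ℝ | ∀ i < G, u (Sum.inr (pos i)) < p}.indicator (fun _ => 1) u

lemma runErr_cases (p : ℝ) (L : ℝ≥0∞) (G : ℕ) (pos : ℕ → ℕ) (u : REdge → ℝ) :
    1 ≤ runErr p L G pos u ∨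
      ∃ t < G, ¬ u (Sum.inr (pos t)) < p ∧ L ^ (G - 1 - t) ≤ runErr p L G pos u := by
  classical
  by_cases h : ∀ i < G, u (Sum.inr (pos i)) < p
  · left
    unfold runErr
    have : {u : REdge → ℝ | ∀ i < G, u (Sum.inr (pos i)) < p}.indicator
        (fun _ => (1 : ℝ≥0∞)) u = 1 := by
      have hm : u ∈ {u : REdge → ℝ | ∀ i < G, u (Sum.inr (pos i)) < p} := h
      exact Set.indicator_of_mem hm _
    rw [this]
    exact le_add_self
  · right
    push Not at h
    obtain ⟨i, hiG, hi⟩ := h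
    have hex : ∃ t, t < G ∧ p ≤ u (Sum.inr (pos t)) := ⟨i, hiG, hi⟩
    refine ⟨Nat.find hex, (Nat.find_spec hex).1, not_lt.2 (Nat.find_spec hex).2, ?_⟩
    have hall : ∀ i < Nat.find hex, u (Sum.inr (pos i)) < p := by
      intro i hi
      have := Nat.find_min hex hi
      by_contra hc
      exact this ⟨hi.trans (Nat.find_spec hex).1, not_lt.1 hc⟩
    unfold runErr
    have h1 : {u : REdge → ℝ | ∀ i < Nat.find hex, u (Sum.inr (pos i)) < p}.indicator
        (fun _ => L ^ (G - 1 - Nat.find hex)) u = L ^ (G - 1 - Nat.find hex) := by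
      have hm : u ∈ {u : REdge → ℝ | ∀ i < Nat.find hex, u (Sum.inr (pos i)) < p} := hall
      exact Set.indicator_of_mem hm _
    calc L ^ (G - 1 - Nat.find hex) = {u : REdge → ℝ | ∀ i < Nat.find hex,
          u (Sum.inr (pos i)) < p}.indicator (fun _ => L ^ (G - 1 - Nat.find hex)) u := h1.symm
      _ ≤ ∑ t ∈ Finset.range G, {u : REdge → ℝ | ∀ i < t, u (Sum.inr (pos i)) < p}.indicator
          (fun _ => L ^ (G - 1 - t)) u :=
        Finset.single_le_sum (f := fun t => {u : REdge → ℝ | ∀ i < t,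
          u (Sum.inr (pos i)) < p}.indicator (fun _ => L ^ (G - 1 - t)) u) (fun _ _ => bot_le)
          (Finset.mem_range.2 (Nat.find_spec hex).1)
      _ ≤ _ := le_self_add

lemma ms_runset (p : ℝ) (t : ℕ) (pos : ℕ → ℕ) :
    MeasurableSet {u : REdge → ℝ | ∀ i < t, u (Sum.inr (pos i)) < p} := by
  have : {u : REdge → ℝ | ∀ i < t, u (Sum.inr (pos i)) < p} =
      ⋂ i ∈ {i | i < t}, {u : REdge → ℝ | u (Sum.inr (pos i)) < p} := by
    ext u; simp
  rw [this]
  refine MeasurableSet.biInter (Set.to_countable _) fun i _ => ?_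
  exact (measurable_pi_apply (Sum.inr (pos i)) : Measurable fun u : REdge → ℝ => _)
    measurableSet_Iio

lemma measurable_runErr (p : ℝ) (L : ℝ≥0∞) (G : ℕ) (pos : ℕ → ℕ) :
    Measurable (runErr p L G pos) := by
  unfold runErr
  refine Measurable.add ?_ ?_
  · exact Finset.measurable_fun_sum _ fun t _ => measurable_const.indicator (ms_runset p t pos)
  · exact measurable_const.indicator (ms_runset p G pos)

lemma measure_runset {p : ℝ} (hp1 : p ≤ 1) (t : ℕ) (pos : ℕ → ℕ)
    (hpos : ∀ i < t, ∀ j < t, pos i = pos j → i = j) :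
    (infinitePi fun _ : REdge => unifLaw) {u : REdge → ℝ | ∀ i < t, u (Sum.inr (pos i)) < p} =
      ENNReal.ofReal p ^ t := by
  classical
  set s : Finset REdge := (Finset.range t).image fun i => Sum.inr (pos i) with hs
  have hcard : s.card = t := by
    rw [hs, Finset.card_image_of_injOn, Finset.card_range]
    intro i hi j hj h
    exact hpos i (by simpa using hi) j (by simpa using hj) (by simpa using h)
  have h1 := measure_all_coord unifLaw s {y | y < p} measurableSet_Iio
  rw [hcard, unifLaw_lt hp1] at h1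
  rw [← h1]
  congr 1
  ext u
  simp [hs]

lemma lintegral_runErr {p l : ℝ} (hp0 : 0 ≤ p) (hpl : p < l) (hl1 : l ≤ 1) (G : ℕ) (pos : ℕ → ℕ)
    (hpos : ∀ i < G, ∀ j < G, pos i = pos j → i = j) :
    ∫⁻ u, runErr p (ENNReal.ofReal l) G pos u ∂(infinitePi fun _ : REdge => unifLaw) ≤
      ENNReal.ofReal ((1 / (l - p) + 1)) * ENNReal.ofReal l ^ G := by
  have hl0 : 0 < l := lt_of_le_of_lt hp0 hpl
  unfold runErr
  rw [lintegral_add_right _ (measurable_const.indicator (ms_runset p G pos)),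
    lintegral_finsetSum _ (fun t _ => measurable_const.indicator (ms_runset p t pos))]
  have h1 : ∀ t ∈ Finset.range G, ∫⁻ u, {u : REdge → ℝ | ∀ i < t,
      u (Sum.inr (pos i)) < p}.indicator (fun _ => ENNReal.ofReal l ^ (G - 1 - t)) u
        ∂(infinitePi fun _ : REdge => unifLaw) = ENNReal.ofReal (p ^ t * l ^ (G - 1 - t)) := by
    intro t ht
    rw [Finset.mem_range] at ht
    rw [lintegral_indicator_const (ms_runset p t pos), measure_runset (by linarith) t pos
      (fun i hi j hj h => hpos i (hi.trans ht) j (hj.trans ht) h),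
      ENNReal.ofReal_mul (by positivity), ENNReal.ofReal_pow hp0, ENNReal.ofReal_pow hl0.le,
      mul_comm]
  rw [Finset.sum_congr rfl h1, lintegral_indicator_const (ms_runset p G pos),
    measure_runset (by linarith) G pos hpos, one_mul,
    ← ENNReal.ofReal_sum_of_nonneg (fun t _ => by positivity), ← ENNReal.ofReal_pow hp0,
    ← ENNReal.ofReal_add (Finset.sum_nonneg fun t _ => by positivity) (by positivity),
    ← ENNReal.ofReal_pow hl0.le, ← ENNReal.ofReal_mul (by
      have : 0 < l - p := by linarith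
      positivity)]
  refine ENNReal.ofReal_le_ofReal ?_
  have h2 : (∑ t ∈ Finset.range G, p ^ t * l ^ (G - 1 - t)) * (p - l) = p ^ G - l ^ G :=
    (Commute.all p l).geom_sum₂_mul G
  have h3 : 0 < l - p := by linarith
  have h4 : ∑ t ∈ Finset.range G, p ^ t * l ^ (G - 1 - t) = (l ^ G - p ^ G) / (l - p) := by
    rw [eq_div_iff h3.ne']
    linarith
  rw [h4]
  have h5 : p ^ G ≤ l ^ G := by gcongr
  have h6 : 0 ≤ p ^ G := by positivity
  have h7 : (l ^ G - p ^ G) / (l - p) ≤ l ^ G / (l - p) := by gcongr; linarith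
  have h8 : (1 / (l - p) + 1) * l ^ G = l ^ G / (l - p) + l ^ G := by ring
  linarith

section compare

variable {α : ℝ} [hα : Fact (0 < α ∧ α < 1)]

lemma measurable_rowErr (p : ℝ) (L : ℝ≥0∞) {G e : Row → ℕ} (hG : Measurable G)
    (he : Measurable e) (f : ℕ → ℕ → ℕ) :
    Measurable (fun x : Row => runErr p L (G x) (f (e x)) x.2) := by
  have h1 : Measurable (fun q : (ℕ × ℕ) × (REdge → ℝ) => runErr p L q.1.1 (f q.1.2) q.2) :=
    measurable_from_prod_countable_right (fun g => measurable_runErr p L g.1 (f g.2))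
  exact h1.comp ((hG.prodMk he).prodMk measurable_snd)

/-- expected error: a function of the offspring numbers of a finite set of vertices -/
lemma lintegral_rowErr {p l : ℝ} (hp0 : 0 ≤ p) (hpl : p < l) (hl1 : l ≤ 1) (I : Finset ℕ)
    {G e : (ℕ → ℕ) → ℕ} (hG : Measurable G) (he : Measurable e) (f : ℕ → ℕ → ℕ)
    (hGI : ∀ ξ, G ξ = ∑ i ∈ I, ξ i)
    (hf : ∀ ξ, ∀ i < G ξ, ∀ j < G ξ, f (e ξ) i = f (e ξ) j → i = j) :
    ∫⁻ x, runErr p (ENNReal.ofReal l) (G x.1) (f (e x.1)) x.2 ∂rowLaw α ≤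
      ENNReal.ofReal (1 / (l - p) + 1) * ENNReal.ofReal ((1 - α) / (1 - α * l)) ^ I.card := by
  have hl0 : 0 < l := lt_of_le_of_lt hp0 hpl
  have hm : Measurable (fun x : Row => runErr p (ENNReal.ofReal l) (G x.1) (f (e x.1)) x.2) :=
    measurable_rowErr p _ (hG.comp measurable_fst) (he.comp measurable_fst) f
  unfold rowLaw
  rw [lintegral_prod _ hm.aemeasurable]
  calc ∫⁻ ξ, ∫⁻ u, runErr p (ENNReal.ofReal l) (G ξ) (f (e ξ)) u
          ∂(infinitePi fun _ : REdge => unifLaw) ∂(infinitePi fun _ : ℕ => geomLaw α)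
      ≤ ∫⁻ ξ, ENNReal.ofReal (1 / (l - p) + 1) * ∏ i ∈ I, ENNReal.ofReal l ^ (ξ i)
          ∂(infinitePi fun _ : ℕ => geomLaw α) := by
        refine lintegral_mono fun ξ => ?_
        refine (lintegral_runErr hp0 hpl hl1 (G ξ) (f (e ξ)) (hf ξ)).trans (le_of_eq ?_)
        rw [hGI, Finset.prod_pow_eq_pow_sum]
    _ = _ := by
        rw [lintegral_const_mul]
        · rw [lintegral_prod_coord (geomLaw α) I (fun _ n => ENNReal.ofReal l ^ n)
            (fun _ => measurable_from_top), lintegral_geomLaw_pow hl0.le hl1, Finset.prod_const]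
        · refine Finset.measurable_fun_prod _ fun i _ => ?_
          exact (measurable_from_top (f := fun n : ℕ => ENNReal.ofReal l ^ n)).comp
            (measurable_pi_apply i)

/-- sum of the offspring numbers of `[i, j)` -/
lemma rS_sub (x : Row) {i j : ℕ} (h : i ≤ j) : rS x j - rS x i = ∑ t ∈ Finset.Ico i j, x.1 t := by
  unfold rS
  rw [Finset.range_eq_Ico, ← Finset.sum_Ico_consecutive _ (Nat.zero_le i) h,
    Finset.range_eq_Ico, Nat.add_sub_cancel_left]

/-- comparison of the cyclic chain with the cut chain -/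
lemma Un_le_line {p l : ℝ} (hp0 : 0 ≤ p) (hpl : p < l) (hl1 : l ≤ 1) {C : ℝ≥0∞} {D : ℕ}
    (hC : 1 ≤ C * ENNReal.ofReal l ^ D) (hC1 : 1 ≤ C)
    (hD : ∀ g, D ≤ g → ENNReal.ofReal (1 / (l - p) + 1) *
      ENNReal.ofReal ((1 - α) / (1 - α * l)) ^ g ≤ ENNReal.ofReal l ^ g)
    (n k : ℕ) (A : Finset ℕ) (a b : ℕ) (hA : ∀ j ∈ A, a ≤ j ∧ j + b < k) :
    Un α (nxt p) n ⟨k, A⟩ ≤ Un α (lnxt p) n ⟨k, A⟩ +
      C * (ENNReal.ofReal l ^ a + ENNReal.ofReal l ^ b) := by
  have hL1 : ENNReal.ofReal l ≤ 1 := by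
    rw [← ENNReal.ofReal_one]
    exact ENNReal.ofReal_le_ofReal hl1
  set L := ENNReal.ofReal l with hL
  induction n generalizing k A a b with
  | zero => exact le_self_add
  | succ n ih =>
    by_cases haD : a ≤ D
    · refine (Un_le_one _ _).trans (hC.trans ?_)
      refine le_trans ?_ le_add_self
      gcongr
      calc L ^ D ≤ L ^ a := pow_le_pow_right_of_le_one' hL1 haD
        _ ≤ _ := le_self_add
    by_cases hbD : b ≤ D
    · refine (Un_le_one _ _).trans (hC.trans ?_)
      refine le_trans ?_ le_add_self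
      gcongr
      calc L ^ D ≤ L ^ b := pow_le_pow_right_of_le_one' hL1 hbD
        _ ≤ _ := le_add_self
    by_cases hbk : k < b
    · have : A = ∅ := by
        rw [Finset.eq_empty_iff_forall_notMem]
        intro j hj
        have := hA j hj
        omega
      rw [Un_empty (good_nxt p)]
      · exact bot_le
      · simp [this]
    push Not at haD hbD hbk
    by_cases hak : k < a
    · have : A = ∅ := by
        rw [Finset.eq_empty_iff_forall_notMem]
        intro j hj
        have := hA j hj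
        omega
      rw [Un_empty (good_nxt p)]
      · exact bot_le
      · simp [this]
    push Not at hak
    rw [Un_succ (good_nxt p), Un_succ (good_lnxt p)]
    -- the two error terms
    have hmL : Measurable (fun x : Row => runErr p L (rS x a) (fun i => rS x a - 1 - i) x.2) :=
      measurable_rowErr p L (measurable_rS a) (measurable_rS a) (fun e i => e - 1 - i)
    have hmR : Measurable (fun x : Row => runErr p L (rS x k - rS x (k - b))
        (fun i => rS x (k - b) + i) x.2) :=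
      measurable_rowErr p L ((measurable_rS k).sub (measurable_rS (k - b)))
        (measurable_rS (k - b)) (fun e i => e + i)
    have hEL : ∫⁻ x, runErr p L (rS x a) (fun i => rS x a - 1 - i) x.2 ∂rowLaw α ≤ L ^ a := by
      refine le_trans ?_ (hD a haD.le)
      have h := lintegral_rowErr (α := α) hp0 hpl hl1 (Finset.range a)
        (G := fun ξ => ∑ j ∈ Finset.range a, ξ j) (e := fun ξ => ∑ j ∈ Finset.range a, ξ j)
        (by fun_prop) (by fun_prop) (fun e i => e - 1 - i) (fun ξ => rfl) (by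
          intro ξ i hi j hj hij
          omega)
      rw [Finset.card_range] at h
      exact h
    have hER : ∫⁻ x, runErr p L (rS x k - rS x (k - b)) (fun i => rS x (k - b) + i) x.2
        ∂rowLaw α ≤ L ^ b := by
      refine le_trans ?_ (hD b hbD.le)
      have h := lintegral_rowErr (α := α) hp0 hpl hl1 (Finset.Ico (k - b) k)
        (G := fun ξ => ∑ j ∈ Finset.Ico (k - b) k, ξ j)
        (e := fun ξ => ∑ j ∈ Finset.range (k - b), ξ j)
        (by fun_prop) (by fun_prop) (fun e i => e + i) (fun ξ => rfl) (by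
          intro ξ i hi j hj hij
          omega)
      rw [Nat.card_Ico, Nat.sub_sub_self hbk] at h
      refine le_trans (le_of_eq ?_) h
      refine lintegral_congr fun x => ?_
      rw [rS_sub x (Nat.sub_le k b)]
      rfl
    have hpt : ∀ x : Row, Un α (nxt p) n (nxt p x ⟨k, A⟩) ≤ Un α (lnxt p) n (lnxt p x ⟨k, A⟩) +
        C * (runErr p L (rS x a) (fun i => rS x a - 1 - i) x.2 +
          runErr p L (rS x k - rS x (k - b)) (fun i => rS x (k - b) + i) x.2) := by
      intro x
      rcases runErr_cases p L (rS x a) (fun i => rS x a - 1 - i) x.2 with h | ⟨t, ht, htc, hte⟩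
      · refine (Un_le_one _ _).trans (le_trans ?_ le_add_self)
        calc (1 : ℝ≥0∞) = 1 * 1 := (one_mul 1).symm
          _ ≤ _ := mul_le_mul' hC1 (h.trans le_self_add)
      rcases runErr_cases p L (rS x k - rS x (k - b)) (fun i => rS x (k - b) + i) x.2 with
        h | ⟨t', ht', htc', hte'⟩
      · refine (Un_le_one _ _).trans (le_trans ?_ le_add_self)
        calc (1 : ℝ≥0∞) = 1 * 1 := (one_mul 1).symm
          _ ≤ _ := mul_le_mul' hC1 (h.trans le_add_self)
      have hcut := nxt_eq_lnxt (p := p) (x := x) (k := k) (a := a) (b := b) (A := A) hA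
        (eL := rS x a - 1 - t) (eR := rS x (k - b) + t') (by omega) htc (by omega) (by omega) htc'
      obtain ⟨heq, hrange⟩ := hcut
      have h3 := ih (nxt p x ⟨k, A⟩).k (nxt p x ⟨k, A⟩).A (rS x a - t)
        (rS x k - 1 - (rS x (k - b) + t')) (by
          intro j hj
          have := hrange j hj
          rw [nxt_k]
          simp only
          omega)
      have h4 : (⟨(nxt p x ⟨k, A⟩).k, (nxt p x ⟨k, A⟩).A⟩ : St) = nxt p x ⟨k, A⟩ := rfl
      rw [h4] at h3
      rw [← heq]
      refine h3.trans ?_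
      gcongr
      · refine le_trans ?_ hte
        exact pow_le_pow_right_of_le_one' hL1 (by omega)
      · refine le_trans ?_ hte'
        exact pow_le_pow_right_of_le_one' hL1 (by omega)
    calc ∫⁻ x, Un α (nxt p) n (nxt p x ⟨k, A⟩) ∂rowLaw α
        ≤ ∫⁻ x, (Un α (lnxt p) n (lnxt p x ⟨k, A⟩) +
        C * (runErr p L (rS x a) (fun i => rS x a - 1 - i) x.2 +
          runErr p L (rS x k - rS x (k - b)) (fun i => rS x (k - b) + i) x.2)) ∂rowLaw α :=
          lintegral_mono hpt
      _ = ∫⁻ x, Un α (lnxt p) n (lnxt p x ⟨k, A⟩) ∂rowLaw α +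
          C * (∫⁻ x, runErr p L (rS x a) (fun i => rS x a - 1 - i) x.2 ∂rowLaw α +
            ∫⁻ x, runErr p L (rS x k - rS x (k - b)) (fun i => rS x (k - b) + i) x.2
              ∂rowLaw α) := by
          have hmLR : Measurable (fun x : Row =>
            runErr p L (rS x a) (fun i => rS x a - 1 - i) x.2 +
              runErr p L (rS x k - rS x (k - b)) (fun i => rS x (k - b) + i) x.2) :=
            hmL.add hmR
          rw [lintegral_add_left (measurable_Un_T (good_lnxt p) n ⟨k, A⟩),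
            lintegral_const_mul _ hmLR, lintegral_add_left hmL]
      _ ≤ _ := by gcongr

end compare

end Pool.Agent.helper885_ct
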