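import Pool.Agent.helper885_ct.Contract

/-!
Clusters and level chains.
-/

set_option linter.unusedSectionVars false
set_option linter.unusedVariables false

namespace Pool.Agent.helper885_ct

open MeasureTheory Set Measure
open scoped ENNReal

lemma head_iter_xi (ω : Cfg) (r i : ℕ) : (head (tail^[r] ω)).1 i = ω.1 (r, i) := by
  induction r generalizing ω with
  | zero => rfl
  | succ r ih => rw [Function.iterate_succ_apply, ih]; rfl

lemma head_iter_up (ω : Cfg) (r i k : ℕ) :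
    (head (tail^[r] ω)).2 (Sum.inl (i, k)) = ω.2 (Sum.inl (r, i, k)) := by
  induction r generalizing ω with
  | zero => rfl
  | succ r ih => rw [Function.iterate_succ_apply, ih]; rfl

lemma head_iter_hor (ω : Cfg) (r i : ℕ) :
    (head (tail^[r] ω)).2 (Sum.inr i) = ω.2 (Sum.inr (r, i)) := by
  induction r generalizing ω with
  | zero => rfl
  | succ r ih => rw [Function.iterate_succ_apply, ih]; rfl

lemma rS_row (ω : Cfg) (r i : ℕ) : rS (head (tail^[r] ω)) i = S ω r i := by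
  unfold rS S
  exact Finset.sum_congr rfl fun j _ => head_iter_xi ω r j

lemma Z_succ (ω : Cfg) (r : ℕ) : Z ω (r + 1) = rS (head (tail^[r] ω)) (Z ω r) := by
  rw [rS_row]
  rfl

lemma Z_succ_S (ω : Cfg) (r : ℕ) : Z ω (r + 1) = S ω r (Z ω r) := rfl

lemma S_succ (ω : Cfg) (r i : ℕ) : S ω r (i + 1) = S ω r i + ω.1 (r, i) := by
  simp [S, Finset.sum_range_succ]

lemma S_mono (ω : Cfg) (r : ℕ) : Monotone (S ω r) :=
  monotone_nat_of_le_succ fun i => by rw [S_succ]; omega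

open Classical in
/-- the vertices of level `n` in the cluster of `v` -/
noncomputable def lev (p : ℝ) (ω : Cfg) (v : ℕ × ℕ) (n : ℕ) : Finset ℕ :=
  (Finset.range (Z ω n)).filter fun j => (n, j) ∈ cluster p ω v

lemma mem_lev {p : ℝ} {ω : Cfg} {v : ℕ × ℕ} {n j : ℕ} :
    j ∈ lev p ω v n ↔ j < Z ω n ∧ (n, j) ∈ cluster p ω v := by
  classical
  simp [lev]

lemma step_level {p : ℝ} {ω : Cfg} {v w : ℕ × ℕ} (h : Step p ω v w) :
    v.1 ≤ w.1 ∧ v.2 < Z ω v.1 ∧ w.2 < Z ω w.1 := by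
  rcases h with ⟨h1, h2, h3, _⟩ | ⟨r, i, rfl, hi, rfl, _⟩ | ⟨r, i, rfl, hi, rfl, _⟩
  · exact ⟨by omega, h1, h3⟩
  · exact ⟨le_rfl, hi, Nat.mod_lt _ (by omega)⟩
  · exact ⟨le_rfl, Nat.mod_lt _ (by omega), hi⟩

lemma cluster_level {p : ℝ} {ω : Cfg} {v w : ℕ × ℕ} (h : w ∈ cluster p ω v) :
    v.1 ≤ w.1 ∧ (w = v ∨ w.2 < Z ω w.1) := by
  induction h with
  | refl => exact ⟨le_rfl, Or.inl rfl⟩
  | tail _ h2 ih =>
    have := step_level h2
    exact ⟨by omega, Or.inr this.2.2⟩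

lemma hor_iff {p : ℝ} {ω : Cfg} {n : ℕ} (a b : ℕ) : OpenHor p ω (n + 1, a) (n + 1, b) ↔
    hnext p (head (tail^[n] ω)) (rS (head (tail^[n] ω)) (Z ω n)) a b := by
  rw [← Z_succ]
  unfold hnext
  rw [head_iter_hor]
  constructor
  · rintro ⟨r, i, h1, h2, h3, h4⟩
    simp only [Prod.mk.injEq, Nat.add_right_cancel_iff] at h1 h3
    obtain ⟨rfl, rfl⟩ := h1
    exact ⟨h2, h3.2, h4⟩
  · rintro ⟨h1, h2, h3⟩
    exact ⟨n, a, rfl, h1, by rw [h2], h3⟩

lemma lev_subset {p : ℝ} {ω : Cfg} {v : ℕ × ℕ} {n : ℕ} (hv : v.1 ≤ n) :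
    lev p ω v (n + 1) ⊆ (nxt p (head (tail^[n] ω)) ⟨Z ω n, lev p ω v n⟩).A := by
  have hup : ∀ u j : ℕ, (n, u) ∈ cluster p ω v → OpenUp p ω (n, u) (n + 1, j) →
      direct p (head (tail^[n] ω)) ⟨Z ω n, lev p ω v n⟩ j := by
    rintro u j hu ⟨h1, h2, h3, k, hk, _, hj, hp⟩
    refine ⟨?_, u, mem_lev.2 ⟨h1, hu⟩, h1, k, ?_, ?_, ?_⟩
    · rw [← Z_succ]; exact h3
    · rw [head_iter_xi]; exact hk
    · rw [head_iter_up]; exact hp
    · rw [← Z_succ, rS_row]; exact hj
  intro j hj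
  rw [mem_nxt]
  obtain ⟨hj1, hj2⟩ := mem_lev.1 hj
  have key : ∀ w : ℕ × ℕ, w ∈ cluster p ω v → w.1 = n + 1 →
      ∃ d, direct p (head (tail^[n] ω)) ⟨Z ω n, lev p ω v n⟩ d ∧
        Relation.ReflTransGen (hadj p (head (tail^[n] ω))
          (rS (head (tail^[n] ω)) (Z ω n))) d w.2 := by
    intro w hw
    induction hw with
    | refl => intro h; omega
    | @tail u w hu huw ih =>
      intro hw1
      rcases huw with h | h | h
      · have hu1 : u = (n, u.2) := by
          have := h.2.1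
          refine Prod.ext ?_ rfl
          simp only
          omega
        have hw' : w = (n + 1, w.2) := Prod.ext hw1 rfl
        rw [hu1] at h hu
        rw [hw'] at h
        exact ⟨w.2, hup _ _ hu h, Relation.ReflTransGen.refl⟩
      · have hu2 : u.1 = n + 1 := by
          obtain ⟨r, i, rfl, _, rfl, _⟩ := h
          exact hw1
        obtain ⟨d, hd1, hd2⟩ := ih hu2
        have hu1 : u = (n + 1, u.2) := Prod.ext hu2 rfl
        have hw' : w = (n + 1, w.2) := Prod.ext hw1 rfl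
        rw [hu1, hw'] at h
        exact ⟨d, hd1, hd2.tail (Or.inl ((hor_iff _ _).1 h))⟩
      · have hu2 : u.1 = n + 1 := by
          obtain ⟨r, i, rfl, _, rfl, _⟩ := h
          exact hw1
        obtain ⟨d, hd1, hd2⟩ := ih hu2
        have hu1 : u = (n + 1, u.2) := Prod.ext hu2 rfl
        have hw' : w = (n + 1, w.2) := Prod.ext hw1 rfl
        rw [hu1, hw'] at h
        exact ⟨d, hd1, hd2.tail (Or.inr ((hor_iff _ _).1 h))⟩
  exact ⟨by rw [← Z_succ]; exact hj1, key (n + 1, j) hj2 rfl⟩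

lemma lev_succ {p : ℝ} {ω : Cfg} {v : ℕ × ℕ} {n : ℕ} (hn : 1 ≤ n) (hv : v.1 ≤ n) :
    nxt p (head (tail^[n] ω)) ⟨Z ω n, lev p ω v n⟩ = ⟨Z ω (n + 1), lev p ω v (n + 1)⟩ := by
  have hmem : (nxt p (head (tail^[n] ω)) ⟨Z ω n, lev p ω v n⟩).A = lev p ω v (n + 1) := by
    refine Finset.Subset.antisymm ?_ (lev_subset hv)
    intro j hj
    rw [mem_nxt] at hj
    obtain ⟨h1, d, ⟨hd, i, hi, hik, c, hc, hp, hdj⟩, hpath⟩ := hj
    simp only at h1 hd hik hdj hpath
    have hi2 := (mem_lev.1 hi).2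
    have hd2 : (n + 1, d) ∈ cluster p ω v := by
      refine Relation.ReflTransGen.tail hi2 (Or.inl ⟨hik, rfl, ?_, c, ?_, ?_, ?_, ?_⟩)
      · simp only [Z_succ]; exact hd
      · rw [head_iter_xi] at hc; exact hc
      · intro h0; simp only at h0; omega
      · simp only; rw [Z_succ, ← rS_row]; exact hdj
      · rw [head_iter_up] at hp; exact hp
    refine mem_lev.2 ⟨by rw [Z_succ]; exact h1, ?_⟩
    clear h1
    induction hpath with
    | refl => exact hd2
    | @tail a b _ hab ih =>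
      refine Relation.ReflTransGen.tail ih (Or.inr ?_)
      rcases hab with hab | hab
      · exact Or.inl ((hor_iff a b).2 hab)
      · exact Or.inr ((hor_iff b a).2 hab)
  have hk : (nxt p (head (tail^[n] ω)) ⟨Z ω n, lev p ω v n⟩).k = Z ω (n + 1) := by
    rw [nxt_k, Z_succ]
  cases h : nxt p (head (tail^[n] ω)) ⟨Z ω n, lev p ω v n⟩
  simp_all

lemma run_lev_subset {p : ℝ} {ω : Cfg} {v : ℕ × ℕ} {n : ℕ} (hv : v.1 ≤ n) (m : ℕ) :
    (run (nxt p) m (tail^[n] ω) ⟨Z ω n, lev p ω v n⟩).k = Z ω (n + m) ∧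
      lev p ω v (n + m) ⊆ (run (nxt p) m (tail^[n] ω) ⟨Z ω n, lev p ω v n⟩).A := by
  induction m with
  | zero => exact ⟨rfl, Finset.Subset.refl _⟩
  | succ m ih =>
    rw [run_succ', ← Function.iterate_add_apply, Nat.add_comm m n]
    constructor
    · rw [nxt_k, ih.1, ← Z_succ]
      rfl
    · refine (lev_subset (n := n + m) (by omega)).trans ?_
      exact (nxt_mono p _ ⟨Z ω (n + m), lev p ω v (n + m)⟩ _ ⟨ih.1.symm, ih.2⟩).2

lemma run_lev {p : ℝ} {ω : Cfg} {v : ℕ × ℕ} {n : ℕ} (hn : 1 ≤ n) (hv : v.1 ≤ n) (m : ℕ) :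
    run (nxt p) m (tail^[n] ω) ⟨Z ω n, lev p ω v n⟩ = ⟨Z ω (n + m), lev p ω v (n + m)⟩ := by
  induction m with
  | zero => rfl
  | succ m ih =>
    rw [run_succ', ih, ← Function.iterate_add_apply, Nat.add_comm m n,
      lev_succ (by omega) (by omega)]
    rfl

lemma infinite_iff {p : ℝ} {ω : Cfg} {v : ℕ × ℕ} {n : ℕ} (hn : 1 ≤ n) (hv : v.1 ≤ n) :
    (cluster p ω v).Infinite ↔ ∀ m, (lev p ω v (n + m)).Nonempty := by
  constructor
  · intro h m
    by_contra hne
    apply h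
    have hall : ∀ r, n + m ≤ r → ¬ (lev p ω v r).Nonempty := by
      intro r hr
      obtain ⟨t, rfl⟩ : ∃ t, r = (n + m) + t := ⟨r - (n + m), by omega⟩
      have h1 := run_lev (p := p) (ω := ω) (v := v) (n := n + m) (by omega) (by omega) t
      have h2 := run_empty (good_nxt p) t (tail^[n + m] ω) ⟨Z ω (n + m), lev p ω v (n + m)⟩ hne
      rw [h1] at h2
      exact h2
    have hsub : cluster p ω v ⊆ {v} ∪
        ((Finset.range (n + m)).biUnion fun r => (Finset.range (Z ω r)).image fun i => (r, i) :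
          Finset (ℕ × ℕ)) := by
      intro w hw
      rcases (cluster_level hw).2 with h1 | h1
      · left; exact h1
      · right
        rw [Finset.mem_coe, Finset.mem_biUnion]
        refine ⟨w.1, ?_, ?_⟩
        · rw [Finset.mem_range]
          by_contra hge
          exact hall w.1 (by omega) ⟨w.2, mem_lev.2 ⟨h1, hw⟩⟩
        · rw [Finset.mem_image]
          exact ⟨w.2, Finset.mem_range.2 h1, rfl⟩
    exact ((Set.finite_singleton v).union (Finset.finite_toSet _)).subset hsub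
  · intro h
    choose f hf using h
    refine Set.infinite_of_injective_forall_mem (f := fun m => (n + m, f m)) ?_
      (fun m => (mem_lev.1 (hf m)).2)
    intro a b hab
    simp only [Prod.mk.injEq] at hab
    omega

lemma infinite_of_alive {p : ℝ} {ω : Cfg} {r i : ℕ} (hr : 1 ≤ r) (hi : i < Z ω r)
    (h : ∀ m, (run (nxt p) m (tail^[r] ω) ⟨Z ω r, {i}⟩).A.Nonempty) :
    (cluster p ω (r, i)).Infinite := by
  rw [infinite_iff (n := r) hr le_rfl]
  intro m
  have h1 := run_lev (p := p) (ω := ω) (v := (r, i)) (n := r) hr le_rfl m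
  have hsub : ({i} : Finset ℕ) ⊆ lev p ω (r, i) r := by
    intro j hj
    rw [Finset.mem_singleton] at hj
    subst hj
    exact mem_lev.2 ⟨hi, Relation.ReflTransGen.refl⟩
  have h2 := run_rel (T := nxt p) (T' := nxt p) (fun s s' => s.k = s'.k ∧ s.A ⊆ s'.A)
    (fun x s s' => nxt_mono p x s s') m (tail^[r] ω) (s := ⟨Z ω r, {i}⟩)
    (s' := ⟨Z ω r, lev p ω (r, i) r⟩) ⟨rfl, hsub⟩
  rw [h1] at h2
  exact (h m).mono h2.2

lemma not_bad {T' : Row → St → St} {p : ℝ} {s : St} {ω : Cfg} (h : ω ∉ Bad T' p s)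
    (h1 : ∀ n, (run T' n ω s).A.Nonempty) : ∃ n, ∃ w ∈ (run T' n ω s).A,
      ∀ m, (run (nxt p) m (tail^[n] ω) ⟨(run T' n ω s).k, {w}⟩).A.Nonempty := by
  by_contra hcon
  exact h ⟨h1, fun n w hw hm => hcon ⟨n, w, hw, hm⟩⟩

/-- a surviving cluster at `p'` contains a vertex with an infinite cluster at `p` -/
lemma exists_infinite_of_not_bad {p p' : ℝ} {ω : Cfg}
    (hω : ∀ r : ℕ, ∀ s : St, (∀ j ∈ s.A, j < s.k) → tail^[r] ω ∉ Bad (nxt p') p s)
    {v : ℕ × ℕ} (hv : (cluster p' ω v).Infinite) :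
    ∃ w ∈ cluster p' ω v, w.2 < Z ω w.1 ∧ (cluster p ω w).Infinite := by
  set n := max 1 v.1 with hn
  have hn1 : 1 ≤ n := le_max_left _ _
  have hn2 : v.1 ≤ n := le_max_right _ _
  rw [infinite_iff hn1 hn2] at hv
  have h1 := hω n ⟨Z ω n, lev p' ω v n⟩ (fun j hj => (mem_lev.1 hj).1)
  obtain ⟨m, w, hw, hm⟩ := not_bad h1 (fun m => by rw [run_lev hn1 hn2]; exact hv m)
  rw [run_lev hn1 hn2] at hw hm
  simp only at hw hm
  have hw2 := mem_lev.1 hw
  refine ⟨(n + m, w), hw2.2, hw2.1, infinite_of_alive (by omega) hw2.1 fun t => ?_⟩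
  have := hm t
  rw [← Function.iterate_add_apply, Nat.add_comm m n] at this
  exact this

/-- everything is reached -/
def allT (x : Row) (s : St) : St :=
  ⟨rS x s.k, if s.A.Nonempty then Finset.range (rS x s.k) else ∅⟩

lemma good_allT : Good allT where
  meas := by
    intro s
    refine measurable_St_of (measurable_rS s.k) fun j => ?_
    by_cases h : s.A.Nonempty
    · have : {x : Row | j ∈ (allT x s).A} = {x | j < rS x s.k} := by
        ext x; simp [allT, h]
      rw [this]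
      exact ms1 (measurable_rS s.k) (fun m => j < m)
    · have : {x : Row | j ∈ (allT x s).A} = ∅ := by
        ext x; simp [allT, h]
      rw [this]
      exact MeasurableSet.empty
  empty := by
    intro x s h
    simp [allT, h]
  kk := fun x s => rfl

lemma run_allT (ω : Cfg) (hω : ω ∈ Surv) (m : ℕ) :
    run allT m (tail^[1] ω) ⟨Z ω 1, Finset.range (Z ω 1)⟩ =
      ⟨Z ω (1 + m), Finset.range (Z ω (1 + m))⟩ := by
  induction m with
  | zero => rfl
  | succ m ih =>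
    rw [run_succ', ih, ← Function.iterate_add_apply, Nat.add_comm m 1]
    unfold allT
    have h1 : (Finset.range (Z ω (1 + m))).Nonempty := by
      rw [Finset.nonempty_range_iff]
      exact (hω _).ne'
    simp only [h1, if_true]
    rw [← Z_succ, Nat.add_assoc 1 m 1, Nat.add_comm m 1]

/-- on survival there is an infinite cluster -/
lemma exists_infinite_of_surv {p : ℝ} {ω : Cfg}
    (hω : ∀ r : ℕ, ∀ s : St, (∀ j ∈ s.A, j < s.k) → tail^[r] ω ∉ Bad allT p s)
    (hs : ω ∈ Surv) : ∃ w : ℕ × ℕ, w.2 < Z ω w.1 ∧ (cluster p ω w).Infinite := by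
  have h1 := hω 1 ⟨Z ω 1, Finset.range (Z ω 1)⟩ (fun j hj => Finset.mem_range.1 hj)
  obtain ⟨m, w, hw, hm⟩ := not_bad h1 (fun m => by
    rw [run_allT ω hs, Finset.nonempty_range_iff]
    exact (hs _).ne')
  rw [run_allT ω hs] at hw hm
  simp only [Finset.mem_range] at hw hm
  refine ⟨(1 + m, w), hw, infinite_of_alive (by omega) hw fun t => ?_⟩
  have := hm t
  rw [← Function.iterate_add_apply, Nat.add_comm m 1] at this
  exact this

/-- an infinite root cluster gives a surviving chain -/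
lemma alive_of_root {p : ℝ} {ω : Cfg} (h : (cluster p ω (0, 0)).Infinite) (m : ℕ) :
    (run (nxt p) m ω ⟨1, {0}⟩).A.Nonempty := by
  have h1 : ∀ r, (lev p ω (0, 0) r).Nonempty := by
    intro r
    cases r with
    | zero => exact ⟨0, mem_lev.2 ⟨Nat.one_pos, Relation.ReflTransGen.refl⟩⟩
    | succ r =>
      rw [infinite_iff (n := 1) le_rfl (by simp)] at h
      have := h r
      rwa [Nat.add_comm] at this
  have h2 := run_lev_subset (p := p) (ω := ω) (v := (0, 0)) (n := 0) le_rfl m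
  have h3 := (h1 (0 + m)).mono h2.2
  have hsub : lev p ω (0, 0) 0 ⊆ {0} := by
    intro j hj
    have := (mem_lev.1 hj).1
    have h0 : Z ω 0 = 1 := rfl
    rw [Finset.mem_singleton]
    omega
  have h4 := run_rel (T := nxt p) (T' := nxt p) (fun s s' => s.k = s'.k ∧ s.A ⊆ s'.A)
    (fun x s s' => nxt_mono p x s s') m ω (s := ⟨Z ω 0, lev p ω (0, 0) 0⟩)
    (s' := ⟨1, {0}⟩) ⟨rfl, hsub⟩
  exact h3.mono h4.2

section meas

lemma measurable_S (r i : ℕ) : Measurable (fun ω : Cfg => S ω r i) := by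
  unfold S
  fun_prop

lemma measurable_Z (r : ℕ) : Measurable (fun ω : Cfg => Z ω r) := by
  induction r with
  | zero => exact measurable_const
  | succ r ih =>
    have h1 : Measurable (fun q : ℕ × Cfg => S q.2 r q.1) :=
      measurable_from_prod_countable_right (fun i => measurable_S r i)
    exact h1.comp (ih.prodMk measurable_id)

lemma ms_label (p : ℝ) (e : Edge) : MeasurableSet {ω : Cfg | ω.2 e < p} := by
  have : Measurable (fun ω : Cfg => ω.2 e) := by fun_prop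
  exact this measurableSet_Iio

lemma measurable_xi (v : ℕ × ℕ) : Measurable (fun ω : Cfg => ω.1 v) := by fun_prop

lemma ms_OpenUp (p : ℝ) (v w : ℕ × ℕ) : MeasurableSet {ω | OpenUp p ω v w} := by
  have : {ω | OpenUp p ω v w} = {ω | v.2 < Z ω v.1} ∩ ({ω | w.1 = v.1 + 1} ∩
      ({ω | w.2 < Z ω w.1} ∩ ⋃ k, ({ω | k ≤ ω.1 v} ∩ ({ω | v.1 = 0 → k < ω.1 v} ∩
        ({ω | w.2 = (S ω v.1 v.2 + k) % Z ω w.1} ∩ {ω | ω.2 (Sum.inl (v.1, v.2, k)) < p}))))) := by
    ext ω
    simp [OpenUp]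
  rw [this]
  refine (ms1 (measurable_Z _) (fun m => v.2 < m)).inter ((MeasurableSet.const _).inter
    ((ms1 (measurable_Z _) (fun m => w.2 < m)).inter (MeasurableSet.iUnion fun k => ?_)))
  refine (ms1 (measurable_xi v) (fun m => k ≤ m)).inter
    ((ms1 (measurable_xi v) (fun m => v.1 = 0 → k < m)).inter
    (MeasurableSet.inter ?_ (ms_label p _)))
  exact ms2 (measurable_S v.1 v.2) (measurable_Z w.1) (fun a b => w.2 = (a + k) % b)

lemma ms_OpenHor (p : ℝ) (v w : ℕ × ℕ) : MeasurableSet {ω | OpenHor p ω v w} := by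
  have : {ω | OpenHor p ω v w} = ⋃ r, ⋃ i, ({ω | v = (r + 1, i)} ∩ ({ω | i < Z ω (r + 1)} ∩
      ({ω | w = (r + 1, (i + 1) % Z ω (r + 1))} ∩ {ω | ω.2 (Sum.inr (r, i)) < p}))) := by
    ext ω
    simp [OpenHor]
  rw [this]
  refine MeasurableSet.iUnion fun r => MeasurableSet.iUnion fun i => ?_
  refine (MeasurableSet.const _).inter ((ms1 (measurable_Z _) (fun m => i < m)).inter
    (MeasurableSet.inter ?_ (ms_label p _)))
  exact ms1 (measurable_Z (r + 1)) (fun m => w = (r + 1, (i + 1) % m))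

lemma ms_Step (p : ℝ) (v w : ℕ × ℕ) : MeasurableSet {ω | Step p ω v w} :=
  (ms_OpenUp p v w).union ((ms_OpenHor p v w).union (ms_OpenHor p w v))

lemma ms_cluster (p : ℝ) (v w : ℕ × ℕ) : MeasurableSet {ω | w ∈ cluster p ω v} :=
  ms_reflTransGen (fun a b => ms_Step p a b) v w

lemma ms_conn (p : ℝ) (v w : ℕ × ℕ) :
    MeasurableSet {ω | Relation.EqvGen (Step p ω) v w} := by
  have : {ω | Relation.EqvGen (Step p ω) v w} =
      {ω | Relation.ReflTransGen (fun x y => Step p ω x y ∨ Step p ω y x) v w} := by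
    ext ω
    exact eqvGen_iff
  rw [this]
  exact ms_reflTransGen (fun a b => (ms_Step p a b).union (ms_Step p b a)) v w

lemma ms_infinite (p : ℝ) (v : ℕ × ℕ) : MeasurableSet {ω | (cluster p ω v).Infinite} := by
  have : {ω | (cluster p ω v).Infinite} = ⋂ m, ⋃ j, ({ω | j < Z ω (max 1 v.1 + m)} ∩
      {ω | (max 1 v.1 + m, j) ∈ cluster p ω v}) := by
    ext ω
    simp only [mem_ofPred_eq, mem_iInter, mem_iUnion, mem_inter_iff]
    rw [infinite_iff (le_max_left 1 v.1) (le_max_right 1 v.1)]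
    refine forall_congr' fun m => ?_
    unfold Finset.Nonempty
    simp only [mem_lev]
  rw [this]
  exact MeasurableSet.iInter fun m => MeasurableSet.iUnion fun j =>
    (ms1 (measurable_Z _) (fun m => j < m)).inter (ms_cluster p _ _)

end meas

/-- vertices with an infinite cluster -/
def IsInf (p : ℝ) (ω : Cfg) (v : ℕ × ℕ) : Prop := v.2 < Z ω v.1 ∧ (cluster p ω v).Infinite

lemma component_eq_iff {p : ℝ} {ω : Cfg} {v w : ℕ × ℕ} :
    component p ω v = component p ω w ↔ Relation.EqvGen (Step p ω) v w := by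
  constructor
  · intro h
    have : w ∈ component p ω w := Relation.EqvGen.refl w
    rw [← h] at this
    exact this
  · intro h
    ext u
    exact ⟨fun hu => (h.symm _ _).trans _ _ _ hu, fun hu => h.trans _ _ _ hu⟩

lemma numInf_eq_one_iff {p : ℝ} {ω : Cfg} : numInf p ω = 1 ↔ (∃ v, IsInf p ω v) ∧
    ∀ v w, IsInf p ω v → IsInf p ω w → Relation.EqvGen (Step p ω) v w := by
  unfold numInf
  rw [Set.encard_eq_one]
  constructor
  · rintro ⟨K, hK⟩
    constructor
    · have : K ∈ ({K} : Set (Set (ℕ × ℕ))) := rfl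
      rw [← hK] at this
      obtain ⟨v, h1, h2, _⟩ := this
      exact ⟨v, h1, h2⟩
    · intro v w hv hw
      have h1 : component p ω v ∈ ({K} : Set (Set (ℕ × ℕ))) := by
        rw [← hK]; exact ⟨v, hv.1, hv.2, rfl⟩
      have h2 : component p ω w ∈ ({K} : Set (Set (ℕ × ℕ))) := by
        rw [← hK]; exact ⟨w, hw.1, hw.2, rfl⟩
      rw [mem_singleton_iff] at h1 h2
      exact component_eq_iff.1 (h1.trans h2.symm)
  · rintro ⟨⟨v, hv⟩, h⟩
    refine ⟨component p ω v, ?_⟩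
    ext K
    simp only [mem_ofPred_eq, mem_singleton_iff]
    constructor
    · rintro ⟨w, h1, h2, rfl⟩
      exact component_eq_iff.2 (h w v ⟨h1, h2⟩ hv)
    · rintro rfl
      exact ⟨v, hv.1, hv.2, rfl⟩

lemma ms_IsInf (p : ℝ) (v : ℕ × ℕ) : MeasurableSet {ω | IsInf p ω v} :=
  (ms1 (measurable_Z _) (fun m => v.2 < m)).inter (ms_infinite p v)

lemma ms_one (p : ℝ) : MeasurableSet {ω | numInf p ω = 1} := by
  have : {ω | numInf p ω = 1} = (⋃ v, {ω | IsInf p ω v}) ∩
      ⋂ v, ⋂ w, ({ω | IsInf p ω v}ᶜ ∪ ({ω | IsInf p ω w}ᶜ ∪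
        {ω | Relation.EqvGen (Step p ω) v w})) := by
    ext ω
    simp only [mem_ofPred_eq, mem_inter_iff, mem_iUnion, mem_iInter, mem_union, mem_compl_iff]
    rw [numInf_eq_one_iff]
    refine and_congr_right fun _ => forall_congr' fun v => forall_congr' fun w => ?_
    tauto
  rw [this]
  exact (MeasurableSet.iUnion fun v => ms_IsInf p v).inter (MeasurableSet.iInter fun v =>
    MeasurableSet.iInter fun w => (ms_IsInf p v).compl.union
      ((ms_IsInf p w).compl.union (ms_conn p v w)))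

lemma ms_Surv : MeasurableSet Surv := by
  have : Surv = ⋂ r, {ω : Cfg | 0 < Z ω r} := by
    ext ω; simp [Surv]
  rw [this]
  exact MeasurableSet.iInter fun r => ms1 (measurable_Z r) (fun m => 0 < m)

section monotone

lemma OpenUp.mono {p p' : ℝ} (h : p ≤ p') {ω : Cfg} {v w : ℕ × ℕ} (hvw : OpenUp p ω v w) :
    OpenUp p' ω v w := by
  obtain ⟨h1, h2, h3, k, hk, h4, h5, h6⟩ := hvw
  exact ⟨h1, h2, h3, k, hk, h4, h5, by linarith⟩

lemma OpenHor.mono {p p' : ℝ} (h : p ≤ p') {ω : Cfg} {v w : ℕ × ℕ} (hvw : OpenHor p ω v w) :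
    OpenHor p' ω v w := by
  obtain ⟨r, i, h1, h2, h3, h4⟩ := hvw
  exact ⟨r, i, h1, h2, h3, by linarith⟩

lemma Step.mono {p p' : ℝ} (h : p ≤ p') {ω : Cfg} {v w : ℕ × ℕ} (hvw : Step p ω v w) :
    Step p' ω v w := by
  rcases hvw with h1 | h1 | h1
  · exact Or.inl (h1.mono h)
  · exact Or.inr (Or.inl (h1.mono h))
  · exact Or.inr (Or.inr (h1.mono h))

lemma eqvGen_of_cluster {p : ℝ} {ω : Cfg} {v w : ℕ × ℕ} (h : w ∈ cluster p ω v) :
    Relation.EqvGen (Step p ω) v w := by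
  rw [eqvGen_iff]
  exact rtg_map (r := Step p ω) (q := fun x y => Step p ω x y ∨ Step p ω y x) id
    (fun a b hab => Or.inl hab) h

lemma eqvGen_mono {p p' : ℝ} (hpp : p ≤ p') {ω : Cfg} {v w : ℕ × ℕ}
    (h : Relation.EqvGen (Step p ω) v w) : Relation.EqvGen (Step p' ω) v w := by
  rw [eqvGen_iff] at h ⊢
  exact rtg_map id (fun a b hab => hab.imp (fun h => h.mono hpp) (fun h => h.mono hpp)) h

/-- uniqueness is inherited by larger parameters -/
lemma one_of_one {p p' : ℝ} (hpp : p ≤ p') {ω : Cfg}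
    (h1 : ∀ r : ℕ, ∀ s : St, (∀ j ∈ s.A, j < s.k) → tail^[r] ω ∉ Bad (nxt p') p s)
    (h2 : ∀ r : ℕ, ∀ s : St, (∀ j ∈ s.A, j < s.k) → tail^[r] ω ∉ Bad allT p' s)
    (hs : ω ∈ Surv) (h : numInf p ω = 1) : numInf p' ω = 1 := by
  rw [numInf_eq_one_iff] at h ⊢
  refine ⟨exists_infinite_of_surv h2 hs, fun v w hv hw => ?_⟩
  obtain ⟨v', hv1, hv2, hv3⟩ := exists_infinite_of_not_bad h1 hv.2
  obtain ⟨w', hw1, hw2, hw3⟩ := exists_infinite_of_not_bad h1 hw.2
  have h3 := h.2 v' w' ⟨hv2, hv3⟩ ⟨hw2, hw3⟩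
  exact ((eqvGen_of_cluster hv1).trans _ _ _ (eqvGen_mono hpp h3)).trans _ _ _
    ((eqvGen_of_cluster hw1).symm _ _)

end monotone

end Pool.Agent.helper885_ct
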