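import Pool.Agent.helper885_ct.GWmean

/-!
Non-uniqueness from two cut lines.
-/

set_option linter.unusedSectionVars false
set_option linter.unusedVariables false

namespace Pool.Agent.helper885_ct

open MeasureTheory Set Measure
open scoped ENNReal

lemma run_k {T : Row → St → St} (hT : Good T) (ω : Cfg) (r : ℕ) (A : Finset ℕ) (m : ℕ) :
    (run T m (tail^[r] ω) ⟨Z ω r, A⟩).k = Z ω (r + m) := by
  induction m with
  | zero => rfl
  | succ m ih =>
    rw [run_succ', hT.kk, ih, ← Function.iterate_add_apply, Nat.add_comm m r, ← Z_succ]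
    rfl

lemma run_lt {T : Row → St → St} (hval : ∀ x s, ∀ j ∈ (T x s).A, j < (T x s).k) (ω : Cfg)
    (s : St) (hs : ∀ j ∈ s.A, j < s.k) (m : ℕ) : ∀ j ∈ (run T m ω s).A, j < (run T m ω s).k := by
  cases m with
  | zero => exact hs
  | succ m => rw [run_succ']; exact hval _ _

lemma tp_nxt (p : ℝ) (x : Row) (s s' : St) (h : s.k = s'.k ∧ s.A ⊆ s'.A) :
    (chT (Ptp p) x s).k = (nxt p x s').k ∧ (chT (Ptp p) x s).A ⊆ (nxt p x s').A := by
  refine ⟨by rw [chT_k, nxt_k, h.1], fun j hj => ?_⟩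
  obtain ⟨y, h1, h2, k, h3, h4, rfl⟩ := mem_chT.1 hj
  rw [h.1] at h2
  have h5 : rS x y + k < rS x s'.k := rS_lt h2 h3
  exact mem_nxt.2 ⟨h5, _, ⟨h5, y, h.2 h1, h2, k, h3.le, h4, (Nat.mod_eq_of_lt h5).symm⟩,
    Relation.ReflTransGen.refl⟩

lemma infinite_of_tp {p : ℝ} {ω : Cfg} {r y : ℕ} (hr : 1 ≤ r) (hy : y < Z ω r)
    (h : ∀ m, (run (chT (Ptp p)) m (tail^[r] ω) ⟨Z ω r, {y}⟩).A.Nonempty) :
    (cluster p ω (r, y)).Infinite := by
  refine infinite_of_alive hr hy fun m => ?_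
  have h1 := run_rel (T := chT (Ptp p)) (T' := nxt p) (fun s s' => s.k = s'.k ∧ s.A ⊆ s'.A)
    (fun x s s' => tp_nxt p x s s') m (tail^[r] ω) (s := ⟨Z ω r, {y}⟩)
    (s' := ⟨Z ω r, {y}⟩) ⟨rfl, Finset.Subset.refl _⟩
  exact (h m).mono h1.2

/-- a surviving tree percolation from the root -/
lemma root_infinite_of_tp {p : ℝ} {ω : Cfg}
    (h : ∀ m, (run (chT (Ptp p)) m ω ⟨1, {0}⟩).A.Nonempty) :
    ω ∈ Surv ∧ (cluster p ω (0, 0)).Infinite := by
  have hS : ω ∈ Surv := by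
    intro r
    have h1 := run_k (good_chT (ms_Ptp p)) ω 0 {0} r
    have h2 : ∀ j ∈ (run (chT (Ptp p)) r ω ⟨1, {0}⟩).A, j < (run (chT (Ptp p)) r ω ⟨1, {0}⟩).k :=
      run_lt (fun x s => chT_lt) ω ⟨1, {0}⟩ (by simp) r
    obtain ⟨j, hj⟩ := h r
    have h3 := h2 j hj
    have h4 : (run (chT (Ptp p)) r ω ⟨1, {0}⟩).k = Z ω (0 + r) := h1
    rw [h4, zero_add] at h3
    omega
  refine ⟨hS, ?_⟩
  have h1 : ∀ m, (run (chT (Ptp p)) m (tail ω)
      ⟨(chT (Ptp p) (head ω) ⟨1, {0}⟩).k, (chT (Ptp p) (head ω) ⟨1, {0}⟩).A⟩).A.Nonempty :=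
    fun m => h (m + 1)
  obtain ⟨y, hy, h2⟩ := exists_alive_single (ms_Ptp p) _ _ _ h1
  have hk : (chT (Ptp p) (head ω) ⟨1, {0}⟩).k = Z ω 1 := by
    rw [chT_k]
    exact (Z_succ ω 0).symm
  rw [hk] at h2
  have hy1 : y < Z ω 1 := by
    rw [← hk]
    exact chT_lt y hy
  have h3 : (cluster p ω (1, y)).Infinite := infinite_of_tp le_rfl hy1 h2
  obtain ⟨y₀, h4, h5, k, h6, h7, h8⟩ := mem_chT.1 hy
  rw [Finset.mem_singleton] at h4
  subst h4
  have h9 : k < ω.1 (0, 0) := h6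
  have hstep : Step p ω (0, 0) (1, y) := by
    left
    refine ⟨Nat.one_pos, rfl, hy1, k, h9.le, fun _ => h9, ?_, h7⟩
    have h10 : y = k := by rw [h8]; simp [rS]
    have h11 : S ω 0 0 = 0 := rfl
    simp only [h11, zero_add]
    rw [← h10]
    exact (Nat.mod_eq_of_lt hy1).symm
  exact h3.mono fun w hw => Relation.ReflTransGen.head hstep hw

/-- an infinite line of cuts, starting at level one -/
structure CutLine (p : ℝ) (ω : Cfg) (a : ℕ → ℕ) : Prop where
  lt : ∀ m, a m < Z ω (1 + m)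
  step : ∀ m, ∃ i, 1 ≤ i ∧ i < ω.1 (1 + m, a m) ∧ a (m + 1) = S ω (1 + m) (a m) + i ∧
    (∀ c < i, p ≤ ω.2 (Sum.inl (1 + m, a m, c))) ∧ p ≤ ω.2 (Sum.inr (1 + m, a (m + 1) - 1))

lemma exists_cutLine {p : ℝ} {ω : Cfg} {A : Finset ℕ} (hA : ∀ j ∈ A, j < Z ω 1)
    (h : ∀ m, (run (chT (Pcut p)) m (tail^[1] ω) ⟨Z ω 1, A⟩).A.Nonempty) :
    ∃ a, a 0 ∈ A ∧ CutLine p ω a := by
  classical
  set Q : ℕ → ℕ → Prop := fun m y => y < Z ω (1 + m) ∧
    ∀ t, (run (chT (Pcut p)) t (tail^[1 + m] ω) ⟨Z ω (1 + m), {y}⟩).A.Nonempty with hQ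
  obtain ⟨y₀, hy₀, h0⟩ := exists_alive_single (ms_Pcut p) _ _ _ h
  have hQ0 : Q 0 y₀ := ⟨hA y₀ hy₀, h0⟩
  have hnext : ∀ m y, Q m y → ∃ y', Q (m + 1) y' ∧ ∃ i, 1 ≤ i ∧ i < ω.1 (1 + m, y) ∧
      y' = S ω (1 + m) y + i ∧ (∀ c < i, p ≤ ω.2 (Sum.inl (1 + m, y, c))) ∧
        p ≤ ω.2 (Sum.inr (1 + m, y' - 1)) := by
    rintro m y ⟨hy, hal⟩
    set x := head (tail^[1 + m] ω) with hx
    have h1 : ∀ t, (run (chT (Pcut p)) t (tail (tail^[1 + m] ω))
        ⟨(chT (Pcut p) x ⟨Z ω (1 + m), {y}⟩).k,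
          (chT (Pcut p) x ⟨Z ω (1 + m), {y}⟩).A⟩).A.Nonempty := fun t => hal (t + 1)
    obtain ⟨y', hy', h2⟩ := exists_alive_single (ms_Pcut p) _ _ _ h1
    have hk : (chT (Pcut p) x ⟨Z ω (1 + m), {y}⟩).k = Z ω (1 + (m + 1)) := by
      rw [chT_k, hx, ← Z_succ]
      rfl
    have hy'1 := chT_lt y' hy'
    rw [hk] at h2 hy'1
    have htail : tail (tail^[1 + m] ω) = tail^[1 + (m + 1)] ω := by
      rw [← Function.iterate_succ_apply' tail]
      rfl
    rw [htail] at h2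
    refine ⟨y', ⟨hy'1, h2⟩, ?_⟩
    obtain ⟨z, h4, h5, k, h6, ⟨⟨h7, h8⟩, h9⟩, h10⟩ := mem_chT.1 hy'
    rw [Finset.mem_singleton] at h4
    subst h4
    refine ⟨k, h7, ?_, ?_, ?_, ?_⟩
    · rw [hx, head_iter_xi] at h6; exact h6
    · rw [h10, hx, rS_row]
    · intro c hc
      have := h8 c hc
      rw [hx, head_iter_up] at this
      exact this
    · rw [hx, head_iter_hor, rS_row] at h9
      have h11 : y' - 1 = S ω (1 + m) z + (k - 1) := by
        rw [h10, hx, rS_row]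
        omega
      rw [h11]
      exact h9
  choose! f hf using hnext
  set a : ℕ → ℕ := fun m => Nat.rec y₀ (fun m y => f m y) m with ha
  have ha1 : ∀ m, Q m (a m) := by
    intro m
    induction m with
    | zero => exact hQ0
    | succ m ih => exact (hf m (a m) ih).1
  exact ⟨a, hy₀, ⟨fun m => (ha1 m).1, fun m => (hf m (a m) (ha1 m)).2⟩⟩

section region

variable {p : ℝ} {ω : Cfg} {a b : ℕ → ℕ}

lemma cut_lt (ha : CutLine p ω a) (hb : CutLine p ω b) (h0 : a 0 < b 0) (m : ℕ) : a m < b m := by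
  induction m with
  | zero => exact h0
  | succ m ih =>
    obtain ⟨i, h1, h2, h3, _⟩ := ha.step m
    obtain ⟨j, g1, g2, g3, _⟩ := hb.step m
    have h4 : S ω (1 + m) (a m + 1) ≤ S ω (1 + m) (b m) := S_mono ω _ ih
    rw [S_succ] at h4
    omega

/-- the region between two cut lines -/
def Wreg (a b : ℕ → ℕ) : Set (ℕ × ℕ) := {v | 1 ≤ v.1 ∧ a (v.1 - 1) ≤ v.2 ∧ v.2 < b (v.1 - 1)}

lemma step_region (ha : CutLine p ω a) (hb : CutLine p ω b) (h0 : a 0 < b 0)
    (hroot : ∀ k < ω.1 (0, 0), p ≤ ω.2 (Sum.inl (0, 0, k)))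
    (hhor : ∀ j < Z ω 1, p ≤ ω.2 (Sum.inr (0, j))) {v w : ℕ × ℕ} (h : Step p ω v w) :
    v ∈ Wreg a b ↔ w ∈ Wreg a b := by
  have hup : ∀ v w, OpenUp p ω v w → (v ∈ Wreg a b ↔ w ∈ Wreg a b) := by
    rintro ⟨r, x⟩ ⟨r', x'⟩ ⟨g1, g2, g3, k, g4, g5, g6, g7⟩
    simp only at g1 g2 g3 g4 g5 g6 g7
    subst g2
    rcases Nat.eq_zero_or_pos r with rfl | hr
    · have hx : x = 0 := by
        have : Z ω 0 = 1 := rfl
        omega
      subst hx
      exact absurd g7 (not_lt.2 (hroot k (g5 rfl)))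
    obtain ⟨m, rfl⟩ : ∃ m, r = 1 + m := ⟨r - 1, by omega⟩
    have hlt := cut_lt ha hb h0 m
    obtain ⟨i, a1, a2, a3, a4, a5⟩ := ha.step m
    obtain ⟨j, b1, b2, b3, b4, b5⟩ := hb.step m
    have alt := ha.lt m
    have blt := hb.lt m
    have alt' := ha.lt (m + 1)
    have blt' := hb.lt (m + 1)
    have hZ : Z ω (1 + (m + 1)) = S ω (1 + m) (Z ω (1 + m)) := Z_succ_S ω (1 + m)
    have hSx : S ω (1 + m) (x + 1) ≤ S ω (1 + m) (Z ω (1 + m)) := S_mono ω _ g1
    rw [S_succ] at hSx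
    have e1 : 1 + m - 1 = m := by omega
    have e2 : 1 + m + 1 - 1 = m + 1 := by omega
    simp only [Wreg, mem_ofPred_eq, e1, e2]
    have hsa : S ω (1 + m) (a m + 1) = S ω (1 + m) (a m) + ω.1 (1 + m, a m) := S_succ _ _ _
    have hsb : S ω (1 + m) (b m + 1) = S ω (1 + m) (b m) + ω.1 (1 + m, b m) := S_succ _ _ _
    have hsx : S ω (1 + m) (x + 1) = S ω (1 + m) x + ω.1 (1 + m, x) := S_succ _ _ _
    have hZ' : Z ω (1 + m + 1) = Z ω (1 + (m + 1)) := rfl
    rcases lt_trichotomy x (a m) with hxa | hxa | hxa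
    · -- left of the first line
      have h1 : S ω (1 + m) (x + 1) ≤ S ω (1 + m) (a m) := S_mono ω _ hxa
      have h2 : (S ω (1 + m) x + k) % Z ω (1 + m + 1) = S ω (1 + m) x + k :=
        Nat.mod_eq_of_lt (by omega)
      rw [h2] at g6
      constructor
      · rintro ⟨_, h3, _⟩; omega
      · rintro ⟨_, h3, _⟩; omega
    · -- on the first line
      subst hxa
      have h3 : i ≤ k := by
        by_contra h4
        exact absurd g7 (not_lt.2 (a4 k (by omega)))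
      have h4 : S ω (1 + m) (a m + 1) ≤ S ω (1 + m) (b m) := S_mono ω _ hlt
      have h2 : (S ω (1 + m) (a m) + k) % Z ω (1 + m + 1) = S ω (1 + m) (a m) + k :=
        Nat.mod_eq_of_lt (by omega)
      rw [h2] at g6
      constructor
      · intro _; omega
      · intro _; omega
    rcases lt_trichotomy x (b m) with hxb | hxb | hxb
    · -- between the lines
      have h1 : S ω (1 + m) (x + 1) ≤ S ω (1 + m) (b m) := S_mono ω _ hxb
      have h4 : S ω (1 + m) (a m + 1) ≤ S ω (1 + m) x := S_mono ω _ hxa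
      have h2 : (S ω (1 + m) x + k) % Z ω (1 + m + 1) = S ω (1 + m) x + k :=
        Nat.mod_eq_of_lt (by omega)
      rw [h2] at g6
      constructor
      · intro _; omega
      · intro _; omega
    · -- on the second line
      subst hxb
      have h3 : j ≤ k := by
        by_contra h4
        exact absurd g7 (not_lt.2 (b4 k (by omega)))
      constructor
      · rintro ⟨_, _, h5⟩; omega
      · rintro ⟨_, h5, h6⟩
        exfalso
        by_cases hw : S ω (1 + m) (b m) + k < Z ω (1 + m + 1)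
        · rw [Nat.mod_eq_of_lt hw] at g6
          omega
        · have h7 : S ω (1 + m) (b m) + k = Z ω (1 + m + 1) := by omega
          rw [h7, Nat.mod_self] at g6
          omega
    · -- right of the second line
      have h1 : S ω (1 + m) (b m + 1) ≤ S ω (1 + m) x := S_mono ω _ hxb
      constructor
      · rintro ⟨_, _, h5⟩; omega
      · rintro ⟨_, h5, h6⟩
        exfalso
        by_cases hw : S ω (1 + m) x + k < Z ω (1 + m + 1)
        · rw [Nat.mod_eq_of_lt hw] at g6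
          omega
        · have h7 : S ω (1 + m) x + k = Z ω (1 + m + 1) := by omega
          rw [h7, Nat.mod_self] at g6
          omega
  have hor : ∀ v w, OpenHor p ω v w → (v ∈ Wreg a b ↔ w ∈ Wreg a b) := by
    rintro v w ⟨r, x, rfl, g1, rfl, g2⟩
    rcases Nat.eq_zero_or_pos r with rfl | hr
    · exact absurd g2 (not_lt.2 (hhor x g1))
    obtain ⟨m, rfl⟩ : ∃ m, r = 1 + m := ⟨r - 1, by omega⟩
    have hlt := cut_lt ha hb h0 (m + 1)
    obtain ⟨i, a1, a2, a3, a4, a5⟩ := ha.step m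
    obtain ⟨j, b1, b2, b3, b4, b5⟩ := hb.step m
    have blt' := hb.lt (m + 1)
    have hZ' : Z ω (1 + m + 1) = Z ω (1 + (m + 1)) := rfl
    have e2 : 1 + m + 1 - 1 = m + 1 := by omega
    simp only [Wreg, mem_ofPred_eq, e2]
    have hxa : x ≠ a (m + 1) - 1 := by
      rintro rfl
      exact absurd g2 (not_lt.2 a5)
    have hxb : x ≠ b (m + 1) - 1 := by
      rintro rfl
      exact absurd g2 (not_lt.2 b5)
    by_cases hx : x + 1 < Z ω (1 + m + 1)
    · rw [Nat.mod_eq_of_lt hx]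
      constructor <;> intro _ <;> omega
    · have h3 : x + 1 = Z ω (1 + m + 1) := by omega
      rw [h3, Nat.mod_self]
      constructor <;> intro _ <;> omega
  rcases h with h | h | h
  · exact hup v w h
  · exact hor v w h
  · exact (hor w v h).symm

lemma eqv_region (ha : CutLine p ω a) (hb : CutLine p ω b) (h0 : a 0 < b 0)
    (hroot : ∀ k < ω.1 (0, 0), p ≤ ω.2 (Sum.inl (0, 0, k)))
    (hhor : ∀ j < Z ω 1, p ≤ ω.2 (Sum.inr (0, j))) {v w : ℕ × ℕ}
    (h : Relation.EqvGen (Step p ω) v w) : v ∈ Wreg a b ↔ w ∈ Wreg a b := by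
  induction h with
  | rel x y h => exact step_region ha hb h0 hroot hhor h
  | refl x => exact Iff.rfl
  | symm x y _ ih => exact ih.symm
  | trans x y z _ _ ih1 ih2 => exact ih1.trans ih2

end region

/-- four surviving groups give two infinite clusters -/
lemma not_one_of_groups {p : ℝ} {ω : Cfg} {M : ℕ} (hξ : ω.1 (0, 0) = 4 * M)
    (hroot : ∀ k < 4 * M, p ≤ ω.2 (Sum.inl (0, 0, k)))
    (hhor : ∀ j < 4 * M, p ≤ ω.2 (Sum.inr (0, j)))
    (h1 : ∀ m, (run (chT (Pcut p)) m (tail ω) ⟨4 * M, Finset.Ico 0 M⟩).A.Nonempty)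
    (h2 : ∀ m, (run (chT (Ptp p)) m (tail ω) ⟨4 * M, Finset.Ico M (2 * M)⟩).A.Nonempty)
    (h3 : ∀ m, (run (chT (Pcut p)) m (tail ω) ⟨4 * M, Finset.Ico (2 * M) (3 * M)⟩).A.Nonempty)
    (h4 : ∀ m, (run (chT (Ptp p)) m (tail ω) ⟨4 * M, Finset.Ico (3 * M) (4 * M)⟩).A.Nonempty) :
    ω ∈ Surv ∧ numInf p ω ≠ 1 := by
  have hZ1 : Z ω 1 = 4 * M := by
    rw [← hξ]
    simp [Z]
  have hS : ω ∈ Surv := by
    intro r
    cases r with
    | zero => exact Nat.one_pos
    | succ r =>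
      have g1 := run_k (good_chT (ms_Ptp p)) ω 1 (Finset.Ico M (2 * M)) r
      have g2 := run_lt (T := chT (Ptp p)) (fun x s => chT_lt) (tail ω)
        ⟨4 * M, Finset.Ico M (2 * M)⟩ (by
          intro j hj
          simp only [Finset.mem_Ico] at hj
          simp only
          omega) r
      obtain ⟨j, hj⟩ := h2 r
      have g3 := g2 j hj
      have g4 : (run (chT (Ptp p)) r (tail ω) ⟨4 * M, Finset.Ico M (2 * M)⟩).k =
          Z ω (1 + r) := by
        rw [← hZ1]; exact g1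
      rw [g4, Nat.add_comm] at g3
      omega
  refine ⟨hS, fun hone => ?_⟩
  rw [← hZ1] at h1 h2 h3 h4
  obtain ⟨a, ha0, ha⟩ := exists_cutLine (A := Finset.Ico 0 M) (by
    intro j hj; simp only [Finset.mem_Ico] at hj; omega) h1
  obtain ⟨b, hb0, hb⟩ := exists_cutLine (A := Finset.Ico (2 * M) (3 * M)) (by
    intro j hj; simp only [Finset.mem_Ico] at hj; omega) h3
  obtain ⟨u, hu, hu1⟩ := exists_alive_single (ms_Ptp p) _ _ _ h2
  obtain ⟨v, hv, hv1⟩ := exists_alive_single (ms_Ptp p) _ _ _ h4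
  simp only [Finset.mem_Ico] at ha0 hb0 hu hv
  have hui : IsInf p ω (1, u) := ⟨by simp only; omega, infinite_of_tp le_rfl (by omega) hu1⟩
  have hvi : IsInf p ω (1, v) := ⟨by simp only; omega, infinite_of_tp le_rfl (by omega) hv1⟩
  have hconn := (numInf_eq_one_iff.1 hone).2 _ _ hui hvi
  have hreg := eqv_region ha hb (by omega) (by rw [hξ]; exact hroot) (by rw [hZ1]; exact hhor)
    hconn
  have e1 : (1, u) ∈ Wreg a b := by
    refine ⟨le_rfl, ?_, ?_⟩
    · simp only [Nat.sub_self]; omega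
    · simp only [Nat.sub_self]; omega
  have e2 : (1, v) ∈ Wreg a b := hreg.1 e1
  have e3 := e2.2.2
  simp only [Nat.sub_self] at e3
  omega

variable {α : ℝ} [hα : Fact (0 < α ∧ α < 1)]

/-- non-uniqueness with positive probability -/
lemma nonuniq_pos {p s : ℝ} (hp0 : 0 < p) (hp1 : p < 1) (hs0 : 0 < s) (hs1 : s < 1)
    (htp : (1 - α) / (1 - α * (p * s + (1 - p))) ≤ s)
    (hcut : 1 - (1 - (p + (1 - p) * s)) * (1 - p) * α ^ 2 /
      (1 - α * (p + (1 - p) * s) * (1 - p)) ≤ s) :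
    cfgLaw α (Surv ∩ {ω | numInf p ω = 1}ᶜ) ≠ 0 := by
  have htp' := fun st hst => tp_step (α := α) hp0.le hp1.le hs0.le hs1.le htp st hst
  have hcut' := fun st hst => cut_step (α := α) hp0 hp1.le hs0.le hs1.le hcut st hst
  obtain ⟨M, hM⟩ := exists_pow_lt_of_lt_one (show (0 : ℝ) < 1 / 4 by norm_num) hs1
  set σ := ENNReal.ofReal s with hσ
  have hlt : ∀ a b : ℕ, b ≤ 4 * M → ∀ j ∈ (⟨4 * M, Finset.Ico a b⟩ : St).A,
      j < (⟨4 * M, Finset.Ico a b⟩ : St).k := by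
    intro a b hb j hj
    simp only [Finset.mem_Ico] at hj
    simp only
    omega
  set E₁ : Set Cfg := {ω | ∀ m, (run (chT (Pcut p)) m ω ⟨4 * M, Finset.Ico 0 M⟩).A.Nonempty}
    with hE₁
  set E₂ : Set Cfg := {ω | ∀ m, (run (chT (Ptp p)) m ω
    ⟨4 * M, Finset.Ico M (2 * M)⟩).A.Nonempty} with hE₂
  set E₃ : Set Cfg := {ω | ∀ m, (run (chT (Pcut p)) m ω
    ⟨4 * M, Finset.Ico (2 * M) (3 * M)⟩).A.Nonempty} with hE₃
  set E₄ : Set Cfg := {ω | ∀ m, (run (chT (Ptp p)) m ω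
    ⟨4 * M, Finset.Ico (3 * M) (4 * M)⟩).A.Nonempty} with hE₄
  have m₁ : MeasurableSet E₁ := ms_aliveAll (good_chT (ms_Pcut p)) _
  have m₂ : MeasurableSet E₂ := ms_aliveAll (good_chT (ms_Ptp p)) _
  have m₃ : MeasurableSet E₃ := ms_aliveAll (good_chT (ms_Pcut p)) _
  have m₄ : MeasurableSet E₄ := ms_aliveAll (good_chT (ms_Ptp p)) _
  have b₁ : cfgLaw α E₁ᶜ ≤ σ ^ M := by
    have := Ui_ge (α := α) (good_chT (ms_Pcut p)) (fun x s => chT_lt) hcut'
      ⟨4 * M, Finset.Ico 0 M⟩ (hlt 0 M (by omega))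
    rwa [Nat.card_Ico, Nat.sub_zero] at this
  have b₂ : cfgLaw α E₂ᶜ ≤ σ ^ M := by
    have := Ui_ge (α := α) (good_chT (ms_Ptp p)) (fun x s => chT_lt) htp'
      ⟨4 * M, Finset.Ico M (2 * M)⟩ (hlt M (2 * M) (by omega))
    rwa [Nat.card_Ico, show 2 * M - M = M by omega] at this
  have b₃ : cfgLaw α E₃ᶜ ≤ σ ^ M := by
    have := Ui_ge (α := α) (good_chT (ms_Pcut p)) (fun x s => chT_lt) hcut'
      ⟨4 * M, Finset.Ico (2 * M) (3 * M)⟩ (hlt (2 * M) (3 * M) (by omega))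
    rwa [Nat.card_Ico, show 3 * M - 2 * M = M by omega] at this
  have b₄ : cfgLaw α E₄ᶜ ≤ σ ^ M := by
    have := Ui_ge (α := α) (good_chT (ms_Ptp p)) (fun x s => chT_lt) htp'
      ⟨4 * M, Finset.Ico (3 * M) (4 * M)⟩ (hlt (3 * M) (4 * M) (by omega))
    rwa [Nat.card_Ico, show 4 * M - 3 * M = M by omega] at this
  set F := E₁ ∩ (E₂ ∩ (E₃ ∩ E₄)) with hF
  have mF : MeasurableSet F := m₁.inter (m₂.inter (m₃.inter m₄))
  have hFc : cfgLaw α Fᶜ < 1 := by
    have h1 : Fᶜ ⊆ E₁ᶜ ∪ (E₂ᶜ ∪ (E₃ᶜ ∪ E₄ᶜ)) := by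
      intro ω hω
      simp only [hF, mem_compl_iff, mem_inter_iff, mem_union] at hω ⊢
      tauto
    calc cfgLaw α Fᶜ ≤ cfgLaw α (E₁ᶜ ∪ (E₂ᶜ ∪ (E₃ᶜ ∪ E₄ᶜ))) := measure_mono h1
      _ ≤ cfgLaw α E₁ᶜ + (cfgLaw α E₂ᶜ + (cfgLaw α E₃ᶜ + cfgLaw α E₄ᶜ)) := by
          refine (measure_union_le _ _).trans (add_le_add le_rfl ?_)
          refine (measure_union_le _ _).trans (add_le_add le_rfl ?_)
          exact measure_union_le _ _
      _ ≤ σ ^ M + (σ ^ M + (σ ^ M + σ ^ M)) := by gcongr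
      _ = ENNReal.ofReal (4 * s ^ M) := by
          rw [hσ, ← ENNReal.ofReal_pow hs0.le, ← ENNReal.ofReal_add (by positivity)
            (by positivity), ← ENNReal.ofReal_add (by positivity) (by positivity),
            ← ENNReal.ofReal_add (by positivity) (by positivity)]
          congr 1
          ring
      _ < 1 := by
          rw [← ENNReal.ofReal_one]
          exact (ENNReal.ofReal_lt_ofReal_iff one_pos).2 (by linarith)
  have hFpos : cfgLaw α F ≠ 0 := by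
    intro h0
    have := prob_compl_eq_one_sub (μ := cfgLaw α) mF
    rw [h0, tsub_zero] at this
    rw [this] at hFc
    exact lt_irrefl _ hFc
  -- the first row
  set R₀ : Set Row := {ξ : ℕ → ℕ | ξ 0 = 4 * M} ×ˢ {u : REdge → ℝ |
    ∀ e ∈ ((Finset.range (4 * M)).image fun k => (Sum.inl (0, k) : REdge)) ∪
      (Finset.range (4 * M)).image fun k => (Sum.inr k : REdge), u e ∈ {y | p ≤ y}} with hR₀
  have mR₀ : MeasurableSet R₀ := by
    refine MeasurableSet.prod ?_ ?_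
    · exact (measurable_pi_apply (0 : ℕ) : Measurable fun ξ : ℕ → ℕ => ξ 0)
        (MeasurableSet.singleton (4 * M))
    · have : ∀ s : Finset REdge, MeasurableSet {u : REdge → ℝ | ∀ e ∈ s, u e ∈ {y | p ≤ y}} := by
        intro s
        have h2 : {u : REdge → ℝ | ∀ e ∈ s, u e ∈ {y | p ≤ y}} =
            ⋂ e ∈ s, {u : REdge → ℝ | p ≤ u e} := by
          ext u; simp
        rw [h2]
        exact MeasurableSet.biInter (Set.to_countable _) fun e _ =>
          (measurable_pi_apply e : Measurable fun u : REdge → ℝ => u e) measurableSet_Ici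
      exact this _
  have hR₀pos : rowLaw α R₀ ≠ 0 := by
    unfold rowLaw
    rw [hR₀, Measure.prod_prod]
    refine mul_ne_zero (geom_tail_pos (4 * M)) ?_
    rw [measure_all_coord unifLaw _ {y | p ≤ y} measurableSet_Ici]
    have h3 : unifLaw {y | p ≤ y} = ENNReal.ofReal (1 - p) := unifLaw_ge hp0.le
    rw [h3]
    refine pow_ne_zero _ ?_
    simp only [ne_eq, ENNReal.ofReal_eq_zero, not_le]
    linarith
  set G : Set Cfg := {ω | head ω ∈ R₀ ∧ tail ω ∈ F} with hG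
  have mG : MeasurableSet G := (measurable_head mR₀).inter (measurable_tail mF)
  have hGm : cfgLaw α G = rowLaw α R₀ * cfgLaw α F := by
    rw [measure_cons mG]
    have h5 : ∀ x : Row, cfgLaw α {ω | cons x ω ∈ G} =
        R₀.indicator (fun _ => cfgLaw α F) x := by
      intro x
      by_cases hx : x ∈ R₀
      · rw [Set.indicator_of_mem hx]
        congr 1
        ext ω
        simp [hG, hx]
      · rw [Set.indicator_of_notMem hx]
        have : {ω | cons x ω ∈ G} = ∅ := by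
          ext ω
          simp [hG, hx]
        rw [this, measure_empty]
    simp_rw [h5]
    rw [lintegral_indicator_const mR₀, mul_comm]
  have hsub : G ⊆ Surv ∩ {ω | numInf p ω = 1}ᶜ := by
    rintro ω ⟨⟨g1, g2⟩, g3, g4, g5, g6⟩
    have g2' : ∀ e ∈ ((Finset.range (4 * M)).image fun k => (Sum.inl (0, k) : REdge)) ∪
      (Finset.range (4 * M)).image fun k => (Sum.inr k : REdge), p ≤ (head ω).2 e := g2
    have := not_one_of_groups (p := p) (ω := ω) (M := M) g1 (fun k hk =>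
      g2' (Sum.inl (0, k)) (Finset.mem_union_left _ (Finset.mem_image_of_mem _
        (Finset.mem_range.2 hk)))) (fun k hk =>
      g2' (Sum.inr k) (Finset.mem_union_right _ (Finset.mem_image_of_mem _
        (Finset.mem_range.2 hk)))) g3 g4 g5 g6
    exact ⟨this.1, this.2⟩
  intro h0
  have h6 : cfgLaw α G = 0 := measure_mono_null hsub h0
  rw [hGm] at h6
  exact mul_ne_zero hR₀pos hFpos h6

end Pool.Agent.helper885_ct
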