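import Pool.Agent.helper885_ct.Peierls
import Pool.Agent.helper885_ct.NonUniq

/-!
Assembly: the critical value, the uniqueness threshold.
-/

set_option linter.unusedSectionVars false
set_option linter.unusedVariables false

namespace Pool.Agent.helper885_ct

open MeasureTheory Set Measure
open scoped ENNReal

variable {α : ℝ} [hα : Fact (0 < α ∧ α < 1)]

/-- above `1/m` the root cluster is infinite with positive probability -/
lemma root_pos {p : ℝ} (hp0 : 0 < p) (hp1 : p ≤ 1) (hp : (1 - α) / α < p) :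
    cfgLaw α (Surv ∩ {ω | (cluster p ω (0, 0)).Infinite}) ≠ 0 := by
  have h0 := hα.out.1
  have h1 := hα.out.2
  have hpα : 1 - α < α * p := by
    rw [div_lt_iff₀ h0] at hp
    linarith
  set s := (1 - α) / (α * p) with hs
  have hαp : 0 < α * p := by positivity
  have hs0 : 0 < s := div_pos (by linarith) hαp
  have hs1 : s < 1 := by
    rw [hs, div_lt_one hαp]
    exact hpα
  have htp : (1 - α) / (1 - α * (p * s + (1 - p))) ≤ s := by
    have e1 : α * (p * s) = 1 - α := by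
      rw [hs]
      field_simp
    have e2 : 1 - α * (p * s + (1 - p)) = α * p := by
      have : α * (p * s + (1 - p)) = α * (p * s) + α - α * p := by ring
      rw [this, e1]
      ring
    rw [e2]
  have htp' := fun st hst => tp_step (α := α) hp0.le hp1 hs0.le hs1.le htp st hst
  have hb := Ui_ge (α := α) (good_chT (ms_Ptp p)) (fun x s => chT_lt) htp' ⟨1, {0}⟩ (by
    intro j hj
    simp only [Finset.mem_singleton] at hj
    simp only
    omega)
  set E : Set Cfg := {ω | ∀ m, (run (chT (Ptp p)) m ω ⟨1, {0}⟩).A.Nonempty} with hE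
  have mE : MeasurableSet E := ms_aliveAll (good_chT (ms_Ptp p)) _
  simp only [Finset.card_singleton, pow_one] at hb
  have h2 : cfgLaw α Eᶜ < 1 := by
    refine lt_of_le_of_lt hb ?_
    rw [← ENNReal.ofReal_one]
    exact (ENNReal.ofReal_lt_ofReal_iff one_pos).2 hs1
  have h3 : cfgLaw α E ≠ 0 := by
    intro h0'
    have := prob_compl_eq_one_sub (μ := cfgLaw α) mE
    rw [h0', tsub_zero] at this
    rw [this] at h2
    exact lt_irrefl _ h2
  intro h4
  refine h3 (le_antisymm ?_ bot_le)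
  rw [← h4]
  exact measure_mono fun ω hω => root_infinite_of_tp hω

lemma Surv_ne_zero (h2 : 1 / 2 < α) : cfgLaw α Surv ≠ 0 := by
  have h0 := hα.out.1
  have h1 := hα.out.2
  have := root_pos (α := α) one_pos le_rfl (by rw [div_lt_one h0]; linarith)
  intro h
  exact this (le_antisymm ((measure_mono inter_subset_left).trans h.le) bot_le)

lemma annLaw_apply (s : Set Cfg) :
    annLaw α s = (cfgLaw α Surv)⁻¹ * cfgLaw α (Surv ∩ s) := by
  unfold annLaw
  rw [ProbabilityTheory.cond_apply ms_Surv]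

lemma isProb_annLaw (h2 : 1 / 2 < α) : IsProbabilityMeasure (annLaw α) := by
  unfold annLaw
  exact ProbabilityTheory.cond_isProbabilityMeasure (Surv_ne_zero h2)

lemma annLaw_eq_zero_iff {s : Set Cfg} : annLaw α s = 0 ↔ cfgLaw α (Surv ∩ s) = 0 := by
  rw [annLaw_apply, mul_eq_zero]
  constructor
  · rintro (h | h)
    · exact absurd h (ENNReal.inv_ne_zero.2 (measure_ne_top _ _))
    · exact h
  · intro h
    exact Or.inr h

lemma pch_nonneg : 0 ≤ pch α := Real.sSup_nonneg fun p hp => hp.1.1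

lemma bddAbove_pch : BddAbove {p ∈ Icc (0 : ℝ) 1 | Theta α p = 0} := ⟨1, fun p hp => hp.1.2⟩

lemma pch_le (h2 : 1 / 2 < α) : pch α ≤ (1 - α) / α := by
  have h0 := hα.out.1
  have h1 := hα.out.2
  refine Real.sSup_le (fun p hp => ?_) (div_nonneg (by linarith) h0.le)
  by_contra hlt
  push Not at hlt
  have hp0 : 0 < p := lt_of_le_of_lt (div_nonneg (by linarith) h0.le) hlt
  exact root_pos hp0 hp.1.2 hlt (annLaw_eq_zero_iff.1 hp.2)

lemma pch_lt_one (h2 : 1 / 2 < α) : pch α < 1 := by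
  have h0 := hα.out.1
  have h1 := hα.out.2
  refine lt_of_le_of_lt (pch_le h2) ?_
  rw [div_lt_one h0]
  linarith

/-- above the critical value the survival probability of percolation is bounded below -/
lemma lower_of_pch (h2 : 1 / 2 < α) {p : ℝ} (hp : pch α < p) (hp1 : p < 1) :
    ∃ c : ℝ≥0∞, c ≠ 0 ∧ ∀ k i, i < k → c ≤ Ui α (nxt p) ⟨k, {i}⟩ := by
  have hp0 : 0 < p := lt_of_le_of_lt pch_nonneg hp
  refine uniform_lower h2 hp0 hp1 ?_
  intro h
  have hT : Theta α p ≠ 0 := by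
    intro h'
    exact absurd (le_csSup bddAbove_pch ⟨⟨hp0.le, hp1.le⟩, h'⟩) (not_le.2 hp)
  refine hT (annLaw_eq_zero_iff.2 (le_antisymm ?_ bot_le))
  have h3 : cfgLaw α {ω | ∀ n, (run (nxt p) n ω ⟨1, {0}⟩).A.Nonempty} = 0 := h
  rw [← h3]
  exact measure_mono fun ω hω => alive_of_root hω.2

lemma allT_lt (x : Row) (s : St) : ∀ j ∈ (allT x s).A, j < (allT x s).k := by
  intro j hj
  unfold allT at hj ⊢
  by_cases h : s.A.Nonempty
  · simpa [h] using hj
  · simp [h] at hj

/-- above the critical value, almost surely no bad event occurs -/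
lemma ae_good (h2 : 1 / 2 < α) {p : ℝ} (hp : pch α < p) (hp1 : p < 1) :
    (∀ᵐ ω ∂cfgLaw α, ∀ r : ℕ, ∀ s : St, (∀ j ∈ s.A, j < s.k) → tail^[r] ω ∉ Bad allT p s) ∧
    ∀ p', ∀ᵐ ω ∂cfgLaw α, ∀ r : ℕ, ∀ s : St, (∀ j ∈ s.A, j < s.k) →
      tail^[r] ω ∉ Bad (nxt p') p s := by
  obtain ⟨c, hc, hU⟩ := lower_of_pch h2 hp hp1
  exact ⟨ae_no_bad good_allT allT_lt hc hU, fun p' => ae_no_bad (good_nxt p')
    (fun x s j hj => nxt_lt hj) hc hU⟩

/-- uniqueness is monotone -/
lemma one_mono (h2 : 1 / 2 < α) {p p' : ℝ} (hp : pch α < p) (hpp : p ≤ p') (hp1 : p' < 1)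
    (h : annLaw α {ω | numInf p ω = 1} = 1) : annLaw α {ω | numInf p' ω = 1} = 1 := by
  have := isProb_annLaw (α := α) h2
  have h3 : ∀ᵐ ω ∂annLaw α, numInf p ω = 1 := by
    rw [ae_iff]
    have := (prob_compl_eq_zero_iff (μ := annLaw α) (ms_one p)).2 h
    exact this
  rw [← prob_compl_eq_zero_iff (ms_one p')]
  rw [annLaw_eq_zero_iff]
  have g1 := (ae_good (α := α) h2 (lt_of_lt_of_le hp hpp) hp1).1
  have g2 := (ae_good (α := α) h2 hp (lt_of_le_of_lt hpp hp1)).2 p'
  have h4 : ∀ᵐ ω ∂cfgLaw α, ω ∈ Surv → numInf p ω = 1 := by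
    rw [ae_iff] at h3 ⊢
    rw [annLaw_eq_zero_iff] at h3
    refine measure_mono_null ?_ h3
    intro ω hω
    simp only [mem_ofPred_eq, Classical.not_imp] at hω
    exact hω
  have h5 : ∀ᵐ ω ∂cfgLaw α, ω ∉ Surv ∩ {ω | numInf p' ω = 1}ᶜ := by
    filter_upwards [g1, g2, h4] with ω e1 e2 e3 he
    exact he.2 (one_of_one hpp e2 e1 he.1 (e3 he.1))
  exact measure_eq_zero_iff_ae_notMem.2 h5

/-- uniqueness near one -/
lemma one_near (h2 : 1 / 2 < α) {p : ℝ} (hp : pch α < p) (hp5 : 5 / 6 < p) (hp1 : p < 1) :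
    annLaw α {ω | numInf p ω = 1} = 1 := by
  have := isProb_annLaw (α := α) h2
  rw [← prob_compl_eq_zero_iff (ms_one p), annLaw_eq_zero_iff]
  have g1 := (ae_good (α := α) h2 hp hp1).1
  have g2 := ae_unique (α := α) hp5 hp1.le
  have h5 : ∀ᵐ ω ∂cfgLaw α, ω ∉ Surv ∩ {ω | numInf p ω = 1}ᶜ := by
    filter_upwards [g1, g2] with ω e1 e2 he
    refine he.2 ?_
    show numInf p ω = 1
    rw [numInf_eq_one_iff]
    exact ⟨exists_infinite_of_surv e1 he.1, e2 he.1⟩
  exact measure_eq_zero_iff_ae_notMem.2 h5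

/-- the uniqueness threshold -/
theorem threshold (h2 : 1 / 2 < α) : ∃ pu : ℝ, pch α ≤ pu ∧ pu < 1 ∧
    (∀ p, pu < p → p < 1 → annLaw α {ω | numInf p ω = 1} = 1) ∧
    (∀ p, pch α < p → p < pu → annLaw α {ω | numInf p ω = 1} < 1) ∧
    ∀ p, pch α < p → p < 1 → annLaw α {ω | numInf p ω = 1} ≠ 1 → p ≤ pu := by
  have := isProb_annLaw (α := α) h2
  set U : Set ℝ := {p | pch α < p ∧ p < 1 ∧ annLaw α {ω | numInf p ω = 1} = 1} with hU
  have hlow : ∀ p ∈ U, pch α ≤ p := fun p hp => hp.1.le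
  have hbdd : BddBelow U := ⟨pch α, hlow⟩
  obtain ⟨a, ha, ha1⟩ := exists_between (show max (pch α) (5 / 6) < 1 from
    max_lt (pch_lt_one h2) (by norm_num))
  have haU : a ∈ U := ⟨lt_of_le_of_lt (le_max_left _ _) ha, ha1,
    one_near h2 (lt_of_le_of_lt (le_max_left _ _) ha) (lt_of_le_of_lt (le_max_right _ _) ha) ha1⟩
  refine ⟨sInf U, le_csInf ⟨a, haU⟩ hlow, lt_of_le_of_lt (csInf_le hbdd haU) ha1, ?_, ?_, ?_⟩
  · intro p hp hp1
    obtain ⟨b, hb, hbp⟩ := exists_lt_of_csInf_lt ⟨a, haU⟩ hp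
    exact one_mono h2 hb.1 hbp.le hp1 hb.2.2
  · intro p hp hpu
    refine lt_of_le_of_ne prob_le_one fun h => ?_
    have hp1 : p < 1 := hpu.trans (lt_of_le_of_lt (csInf_le hbdd haU) ha1)
    exact absurd (csInf_le hbdd ⟨hp, hp1, h⟩) (not_le.2 hpu)
  · intro p hp hp1 h
    refine le_csInf ⟨a, haU⟩ fun b hb => ?_
    by_contra hlt
    push Not at hlt
    exact h (one_mono h2 hb.1 hlt.le hp1 hb.2.2)

/-- non-uniqueness just above `1/m` for large `α` -/
lemma not_one_large (h : (1 + Real.sqrt 5) / 4 < α) :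
    ∃ p, pch α < p ∧ p < 1 ∧ annLaw α {ω | numInf p ω = 1} ≠ 1 := by
  have h0 := hα.out.1
  have h1 := hα.out.2
  have hsq : Real.sqrt 5 * Real.sqrt 5 = 5 := Real.mul_self_sqrt (by norm_num)
  have hs2 : 2 < Real.sqrt 5 := by
    rw [show (2 : ℝ) = Real.sqrt (2 ^ 2) by rw [Real.sqrt_sq (by norm_num)]]
    exact Real.sqrt_lt_sqrt (by norm_num) (by norm_num)
  have h2 : 1 / 2 < α := by linarith
  set g := (Real.sqrt 5 - 1) / 2 with hg
  have hg0 : 0 < g := by rw [hg]; linarith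
  obtain ⟨p, hp, hpg⟩ := exists_between (show (1 - α) / α < 1 - g / α by
    rw [div_lt_iff₀ h0]
    have : (1 - g / α) * α = α - g := by field_simp
    rw [this, hg]
    linarith)
  have hp0 : 0 < p := lt_of_le_of_lt (div_nonneg (by linarith) h0.le) hp
  have hp1 : p < 1 := hpg.trans (by linarith [div_pos hg0 h0])
  have hαp : 1 - α < α * p := by
    rw [div_lt_iff₀ h0] at hp
    linarith
  set β := α * (1 - p) with hβ
  have hβg : g < β := by
    have : p * α < (1 - g / α) * α := mul_lt_mul_of_pos_right hpg h0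
    have e : (1 - g / α) * α = α - g := by field_simp
    rw [e] at this
    rw [hβ]
    linarith
  have hβ0 : 0 < β := hg0.trans hβg
  have hβ1 : β < 1 := by
    rw [hβ]
    nlinarith
  have hββ : 1 < β ^ 2 + β := by
    have hgg : g ^ 2 + g = 1 := by
      rw [hg]
      nlinarith
    nlinarith
  have hu : (1 - β ^ 2) / β < 1 := by
    rw [div_lt_one hβ0]
    linarith
  obtain ⟨s, hs, hs1⟩ := exists_between (show max ((1 - α) / (α * p))
      (((1 - β ^ 2) / β - p) / (1 - p)) < 1 from by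
    refine max_lt ?_ ?_
    · rw [div_lt_one (by positivity)]
      exact hαp
    · rw [div_lt_one (by linarith)]
      linarith)
  have hs0 : 0 < s := by
    refine lt_of_le_of_lt ?_ (lt_of_le_of_lt (le_max_left _ _) hs)
    exact div_nonneg (by linarith) (by positivity)
  have e1 : (1 - α) / (α * p) < s := lt_of_le_of_lt (le_max_left _ _) hs
  have e2 : ((1 - β ^ 2) / β - p) / (1 - p) < s := lt_of_le_of_lt (le_max_right _ _) hs
  rw [div_lt_iff₀ (by positivity)] at e1
  rw [div_lt_iff₀ (by linarith)] at e2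
  have e3 : (1 - β ^ 2) / β < p + (1 - p) * s := by linarith
  rw [div_lt_iff₀ hβ0] at e3
  have ht1 : p + (1 - p) * s < 1 := by nlinarith
  refine ⟨p, lt_of_le_of_lt (pch_le h2) hp, hp1, fun h3 => ?_⟩
  have := isProb_annLaw (α := α) h2
  rw [← prob_compl_eq_zero_iff (ms_one p), annLaw_eq_zero_iff] at h3
  refine nonuniq_pos (α := α) hp0 hp1 hs0 hs1 ?_ ?_ h3
  · have hd : 0 < 1 - α * (p * s + (1 - p)) := by nlinarith
    rw [div_le_iff₀ hd]
    have : (s - 1) * (s * (α * p) - (1 - α)) ≤ 0 :=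
      mul_nonpos_of_nonpos_of_nonneg (by linarith) (by linarith)
    nlinarith
  · set t := p + (1 - p) * s with ht
    have ht' : 1 - t = (1 - p) * (1 - s) := by rw [ht]; ring
    have hd : 0 < 1 - α * t * (1 - p) := by
      have : α * t * (1 - p) = β * t := by rw [hβ]; ring
      rw [this]
      nlinarith
    have h5 : 1 - s ≤ (1 - t) * (1 - p) * α ^ 2 / (1 - α * t * (1 - p)) := by
      rw [le_div_iff₀ hd, ht']
      have h6 : (1 - p) * (1 - s) * (1 - p) * α ^ 2 = (1 - s) * β ^ 2 := by rw [hβ]; ring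
      rw [h6]
      refine mul_le_mul_of_nonneg_left ?_ (by linarith)
      have h7 : α * t * (1 - p) = t * β := by rw [hβ]; ring
      rw [h7]
      linarith
    linarith

end Pool.Agent.helper885_ct
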