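import Pool.Agent.helper885_ct.Row

/-!
Measurability of the level chain; survival probabilities.
-/

set_option linter.unusedSectionVars false

namespace Pool.Agent.helper885_ct

open MeasureTheory Set Measure
open scoped ENNReal

section gen

variable {Ω V : Type*} [MeasurableSpace Ω]

lemma ms2 {f g : Ω → ℕ} (hf : Measurable f) (hg : Measurable g) (P : ℕ → ℕ → Prop) :
    MeasurableSet {x | P (f x) (g x)} :=
  (hf.prodMk hg) (MeasurableSet.of_discrete (s := {q : ℕ × ℕ | P q.1 q.2}))

lemma ms1 {f : Ω → ℕ} (hf : Measurable f) (P : ℕ → Prop) : MeasurableSet {x | P (f x)} :=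
  hf (MeasurableSet.of_discrete (s := {q : ℕ | P q}))

/-- paths with `n` steps -/
def nsteps (R : V → V → Prop) : ℕ → V → V → Prop
  | 0, a, b => a = b
  | n + 1, a, b => ∃ c, nsteps R n a c ∧ R c b

lemma reflTransGen_iff_nsteps {R : V → V → Prop} {a b : V} :
    Relation.ReflTransGen R a b ↔ ∃ n, nsteps R n a b := by
  constructor
  · intro h
    induction h with
    | refl => exact ⟨0, rfl⟩
    | tail _ h2 ih =>
      obtain ⟨n, hn⟩ := ih
      exact ⟨n + 1, _, hn, h2⟩
  · rintro ⟨n, hn⟩
    induction n generalizing b with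
    | zero => exact hn ▸ Relation.ReflTransGen.refl
    | succ n ih =>
      obtain ⟨c, hc, hcb⟩ := hn
      exact (ih hc).tail hcb

lemma ms_nsteps [Countable V] {R : Ω → V → V → Prop} (h : ∀ a b, MeasurableSet {ω | R ω a b})
    (n : ℕ) (a b : V) : MeasurableSet {ω | nsteps (R ω) n a b} := by
  induction n generalizing b with
  | zero => exact MeasurableSet.const _
  | succ n ih =>
    have : {ω | nsteps (R ω) (n + 1) a b} = ⋃ c, ({ω | nsteps (R ω) n a c} ∩ {ω | R ω c b}) := by
      ext ω
      simp [nsteps]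
    rw [this]
    exact MeasurableSet.iUnion fun c => (ih c).inter (h c b)

lemma ms_reflTransGen [Countable V] {R : Ω → V → V → Prop}
    (h : ∀ a b, MeasurableSet {ω | R ω a b}) (a b : V) :
    MeasurableSet {ω | Relation.ReflTransGen (R ω) a b} := by
  have : {ω | Relation.ReflTransGen (R ω) a b} = ⋃ n, {ω | nsteps (R ω) n a b} := by
    ext ω
    simp [reflTransGen_iff_nsteps]
  rw [this]
  exact MeasurableSet.iUnion fun n => ms_nsteps h n a b

lemma eqvGen_iff {R : V → V → Prop} {a b : V} :
    Relation.EqvGen R a b ↔ Relation.ReflTransGen (fun x y => R x y ∨ R y x) a b := by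
  constructor
  · intro h
    induction h with
    | rel x y h => exact Relation.ReflTransGen.single (Or.inl h)
    | refl x => exact Relation.ReflTransGen.refl
    | symm x y _ ih =>
      haveI : Std.Symm (fun x y => R x y ∨ R y x) := ⟨fun a b h => h.symm⟩
      exact Std.Symm.symm _ _ ih
    | trans x y z _ _ ih1 ih2 => exact ih1.trans ih2
  · intro h
    induction h with
    | refl => exact Relation.EqvGen.refl _
    | tail _ h2 ih =>
      rcases h2 with h2 | h2
      · exact ih.trans _ _ _ (Relation.EqvGen.rel _ _ h2)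
      · exact ih.trans _ _ _ ((Relation.EqvGen.rel _ _ h2).symm _ _)

end gen

lemma measurable_rS (i : ℕ) : Measurable (fun x : Row => rS x i) := by
  unfold rS
  fun_prop

lemma ms_up (p : ℝ) (e : REdge) : MeasurableSet {x : Row | x.2 e < p} := by
  have : Measurable (fun x : Row => x.2 e) := by fun_prop
  exact this measurableSet_Iio

lemma ms_direct (p : ℝ) (s : St) (j : ℕ) : MeasurableSet {x : Row | direct p x s j} := by
  have h1 : MeasurableSet {x : Row | j < rS x s.k} := ms1 (measurable_rS s.k) (fun m => j < m)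
  have h2 : ∀ i c : ℕ, MeasurableSet {x : Row | c ≤ x.1 i} := by
    intro i c
    have : Measurable (fun x : Row => x.1 i) := by fun_prop
    exact ms1 this (fun m => c ≤ m)
  have h3 : ∀ i c : ℕ, MeasurableSet {x : Row | j = (rS x i + c) % rS x s.k} := fun i c =>
    ms2 (measurable_rS i) (measurable_rS s.k) (fun a b => j = (a + c) % b)
  have : {x : Row | direct p x s j} = {x | j < rS x s.k} ∩ ⋃ i ∈ {i | i ∈ s.A ∧ i < s.k}, ⋃ c,
      ({x : Row | c ≤ x.1 i} ∩ ({x : Row | x.2 (Sum.inl (i, c)) < p} ∩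
        {x : Row | j = (rS x i + c) % rS x s.k})) := by
    ext x
    simp only [direct, mem_ofPred_eq, mem_inter_iff, mem_iUnion]
    constructor
    · rintro ⟨h, i, hi, hik, c, hc, hp, hj⟩
      exact ⟨h, i, ⟨hi, hik⟩, c, hc, hp, hj⟩
    · rintro ⟨h, i, ⟨hi, hik⟩, c, hc, hp, hj⟩
      exact ⟨h, i, hi, hik, c, hc, hp, hj⟩
  rw [this]
  refine h1.inter (MeasurableSet.biUnion (Set.to_countable _) fun i _ => MeasurableSet.iUnion
    fun c => (h2 i c).inter ((ms_up p _).inter (h3 i c)))

lemma ms_hnext (p : ℝ) (k a b : ℕ) : MeasurableSet {x : Row | hnext p x (rS x k) a b} :=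
  (ms1 (measurable_rS k) (fun m => a < m)).inter
    ((ms1 (measurable_rS k) (fun m => b = (a + 1) % m)).inter (ms_up p _))

lemma ms_hadj (p : ℝ) (k a b : ℕ) : MeasurableSet {x : Row | hadj p x (rS x k) a b} :=
  (ms_hnext p k a b).union (ms_hnext p k b a)

lemma ms_mem_nxt (p : ℝ) (s : St) (j : ℕ) : MeasurableSet {x : Row | j ∈ (nxt p x s).A} := by
  have : {x : Row | j ∈ (nxt p x s).A} = {x | j < rS x s.k} ∩ ⋃ d, ({x | direct p x s d} ∩
      {x | Relation.ReflTransGen (hadj p x (rS x s.k)) d j}) := by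
    ext x
    simp [mem_nxt]
  rw [this]
  exact (ms1 (measurable_rS s.k) (fun m => j < m)).inter (MeasurableSet.iUnion fun d =>
    (ms_direct p s d).inter (ms_reflTransGen (fun a b => ms_hadj p s.k a b) d j))

lemma measurable_St_of {Ω : Type*} [MeasurableSpace Ω] {f : Ω → St}
    (h1 : Measurable (fun x => (f x).k)) (h2 : ∀ j, MeasurableSet {x | j ∈ (f x).A}) :
    Measurable f := by
  refine measurable_to_countable' fun s => ?_
  have : f ⁻¹' {s} = {x | (f x).k = s.k} ∩ ⋂ j, {x | j ∈ (f x).A ↔ j ∈ s.A} := by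
    ext x
    simp only [mem_preimage, mem_singleton_iff, mem_inter_iff, mem_ofPred_eq, mem_iInter]
    constructor
    · intro h
      simp [h]
    · rintro ⟨h3, h4⟩
      have h5 : (f x).A = s.A := Finset.ext h4
      cases hf : f x
      cases s
      simp_all
  rw [this]
  refine (ms1 h1 (fun m => m = s.k)).inter (MeasurableSet.iInter fun j => ?_)
  by_cases hj : j ∈ s.A
  · simpa [hj] using h2 j
  · have : {x | j ∈ (f x).A ↔ j ∈ s.A} = {x | j ∈ (f x).A}ᶜ := by
      ext x; simp [hj]
    rw [this]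
    exact (h2 j).compl

lemma measurable_nxt (p : ℝ) (s : St) : Measurable (fun x => nxt p x s) :=
  measurable_St_of (measurable_rS s.k) (ms_mem_nxt p s)

lemma good_nxt (p : ℝ) : Good (nxt p) where
  meas := measurable_nxt p
  empty := by
    rintro x s h ⟨j, hj⟩
    obtain ⟨_, d, ⟨_, i, hi, _⟩, _⟩ := mem_nxt.1 hj
    exact h ⟨i, hi⟩
  kk := nxt_k p

variable {T : Row → St → St}

lemma measurable_run (hT : Good T) (n : ℕ) (s : St) : Measurable (fun ω => run T n ω s) := by
  induction n generalizing s with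
  | zero => exact measurable_const
  | succ n ih =>
    have h1 : Measurable (fun q : St × Cfg => run T n q.2 q.1) :=
      measurable_from_prod_countable_right (fun s => ih s)
    have h2 : Measurable (fun ω : Cfg => (T (head ω) s, tail ω)) :=
      ((hT.meas s).comp measurable_head).prodMk measurable_tail
    exact h1.comp h2

variable {α : ℝ} [hα : Fact (0 < α ∧ α < 1)]

lemma lintegral_run_succ (hT : Good T) (n : ℕ) (s : St) (F : St → ℝ≥0∞) :
    ∫⁻ ω, F (run T (n + 1) ω s) ∂cfgLaw α =
      ∫⁻ x, ∫⁻ ω, F (run T n ω (T x s)) ∂cfgLaw α ∂rowLaw α := by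
  have h : Measurable (fun ω => F (run T (n + 1) ω s)) :=
    (measurable_from_top (f := F)).comp (measurable_run hT (n + 1) s)
  rw [lintegral_cons h]
  simp only [run_succ_cons]

/-- probability of being alive after `n` rows -/
noncomputable def Un (α : ℝ) (T : Row → St → St) (n : ℕ) (s : St) : ℝ≥0∞ :=
  cfgLaw α {ω | (run T n ω s).A.Nonempty}

/-- probability of being alive for ever -/
noncomputable def Ui (α : ℝ) (T : Row → St → St) (s : St) : ℝ≥0∞ :=
  cfgLaw α {ω | ∀ n, (run T n ω s).A.Nonempty}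

lemma ms_alive (hT : Good T) (n : ℕ) (s : St) : MeasurableSet {ω | (run T n ω s).A.Nonempty} :=
  measurable_run hT n s (MeasurableSet.of_discrete (s := {s : St | s.A.Nonempty}))

lemma ms_aliveAll (hT : Good T) (s : St) :
    MeasurableSet {ω | ∀ n, (run T n ω s).A.Nonempty} := by
  have : {ω | ∀ n, (run T n ω s).A.Nonempty} = ⋂ n, {ω | (run T n ω s).A.Nonempty} := by
    ext ω; simp
  rw [this]
  exact MeasurableSet.iInter fun n => ms_alive hT n s

lemma Un_succ (hT : Good T) (n : ℕ) (s : St) :
    Un α T (n + 1) s = ∫⁻ x, Un α T n (T x s) ∂rowLaw α := by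
  unfold Un
  rw [measure_cons (ms_alive hT (n + 1) s)]
  simp only [mem_ofPred_eq, run_succ_cons]

lemma Ui_eq (hT : Good T) (s : St) (hs : s.A.Nonempty) :
    Ui α T s = ∫⁻ x, Ui α T (T x s) ∂rowLaw α := by
  unfold Ui
  rw [measure_cons (ms_aliveAll hT s)]
  refine lintegral_congr fun x => ?_
  congr 1
  ext ω
  simp only [mem_ofPred_eq]
  constructor
  · intro h n
    simpa using h (n + 1)
  · intro h n
    cases n with
    | zero => simpa using hs
    | succ n => simpa using h n

lemma Un_le_one (n : ℕ) (s : St) : Un α T n s ≤ 1 := prob_le_one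
lemma Ui_le_one (s : St) : Ui α T s ≤ 1 := prob_le_one
lemma Ui_le_Un (n : ℕ) (s : St) : Ui α T s ≤ Un α T n s :=
  measure_mono fun _ h => h n

lemma run_empty (hT : Good T) (n : ℕ) (ω : Cfg) (s : St) (h : ¬ s.A.Nonempty) :
    ¬ (run T n ω s).A.Nonempty := by
  induction n generalizing ω s with
  | zero => exact h
  | succ n ih => rw [run_succ]; exact ih _ _ (hT.empty _ _ h)

lemma Un_empty (hT : Good T) (n : ℕ) {s : St} (h : ¬ s.A.Nonempty) : Un α T n s = 0 := by
  unfold Un
  have : {ω | (run T n ω s).A.Nonempty} = ∅ := by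
    ext ω
    simpa using run_empty hT n ω s h
  rw [this, measure_empty]

lemma Ui_empty (hT : Good T) {s : St} (h : ¬ s.A.Nonempty) : Ui α T s = 0 :=
  le_antisymm ((Ui_le_Un 0 s).trans (Un_empty hT 0 h).le) bot_le

lemma Ui_eq' (hT : Good T) (s : St) : Ui α T s ≤ ∫⁻ x, Ui α T (T x s) ∂rowLaw α := by
  by_cases h : s.A.Nonempty
  · exact (Ui_eq hT s h).le
  · rw [Ui_empty hT h]; exact bot_le

/-- alive sets are decreasing in `n` -/
lemma alive_mono (hT : Good T) {n m : ℕ} (hnm : n ≤ m) (ω : Cfg) (s : St)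
    (h : (run T m ω s).A.Nonempty) : (run T n ω s).A.Nonempty := by
  induction n generalizing m ω s with
  | zero =>
    by_contra h0
    rw [run_zero] at h0
    exact run_empty hT m ω s h0 h
  | succ n ih =>
    obtain ⟨m, rfl⟩ : ∃ m', m = m' + 1 := ⟨m - 1, by omega⟩
    rw [run_succ] at h ⊢
    exact ih (by omega) _ _ h

lemma Ui_eq_iInf (hT : Good T) (s : St) : Ui α T s = ⨅ n, Un α T n s := by
  unfold Ui Un
  have : {ω | ∀ n, (run T n ω s).A.Nonempty} = ⋂ n, {ω | (run T n ω s).A.Nonempty} := by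
    ext ω; simp
  rw [this, Antitone.measure_iInter]
  · intro n m hnm ω h
    exact alive_mono hT hnm ω s h
  · intro n
    exact (ms_alive hT n s).nullMeasurableSet
  · exact ⟨0, measure_ne_top _ _⟩

lemma measurable_Un_T (hT : Good T) (n : ℕ) (s : St) : Measurable (fun x => Un α T n (T x s)) :=
  (measurable_from_top (f := fun s => Un α T n s)).comp (hT.meas s)

/-- comparison of two chains started at related states -/
lemma run_rel {T T' : Row → St → St} (R : St → St → Prop)
    (h : ∀ x s s', R s s' → R (T x s) (T' x s')) (n : ℕ) (ω : Cfg) {s s' : St} (hs : R s s') :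
    R (run T n ω s) (run T' n ω s') := by
  induction n generalizing ω s s' with
  | zero => exact hs
  | succ n ih => exact ih _ (h _ _ _ hs)

lemma Ui_rel {T T' : Row → St → St} (R : St → St → Prop)
    (h : ∀ x s s', R s s' → R (T x s) (T' x s'))
    (h2 : ∀ s s', R s s' → s.A.Nonempty → s'.A.Nonempty) {s s' : St} (hs : R s s') :
    Ui α T s ≤ Ui α T' s' :=
  measure_mono fun ω hω n => h2 _ _ (run_rel R h n ω hs) (hω n)

end Pool.Agent.helper885_ct
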