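import Pool.Agent.helper885_ct.DualC
import Pool.Agent.helper885_ct.Main

/-!
Non-uniqueness from the complete dual chain.
-/

set_option linter.unusedSectionVars false
set_option linter.unusedVariables false

namespace Pool.Agent.helper885_ct

open MeasureTheory Set Measure
open scoped ENNReal

/-- alive for ever from a finite set: alive for ever from one of its elements -/
lemma exists_alive_single' {T : Row → St → St} (hT : Good T)
    (hU : ∀ x k A B, T x ⟨k, A ∪ B⟩ = ⟨rS x k, (T x ⟨k, A⟩).A ∪ (T x ⟨k, B⟩).A⟩)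
    (ω : Cfg) (k : ℕ) (A : Finset ℕ) (h : ∀ n, (run T n ω ⟨k, A⟩).A.Nonempty) :
    ∃ y ∈ A, ∀ n, (run T n ω ⟨k, {y}⟩).A.Nonempty := by
  have hrun : ∀ n (ω : Cfg) (k : ℕ) (A B : Finset ℕ), (run T n ω ⟨k, A ∪ B⟩).A =
      (run T n ω ⟨k, A⟩).A ∪ (run T n ω ⟨k, B⟩).A := by
    intro n
    induction n with
    | zero => intro ω k A B; rfl
    | succ n ih =>
      intro ω k A B
      rw [run_succ, run_succ, run_succ, hU, ih]
      have h1 : (T (head ω) ⟨k, A⟩) = ⟨rS (head ω) k, (T (head ω) ⟨k, A⟩).A⟩ := by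
        have := hT.kk (head ω) ⟨k, A⟩
        cases h2 : T (head ω) ⟨k, A⟩
        simp_all
      have h3 : (T (head ω) ⟨k, B⟩) = ⟨rS (head ω) k, (T (head ω) ⟨k, B⟩).A⟩ := by
        have := hT.kk (head ω) ⟨k, B⟩
        cases h2 : T (head ω) ⟨k, B⟩
        simp_all
      rw [← h1, ← h3]
  induction A using Finset.induction_on with
  | empty =>
    have := h 0
    simp at this
  | insert a A ha ih =>
    by_cases h1 : ∀ n, (run T n ω ⟨k, {a}⟩).A.Nonempty
    · exact ⟨a, Finset.mem_insert_self _ _, h1⟩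
    · by_cases h2 : ∀ n, (run T n ω ⟨k, A⟩).A.Nonempty
      · obtain ⟨y, hy, h3⟩ := ih h2
        exact ⟨y, Finset.mem_insert_of_mem hy, h3⟩
      · exfalso
        push Not at h1 h2
        obtain ⟨n, hn⟩ := h1
        obtain ⟨m, hm⟩ := h2
        have h3 := h (max n m)
        rw [Finset.insert_eq, hrun] at h3
        rcases Finset.union_nonempty.1 h3 with h4 | h4
        · exact (Finset.not_nonempty_iff_eq_empty.2 hn)
            (alive_mono hT (le_max_left n m) ω _ h4)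
        · exact (Finset.not_nonempty_iff_eq_empty.2 hm)
            (alive_mono hT (le_max_right n m) ω _ h4)

/-- an infinite line of cuts, starting at level one -/
structure CutL (p : ℝ) (ω : Cfg) (a : ℕ → ℕ) : Prop where
  lt : ∀ m, a m + 1 < Z ω (1 + m)
  hor : ∀ m, p ≤ ω.2 (Sum.inr (1 + m, a (m + 1)))
  up : ∀ m, ∀ z < Z ω (1 + m), ∀ i ≤ ω.1 (1 + m, z), ω.2 (Sum.inl (1 + m, z, i)) < p →
    (z ≤ a m → S ω (1 + m) z + i ≤ a (m + 1)) ∧ (a m < z → a (m + 1) < S ω (1 + m) z + i)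

lemma exists_cutL {p : ℝ} {ω : Cfg} {A : Finset ℕ} (hA : ∀ j ∈ A, j + 1 < Z ω 1)
    (h : ∀ m, (run (dC p) m (tail^[1] ω) ⟨Z ω 1, A⟩).A.Nonempty) :
    ∃ a, a 0 ∈ A ∧ CutL p ω a := by
  classical
  set Q : ℕ → ℕ → Prop := fun m y => y + 1 < Z ω (1 + m) ∧
    ∀ t, (run (dC p) t (tail^[1 + m] ω) ⟨Z ω (1 + m), {y}⟩).A.Nonempty with hQ
  obtain ⟨y₀, hy₀, h0⟩ := exists_alive_single' (good_dC p) (dC_union p) _ _ _ h
  have hQ0 : Q 0 y₀ := ⟨hA y₀ hy₀, h0⟩
  have hnext : ∀ m y, Q m y → ∃ y', Q (m + 1) y' ∧ p ≤ ω.2 (Sum.inr (1 + m, y')) ∧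
      ∀ z < Z ω (1 + m), ∀ i ≤ ω.1 (1 + m, z), ω.2 (Sum.inl (1 + m, z, i)) < p →
      (z ≤ y → S ω (1 + m) z + i ≤ y') ∧ (y < z → y' < S ω (1 + m) z + i) := by
    rintro m y ⟨hy, hal⟩
    set x := head (tail^[1 + m] ω) with hx
    have h1 : ∀ t, (run (dC p) t (tail (tail^[1 + m] ω))
        ⟨(dC p x ⟨Z ω (1 + m), {y}⟩).k, (dC p x ⟨Z ω (1 + m), {y}⟩).A⟩).A.Nonempty :=
      fun t => hal (t + 1)
    obtain ⟨y', hy', h2⟩ := exists_alive_single' (good_dC p) (dC_union p) _ _ _ h1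
    have hk : (dC p x ⟨Z ω (1 + m), {y}⟩).k = Z ω (1 + (m + 1)) := by
      rw [dC_k, hx, ← Z_succ]
      rfl
    have hy'1 := dC_inv p x _ y' hy'
    rw [hk] at h2 hy'1
    have htail : tail (tail^[1 + m] ω) = tail^[1 + (m + 1)] ω := by
      rw [← Function.iterate_succ_apply' tail]
      rfl
    rw [htail] at h2
    obtain ⟨_, h3, z₀, h4, h5⟩ := mem_dC.1 hy'
    rw [Finset.mem_singleton] at h4
    subst h4
    refine ⟨y', ⟨hy'1, h2⟩, ?_, ?_⟩
    · rw [hx, head_iter_hor] at h3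
      exact h3
    · intro z hz i hi ho
      have h6 := h5 z hz i (by rw [hx, head_iter_xi]; exact hi) (by
        rw [hx, head_iter_up]; exact ho)
      rw [hx, rS_row] at h6
      exact h6
  choose! f hf using hnext
  set a : ℕ → ℕ := fun m => Nat.rec y₀ (fun m y => f m y) m with ha
  have ha1 : ∀ m, Q m (a m) := by
    intro m
    induction m with
    | zero => exact hQ0
    | succ m ih => exact (hf m (a m) ih).1
  exact ⟨a, hy₀, ⟨fun m => (ha1 m).1, fun m => (hf m (a m) (ha1 m)).2.1,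
    fun m => (hf m (a m) (ha1 m)).2.2⟩⟩

section region

variable {p : ℝ} {ω : Cfg} {a b : ℕ → ℕ}

/-- the region between two lines of cuts -/
def Wr (a b : ℕ → ℕ) : Set (ℕ × ℕ) := {v | 1 ≤ v.1 ∧ a (v.1 - 1) < v.2 ∧ v.2 ≤ b (v.1 - 1)}

lemma step_Wr (ha : CutL p ω a) (hb : CutL p ω b)
    (hroot : ∀ k < ω.1 (0, 0), p ≤ ω.2 (Sum.inl (0, 0, k)))
    (hhor : ∀ j < Z ω 1, p ≤ ω.2 (Sum.inr (0, j))) {v w : ℕ × ℕ} (h : Step p ω v w) :
    v ∈ Wr a b ↔ w ∈ Wr a b := by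
  have hup : ∀ v w, OpenUp p ω v w → (v ∈ Wr a b ↔ w ∈ Wr a b) := by
    rintro ⟨r, x⟩ ⟨r', x'⟩ ⟨g1, g2, g3, k, g4, g5, g6, g7⟩
    simp only at g1 g2 g3 g4 g5 g6 g7
    subst g2
    rcases Nat.eq_zero_or_pos r with rfl | hr
    · have hx : x = 0 := by
        have : Z ω 0 = 1 := rfl
        omega
      subst hx
      exact absurd g7 (not_lt.2 (hroot k (g5 rfl)))
    obtain ⟨m, rfl⟩ : ∃ m, r = 1 + m := ⟨r - 1, by omega⟩
    have hA := ha.up m x g1 k g4 g7
    have hB := hb.up m x g1 k g4 g7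
    have alt' := ha.lt (m + 1)
    have blt' := hb.lt (m + 1)
    have hZ : Z ω (1 + m + 1) = Z ω (1 + (m + 1)) := rfl
    have hSx : S ω (1 + m) (x + 1) ≤ S ω (1 + m) (Z ω (1 + m)) := S_mono ω _ g1
    rw [S_succ, ← Z_succ_S ω (1 + m)] at hSx
    have e1 : 1 + m - 1 = m := by omega
    have e2 : 1 + m + 1 - 1 = m + 1 := by omega
    simp only [Wr, mem_ofPred_eq, e1, e2]
    by_cases hw : S ω (1 + m) x + k < Z ω (1 + m + 1)
    · rw [Nat.mod_eq_of_lt hw] at g6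
      rw [g6]
      constructor
      · rintro ⟨_, h1, h2⟩
        exact ⟨by omega, hA.2 h1, hB.1 h2⟩
      · rintro ⟨_, h1, h2⟩
        refine ⟨by omega, ?_, ?_⟩
        · by_contra h3
          have := hA.1 (by omega)
          omega
        · by_contra h3
          have := hB.2 (by omega)
          omega
    · have h7 : S ω (1 + m) x + k = Z ω (1 + m + 1) := by omega
      rw [h7, Nat.mod_self] at g6
      constructor
      · rintro ⟨_, h1, h2⟩
        have := hB.1 h2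
        omega
      · rintro ⟨_, h1, _⟩
        omega
  have hor : ∀ v w, OpenHor p ω v w → (v ∈ Wr a b ↔ w ∈ Wr a b) := by
    rintro v w ⟨r, x, rfl, g1, rfl, g2⟩
    rcases Nat.eq_zero_or_pos r with rfl | hr
    · exact absurd g2 (not_lt.2 (hhor x g1))
    obtain ⟨m, rfl⟩ : ∃ m, r = 1 + m := ⟨r - 1, by omega⟩
    have alt' := ha.lt (m + 1)
    have blt' := hb.lt (m + 1)
    have ahor := ha.hor m
    have bhor := hb.hor m
    have hZ' : Z ω (1 + m + 1) = Z ω (1 + (m + 1)) := rfl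
    have e2 : 1 + m + 1 - 1 = m + 1 := by omega
    simp only [Wr, mem_ofPred_eq, e2]
    have hxa : x ≠ a (m + 1) := by
      rintro rfl
      exact absurd g2 (not_lt.2 ahor)
    have hxb : x ≠ b (m + 1) := by
      rintro rfl
      exact absurd g2 (not_lt.2 bhor)
    by_cases hx : x + 1 < Z ω (1 + m + 1)
    · rw [Nat.mod_eq_of_lt hx]
      constructor <;> intro _ <;> omega
    · have h3 : x + 1 = Z ω (1 + m + 1) := by omega
      rw [h3, Nat.mod_self]
      constructor <;> intro _ <;> omega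
  rcases h with h | h | h
  · exact hup v w h
  · exact hor v w h
  · exact (hor w v h).symm

lemma eqv_Wr (ha : CutL p ω a) (hb : CutL p ω b)
    (hroot : ∀ k < ω.1 (0, 0), p ≤ ω.2 (Sum.inl (0, 0, k)))
    (hhor : ∀ j < Z ω 1, p ≤ ω.2 (Sum.inr (0, j))) {v w : ℕ × ℕ}
    (h : Relation.EqvGen (Step p ω) v w) : v ∈ Wr a b ↔ w ∈ Wr a b := by
  induction h with
  | rel x y h => exact step_Wr ha hb hroot hhor h
  | refl x => exact Iff.rfl
  | symm x y _ ih => exact ih.symm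
  | trans x y z _ _ ih1 ih2 => exact ih1.trans ih2

end region

lemma cluster_mono {p p' : ℝ} (h : p' ≤ p) (ω : Cfg) (v : ℕ × ℕ) :
    cluster p' ω v ⊆ cluster p ω v := fun w hw =>
  rtg_map id (fun _ _ => Step.mono h) hw

lemma surv_of_nxt {p : ℝ} {ω : Cfg} {A : Finset ℕ} (hA : ∀ j ∈ A, j < Z ω 1)
    (h : ∀ m, (run (nxt p) m (tail ω) ⟨Z ω 1, A⟩).A.Nonempty) : ω ∈ Surv := by
  intro r
  cases r with
  | zero => exact Nat.one_pos
  | succ r =>
    have g1 := run_k (good_nxt p) ω 1 A r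
    have g2 := run_lt (T := nxt p) (fun x s j hj => nxt_lt hj) (tail ω) ⟨Z ω 1, A⟩ hA r
    obtain ⟨j, hj⟩ := h r
    have g3 := g2 j hj
    have g4 : (run (nxt p) r (tail ω) ⟨Z ω 1, A⟩).k = Z ω (1 + r) := g1
    rw [g4, Nat.add_comm] at g3
    omega

/-- four surviving groups give two infinite clusters -/
lemma not_one_of_groups' {p p' : ℝ} (hpp : p' ≤ p) {ω : Cfg} {M : ℕ} (hξ : ω.1 (0, 0) = 4 * M)
    (hM : 1 ≤ M)
    (hroot : ∀ k < 4 * M, p ≤ ω.2 (Sum.inl (0, 0, k)))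
    (hhor : ∀ j < 4 * M, p ≤ ω.2 (Sum.inr (0, j)))
    (h1 : ∀ m, (run (dC p) m (tail ω) ⟨4 * M, Finset.Ico 0 M⟩).A.Nonempty)
    (h2 : ∀ m, (run (nxt p') m (tail ω) ⟨4 * M, Finset.Ico M (2 * M)⟩).A.Nonempty)
    (h3 : ∀ m, (run (dC p) m (tail ω) ⟨4 * M, Finset.Ico (2 * M) (3 * M)⟩).A.Nonempty)
    (h4 : ∀ m, (run (nxt p') m (tail ω) ⟨4 * M, Finset.Ico (3 * M) (4 * M)⟩).A.Nonempty) :
    ω ∈ Surv ∧ numInf p ω ≠ 1 := by
  have hZ1 : Z ω 1 = 4 * M := by
    rw [← hξ]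
    simp [Z]
  have hS : ω ∈ Surv := by
    refine surv_of_nxt (p := p') (A := Finset.Ico M (2 * M)) ?_ (by rw [hZ1]; exact h2)
    intro j hj
    simp only [Finset.mem_Ico] at hj
    omega
  refine ⟨hS, fun hone => ?_⟩
  rw [← hZ1] at h1 h2 h3 h4
  obtain ⟨a, ha0, ha⟩ := exists_cutL (A := Finset.Ico 0 M) (by
    intro j hj; simp only [Finset.mem_Ico] at hj; omega) h1
  obtain ⟨b, hb0, hb⟩ := exists_cutL (A := Finset.Ico (2 * M) (3 * M)) (by
    intro j hj; simp only [Finset.mem_Ico] at hj; omega) h3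
  obtain ⟨u, hu, hu1⟩ := exists_alive_single' (good_nxt p') (nxt_union p') _ _ _ h2
  obtain ⟨v, hv, hv1⟩ := exists_alive_single' (good_nxt p') (nxt_union p') _ _ _ h4
  simp only [Finset.mem_Ico] at ha0 hb0 hu hv
  have hui : IsInf p ω (1, u) := ⟨by simp only; omega,
    (infinite_of_alive le_rfl (by omega) hu1).mono (cluster_mono hpp ω _)⟩
  have hvi : IsInf p ω (1, v) := ⟨by simp only; omega,
    (infinite_of_alive le_rfl (by omega) hv1).mono (cluster_mono hpp ω _)⟩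
  have hconn := (numInf_eq_one_iff.1 hone).2 _ _ hui hvi
  have hreg := eqv_Wr ha hb (by rw [hξ]; exact hroot) (by rw [hZ1]; exact hhor) hconn
  have e1 : (1, u) ∈ Wr a b := by
    refine ⟨le_rfl, ?_, ?_⟩
    · simp only [Nat.sub_self]; omega
    · simp only [Nat.sub_self]; omega
  have e2 : (1, v) ∈ Wr a b := hreg.1 e1
  have e3 := e2.2.2
  simp only [Nat.sub_self] at e3
  omega

variable {α : ℝ} [hα : Fact (0 < α ∧ α < 1)]

/-- large sets survive with probability close to one -/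
def Robust (α : ℝ) (T : Row → St → St) (Inv : St → Prop) : Prop :=
  ∀ ε : ℝ≥0∞, 0 < ε → ∃ M : ℕ, ∀ st : St, Inv st → M ≤ st.A.card →
    cfgLaw α {ω | ∀ n, (run T n ω st).A.Nonempty}ᶜ ≤ ε

lemma robust_of_V {T : Row → St → St} (hT : Good T) (Inv : St → Prop)
    (hinv : ∀ x s, Inv s → Inv (T x s)) {L : ℕ} (hL : 0 < L) {ω : ℕ → ℕ} (hω : 1 ≤ ω 0)
    {s : ℝ≥0∞} (hs1 : s < 1) (hs0 : s ≠ 0) {N : ℕ}
    (h : ∀ st : St, Inv st → N ≤ st.A.card →
      ∫⁻ x, s ^ VV L ω (T x st).A ∂rowLaw α ≤ s ^ VV L ω st.A) : Robust α T Inv := by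
  intro ε hε
  obtain ⟨j, hj⟩ := ((tendsto_order.1
    (ENNReal.tendsto_pow_atTop_nhds_zero_of_lt_one hs1)).2 ε hε).exists
  refine ⟨ph L ω L * N + j, fun st hst hcard => ?_⟩
  refine (UiV hT Inv hinv (V := VV L ω) (VV_empty L ω) hs1.le hs0 (N := ph L ω L * N) ?_ st hst
    (j := j) (hcard.trans (card_le_VV hL hω _))).trans hj.le
  intro st' hst' hN
  refine h st' hst' ?_
  have h1 := VV_le_card L ω st'.A
  by_contra h2
  push Not at h2
  have h3 : 0 < ph L ω L := by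
    have h4 := card_le_VV hL hω ({0} : Finset ℕ)
    have h5 := VV_le_card L ω ({0} : Finset ℕ)
    simp only [Finset.card_singleton, mul_one] at h4 h5
    omega
  have h6 : ph L ω L * st'.A.card < ph L ω L * N := Nat.mul_lt_mul_of_pos_left h2 h3
  omega

lemma measure_head_tail {R₀ : Set Row} (mR₀ : MeasurableSet R₀) {F : Set Cfg}
    (mF : MeasurableSet F) :
    cfgLaw α {ω | head ω ∈ R₀ ∧ tail ω ∈ F} = rowLaw α R₀ * cfgLaw α F := by
  set G : Set Cfg := {ω | head ω ∈ R₀ ∧ tail ω ∈ F} with hG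
  have mG : MeasurableSet G := (measurable_head mR₀).inter (measurable_tail mF)
  rw [measure_cons mG]
  have h5 : ∀ x : Row, cfgLaw α {ω | cons x ω ∈ G} =
      R₀.indicator (fun _ => cfgLaw α F) x := by
    intro x
    by_cases hx : x ∈ R₀
    · rw [Set.indicator_of_mem hx]
      congr 1
      ext ω
      simp [hG, hx]
    · rw [Set.indicator_of_notMem hx]
      have : {ω | cons x ω ∈ G} = ∅ := by
        ext ω
        simp [hG, hx]
      rw [this, measure_empty]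
  simp_rw [h5]
  rw [lintegral_indicator_const mR₀, mul_comm]

lemma ms_all_lab (s : Finset REdge) {B : Set ℝ} (hB : MeasurableSet B) :
    MeasurableSet {u : REdge → ℝ | ∀ e ∈ s, u e ∈ B} := by
  have h2 : {u : REdge → ℝ | ∀ e ∈ s, u e ∈ B} = ⋂ e ∈ s, {u : REdge → ℝ | u e ∈ B} := by
    ext u; simp
  rw [h2]
  exact MeasurableSet.biInter (Set.to_countable _) fun e _ =>
    (measurable_pi_apply e : Measurable fun u : REdge → ℝ => u e) hB

/-- the first row has `n` children and labels in `B` -/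
def firstRow (n : ℕ) (s : Finset REdge) (B : Set ℝ) : Set Row :=
  {ξ : ℕ → ℕ | ξ 0 = n} ×ˢ {u : REdge → ℝ | ∀ e ∈ s, u e ∈ B}

lemma ms_firstRow (n : ℕ) (s : Finset REdge) {B : Set ℝ} (hB : MeasurableSet B) :
    MeasurableSet (firstRow n s B) := by
  refine MeasurableSet.prod ?_ (ms_all_lab s hB)
  exact (measurable_pi_apply (0 : ℕ) : Measurable fun ξ : ℕ → ℕ => ξ 0)
    (MeasurableSet.singleton n)

lemma firstRow_pos (n : ℕ) (s : Finset REdge) {B : Set ℝ} (hB : MeasurableSet B)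
    (hpos : unifLaw B ≠ 0) : rowLaw α (firstRow n s B) ≠ 0 := by
  unfold rowLaw firstRow
  rw [Measure.prod_prod]
  refine mul_ne_zero (geom_tail_pos n) ?_
  rw [measure_all_coord unifLaw _ B hB]
  exact pow_ne_zero _ hpos

/-- the root cluster is infinite with positive probability -/
lemma root_pos' {p : ℝ} (hp0 : 0 < p) (hp1 : p ≤ 1)
    (hR : Robust α (nxt p) fun st => ∀ j ∈ st.A, j < st.k) :
    cfgLaw α (Surv ∩ {ω | (cluster p ω (0, 0)).Infinite}) ≠ 0 := by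
  obtain ⟨M, hM⟩ := hR (1 / 2) (by simp)
  set F : Set Cfg := {ω | ∀ n, (run (nxt p) n ω ⟨M, Finset.range M⟩).A.Nonempty} with hF
  have mF : MeasurableSet F := ms_aliveAll (good_nxt p) _
  have hFc : cfgLaw α Fᶜ < 1 := by
    refine lt_of_le_of_lt (hM ⟨M, Finset.range M⟩ ?_ (by simp)) ?_
    · intro j hj
      simpa using hj
    · simp
  have hFpos : cfgLaw α F ≠ 0 := by
    intro h0
    have := prob_compl_eq_one_sub (μ := cfgLaw α) mF
    rw [h0, tsub_zero] at this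
    rw [this] at hFc
    exact lt_irrefl _ hFc
  set sE : Finset REdge := (Finset.range M).image fun k => (Sum.inl (0, k) : REdge) with hsE
  have hB : MeasurableSet {y : ℝ | y < p} := measurableSet_Iio
  have hpos : unifLaw {y : ℝ | y < p} ≠ 0 := by
    rw [unifLaw_lt hp1]
    simpa using hp0
  intro h0
  have hG := measure_head_tail (α := α) (ms_firstRow M sE hB) mF
  have hsub : {ω | head ω ∈ firstRow M sE {y : ℝ | y < p} ∧ tail ω ∈ F} ⊆
      Surv ∩ {ω | (cluster p ω (0, 0)).Infinite} := by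
    rintro ω ⟨⟨g1, g2⟩, g3⟩
    have g1' : ω.1 (0, 0) = M := g1
    have g2' : ∀ e ∈ sE, (head ω).2 e < p := g2
    have hZ1 : Z ω 1 = M := by
      rw [← g1']
      simp [Z]
    have g3' : ∀ n, (run (nxt p) n (tail ω) ⟨Z ω 1, Finset.range (Z ω 1)⟩).A.Nonempty := by
      rw [hZ1]; exact g3
    refine ⟨surv_of_nxt (A := Finset.range (Z ω 1)) (by intro j hj; simpa using hj) g3', ?_⟩
    obtain ⟨y, hy, hy1⟩ := exists_alive_single' (good_nxt p) (nxt_union p) _ _ _ g3'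
    rw [Finset.mem_range] at hy
    have h3 : (cluster p ω (1, y)).Infinite := infinite_of_alive le_rfl hy hy1
    have hstep : Step p ω (0, 0) (1, y) := by
      left
      refine ⟨Nat.one_pos, rfl, hy, y, ?_, fun _ => ?_, ?_, ?_⟩
      · rw [g1', ← hZ1]; exact hy.le
      · rw [g1', ← hZ1]; exact hy
      · have h11 : S ω 0 0 = 0 := rfl
        simp only [h11, zero_add]
        exact (Nat.mod_eq_of_lt hy).symm
      · exact g2' (Sum.inl (0, y)) (Finset.mem_image_of_mem _ (Finset.mem_range.2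
          (by rw [← hZ1]; exact hy)))
    exact h3.mono fun w hw => Relation.ReflTransGen.head hstep hw
  have h6 := measure_mono_null hsub h0
  rw [hG] at h6
  exact mul_ne_zero (firstRow_pos M sE hB hpos) hFpos h6

lemma pch_le_of_robust {p : ℝ} (hp0 : 0 < p) (hp1 : p ≤ 1)
    (hR : ∀ q, p ≤ q → q ≤ 1 → Robust α (nxt q) fun st => ∀ j ∈ st.A, j < st.k) :
    pch α ≤ p := by
  refine Real.sSup_le (fun q hq => ?_) hp0.le
  by_contra hlt
  push Not at hlt
  exact root_pos' (hp0.trans hlt) hq.1.2 (hR q hlt.le hq.1.2) (annLaw_eq_zero_iff.1 hq.2)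

/-- robustness is monotone in the parameter -/
lemma robust_mono {p q : ℝ} (hpq : p ≤ q)
    (hR : Robust α (nxt p) fun st => ∀ j ∈ st.A, j < st.k) :
    Robust α (nxt q) fun st => ∀ j ∈ st.A, j < st.k := by
  intro ε hε
  obtain ⟨M, hM⟩ := hR ε hε
  refine ⟨M, fun st hst hc => (measure_mono ?_).trans (hM st hst hc)⟩
  intro ω hω
  simp only [mem_compl_iff, mem_ofPred_eq] at hω ⊢
  intro h
  refine hω fun n => ?_
  have hrel : ∀ x s s', (s.k = s'.k ∧ s.A ⊆ s'.A) →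
      (nxt p x s).k = (nxt q x s').k ∧ (nxt p x s).A ⊆ (nxt q x s').A := by
    rintro x s s' ⟨hk, hA⟩
    refine ⟨by rw [nxt_k, nxt_k, hk], fun j hj => ?_⟩
    obtain ⟨h1, d, ⟨h2, i, hi, hik, c, hc, hp, hd⟩, h3⟩ := mem_nxt.1 hj
    rw [hk] at h1 h2 h3 hik hd
    refine mem_nxt.2 ⟨h1, d, ⟨h2, i, hA hi, hik, c, hc, by linarith, hd⟩, ?_⟩
    refine rtg_map id (fun a b hab => ?_) h3
    rcases hab with ⟨a1, a2, a3⟩ | ⟨a1, a2, a3⟩
    · exact Or.inl ⟨a1, a2, lt_of_lt_of_le a3 hpq⟩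
    · exact Or.inr ⟨a1, a2, lt_of_lt_of_le a3 hpq⟩
  have h2 := run_rel (T := nxt p) (T' := nxt q) (fun s s' => s.k = s'.k ∧ s.A ⊆ s'.A)
    (fun x s s' => hrel x s s') n ω (s := st) (s' := st) ⟨rfl, Finset.Subset.refl _⟩
  exact (h n).mono h2.2

/-- non-uniqueness with positive probability -/
lemma nonuniq_pos' {p p' : ℝ} (hp0 : 0 < p) (hp1 : p < 1) (hpp : p' ≤ p)
    (hP : Robust α (nxt p') fun st => ∀ j ∈ st.A, j < st.k)
    (hD : Robust α (dC p) fun st => ∀ j ∈ st.A, j + 1 < st.k) :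
    cfgLaw α (Surv ∩ {ω | numInf p ω = 1}ᶜ) ≠ 0 := by
  obtain ⟨M₁, hM₁⟩ := hP (ENNReal.ofReal (1 / 5)) (by simp)
  obtain ⟨M₂, hM₂⟩ := hD (ENNReal.ofReal (1 / 5)) (by simp)
  set M := max 1 (max M₁ M₂) with hM
  have hM0 : 1 ≤ M := le_max_left _ _
  have hM1 : M₁ ≤ M := (le_max_left _ _).trans (le_max_right _ _)
  have hM2 : M₂ ≤ M := (le_max_right _ _).trans (le_max_right _ _)
  set E₁ : Set Cfg := {ω | ∀ m, (run (dC p) m ω ⟨4 * M, Finset.Ico 0 M⟩).A.Nonempty}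
    with hE₁
  set E₂ : Set Cfg := {ω | ∀ m, (run (nxt p') m ω
    ⟨4 * M, Finset.Ico M (2 * M)⟩).A.Nonempty} with hE₂
  set E₃ : Set Cfg := {ω | ∀ m, (run (dC p) m ω
    ⟨4 * M, Finset.Ico (2 * M) (3 * M)⟩).A.Nonempty} with hE₃
  set E₄ : Set Cfg := {ω | ∀ m, (run (nxt p') m ω
    ⟨4 * M, Finset.Ico (3 * M) (4 * M)⟩).A.Nonempty} with hE₄
  have m₁ : MeasurableSet E₁ := ms_aliveAll (good_dC p) _
  have m₂ : MeasurableSet E₂ := ms_aliveAll (good_nxt p') _
  have m₃ : MeasurableSet E₃ := ms_aliveAll (good_dC p) _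
  have m₄ : MeasurableSet E₄ := ms_aliveAll (good_nxt p') _
  have b₁ : cfgLaw α E₁ᶜ ≤ ENNReal.ofReal (1 / 5) := by
    refine hM₂ ⟨4 * M, Finset.Ico 0 M⟩ (fun j hj => ?_) ?_
    · simp only [Finset.mem_Ico] at hj
      simp only
      omega
    · rw [Nat.card_Ico]; omega
  have b₂ : cfgLaw α E₂ᶜ ≤ ENNReal.ofReal (1 / 5) := by
    refine hM₁ ⟨4 * M, Finset.Ico M (2 * M)⟩ (fun j hj => ?_) ?_
    · simp only [Finset.mem_Ico] at hj
      simp only
      omega
    · rw [Nat.card_Ico]; omega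
  have b₃ : cfgLaw α E₃ᶜ ≤ ENNReal.ofReal (1 / 5) := by
    refine hM₂ ⟨4 * M, Finset.Ico (2 * M) (3 * M)⟩ (fun j hj => ?_) ?_
    · simp only [Finset.mem_Ico] at hj
      simp only
      omega
    · rw [Nat.card_Ico]; omega
  have b₄ : cfgLaw α E₄ᶜ ≤ ENNReal.ofReal (1 / 5) := by
    refine hM₁ ⟨4 * M, Finset.Ico (3 * M) (4 * M)⟩ (fun j hj => ?_) ?_
    · simp only [Finset.mem_Ico] at hj
      simp only
      omega
    · rw [Nat.card_Ico]; omega
  set F := E₁ ∩ (E₂ ∩ (E₃ ∩ E₄)) with hF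
  have mF : MeasurableSet F := m₁.inter (m₂.inter (m₃.inter m₄))
  have hFc : cfgLaw α Fᶜ < 1 := by
    have h1 : Fᶜ ⊆ E₁ᶜ ∪ (E₂ᶜ ∪ (E₃ᶜ ∪ E₄ᶜ)) := by
      intro ω hω
      simp only [hF, mem_compl_iff, mem_inter_iff, mem_union] at hω ⊢
      tauto
    calc cfgLaw α Fᶜ ≤ cfgLaw α (E₁ᶜ ∪ (E₂ᶜ ∪ (E₃ᶜ ∪ E₄ᶜ))) := measure_mono h1
      _ ≤ cfgLaw α E₁ᶜ + (cfgLaw α E₂ᶜ + (cfgLaw α E₃ᶜ + cfgLaw α E₄ᶜ)) := by
          refine (measure_union_le _ _).trans (add_le_add le_rfl ?_)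
          refine (measure_union_le _ _).trans (add_le_add le_rfl ?_)
          exact measure_union_le _ _
      _ ≤ ENNReal.ofReal (1 / 5) + (ENNReal.ofReal (1 / 5) + (ENNReal.ofReal (1 / 5) +
          ENNReal.ofReal (1 / 5))) := by gcongr
      _ = ENNReal.ofReal (4 / 5) := by
          rw [← ENNReal.ofReal_add (by norm_num) (by norm_num),
            ← ENNReal.ofReal_add (by norm_num) (by norm_num),
            ← ENNReal.ofReal_add (by norm_num) (by norm_num)]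
          norm_num
      _ < 1 := by
          rw [← ENNReal.ofReal_one]
          exact (ENNReal.ofReal_lt_ofReal_iff one_pos).2 (by norm_num)
  have hFpos : cfgLaw α F ≠ 0 := by
    intro h0
    have := prob_compl_eq_one_sub (μ := cfgLaw α) mF
    rw [h0, tsub_zero] at this
    rw [this] at hFc
    exact lt_irrefl _ hFc
  set sE : Finset REdge := ((Finset.range (4 * M)).image fun k => (Sum.inl (0, k) : REdge)) ∪
      (Finset.range (4 * M)).image fun k => (Sum.inr k : REdge) with hsE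
  have hB : MeasurableSet {y : ℝ | p ≤ y} := measurableSet_Ici
  have hpos : unifLaw {y : ℝ | p ≤ y} ≠ 0 := by
    rw [unifLaw_ge hp0.le]
    simpa using hp1
  intro h0
  have hG := measure_head_tail (α := α) (ms_firstRow (4 * M) sE hB) mF
  have hsub : {ω | head ω ∈ firstRow (4 * M) sE {y : ℝ | p ≤ y} ∧ tail ω ∈ F} ⊆
      Surv ∩ {ω | numInf p ω = 1}ᶜ := by
    rintro ω ⟨⟨g1, g2⟩, g3, g4, g5, g6⟩
    have g2' : ∀ e ∈ sE, p ≤ (head ω).2 e := g2
    have := not_one_of_groups' (p := p) (p' := p') hpp (ω := ω) (M := M) g1 hM0 (fun k hk =>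
      g2' (Sum.inl (0, k)) (Finset.mem_union_left _ (Finset.mem_image_of_mem _
        (Finset.mem_range.2 hk)))) (fun k hk =>
      g2' (Sum.inr k) (Finset.mem_union_right _ (Finset.mem_image_of_mem _
        (Finset.mem_range.2 hk)))) g3 g4 g5 g6
    exact ⟨this.1, this.2⟩
  have h6 := measure_mono_null hsub h0
  rw [hG] at h6
  exact mul_ne_zero (firstRow_pos (4 * M) sE hB hpos) hFpos h6

/-- the conclusion -/
theorem not_one_of_robust (h2 : 1 / 2 < α) {p p' : ℝ} (hp0 : 0 < p') (hpp : p' < p)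
    (hp1 : p < 1) (hP : Robust α (nxt p') fun st => ∀ j ∈ st.A, j < st.k)
    (hD : Robust α (dC p) fun st => ∀ j ∈ st.A, j + 1 < st.k) :
    pch α < p ∧ p < 1 ∧ annLaw α {ω | numInf p ω = 1} ≠ 1 := by
  have hpc : pch α ≤ p' := pch_le_of_robust hp0 (hpp.trans hp1).le
    (fun q hq _ => robust_mono hq hP)
  refine ⟨lt_of_le_of_lt hpc hpp, hp1, fun h3 => ?_⟩
  have := isProb_annLaw (α := α) h2
  rw [← prob_compl_eq_zero_iff (ms_one p), annLaw_eq_zero_iff] at h3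
  exact nonuniq_pos' (hp0.trans hpp) hp1 hpp.le hP hD h3

end Pool.Agent.helper885_ct
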