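import Pool.Agent.helper885_ct.Planar
import Pool.Agent.helper885_ct.Coord

/-!
Uniqueness for large parameters.
-/

set_option linter.unusedSectionVars false
set_option linter.unusedVariables false

namespace Pool.Agent.helper885_ct

open MeasureTheory Set Measure
open scoped ENNReal

section walks

variable {V : Type*} [DecidableEq V]

/-- vertex sequences of length `L + 1` from `a` -/
def walksF (N : V → Finset V) : ℕ → V → Finset (List V)
  | 0, a => {[a]}
  | L + 1, a => (N a).biUnion fun b => (walksF N L b).image (List.cons a)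

lemma card_walksF (N : V → Finset V) {d : ℕ} (hN : ∀ a, (N a).card ≤ d) (L : ℕ) (a : V) :
    (walksF N L a).card ≤ d ^ L := by
  induction L generalizing a with
  | zero => simp [walksF]
  | succ L ih =>
    calc (walksF N (L + 1) a).card
        ≤ ∑ b ∈ N a, ((walksF N L b).image (List.cons a)).card := Finset.card_biUnion_le
      _ ≤ ∑ b ∈ N a, d ^ L := Finset.sum_le_sum fun b _ => Finset.card_image_le.trans (ih b)
      _ = (N a).card * d ^ L := by simp
      _ ≤ d * d ^ L := by gcongr; exact hN a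
      _ = d ^ (L + 1) := by ring

lemma length_walksF (N : V → Finset V) (L : ℕ) (a : V) {l : List V} (h : l ∈ walksF N L a) :
    l.length = L + 1 := by
  induction L generalizing a l with
  | zero =>
    simp only [walksF, Finset.mem_singleton] at h
    simp [h]
  | succ L ih =>
    simp only [walksF, Finset.mem_biUnion, Finset.mem_image] at h
    obtain ⟨b, _, l', hl', rfl⟩ := h
    simp [ih b hl']

lemma support_mem_walksF (N : V → Finset V) {G : SimpleGraph V}
    (hG : ∀ a b, G.Adj a b → b ∈ N a) {a b : V} (w : G.Walk a b) :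
    w.support ∈ walksF N w.length a := by
  induction w with
  | nil => simp [walksF]
  | cons h q ih =>
    simp only [SimpleGraph.Walk.support_cons, SimpleGraph.Walk.length_cons, walksF,
      Finset.mem_biUnion, Finset.mem_image]
    exact ⟨_, hG _ _ h, _, ih, rfl⟩

lemma reachable_of_rtg {G : SimpleGraph V} {r : V → V → Prop} (h : ∀ a b, r a b → a ≠ b → G.Adj a b)
    {a b : V} (hab : Relation.ReflTransGen r a b) : G.Reachable a b := by
  induction hab with
  | refl => exact SimpleGraph.Reachable.refl _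
  | @tail u w _ h2 ih =>
    by_cases huw : u = w
    · exact huw ▸ ih
    · exact ih.trans (h u w h2 huw).reachable

end walks

/-- height of an edge -/
def hgt : Edge → ℕ
  | Sum.inl (r, _, _) => 2 * r + 1
  | Sum.inr (r, _) => 2 * r + 2

lemma hgt_adj {ω : Cfg} {e f : Edge} (h : TriAdj ω e f) : hgt f ≤ hgt e + 1 := by
  obtain ⟨t, ht, he, hf⟩ := h
  rcases ht with ⟨r, i, hi, rfl⟩ | ⟨r, i, k, hr, hi, hk, rfl⟩
  · simp only [triU, Finset.mem_insert, Finset.mem_singleton] at he hf
    rcases he with rfl | rfl | rfl <;> rcases hf with rfl | rfl | rfl <;> simp only [hgt] <;> omega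
  · simp only [triD, Finset.mem_insert, Finset.mem_singleton] at he hf
    rcases he with rfl | rfl | rfl <;> rcases hf with rfl | rfl | rfl <;> simp only [hgt] <;> omega

open Classical in
/-- the parent of a vertex and its rank, auxiliary form -/
noncomputable def parAux (m : ℕ) (x s : ℕ → ℕ) (j : ℕ) : ℕ × ℕ :=
  if h : ∃ ik : ℕ × ℕ, ik.1 < m ∧ ik.2 < x ik.1 ∧ j = s ik.1 + ik.2 then h.choose else (0, 0)

/-- the parent of a vertex and its rank -/
noncomputable def par (ω : Cfg) (r j : ℕ) : ℕ × ℕ :=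
  parAux (Z ω r) (fun i => ω.1 (r, i)) (S ω r) j

lemma par_eq {ω : Cfg} {r i k : ℕ} (hi : i < Z ω r) (hk : k < ω.1 (r, i)) :
    par ω r (S ω r i + k) = (i, k) := by
  have hex : ∃ ik : ℕ × ℕ, ik.1 < Z ω r ∧ ik.2 < ω.1 (r, ik.1) ∧
      S ω r i + k = S ω r ik.1 + ik.2 := ⟨(i, k), hi, hk, rfl⟩
  unfold par parAux
  rw [dif_pos hex]
  obtain ⟨h2, h3, h4⟩ := hex.choose_spec
  obtain ⟨h5, h6⟩ := parent_unique hk h3 h4
  exact Prod.ext h5.symm h6.symm

/-- the triangle above or on the right -/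
noncomputable def tA (ω : Cfg) : Edge → Finset Edge
  | Sum.inl (r, i, k) => if k < ω.1 (r, i) then triD ω r i k else triU ω (r - 1) i
  | Sum.inr (r, i) => triU ω r i

/-- the triangle below or on the left -/
noncomputable def tB (ω : Cfg) : Edge → Finset Edge
  | Sum.inl (r, i, k) => if 0 < k then triD ω r i (k - 1)
      else triU ω (r - 1) (if i = 0 then Z ω r - 1 else i - 1)
  | Sum.inr (r, j) => triD ω r (par ω r j).1 (par ω r j).2

lemma tri_cases {ω : Cfg} {t : Finset Edge} (ht : IsTri ω t) {e : Edge} (he : e ∈ t) :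
    t = tA ω e ∨ t = tB ω e := by
  rcases ht with ⟨r, i, hi, rfl⟩ | ⟨r, i, k, hr, hi, hk, rfl⟩
  · simp only [triU, Finset.mem_insert, Finset.mem_singleton] at he
    rcases he with rfl | rfl | rfl
    · left; rfl
    · left; simp [tA]
    · right
      simp only [tB, lt_irrefl, if_false, Nat.add_sub_cancel]
      by_cases h : i + 1 < Z ω (r + 1)
      · rw [Nat.mod_eq_of_lt h, if_neg (by omega)]
        rfl
      · have h2 : i + 1 = Z ω (r + 1) := by omega
        rw [h2, Nat.mod_self, if_pos rfl, ← h2]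
        rfl
  · simp only [triD, Finset.mem_insert, Finset.mem_singleton] at he
    rcases he with rfl | rfl | rfl
    · left; simp [tA, hk]
    · right; simp [tB]
    · right
      simp only [tB, par_eq hi hk]

lemma card_triU (ω : Cfg) (r i : ℕ) : (triU ω r i).card ≤ 3 := Finset.card_le_three
lemma card_triD (ω : Cfg) (r i k : ℕ) : (triD ω r i k).card ≤ 3 := Finset.card_le_three

/-- the neighbours of an edge -/
noncomputable def nbE (ω : Cfg) (e : Edge) : Finset Edge := tA ω e ∪ tB ω e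

lemma card_nbE (ω : Cfg) (e : Edge) : (nbE ω e).card ≤ 6 := by
  have h1 : (tA ω e).card ≤ 3 := by
    rcases e with ⟨r, i, k⟩ | ⟨r, i⟩
    · simp only [tA]
      split_ifs
      · exact card_triD _ _ _ _
      · exact card_triU _ _ _
    · exact card_triU _ _ _
  have h2 : (tB ω e).card ≤ 3 := by
    rcases e with ⟨r, i, k⟩ | ⟨r, i⟩
    · simp only [tB]
      split_ifs
      · exact card_triD _ _ _ _
      · exact card_triU _ _ _
      · exact card_triU _ _ _
    · exact card_triD _ _ _ _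
  exact (Finset.card_union_le _ _).trans (by omega)

lemma mem_nbE {ω : Cfg} {e f : Edge} (h : TriAdj ω e f) : f ∈ nbE ω e := by
  obtain ⟨t, ht, he, hf⟩ := h
  rcases tri_cases ht he with rfl | rfl
  · exact Finset.mem_union_left _ hf
  · exact Finset.mem_union_right _ hf

section fubini

lemma Z_congr {ω ω' : Cfg} (h : ω.1 = ω'.1) (r : ℕ) : Z ω r = Z ω' r := by
  induction r with
  | zero => rfl
  | succ r ih =>
    simp only [Z]
    rw [ih, h]

lemma S_congr {ω ω' : Cfg} (h : ω.1 = ω'.1) (r i : ℕ) : S ω r i = S ω' r i := by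
  unfold S
  rw [h]

lemma triU_congr {ω ω' : Cfg} (h : ω.1 = ω'.1) (r i : ℕ) : triU ω r i = triU ω' r i := by
  unfold triU
  rw [h, Z_congr h]

lemma triD_congr {ω ω' : Cfg} (h : ω.1 = ω'.1) (r i k : ℕ) : triD ω r i k = triD ω' r i k := by
  unfold triD
  rw [S_congr h]

lemma isTri_congr {ω ω' : Cfg} (h : ω.1 = ω'.1) (t : Finset Edge) : IsTri ω t ↔ IsTri ω' t := by
  unfold IsTri
  simp only [triU_congr h, triD_congr h, Z_congr h]
  rw [h]

lemma triAdj_congr {ω ω' : Cfg} (h : ω.1 = ω'.1) (e f : Edge) :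
    TriAdj ω e f ↔ TriAdj ω' e f := by
  unfold TriAdj
  simp only [isTri_congr h]

end fubini

lemma ms_triAdj (e f : Edge) : MeasurableSet {ω : Cfg | TriAdj ω e f} := by
  have h : {ω : Cfg | TriAdj ω e f} =
      (⋃ r, ⋃ i, ({ω | i < Z ω (r + 1)} ∩ {ω | e ∈ triU ω r i ∧ f ∈ triU ω r i})) ∪
      ⋃ r, ⋃ i, ⋃ k, ({ω | 1 ≤ r} ∩ ({ω | i < Z ω r} ∩ ({ω | k < ω.1 (r, i)} ∩
        {ω | e ∈ triD ω r i k ∧ f ∈ triD ω r i k}))) := by
    ext ω
    simp only [TriAdj, IsTri, mem_ofPred_eq, mem_union, mem_iUnion, mem_inter_iff]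
    constructor
    · rintro ⟨t, ⟨r, i, hi, rfl⟩ | ⟨r, i, k, hr, hi, hk, rfl⟩, he, hf⟩
      · exact Or.inl ⟨r, i, hi, he, hf⟩
      · exact Or.inr ⟨r, i, k, hr, hi, hk, he, hf⟩
    · rintro (⟨r, i, hi, he, hf⟩ | ⟨r, i, k, hr, hi, hk, he, hf⟩)
      · exact ⟨_, Or.inl ⟨r, i, hi, rfl⟩, he, hf⟩
      · exact ⟨_, Or.inr ⟨r, i, k, hr, hi, hk, rfl⟩, he, hf⟩
  rw [h]
  refine MeasurableSet.union ?_ ?_
  · refine MeasurableSet.iUnion fun r => MeasurableSet.iUnion fun i =>
      (ms1 (measurable_Z _) (fun m => i < m)).inter ?_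
    exact ms2 (measurable_xi (r + 1, i)) (measurable_Z (r + 1)) (fun a b =>
      e ∈ ({Sum.inr (r, i), Sum.inl (r + 1, i, a), Sum.inl (r + 1, (i + 1) % b, 0)} :
        Finset Edge) ∧ f ∈ ({Sum.inr (r, i), Sum.inl (r + 1, i, a),
          Sum.inl (r + 1, (i + 1) % b, 0)} : Finset Edge))
  · refine MeasurableSet.iUnion fun r => MeasurableSet.iUnion fun i => MeasurableSet.iUnion
      fun k => (MeasurableSet.const _).inter ((ms1 (measurable_Z _) (fun m => i < m)).inter
        ((ms1 (measurable_xi (r, i)) (fun m => k < m)).inter ?_))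
    exact ms1 (measurable_S r i) (fun a =>
      e ∈ ({Sum.inl (r, i, k), Sum.inl (r, i, k + 1), Sum.inr (r, a + k)} : Finset Edge) ∧
        f ∈ ({Sum.inl (r, i, k), Sum.inl (r, i, k + 1), Sum.inr (r, a + k)} : Finset Edge))

lemma ms_closed (p : ℝ) (e : Edge) : MeasurableSet {ω : Cfg | p ≤ ω.2 e} := by
  have : Measurable (fun ω : Cfg => ω.2 e) := by fun_prop
  exact this measurableSet_Ici

/-- a closed dual path from level `n` to level `R` -/
def CrossEv (p : ℝ) (n R : ℕ) : Set Cfg :=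
  {ω | ∃ i < Z ω n, ∃ i' < Z ω R, p ≤ ω.2 (Sum.inr (n - 1, i)) ∧
      Relation.ReflTransGen (ClAdj p ω) (Sum.inr (n - 1, i)) (Sum.inr (R - 1, i'))}

lemma ms_CrossEv (p : ℝ) (n R : ℕ) : MeasurableSet (CrossEv p n R) := by
  have h : CrossEv p n R = ⋃ i, ({ω | i < Z ω n} ∩ ⋃ i', ({ω | i' < Z ω R} ∩
      ({ω | p ≤ ω.2 (Sum.inr (n - 1, i))} ∩
        {ω | Relation.ReflTransGen (ClAdj p ω) (Sum.inr (n - 1, i)) (Sum.inr (R - 1, i'))}))) := by
    ext ω
    simp [CrossEv]
  rw [h]
  refine MeasurableSet.iUnion fun i => (ms1 (measurable_Z _) (fun m => i < m)).inter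
    (MeasurableSet.iUnion fun i' => (ms1 (measurable_Z _) (fun m => i' < m)).inter
      ((ms_closed p _).inter (ms_reflTransGen (fun a b => ?_) _ _)))
  exact (ms_triAdj a b).inter ((ms_closed p a).inter (ms_closed p b))

/-- the event of a closed path of length `L` in a fixed environment -/
def PathEv (p : ℝ) (ω : Cfg) (e : Edge) (L : ℕ) : Set (Edge → ℝ) :=
  ⋃ l ∈ (walksF (nbE ω) L e).filter (fun l => l.Nodup), {U | ∀ e ∈ l.toFinset, U e ∈ {y | p ≤ y}}

lemma measure_PathEv {p : ℝ} (hp0 : 0 ≤ p) (hp1 : p ≤ 1) (ω : Cfg) (e : Edge) (L : ℕ) :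
    (infinitePi fun _ : Edge => unifLaw) (PathEv p ω e L) ≤ ENNReal.ofReal (6 * (1 - p)) ^ L := by
  have hq : ENNReal.ofReal (1 - p) ≤ 1 := by
    rw [← ENNReal.ofReal_one]
    exact ENNReal.ofReal_le_ofReal (by linarith)
  unfold PathEv
  calc (infinitePi fun _ : Edge => unifLaw) (⋃ l ∈ (walksF (nbE ω) L e).filter
        (fun l => l.Nodup), {U | ∀ e ∈ l.toFinset, U e ∈ {y | p ≤ y}})
      ≤ ∑ l ∈ (walksF (nbE ω) L e).filter (fun l => l.Nodup),
          (infinitePi fun _ : Edge => unifLaw) {U | ∀ e ∈ l.toFinset, U e ∈ {y | p ≤ y}} :=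
        measure_biUnion_finset_le _ _
    _ ≤ ∑ l ∈ (walksF (nbE ω) L e).filter (fun l => l.Nodup), ENNReal.ofReal (1 - p) ^ L := by
        refine Finset.sum_le_sum fun l hl => ?_
        rw [Finset.mem_filter] at hl
        rw [measure_all_coord unifLaw l.toFinset {y | p ≤ y} measurableSet_Ici]
        have h1 : unifLaw {y | p ≤ y} = ENNReal.ofReal (1 - p) := unifLaw_ge hp0
        rw [h1, List.toFinset_card_of_nodup hl.2, length_walksF _ _ _ hl.1]
        exact pow_le_pow_right_of_le_one' hq (Nat.le_succ L)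
    _ = (((walksF (nbE ω) L e).filter (fun l => l.Nodup)).card : ℝ≥0∞) *
          ENNReal.ofReal (1 - p) ^ L := by simp
    _ ≤ (6 ^ L : ℕ) * ENNReal.ofReal (1 - p) ^ L := by
        gcongr
        exact (Finset.card_filter_le _ _).trans (card_walksF _ (card_nbE ω) L e)
    _ = _ := by
        rw [ENNReal.ofReal_mul (by norm_num), mul_pow]
        simp

lemma hgt_walk {p : ℝ} {ω : Cfg} {G : SimpleGraph Edge} (hG : ∀ a b, G.Adj a b → TriAdj ω a b)
    {a b : Edge} (w : G.Walk a b) : hgt b ≤ hgt a + w.length := by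
  induction w with
  | nil => simp
  | cons h q ih =>
    have := hgt_adj (hG _ _ h)
    simp only [SimpleGraph.Walk.length_cons]
    omega

/-- a crossing yields a long closed self-avoiding path -/
lemma cross_subset {p : ℝ} {n R : ℕ} (hn : 1 ≤ n) (hR : n ≤ R) {ω : Cfg}
    (h : ω ∈ CrossEv p n R) : ∃ i < Z ω n, ∃ L, R - n ≤ L ∧
      ω.2 ∈ PathEv p ω (Sum.inr (n - 1, i)) L := by
  classical
  obtain ⟨i, hi, i', hi', hcl, hpath⟩ := h
  set G : SimpleGraph Edge := SimpleGraph.fromRel (ClAdj p ω) with hGdef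
  have hsymm : ∀ a b, ClAdj p ω a b → ClAdj p ω b a := by
    rintro a b ⟨⟨t, ht, ha, hb⟩, h1, h2⟩
    exact ⟨⟨t, ht, hb, ha⟩, h2, h1⟩
  have hG : ∀ a b, G.Adj a b → ClAdj p ω a b := by
    intro a b hab
    rw [hGdef, SimpleGraph.fromRel_adj] at hab
    rcases hab.2 with h | h
    · exact h
    · exact hsymm _ _ h
  have hreach : G.Reachable (Sum.inr (n - 1, i)) (Sum.inr (R - 1, i')) :=
    reachable_of_rtg (fun a b hab hne => by
      rw [hGdef, SimpleGraph.fromRel_adj]; exact ⟨hne, Or.inl hab⟩) hpath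
  obtain ⟨w, hw⟩ := hreach.exists_isPath
  refine ⟨i, hi, w.length, ?_, ?_⟩
  · have h1 := hgt_walk (p := p) (fun a b hab => (hG a b hab).1) w
    simp only [hgt] at h1
    omega
  · unfold PathEv
    simp only [mem_iUnion]
    refine ⟨w.support, ?_, ?_⟩
    · rw [Finset.mem_filter]
      exact ⟨support_mem_walksF _ (fun a b hab => mem_nbE (hG a b hab).1) w, hw.support_nodup⟩
    · intro e he
      rw [List.mem_toFinset] at he
      -- every vertex of the walk is closed
      have key : ∀ {a b : Edge} (w : G.Walk a b), p ≤ ω.2 a → ∀ e ∈ w.support, p ≤ ω.2 e := by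
        intro a b w
        induction w with
        | nil =>
          intro ha e he
          simp only [SimpleGraph.Walk.support_nil, List.mem_singleton] at he
          exact he ▸ ha
        | cons h q ih =>
          intro ha e he
          simp only [SimpleGraph.Walk.support_cons, List.mem_cons] at he
          rcases he with rfl | he
          · exact ha
          · exact ih (hG _ _ h).2.2 e he
      exact key w hcl e he

variable {α : ℝ} [hα : Fact (0 < α ∧ α < 1)]

lemma PathEv_congr {p : ℝ} {ω ω' : Cfg} (h : ω.1 = ω'.1) (e : Edge) (L : ℕ) :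
    PathEv p ω e L = PathEv p ω' e L := by
  have h1 : nbE ω = nbE ω' := by
    funext e
    unfold nbE
    have hpar : par ω = par ω' := by
      funext r j
      have hS : S ω r = S ω' r := funext fun i => S_congr h r i
      unfold par
      rw [Z_congr h, hS, h]
    congr 1
    · rcases e with ⟨r, i, k⟩ | ⟨r, i⟩
      · simp only [tA, triD_congr h, triU_congr h]
        rw [h]
      · simp only [tA, triU_congr h]
    · rcases e with ⟨r, i, k⟩ | ⟨r, i⟩
      · simp only [tB, triD_congr h, triU_congr h, Z_congr h]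
      · simp only [tB, triD_congr h, hpar]
  unfold PathEv
  rw [h1]

lemma cross_null {p : ℝ} (hp : 5 / 6 < p) (hp1 : p ≤ 1) {n : ℕ} (hn : 1 ≤ n) :
    cfgLaw α (⋂ R ∈ {R | n ≤ R}, CrossEv p n R) = 0 := by
  have hm : MeasurableSet (⋂ R ∈ {R | n ≤ R}, CrossEv p n R) :=
    MeasurableSet.biInter (Set.to_countable _) fun R _ => ms_CrossEv p n R
  unfold cfgLaw
  rw [Measure.measure_prod_null hm]
  refine Filter.Eventually.of_forall fun ξ => ?_
  simp only [Pi.zero_apply]
  set ω₀ : Cfg := (ξ, fun _ => 0) with hω₀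
  set μ := (infinitePi fun _ : Edge => unifLaw) with hμ
  set x : ℝ≥0∞ := ENNReal.ofReal (6 * (1 - p)) with hx
  have hx1 : x < 1 := by
    rw [hx, ← ENNReal.ofReal_one]
    exact (ENNReal.ofReal_lt_ofReal_iff one_pos).2 (by linarith)
  have hbound : ∀ m : ℕ, μ (Prod.mk ξ ⁻¹' ⋂ R ∈ {R | n ≤ R}, CrossEv p n R) ≤
      (Z ω₀ n : ℝ≥0∞) * (x ^ m * (1 - x)⁻¹) := by
    intro m
    have hsub : (Prod.mk ξ ⁻¹' ⋂ R ∈ {R | n ≤ R}, CrossEv p n R) ⊆
        ⋃ i ∈ Finset.range (Z ω₀ n), ⋃ t : ℕ, PathEv p ω₀ (Sum.inr (n - 1, i)) (m + t) := by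
      intro U hU
      simp only [mem_preimage, mem_iInter] at hU
      obtain ⟨i, hi, L, hL, hP⟩ := cross_subset hn (Nat.le_add_right n m) (hU (n + m)
        (Nat.le_add_right n m))
      simp only [mem_iUnion]
      refine ⟨i, ?_, L - m, ?_⟩
      · rw [Finset.mem_range, Z_congr (ω := ω₀) (ω' := (ξ, U)) rfl]
        exact hi
      · rw [PathEv_congr (ω := ω₀) (ω' := (ξ, U)) rfl, show m + (L - m) = L by omega]
        exact hP
    calc μ (Prod.mk ξ ⁻¹' ⋂ R ∈ {R | n ≤ R}, CrossEv p n R)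
        ≤ μ (⋃ i ∈ Finset.range (Z ω₀ n), ⋃ t : ℕ,
            PathEv p ω₀ (Sum.inr (n - 1, i)) (m + t)) := measure_mono hsub
      _ ≤ ∑ i ∈ Finset.range (Z ω₀ n), μ (⋃ t : ℕ, PathEv p ω₀ (Sum.inr (n - 1, i)) (m + t)) :=
          measure_biUnion_finset_le _ _
      _ ≤ ∑ i ∈ Finset.range (Z ω₀ n), x ^ m * (1 - x)⁻¹ := by
          refine Finset.sum_le_sum fun i _ => ?_
          calc μ (⋃ t : ℕ, PathEv p ω₀ (Sum.inr (n - 1, i)) (m + t))
              ≤ ∑' t, μ (PathEv p ω₀ (Sum.inr (n - 1, i)) (m + t)) := measure_iUnion_le _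
            _ ≤ ∑' t, x ^ (m + t) :=
                ENNReal.tsum_le_tsum fun t => measure_PathEv (by linarith) hp1 _ _ _
            _ = x ^ m * (1 - x)⁻¹ := by
                simp_rw [pow_add]
                rw [ENNReal.tsum_mul_left, ENNReal.tsum_geometric]
      _ = _ := by simp
  have hlim : Filter.Tendsto (fun m : ℕ => (Z ω₀ n : ℝ≥0∞) * (x ^ m * (1 - x)⁻¹))
      Filter.atTop (nhds 0) := by
    have h1 : Filter.Tendsto (fun m : ℕ => x ^ m) Filter.atTop (nhds 0) :=
      ENNReal.tendsto_pow_atTop_nhds_zero_of_lt_one hx1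
    have hinv : (1 - x)⁻¹ ≠ ∞ := by
      rw [ENNReal.inv_ne_top]
      exact (tsub_pos_of_lt hx1).ne'
    have h2 := ENNReal.Tendsto.mul_const h1 (Or.inr hinv)
    have h3 := ENNReal.Tendsto.const_mul h2 (Or.inr (ENNReal.natCast_ne_top (Z ω₀ n)))
    simpa using h3
  exact le_antisymm (ge_of_tendsto' hlim hbound) bot_le

/-- for large `p` any two infinite clusters are connected -/
lemma ae_unique {p : ℝ} (hp : 5 / 6 < p) (hp1 : p ≤ 1) :
    ∀ᵐ ω ∂cfgLaw α, ω ∈ Surv → ∀ v w, IsInf p ω v → IsInf p ω w →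
      Relation.EqvGen (Step p ω) v w := by
  have h1 : ∀ᵐ ω ∂cfgLaw α, ∀ n, 1 ≤ n → ω ∉ ⋂ R ∈ {R | n ≤ R}, CrossEv p n R := by
    rw [ae_all_iff]
    intro n
    by_cases hn : 1 ≤ n
    · filter_upwards [measure_eq_zero_iff_ae_notMem.1 (cross_null (α := α) hp hp1 hn)] with ω hω _
      exact hω
    · exact Filter.Eventually.of_forall fun ω h => absurd h hn
  filter_upwards [h1] with ω hω hs v w hv hw
  by_contra hcon
  set n := max 1 (max v.1 w.1) with hn
  have hn1 : 1 ≤ n := le_max_left _ _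
  have hnv : v.1 ≤ n := (le_max_left _ _).trans (le_max_right _ _)
  have hnw : w.1 ≤ n := (le_max_right _ _).trans (le_max_right _ _)
  apply hω n hn1
  simp only [mem_iInter]
  intro R hR
  exact separation (fun r => hs r) hv hw hcon hn1 hnv hnw hR

end Pool.Agent.helper885_ct
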