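import Pool.Agent.helper885_ct.Link

/-!
Potentials on the triangulation, and the separation lemma.
-/

set_option linter.unusedSectionVars false
set_option linter.unusedVariables false

namespace Pool.Agent.helper885_ct

open MeasureTheory Set Measure
open scoped ENNReal

lemma exists_parent {ω : Cfg} {r m j : ℕ} (h : j < S ω r m) :
    ∃ i < m, ∃ k < ω.1 (r, i), j = S ω r i + k := by
  induction m with
  | zero => simp [S] at h
  | succ m ih =>
    by_cases hj : j < S ω r m
    · obtain ⟨i, hi, k, hk, h⟩ := ih hj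
      exact ⟨i, by omega, k, hk, h⟩
    · rw [S_succ] at h
      exact ⟨m, by omega, j - S ω r m, by omega, by omega⟩

lemma parent_unique {ω : Cfg} {r i k i' k' : ℕ} (hk : k < ω.1 (r, i)) (hk' : k' < ω.1 (r, i'))
    (h : S ω r i + k = S ω r i' + k') : i = i' ∧ k = k' := by
  have h1 : i = i' := by
    rcases lt_trichotomy i i' with h2 | h2 | h2
    · have h3 : S ω r (i + 1) ≤ S ω r i' := S_mono ω r h2
      rw [S_succ] at h3
      omega
    · exact h2
    · have h3 : S ω r (i' + 1) ≤ S ω r i := S_mono ω r h2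
      rw [S_succ] at h3
      omega
  subst h1
  exact ⟨rfl, by omega⟩

lemma S_lt_Z {ω : Cfg} {r i k : ℕ} (hi : i < Z ω r) (hk : k < ω.1 (r, i)) :
    S ω r i + k < Z ω (r + 1) := by
  rw [Z_succ_S]
  have h3 : S ω r (i + 1) ≤ S ω r (Z ω r) := S_mono ω r hi
  rw [S_succ] at h3
  omega

section potential

variable {ω : Cfg} (π : Edge → Bool)

/-- parity conditions on the triangles -/
structure Even (ω : Cfg) (π : Edge → Bool) (n R : ℕ) : Prop where
  up : ∀ r, n ≤ r + 1 → r + 1 < R → ∀ i, i < Z ω (r + 1) →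
    Bool.xor (π (Sum.inl (r + 1, i, ω.1 (r + 1, i))))
      (π (Sum.inl (r + 1, (i + 1) % Z ω (r + 1), 0))) = π (Sum.inr (r, i))
  down : ∀ r, n ≤ r → r < R → ∀ i, i < Z ω r → ∀ k, k < ω.1 (r, i) →
    Bool.xor (π (Sum.inl (r, i, k))) (π (Sum.inl (r, i, k + 1))) =
      π (Sum.inr (r, S ω r i + k))
  zero : ∀ i, i < Z ω n → π (Sum.inr (n - 1, i)) = false

/-- a potential with differential `π` -/
structure Pot (ω : Cfg) (π : Edge → Bool) (n R : ℕ) (c : ℕ → ℕ → Bool) : Prop where
  bot : ∀ i, i < Z ω n → c n i = false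
  up : ∀ r, n ≤ r → r < R → ∀ i, i < Z ω r → ∀ k, k ≤ ω.1 (r, i) →
    c (r + 1) ((S ω r i + k) % Z ω (r + 1)) = Bool.xor (c r i) (π (Sum.inl (r, i, k)))
  hor : ∀ r, n ≤ r + 1 → r + 1 ≤ R → ∀ i, i < Z ω (r + 1) →
    c (r + 1) ((i + 1) % Z ω (r + 1)) = Bool.xor (c (r + 1) i) (π (Sum.inr (r, i)))

lemma exists_pot (hpos : ∀ r, 0 < Z ω r) {n : ℕ} (hn : 1 ≤ n) (R : ℕ) (hR : n ≤ R)
    (hE : Even ω π n R) : ∃ c, Pot ω π n R c := by
  classical
  induction R, hR using Nat.le_induction with
  | base =>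
    refine ⟨fun _ _ => false, fun _ _ => rfl, fun r h1 h2 => by omega, fun r h1 h2 i hi => ?_⟩
    have hr : r + 1 = n := by omega
    have := hE.zero i (by rw [← hr]; exact hi)
    have hr' : n - 1 = r := by omega
    rw [hr'] at this
    simp [this]
  | succ R hR ih =>
    have hE' : Even ω π n R := ⟨fun r h1 h2 => hE.up r h1 (by omega),
      fun r h1 h2 => hE.down r h1 (by omega), hE.zero⟩
    obtain ⟨c, hc⟩ := ih hE'
    -- values carried by the upward edges
    set val : ℕ → ℕ → Bool := fun i k => Bool.xor (c R i) (π (Sum.inl (R, i, k))) with hval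
    set f : ℕ → Bool := fun j => if h : ∃ ik : ℕ × ℕ, ik.1 < Z ω R ∧ ik.2 < ω.1 (R, ik.1) ∧
      j = S ω R ik.1 + ik.2 then val h.choose.1 h.choose.2 else false with hf
    have hfval : ∀ i k, i < Z ω R → k < ω.1 (R, i) → f (S ω R i + k) = val i k := by
      intro i k hi hk
      have hex : ∃ ik : ℕ × ℕ, ik.1 < Z ω R ∧ ik.2 < ω.1 (R, ik.1) ∧
          S ω R i + k = S ω R ik.1 + ik.2 := ⟨(i, k), hi, hk, rfl⟩
      have h1 : f (S ω R i + k) = val hex.choose.1 hex.choose.2 := by
        simp only [hf]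
        rw [dif_pos hex]
      obtain ⟨h2, h3, h4⟩ := hex.choose_spec
      obtain ⟨h5, h6⟩ := parent_unique hk h3 h4
      rw [h1, ← h5, ← h6]
    have hZ : 0 < Z ω R := hpos R
    have hZ' : 0 < Z ω (R + 1) := hpos (R + 1)
    -- going to the next vertex
    have hnext : ∀ i, i < Z ω R → val i (ω.1 (R, i)) = val ((i + 1) % Z ω R) 0 := by
      intro i hi
      obtain ⟨R', hR'⟩ : ∃ R', R = R' + 1 := ⟨R - 1, by omega⟩
      have h1 := hE.up R' (by omega) (by omega) i (by rw [← hR']; exact hi)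
      have h2 := hc.hor R' (by omega) (by omega) i (by rw [← hR']; exact hi)
      rw [← hR'] at h1 h2
      simp only [hval]
      rw [h2]
      revert h1
      cases c R i <;> cases π (Sum.inl (R, i, ω.1 (R, i))) <;>
        cases π (Sum.inl (R, (i + 1) % Z ω R, 0)) <;> cases π (Sum.inr (R', i)) <;> simp
    -- linear part
    have hlin : ∀ d i, i + d < Z ω R → 0 < ω.1 (R, i + d) → f (S ω R i) = val i 0 := by
      intro d
      induction d with
      | zero =>
        intro i hi hpos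
        exact hfval i 0 hi hpos
      | succ d ihd =>
        intro i hi hpos
        by_cases h0 : 0 < ω.1 (R, i)
        · exact hfval i 0 (by omega) h0
        · have h1 : ω.1 (R, i) = 0 := by omega
          have h2 := hnext i (by omega)
          rw [h1, Nat.mod_eq_of_lt (by omega)] at h2
          rw [h2, ← ihd (i + 1) (by omega) (by rw [show i + 1 + d = i + (d + 1) by ring]; exact hpos)]
          rw [S_succ, h1, add_zero]
    have hfert : ∃ i < Z ω R, 0 < ω.1 (R, i) := by
      obtain ⟨i, hi, k, hk, _⟩ := exists_parent (ω := ω) (r := R) (m := Z ω R) (j := 0)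
        (by rw [← Z_succ_S]; exact hZ')
      exact ⟨i, hi, by omega⟩
    have hf0 : f 0 = val 0 0 := by
      obtain ⟨i, hi, h0⟩ := hfert
      have := hlin i 0 (by omega) (by rw [zero_add]; exact h0)
      simpa [S] using this
    have htail : ∀ d i, i + d + 1 = Z ω R → (∀ i', i ≤ i' → i' < Z ω R → ω.1 (R, i') = 0) →
        val i 0 = val 0 0 := by
      intro d
      induction d with
      | zero =>
        intro i hi hz
        have h2 := hnext i (by omega)
        rw [hz i le_rfl (by omega), show i + 1 = Z ω R by omega, Nat.mod_self] at h2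
        exact h2
      | succ d ihd =>
        intro i hi hz
        have h2 := hnext i (by omega)
        rw [hz i le_rfl (by omega), Nat.mod_eq_of_lt (by omega)] at h2
        rw [h2]
        exact ihd (i + 1) (by omega) (fun i' h1 h2 => hz i' (by omega) h2)
    have hg : ∀ i, i < Z ω R → f (S ω R i % Z ω (R + 1)) = val i 0 := by
      intro i hi
      by_cases hex : ∃ i', i ≤ i' ∧ i' < Z ω R ∧ 0 < ω.1 (R, i')
      · obtain ⟨i', h1, h2, h3⟩ := hex
        have h4 := hlin (i' - i) i (by omega) (by rw [show i + (i' - i) = i' by omega]; exact h3)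
        have h5 : S ω R i < Z ω (R + 1) := by
          have := S_lt_Z h2 h3
          have h6 : S ω R i ≤ S ω R i' := S_mono ω R h1
          omega
        rw [Nat.mod_eq_of_lt h5]
        exact h4
      · have hz : ∀ i', i ≤ i' → i' < Z ω R → ω.1 (R, i') = 0 := by
          intro i' h1 h2
          by_contra h3
          exact hex ⟨i', h1, h2, by omega⟩
        have h1 : S ω R i = Z ω (R + 1) := by
          rw [Z_succ_S]
          have : ∀ t, i + t ≤ Z ω R → S ω R (i + t) = S ω R i := by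
            intro t
            induction t with
            | zero => intro _; rfl
            | succ t iht =>
              intro h
              rw [← add_assoc, S_succ, hz (i + t) (by omega) (by omega), add_zero,
                iht (by omega)]
          have h2 := this (Z ω R - i) (by omega)
          rw [show i + (Z ω R - i) = Z ω R by omega] at h2
          exact h2.symm
        rw [h1, Nat.mod_self, hf0]
        exact (htail (Z ω R - i - 1) i (by omega) hz).symm
    have hup : ∀ i, i < Z ω R → ∀ k, k ≤ ω.1 (R, i) →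
        f ((S ω R i + k) % Z ω (R + 1)) = val i k := by
      intro i hi k hk
      rcases Nat.lt_or_ge k (ω.1 (R, i)) with h | h
      · rw [Nat.mod_eq_of_lt (S_lt_Z hi h)]
        exact hfval i k hi h
      · have hk' : k = ω.1 (R, i) := by omega
        subst hk'
        rw [← S_succ, hnext i hi]
        by_cases h1 : i + 1 < Z ω R
        · rw [Nat.mod_eq_of_lt h1]
          exact hg (i + 1) h1
        · have h2 : i + 1 = Z ω R := by omega
          rw [h2, Nat.mod_self, ← Z_succ_S, Nat.mod_self]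
          exact hf0
    refine ⟨fun r i => if r = R + 1 then f i else c r i, ?_, ?_, ?_⟩
    · intro i hi
      have : n ≠ R + 1 := by omega
      simp only [this, if_false]
      exact hc.bot i hi
    · intro r h1 h2 i hi k hk
      by_cases hr : r = R
      · subst hr
        simp only [if_true]
        have h3 : r ≠ r + 1 := by omega
        simp only [h3, if_false]
        exact hup i hi k hk
      · have h3 : r + 1 ≠ R + 1 := by omega
        have h4 : r ≠ R + 1 := by omega
        simp only [h3, h4, if_false]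
        exact hc.up r h1 (by omega) i hi k hk
    · intro r h1 h2 i hi
      by_cases hr : r = R
      · subst hr
        simp only [if_true]
        obtain ⟨i', hi', k, hk, rfl⟩ := exists_parent (ω := ω) (r := r) (m := Z ω r) (j := i)
          (by rw [← Z_succ_S]; exact hi)
        rw [add_assoc, hup i' hi' (k + 1) hk, hfval i' k hi' hk]
        have h3 := hE.down r (by omega) (by omega) i' hi' k hk
        simp only [hval]
        rw [← h3]
        cases c r i' <;> cases π (Sum.inl (r, i', k)) <;>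
          cases π (Sum.inl (r, i', k + 1)) <;> simp
      · have h3 : r + 1 ≠ R + 1 := by omega
        simp only [h3, if_false]
        exact hc.hor r h1 (by omega) i hi

end potential

/-- the edges of a triangle with horizontal edge at the bottom -/
def triU (ω : Cfg) (r i : ℕ) : Finset Edge :=
  {Sum.inr (r, i), Sum.inl (r + 1, i, ω.1 (r + 1, i)), Sum.inl (r + 1, (i + 1) % Z ω (r + 1), 0)}

/-- the edges of a triangle with horizontal edge on top -/
def triD (ω : Cfg) (r i k : ℕ) : Finset Edge :=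
  {Sum.inl (r, i, k), Sum.inl (r, i, k + 1), Sum.inr (r, S ω r i + k)}

/-- the triangles above level one -/
def IsTri (ω : Cfg) (t : Finset Edge) : Prop :=
  (∃ r i, i < Z ω (r + 1) ∧ t = triU ω r i) ∨
    ∃ r i k, 1 ≤ r ∧ i < Z ω r ∧ k < ω.1 (r, i) ∧ t = triD ω r i k

/-- two edges of one triangle -/
def TriAdj (ω : Cfg) (e f : Edge) : Prop := ∃ t, IsTri ω t ∧ e ∈ t ∧ f ∈ t

/-- genuine edges above level one -/
def ValidE (ω : Cfg) : Edge → Prop
  | Sum.inl (r, i, k) => 1 ≤ r ∧ i < Z ω r ∧ k ≤ ω.1 (r, i)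
  | Sum.inr (r, i) => i < Z ω (r + 1)

lemma valid_of_tri {ω : Cfg} {t : Finset Edge} (ht : IsTri ω t) {e : Edge} (he : e ∈ t) :
    ValidE ω e := by
  rcases ht with ⟨r, i, hi, rfl⟩ | ⟨r, i, k, hr, hi, hk, rfl⟩
  · simp only [triU, Finset.mem_insert, Finset.mem_singleton] at he
    rcases he with rfl | rfl | rfl
    · exact hi
    · exact ⟨by omega, hi, le_rfl⟩
    · exact ⟨by omega, Nat.mod_lt _ (by omega), Nat.zero_le _⟩
  · simp only [triD, Finset.mem_insert, Finset.mem_singleton] at he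
    rcases he with rfl | rfl | rfl
    · exact ⟨hr, hi, hk.le⟩
    · exact ⟨hr, hi, hk⟩
    · exact S_lt_Z hi hk

/-- one endpoint of an edge -/
def end1 : Edge → ℕ × ℕ
  | Sum.inl (r, i, _) => (r, i)
  | Sum.inr (r, i) => (r + 1, i)

/-- the other endpoint of an edge -/
def end2 (ω : Cfg) : Edge → ℕ × ℕ
  | Sum.inl (r, i, k) => (r + 1, (S ω r i + k) % Z ω (r + 1))
  | Sum.inr (r, i) => (r + 1, (i + 1) % Z ω (r + 1))

open Classical in
/-- indicator of a set of vertices -/
noncomputable def inK (K : Set (ℕ × ℕ)) (v : ℕ × ℕ) : Bool := decide (v ∈ K)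

lemma inK_true {K : Set (ℕ × ℕ)} {v : ℕ × ℕ} (h : v ∈ K) : inK K v = true := by
  simp [inK, h]

lemma inK_false {K : Set (ℕ × ℕ)} {v : ℕ × ℕ} (h : v ∉ K) : inK K v = false := by
  simp [inK, h]

/-- boundary edges of a set of vertices -/
noncomputable def bd (ω : Cfg) (K : Set (ℕ × ℕ)) (e : Edge) : Bool :=
  Bool.xor (inK K (end1 e)) (inK K (end2 ω e))

lemma bd_up {ω : Cfg} {K : Set (ℕ × ℕ)} {r i : ℕ} (hi : i < Z ω (r + 1)) :
    Bool.xor (bd ω K (Sum.inl (r + 1, i, ω.1 (r + 1, i))))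
      (bd ω K (Sum.inl (r + 1, (i + 1) % Z ω (r + 1), 0))) = bd ω K (Sum.inr (r, i)) := by
  have h1 : end2 ω (Sum.inl (r + 1, i, ω.1 (r + 1, i))) =
      end2 ω (Sum.inl (r + 1, (i + 1) % Z ω (r + 1), 0)) := by
    simp only [end2, add_zero, ← S_succ]
    by_cases h : i + 1 < Z ω (r + 1)
    · rw [Nat.mod_eq_of_lt h]
    · have h2 : i + 1 = Z ω (r + 1) := by omega
      have h3 : S ω (r + 1) 0 = 0 := rfl
      rw [h2, Nat.mod_self, ← Z_succ_S, Nat.mod_self, h3, Nat.zero_mod]
  unfold bd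
  rw [h1]
  simp only [end1, end2]
  cases inK K (r + 1, i) <;> cases inK K (r + 1, (i + 1) % Z ω (r + 1)) <;>
    cases inK K (r + 1 + 1, (S ω (r + 1) ((i + 1) % Z ω (r + 1)) + 0) %
      Z ω (r + 1 + 1)) <;> rfl

lemma bd_down {ω : Cfg} {K : Set (ℕ × ℕ)} {r i k : ℕ} (hi : i < Z ω r) (hk : k < ω.1 (r, i)) :
    Bool.xor (bd ω K (Sum.inl (r, i, k))) (bd ω K (Sum.inl (r, i, k + 1))) =
      bd ω K (Sum.inr (r, S ω r i + k)) := by
  have h1 : (S ω r i + k) % Z ω (r + 1) = S ω r i + k := Nat.mod_eq_of_lt (S_lt_Z hi hk)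
  unfold bd
  simp only [end1, end2, h1, add_assoc]
  cases inK K (r, i) <;> cases inK K (r + 1, S ω r i + k) <;>
    cases inK K (r + 1, (S ω r i + (k + 1)) % Z ω (r + 1)) <;> rfl

/-- a valid boundary edge of a component is closed -/
lemma closed_of_bd {ω : Cfg} (hpos : ∀ r, 0 < Z ω r) {p : ℝ} {v : ℕ × ℕ} {e : Edge}
    (he : ValidE ω e) (hb : bd ω (component p ω v) e = true) : p ≤ ω.2 e := by
  by_contra hlt
  push Not at hlt
  have hstep : Step p ω (end1 e) (end2 ω e) := by
    rcases e with ⟨r, i, k⟩ | ⟨r, i⟩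
    · obtain ⟨h1, h2, h3⟩ := he
      left
      exact ⟨h2, rfl, Nat.mod_lt _ (hpos _), k, h3, fun h => by simp only [end1] at h; omega,
        rfl, hlt⟩
    · right; left
      exact ⟨r, i, rfl, he, rfl, hlt⟩
  have hiff : end1 e ∈ component p ω v ↔ end2 ω e ∈ component p ω v := by
    constructor
    · intro h
      exact Relation.EqvGen.trans _ _ _ h (Relation.EqvGen.rel _ _ hstep)
    · intro h
      exact Relation.EqvGen.trans _ _ _ h (Relation.EqvGen.symm _ _ (Relation.EqvGen.rel _ _ hstep))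
  unfold bd at hb
  by_cases h : end1 e ∈ component p ω v
  · have h2 := hiff.1 h
    rw [inK_true h, inK_true h2] at hb
    simp at hb
  · have h2 : end2 ω e ∉ component p ω v := fun h2 => h (hiff.2 h2)
    rw [inK_false h, inK_false h2] at hb
    simp at hb

/-- adjacency of closed edges -/
def ClAdj (p : ℝ) (ω : Cfg) (e f : Edge) : Prop := TriAdj ω e f ∧ p ≤ ω.2 e ∧ p ≤ ω.2 f

/-- two distinct components with infinite clusters are separated by closed dual paths -/
lemma separation {ω : Cfg} (hpos : ∀ r, 0 < Z ω r) {p : ℝ} {v₁ v₂ : ℕ × ℕ}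
    (h₁ : IsInf p ω v₁) (h₂ : IsInf p ω v₂) (h12 : ¬ Relation.EqvGen (Step p ω) v₁ v₂)
    {n R : ℕ} (hn : 1 ≤ n) (hv₁ : v₁.1 ≤ n) (hv₂ : v₂.1 ≤ n) (hR : n ≤ R) :
    ∃ i < Z ω n, ∃ i' < Z ω R, p ≤ ω.2 (Sum.inr (n - 1, i)) ∧
      Relation.ReflTransGen (ClAdj p ω) (Sum.inr (n - 1, i)) (Sum.inr (R - 1, i')) := by
  classical
  set K := component p ω v₁ with hK
  set rel : Edge → Edge → Prop := fun e f => TriAdj ω e f ∧ bd ω K e = true ∧ bd ω K f = true
    with hrel
  set Reach : Edge → Prop := fun e => ∃ i < Z ω n, bd ω K (Sum.inr (n - 1, i)) = true ∧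
    Relation.ReflTransGen rel (Sum.inr (n - 1, i)) e with hReach
  set π : Edge → Bool := fun e => decide (bd ω K e = true ∧ ¬ Reach e) with hπ
  have hR1 : ∀ e f, TriAdj ω e f → bd ω K e = true → bd ω K f = true → Reach e → Reach f := by
    rintro e f h1 h2 h3 ⟨i, hi, hb, hp⟩
    exact ⟨i, hi, hb, hp.tail ⟨h1, h2, h3⟩⟩
  have hpar : ∀ e₁ e₂ e₃ : Edge, TriAdj ω e₁ e₂ → TriAdj ω e₂ e₁ → TriAdj ω e₁ e₃ →
      TriAdj ω e₃ e₁ → TriAdj ω e₂ e₃ → TriAdj ω e₃ e₂ →
      Bool.xor (bd ω K e₁) (bd ω K e₂) = bd ω K e₃ → Bool.xor (π e₁) (π e₂) = π e₃ := by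
    intro e₁ e₂ e₃ h12 h21 h13 h31 h23 h32 hx
    have a1 := hR1 e₁ e₂ h12
    have a2 := hR1 e₂ e₁ h21
    have a3 := hR1 e₁ e₃ h13
    have a4 := hR1 e₃ e₁ h31
    have a5 := hR1 e₂ e₃ h23
    have a6 := hR1 e₃ e₂ h32
    simp only [hπ]
    revert hx a1 a2 a3 a4 a5 a6
    cases bd ω K e₁ <;> cases bd ω K e₂ <;> cases bd ω K e₃ <;>
      by_cases r1 : Reach e₁ <;> by_cases r2 : Reach e₂ <;> by_cases r3 : Reach e₃ <;>
      simp [r1, r2, r3]
  have hEven : Even ω π n R := by
    refine ⟨?_, ?_, ?_⟩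
    · intro r h1 h2 i hi
      have ht : IsTri ω (triU ω r i) := Or.inl ⟨r, i, hi, rfl⟩
      refine hpar _ _ _ ?_ ?_ ?_ ?_ ?_ ?_ (bd_up hi) <;>
        exact ⟨triU ω r i, ht, by simp [triU], by simp [triU]⟩
    · intro r h1 h2 i hi k hk
      have ht : IsTri ω (triD ω r i k) := Or.inr ⟨r, i, k, by omega, hi, hk, rfl⟩
      refine hpar _ _ _ ?_ ?_ ?_ ?_ ?_ ?_ (bd_down hi hk) <;>
        exact ⟨triD ω r i k, ht, by simp [triD], by simp [triD]⟩
    · intro i hi
      simp only [hπ, decide_eq_false_iff_not, not_and, not_not]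
      intro hb
      exact ⟨i, hi, hb, Relation.ReflTransGen.refl⟩
  obtain ⟨c, hc⟩ := exists_pot π hpos hn R hR hEven
  have hopen : ∀ e, ValidE ω e → ω.2 e < p → π e = false := by
    intro e he hlt
    simp only [hπ, decide_eq_false_iff_not, not_and]
    intro hb
    exact absurd (closed_of_bd hpos he hb) (not_le.2 hlt)
  -- the potential vanishes on the clusters
  have hzero : ∀ v : ℕ × ℕ, v.1 ≤ n → v.2 < Z ω v.1 → ∀ w ∈ cluster p ω v, n ≤ w.1 → w.1 ≤ R →
      c w.1 w.2 = false := by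
    intro v hv hv2 w hw
    induction hw with
    | refl =>
      intro h1 _
      have h2 : v.1 = n := by omega
      rw [h2] at hv2 ⊢
      exact hc.bot _ hv2
    | @tail u w _ huw ih =>
      intro h1 h3
      rcases huw with ⟨g1, g2, g3, k, g4, _, g6, g7⟩ | ⟨r, i, rfl, g2, rfl, g4⟩ |
          ⟨r, i, rfl, g2, rfl, g4⟩
      · by_cases hwn : w.1 = n
        · rw [hwn] at g3 ⊢
          exact hc.bot _ g3
        · have h4 := ih (by omega) (by omega)
          have h5 := hc.up u.1 (by omega) (by omega) u.2 g1 k g4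
          have h6 : π (Sum.inl (u.1, u.2, k)) = false :=
            hopen _ ⟨by omega, g1, g4⟩ g7
          rw [g6, g2, h5, h4, h6]
          rfl
      · have h4 := ih h1 h3
        have h5 := hc.hor r h1 h3 i g2
        rw [hopen (Sum.inr (r, i)) g2 g4] at h5
        simp only at h4 ⊢
        rw [h5, h4]
        rfl
      · have h4 := ih h1 h3
        have h5 := hc.hor r h1 h3 i g2
        rw [hopen (Sum.inr (r, i)) g2 g4] at h5
        simp only at h4 ⊢
        rw [h5] at h4
        simpa using h4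
  -- vertices at the top level
  have htop : ∀ v, IsInf p ω v → v.1 ≤ n → ∃ j < Z ω R, (R, j) ∈ cluster p ω v := by
    intro v hv hvn
    have := (infinite_iff (p := p) (ω := ω) (v := v) hn hvn).1 hv.2 (R - n)
    obtain ⟨j, hj⟩ := this
    rw [show n + (R - n) = R by omega] at hj
    exact ⟨j, mem_lev.1 hj⟩
  obtain ⟨j₁, hj₁, hc₁⟩ := htop v₁ h₁ hv₁
  obtain ⟨j₂, hj₂, hc₂⟩ := htop v₂ h₂ hv₂
  have z₁ := hzero v₁ hv₁ h₁.1 _ hc₁ hR le_rfl
  have z₂ := hzero v₂ hv₂ h₂.1 _ hc₂ hR le_rfl
  simp only at z₁ z₂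
  by_contra hcon
  have hnone : ∀ i < Z ω R, ¬ Reach (Sum.inr (R - 1, i)) := by
    rintro i hi ⟨i₀, hi₀, hb, hp⟩
    apply hcon
    have hval : ValidE ω (Sum.inr (n - 1, i₀)) := by
      change i₀ < Z ω (n - 1 + 1)
      rw [show n - 1 + 1 = n by omega]
      exact hi₀
    refine ⟨i₀, hi₀, i, hi, closed_of_bd hpos hval hb, rtg_map id ?_ hp⟩
    rintro a b ⟨⟨t, ht, hat, hbt⟩, h2, h3⟩
    exact ⟨⟨t, ht, hat, hbt⟩, closed_of_bd hpos (valid_of_tri ht hat) h2,
      closed_of_bd hpos (valid_of_tri ht hbt) h3⟩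
  obtain ⟨R', hR'⟩ : ∃ R', R = R' + 1 := ⟨R - 1, by omega⟩
  subst hR'
  have hconst : ∀ i < Z ω (R' + 1), Bool.xor (c (R' + 1) i) (inK K (R' + 1, i)) =
      Bool.xor (c (R' + 1) ((i + 1) % Z ω (R' + 1)))
        (inK K (R' + 1, (i + 1) % Z ω (R' + 1))) := by
    intro i hi
    have h1 := hc.hor R' hR le_rfl i hi
    have h2 : π (Sum.inr (R', i)) = bd ω K (Sum.inr (R', i)) := by
      have h3 := hnone i hi
      simp only [Nat.add_sub_cancel] at h3
      simp only [hπ, h3, not_false_eq_true, and_true, Bool.decide_eq_true]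
    rw [h1, h2]
    unfold bd
    simp only [end1, end2]
    cases c (R' + 1) i <;> cases inK K (R' + 1, i) <;>
      cases inK K (R' + 1, (i + 1) % Z ω (R' + 1)) <;> rfl
  have hall : ∀ i < Z ω (R' + 1), Bool.xor (c (R' + 1) i) (inK K (R' + 1, i)) =
      Bool.xor (c (R' + 1) 0) (inK K (R' + 1, 0)) := by
    intro i
    induction i with
    | zero => intro _; rfl
    | succ i ih =>
      intro hi
      rw [← ih (by omega), hconst i (by omega), Nat.mod_eq_of_lt hi]
  have e1 := hall j₁ hj₁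
  have e2 := hall j₂ hj₂
  have k₁ : (R' + 1, j₁) ∈ K := eqvGen_of_cluster hc₁
  have k₂ : (R' + 1, j₂) ∉ K := by
    intro h
    exact h12 (Relation.EqvGen.trans _ _ _ h ((eqvGen_of_cluster hc₂).symm _ _))
  rw [z₁, inK_true k₁] at e1
  rw [z₂, inK_false k₂] at e2
  rw [← e2] at e1
  simp at e1

end Pool.Agent.helper885_ct
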