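import Pool.Agent.helper885_ct.Cert
import Pool.Agent.helper885_ct.GW

/-!
Position of the reading device; correctness of the device for the primal chain.
-/

set_option linter.unusedSectionVars false
set_option linter.unusedVariables false

namespace Pool.Agent.helper885_ct

open MeasureTheory Set Measure
open scoped ENNReal

/-- `y` is the rest of the row `x` in front of the upward edge `(z, i)` -/
structure At (x : Row) (z i : ℕ) (y : Row) : Prop where
  le : i ≤ x.1 z
  xi0 : y.1 0 = x.1 z - i
  xi : ∀ j, y.1 (j + 1) = x.1 (z + 1 + j)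
  up0 : ∀ c, y.2 (Sum.inl (0, c)) = x.2 (Sum.inl (z, i + c))
  up : ∀ j c, y.2 (Sum.inl (j + 1, c)) = x.2 (Sum.inl (z + 1 + j, c))
  hor : ∀ j, y.2 (Sum.inr j) = x.2 (Sum.inr (rS x z + i + j))

lemma At_zero (x : Row) : At x 0 0 x where
  le := Nat.zero_le _
  xi0 := rfl
  xi := fun j => by rw [show 0 + 1 + j = j + 1 by omega]
  up0 := fun c => by rw [Nat.zero_add]
  up := fun j c => by rw [show 0 + 1 + j = j + 1 by omega]
  hor := fun j => by
    have : rS x 0 + 0 + j = j := by simp [rS]
    rw [this]

lemma At.sB {x : Row} {z i : ℕ} {y : Row} (h : At x z i y) (h0 : y.1 0 = 0) :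
    At x (z + 1) 0 (sB y) := by
  have hi : i = x.1 z := by
    have h1 := h.le
    have h2 := h.xi0
    omega
  refine ⟨Nat.zero_le _, ?_, ?_, ?_, ?_, ?_⟩
  · exact h.xi 0
  · intro j
    have := h.xi (j + 1)
    rw [show z + 1 + 1 + j = z + 1 + (j + 1) by omega]
    exact this
  · intro c
    have := h.up 0 c
    rw [Nat.zero_add c]
    exact this
  · intro j c
    have := h.up (j + 1) c
    rw [show z + 1 + 1 + j = z + 1 + (j + 1) by omega]
    exact this
  · intro j
    have := h.hor j
    rw [hi] at this
    rw [rS_succ, Nat.add_zero]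
    exact this

lemma At.sT {x : Row} {z i : ℕ} {y : Row} (h : At x z i y) (h0 : y.1 0 ≠ 0) :
    At x z (i + 1) (sT y) := by
  have h1 := h.le
  have h2 := h.xi0
  refine ⟨by omega, ?_, ?_, ?_, ?_, ?_⟩
  · show y.1 0 - 1 = _
    omega
  · intro j
    exact h.xi j
  · intro c
    have := h.up0 (c + 1)
    rw [show i + 1 + c = i + (c + 1) by omega]
    exact this
  · intro j c
    exact h.up j c
  · intro j
    have := h.hor (j + 1)
    rw [show rS x z + (i + 1) + j = rS x z + i + (j + 1) by omega]
    exact this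

lemma At.upO {x : Row} {z i : ℕ} {y : Row} (h : At x z i y) (p : ℝ) :
    upO p y = decide (x.2 (Sum.inl (z, i)) < p) := by
  unfold Pool.Agent.helper885_ct.upO
  rw [h.up0 0, Nat.add_zero]

lemma At.hrO {x : Row} {z i : ℕ} {y : Row} (h : At x z i y) (p : ℝ) :
    hrO p y = decide (x.2 (Sum.inr (rS x z + i)) < p) := by
  unfold Pool.Agent.helper885_ct.hrO
  rw [h.hor 0, Nat.add_zero]

/-- bounding the gain by an invariant: `I` in front of an upward edge, `J` behind it -/
lemma gn_le {Q : Type} (M : Aut Q) (p : ℝ) (x : Row) (kk Bd : ℕ) (a : ℕ → Bool)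
    (I J : ℕ → ℕ → Q → ℕ → Prop)
    (hfin : ∀ z i q v, I z i q v → v ≤ Bd)
    (hup : ∀ z i q v, z < kk → i ≤ x.1 z → I z i q v →
      J z i (M.up (a z) (decide (x.2 (Sum.inl (z, i)) < p)) q).1
        (v + (M.up (a z) (decide (x.2 (Sum.inl (z, i)) < p)) q).2))
    (hbb : ∀ z q v, z < kk → J z (x.1 z) q v →
      I (z + 1) 0 (M.bb (a z) q).1 (v + (M.bb (a z) q).2))
    (htt : ∀ z i q v, z < kk → i < x.1 z → J z i q v →
      I z (i + 1) (M.tt (decide (x.2 (Sum.inr (rS x z + i)) < p)) q).1
        (v + (M.tt (decide (x.2 (Sum.inr (rS x z + i)) < p)) q).2))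
    (n k z i : ℕ) (y : Row) (q : Q) (v : ℕ) (hk : z + k = kk) (hy : At x z i y)
    (hI : I z i q v) : v + gn M p n k (fun j => a (z + j)) q y ≤ Bd := by
  induction n generalizing k z i y q v with
  | zero => simpa [gn] using hfin z i q v hI
  | succ n ih =>
    cases k with
    | zero => simpa [gn] using hfin z i q v hI
    | succ k =>
      have hsh : (sh fun j => a (z + j)) = fun j => a (z + 1 + j) := by
        funext j
        simp only [sh]
        rw [show z + (j + 1) = z + 1 + j by omega]
      have hJ := hup z i q v (by omega) hy.le hI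
      by_cases h : y.1 0 = 0
      · simp only [gn, symF, h, if_true, Nat.add_zero]
        have hi : i = x.1 z := by
          have h1 := hy.le
          have h2 := hy.xi0
          omega
        rw [hy.upO p, hsh]
        subst hi
        have h2 := hbb z _ _ (by omega) hJ
        have h3 := ih k (z + 1) 0 (Pool.Agent.helper885_ct.sB y) _ _ (by omega) (hy.sB h) h2
        simp only [Aut.oB]
        omega
      · simp only [gn, symF, h, if_false, Nat.add_zero]
        have hi : i < x.1 z := by
          have h1 := hy.le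
          have h2 := hy.xi0
          omega
        rw [hy.upO p, hy.hrO p]
        have h2 := htt z i _ _ (by omega) hi hJ
        have h3 := ih (k + 1) z (i + 1) (Pool.Agent.helper885_ct.sT y) _ _ (by omega) (hy.sT h) h2
        simp only [Aut.oT]
        omega

/-- states of the device for the primal chain: present vertex reached; or a run of `r` joined
vertices not yet reached, at distance `G` from the last reached one -/
inductive PQ
  | fl : PQ
  | un : ℕ → ℕ → PQ
  deriving DecidableEq

/-- the device for the primal chain -/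
def autP (cap L : ℕ) (f : ℕ → ℕ) : Aut PQ where
  up := fun a o q => match q with
    | PQ.fl => (PQ.fl, 0)
    | PQ.un r G => if a && o then (PQ.fl, f G + (r - 1) * f 1) else (PQ.un r G, 0)
  tt := fun h q => match q with
    | PQ.fl => if h then (PQ.fl, f 1) else (PQ.un 1 1, 0)
    | PQ.un r G => if h then (if r < cap then (PQ.un (r + 1) G, 0) else (PQ.un r (min (G + 1) L), 0))
        else (PQ.un 1 (min (G + r) L), 0)
  bb := fun _ q => (q, 0)

lemma VV_run (L : ℕ) (ω : ℕ → ℕ) {C : Finset ℕ} {b G : ℕ} (h : ∀ c ∈ C, c + G ≤ b) (hG : 1 ≤ G)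
    (r : ℕ) : VV L ω C + ph L ω G + r * ph L ω 1 ≤ VV L ω (C ∪ Finset.Icc b (b + r)) := by
  induction r with
  | zero =>
    have : C ∪ Finset.Icc b (b + 0) = insert b C := by
      rw [Nat.add_zero, Finset.Icc_self, Finset.union_comm]
      rfl
    rw [this, Nat.zero_mul, Nat.add_zero]
    exact VV_insert_ge L ω h
  | succ r ih =>
    have h1 : C ∪ Finset.Icc b (b + (r + 1)) = insert (b + (r + 1)) (C ∪ Finset.Icc b (b + r)) := by
      ext j
      simp only [Finset.mem_union, Finset.mem_Icc, Finset.mem_insert]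
      constructor
      · rintro (h | h)
        · exact Or.inr (Or.inl h)
        · by_cases h2 : j = b + (r + 1)
          · exact Or.inl h2
          · exact Or.inr (Or.inr ⟨h.1, by omega⟩)
      · rintro (h | h | h)
        · exact Or.inr ⟨by omega, by omega⟩
        · exact Or.inl h
        · exact Or.inr ⟨h.1, by omega⟩
    rw [h1]
    have h2 := VV_insert_ge L ω (j := b + (r + 1)) (g := 1) (A := C ∪ Finset.Icc b (b + r)) (by
      intro c hc
      simp only [Finset.mem_union, Finset.mem_Icc] at hc
      rcases hc with hc | hc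
      · have := h c hc
        omega
      · omega)
    rw [Nat.succ_mul]
    omega

section nxtfacts

variable {p : ℝ} {x : Row} {s : St}

lemma nxt_hor {j j' : ℕ} (h : hadj p x (rS x s.k) j j') (hj : j ∈ (nxt p x s).A) :
    j' ∈ (nxt p x s).A := by
  rw [mem_nxt] at hj ⊢
  obtain ⟨h1, d, h2, h3⟩ := hj
  refine ⟨?_, d, h2, h3.tail h⟩
  rcases h with ⟨h4, h5, _⟩ | ⟨h4, _, _⟩
  · rw [h5]
    exact Nat.mod_lt _ (by omega)
  · exact h4

lemma nxt_direct {z c : ℕ} (hz : z ∈ s.A) (hzk : z < s.k) (hc : c ≤ x.1 z)
    (ho : x.2 (Sum.inl (z, c)) < p) (hZ : 0 < rS x s.k) :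
    (rS x z + c) % rS x s.k ∈ (nxt p x s).A := by
  rw [mem_nxt]
  have h1 : (rS x z + c) % rS x s.k < rS x s.k := Nat.mod_lt _ hZ
  exact ⟨h1, _, ⟨h1, z, hz, hzk, c, hc, ho, rfl⟩, Relation.ReflTransGen.refl⟩

/-- a run of joined vertices below a reached one is reached -/
lemma nxt_run_down {w : ℕ} (hw : w ≤ rS x s.k) (hwR : w % rS x s.k ∈ (nxt p x s).A) (n : ℕ)
    (hn : n ≤ w) (ho : ∀ j, w ≤ j + n → j < w → x.2 (Sum.inr j) < p) :
    ∀ c, w ≤ c + n → c < w → c ∈ (nxt p x s).A := by
  induction n with
  | zero => intro c h1 h2; omega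
  | succ n ih =>
    have ih' := ih (by omega) (fun j h1 h2 => ho j (by omega) h2)
    intro c h1 h2
    by_cases h3 : w ≤ c + n
    · exact ih' c h3 h2
    · have hc : c + (n + 1) = w := by omega
      have hopen := ho c (by omega) h2
      have hnext : (c + 1) % rS x s.k ∈ (nxt p x s).A := by
        by_cases h4 : c + 1 = w
        · rw [h4]; exact hwR
        · have h5 := ih' (c + 1) (by omega) (by omega)
          rw [Nat.mod_eq_of_lt (by omega)]
          exact h5
      exact nxt_hor (Or.inr ⟨by omega, rfl, hopen⟩) hnext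

end nxtfacts

/-- certified set for the primal device -/
def CP (p : ℝ) (x : Row) (s : St) (L : ℕ) (ω : ℕ → ℕ) (w v : ℕ) (g : ℕ) (C : Finset ℕ) : Prop :=
  (∀ c ∈ C, c + g ≤ w) ∧ (∀ c ∈ C, c < rS x s.k → c ∈ (nxt p x s).A) ∧ v ≤ VV L ω C

/-- the invariant for the primal device -/
def IP (p : ℝ) (x : Row) (s : St) (L : ℕ) (ω : ℕ → ℕ) (z i : ℕ) (q : PQ) (v : ℕ) : Prop :=
  rS x z + i ≤ rS x s.k ∧ match q with
  | PQ.fl => (∃ C, CP p x s L ω (rS x z + i) v 0 C) ∧
      (rS x z + i < rS x s.k → rS x z + i ∈ (nxt p x s).A)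
  | PQ.un r G => (∃ C, CP p x s L ω (rS x z + i + 1) v (G + r) C) ∧ 1 ≤ r ∧ 1 ≤ G ∧
      r ≤ rS x z + i + 1 ∧
      ∀ j, rS x z + i + 1 ≤ j + r → j < rS x z + i → x.2 (Sum.inr j) < p

lemma IP_fin {p : ℝ} {x : Row} {s : St} {L : ℕ} {ω : ℕ → ℕ} {z i : ℕ} {q : PQ} {v : ℕ}
    (h : IP p x s L ω z i q v) : v ≤ VV L ω (nxt p x s).A + ph L ω L := by
  have h1 : ∀ w g C, w ≤ rS x s.k + 1 → 0 < g ∨ w ≤ rS x s.k → CP p x s L ω w v g C →
      v ≤ VV L ω (nxt p x s).A + ph L ω L := by
    rintro w g C hw hw2 ⟨h2, h3, h4⟩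
    have h5 : C ⊆ insert (rS x s.k) (nxt p x s).A := by
      intro c hc
      by_cases h6 : c < rS x s.k
      · exact Finset.mem_insert_of_mem (h3 c hc h6)
      · have := h2 c hc
        rw [Finset.mem_insert]
        left
        omega
    exact h4.trans ((VV_mono L ω h5).trans (VV_insert_le L ω _ _))
  obtain ⟨h0, h⟩ := h
  cases q with
  | fl =>
    obtain ⟨⟨C, hC⟩, _⟩ := h
    exact h1 _ _ C (by omega) (Or.inr h0) hC
  | un r G =>
    obtain ⟨⟨C, hC⟩, h2, _⟩ := h
    exact h1 _ _ C (by omega) (Or.inl (by omega)) hC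

lemma gnP_le {p : ℝ} (cap : ℕ) (L : ℕ) (hL : 1 ≤ L) (ω : ℕ → ℕ) (x : Row) (s : St)
    (hs : ∀ j ∈ s.A, j < s.k) (n : ℕ) :
    gn (autP cap L (ph L ω)) p n s.k (pat s.A) (PQ.un 1 L) x ≤ VV L ω (nxt p x s).A + ph L ω L := by
  have hmain := gn_le (autP cap L (ph L ω)) p x s.k (VV L ω (nxt p x s).A + ph L ω L) (pat s.A)
    (IP p x s L ω) (IP p x s L ω) (fun z i q v h => IP_fin h) ?_ ?_ ?_ n s.k 0 0 x (PQ.un 1 L) 0
    (by omega) (At_zero x) ?_
  · have h2 : (fun j => pat s.A (0 + j)) = pat s.A := by
      funext j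
      rw [Nat.zero_add]
    rw [h2] at hmain
    omega
  · -- upward edge
    rintro z i q v hz hi ⟨h0, h⟩
    cases q with
    | fl => exact ⟨h0, h⟩
    | un r G =>
      by_cases hao : (pat s.A z && decide (x.2 (Sum.inl (z, i)) < p)) = true
      · simp only [autP, hao, if_true]
        rw [Bool.and_eq_true] at hao
        obtain ⟨ha, ho⟩ := hao
        have ha' : z ∈ s.A := of_decide_eq_true ha
        have ho' : x.2 (Sum.inl (z, i)) < p := of_decide_eq_true ho
        obtain ⟨⟨C, hC1, hC2, hC3⟩, hr, hG, hrw, hop⟩ := h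
        set w := rS x z + i with hw
        have hwR : 0 < rS x s.k → w % rS x s.k ∈ (nxt p x s).A := fun hZ =>
          nxt_direct ha' hz hi ho' hZ
        have hall : ∀ c, w + 1 ≤ c + r → c ≤ w → c < rS x s.k → c ∈ (nxt p x s).A := by
          intro c h1 h2 h3
          by_cases h4 : c = w
          · have := hwR (by omega)
            rw [← h4, Nat.mod_eq_of_lt h3] at this
            exact this
          · exact nxt_run_down h0 (hwR (by omega)) (r - 1) (by omega)
              (fun j h5 h6 => hop j (by omega) h6) c (by omega) (by omega)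
        refine ⟨h0, ⟨C ∪ Finset.Icc (w + 1 - r) (w + 1 - r + (r - 1)), ?_, ?_, ?_⟩, ?_⟩
        · intro c hc
          simp only [Finset.mem_union, Finset.mem_Icc] at hc
          rcases hc with hc | hc
          · have := hC1 c hc
            omega
          · omega
        · intro c hc hcZ
          simp only [Finset.mem_union, Finset.mem_Icc] at hc
          rcases hc with hc | hc
          · exact hC2 c hc hcZ
          · exact hall c (by omega) (by omega) hcZ
        · have := VV_run L ω (C := C) (b := w + 1 - r) (G := G) (fun c hc => by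
            have := hC1 c hc
            omega) hG (r - 1)
          omega
        · intro hwZ
          exact hall w (by omega) le_rfl hwZ
      · simp only [autP, hao]
        exact ⟨h0, h⟩
  · -- next vertex
    rintro z q v hz ⟨h0, h⟩
    have e : rS x (z + 1) + 0 = rS x z + x.1 z := by rw [rS_succ, Nat.add_zero]
    unfold IP
    simp only [autP, Nat.add_zero]
    rw [← rS_succ] at h0
    refine ⟨h0, ?_⟩
    cases q with
    | fl =>
      simp only [← rS_succ] at h
      exact h
    | un r G =>
      simp only [← rS_succ] at h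
      exact h
  · -- child
    rintro z i q v hz hi ⟨h0, h⟩
    have hwZ : rS x z + i < rS x s.k := by
      have h3 : rS x (z + 1) ≤ rS x s.k := rS_mono x hz
      rw [rS_succ] at h3
      omega
    unfold IP
    rw [← Nat.add_assoc]
    set w := rS x z + i with hw
    refine ⟨hwZ, ?_⟩
    cases q with
    | fl =>
      obtain ⟨⟨C, hC1, hC2, hC3⟩, h3⟩ := h
      by_cases ho : x.2 (Sum.inr w) < p
      · simp only [autP, ho, decide_true, if_true]
        have hR : w + 1 < rS x s.k → w + 1 ∈ (nxt p x s).A := by
          intro h4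
          have h5 := nxt_hor (p := p) (x := x) (s := s) (j := w) (j' := (w + 1) % rS x s.k)
            (Or.inl ⟨hwZ, rfl, ho⟩) (h3 hwZ)
          rwa [Nat.mod_eq_of_lt h4] at h5
        refine ⟨⟨insert (w + 1) C, ?_, ?_, ?_⟩, hR⟩
        · intro c hc
          rw [Finset.mem_insert] at hc
          rcases hc with hc | hc
          · omega
          · have := hC1 c hc
            omega
        · intro c hc hcZ
          rw [Finset.mem_insert] at hc
          rcases hc with hc | hc
          · rw [hc] at hcZ ⊢
            exact hR hcZ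
          · exact hC2 c hc hcZ
        · have := VV_insert_ge L ω (j := w + 1) (g := 1) (A := C) (fun c hc => by
            have := hC1 c hc
            omega)
          omega
      · simp only [autP, ho, decide_false, Bool.false_eq_true, if_false]
        refine ⟨⟨C, fun c hc => ?_, hC2, hC3⟩, le_rfl, le_rfl, by omega, fun j h4 h5 => by omega⟩
        have := hC1 c hc
        omega
    | un r G =>
      obtain ⟨⟨C, hC1, hC2, hC3⟩, hr, hG, hrw, hop⟩ := h
      by_cases ho : x.2 (Sum.inr w) < p
      · simp only [autP, ho, decide_true, if_true]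
        by_cases hcap : r < cap
        · simp only [hcap, if_true]
          refine ⟨⟨C, fun c hc => ?_, hC2, hC3⟩, by omega, hG, by omega, fun j h4 h5 => ?_⟩
          · have := hC1 c hc
            omega
          · by_cases h6 : j = w
            · rw [h6]; exact ho
            · exact hop j (by omega) (by omega)
        · simp only [hcap, if_false]
          refine ⟨⟨C, fun c hc => ?_, hC2, hC3⟩, hr, by omega, by omega, fun j h4 h5 => ?_⟩
          · have := hC1 c hc
            omega
          · by_cases h6 : j = w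
            · rw [h6]; exact ho
            · exact hop j (by omega) (by omega)
      · simp only [autP, ho, decide_false, Bool.false_eq_true, if_false]
        refine ⟨⟨C, fun c hc => ?_, hC2, hC3⟩, le_rfl, by omega, by omega, fun j h4 h5 => by omega⟩
        have := hC1 c hc
        omega
  · refine ⟨by simp [rS], ⟨∅, by simp, by simp, by simp [VV_empty]⟩, le_rfl, hL, by omega,
      fun j h4 h5 => ?_⟩
    have : rS x 0 = 0 := rfl
    omega

end Pool.Agent.helper885_ct
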