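import Pool.Agent.helper885_ct.Defs

/-!
Product measure tools.
-/

namespace Pool.Agent.helper885_ct

open MeasureTheory Set Measure
open scoped ENNReal

lemma geomLaw_univ {α : ℝ} (h0 : 0 ≤ α) (h1 : α < 1) : geomLaw α univ = 1 := by
  unfold geomLaw
  rw [Measure.sum_apply _ MeasurableSet.univ]
  simp only [Measure.smul_apply, measure_univ, smul_eq_mul, mul_one]
  rw [← ENNReal.ofReal_tsum_of_nonneg]
  · rw [tsum_mul_right, tsum_geometric_of_lt_one h0 h1, inv_mul_cancel₀ (by linarith)]
    simp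
  · intro n
    have : 0 ≤ 1 - α := by linarith
    positivity
  · exact (summable_geometric_of_lt_one h0 h1).mul_right _

lemma isProb_geomLaw {α : ℝ} (h0 : 0 ≤ α) (h1 : α < 1) : IsProbabilityMeasure (geomLaw α) :=
  ⟨geomLaw_univ h0 h1⟩

instance isProb_unifLaw : IsProbabilityMeasure unifLaw := by
  constructor
  simp [unifLaw]

lemma unifLaw_lt {p : ℝ} (h1 : p ≤ 1) : unifLaw {x | x < p} = ENNReal.ofReal p := by
  unfold unifLaw
  rw [Measure.restrict_apply' measurableSet_Icc]
  have : {x : ℝ | x < p} ∩ Icc 0 1 = Ico 0 p := by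
    ext x
    simp only [mem_inter_iff, mem_ofPred_eq, mem_Icc, mem_Ico]
    constructor
    · rintro ⟨h, h2, h3⟩
      exact ⟨h2, h⟩
    · rintro ⟨h, h2⟩
      exact ⟨h2, h, by linarith⟩
  rw [this]
  simp

lemma unifLaw_ge {p : ℝ} (h0 : 0 ≤ p) :
    unifLaw {x | p ≤ x} = ENNReal.ofReal (1 - p) := by
  unfold unifLaw
  rw [Measure.restrict_apply' measurableSet_Icc]
  have : {x : ℝ | p ≤ x} ∩ Icc 0 1 = Icc p 1 := by
    ext x
    simp only [mem_inter_iff, mem_ofPred_eq, mem_Icc]
    constructor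
    · rintro ⟨h, h2, h3⟩
      exact ⟨h, h3⟩
    · rintro ⟨h, h2⟩
      exact ⟨h, by linarith, h2⟩
  rw [this]
  simp

section glue

variable {ι ι₁ ι₂ X : Type*} [MeasurableSpace X] (μ : Measure X) [IsProbabilityMeasure μ]

/-- gluing two families -/
def glue (e : ι₁ ⊕ ι₂ ≃ ι) (q : (ι₁ → X) × (ι₂ → X)) (i : ι) : X :=
  Sum.elim q.1 q.2 (e.symm i)

lemma measurable_glue (e : ι₁ ⊕ ι₂ ≃ ι) : Measurable (glue (X := X) e) := by
  refine measurable_pi_lambda _ fun i => ?_
  unfold glue
  rcases e.symm i with a | b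
  · exact (measurable_pi_apply a).comp measurable_fst
  · exact (measurable_pi_apply b).comp measurable_snd

lemma glue_map (e : ι₁ ⊕ ι₂ ≃ ι) :
    ((infinitePi fun _ : ι₁ => μ).prod (infinitePi fun _ : ι₂ => μ)).map (glue e) =
      infinitePi fun _ : ι => μ := by
  classical
  refine eq_infinitePi _ fun s t ht => ?_
  rw [Measure.map_apply (measurable_glue e)
    (MeasurableSet.pi s.countable_toSet fun i _ => ht i)]
  obtain ⟨u, rfl⟩ : ∃ u : Finset (ι₁ ⊕ ι₂), s = u.map e.toEmbedding :=
    ⟨s.map e.symm.toEmbedding, by ext i; simp⟩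
  have hpre : glue e ⁻¹' (Set.pi ((u.map e.toEmbedding : Finset ι) : Set ι) t) =
      (Set.pi (u.toLeft : Set ι₁) fun a => t (e (Sum.inl a))) ×ˢ
        (Set.pi (u.toRight : Set ι₂) fun a => t (e (Sum.inr a))) := by
    ext ⟨x, y⟩
    simp only [mem_preimage, Set.mem_pi, glue, mem_prod, Finset.mem_coe]
    constructor
    · intro h
      constructor
      · intro a ha
        simpa using h (e (Sum.inl a)) (Finset.mem_map_of_mem _ (Finset.mem_toLeft.1 ha))
      · intro a ha
        simpa using h (e (Sum.inr a)) (Finset.mem_map_of_mem _ (Finset.mem_toRight.1 ha))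
    · rintro ⟨h1, h2⟩ i hi
      obtain ⟨j, hj, rfl⟩ := Finset.mem_map.1 hi
      rcases j with a | b
      · simpa using h1 a (Finset.mem_toLeft.2 hj)
      · simpa using h2 b (Finset.mem_toRight.2 hj)
  rw [hpre, Measure.prod_prod, infinitePi_pi _ (fun a _ => ht _), infinitePi_pi _ (fun a _ => ht _),
    Finset.prod_map]
  conv_rhs => rw [← Finset.toLeft_disjSum_toRight (u := u)]
  rw [Finset.prod_disjSum]
  rfl

lemma glue_measurePreserving (e : ι₁ ⊕ ι₂ ≃ ι) :
    MeasurePreserving (glue e)
      ((infinitePi fun _ : ι₁ => μ).prod (infinitePi fun _ : ι₂ => μ))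
      (infinitePi fun _ : ι => μ) :=
  ⟨measurable_glue e, glue_map μ e⟩

end glue

/-- swapping the two middle factors preserves measures -/
lemma measurePreserving_middle {A B C D : Type*} [MeasurableSpace A] [MeasurableSpace B]
    [MeasurableSpace C] [MeasurableSpace D] (a : Measure A) (b : Measure B) (c : Measure C)
    (d : Measure D) [IsProbabilityMeasure a] [IsProbabilityMeasure b] [IsProbabilityMeasure c]
    [IsProbabilityMeasure d] :
    MeasurePreserving (fun q : (A × B) × (C × D) => ((q.1.1, q.2.1), (q.1.2, q.2.2)))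
      ((a.prod b).prod (c.prod d)) ((a.prod c).prod (b.prod d)) := by
  have h1 : MeasurePreserving (MeasurableEquiv.prodAssoc : (A × B) × (C × D) ≃ᵐ _)
      ((a.prod b).prod (c.prod d)) (a.prod (b.prod (c.prod d))) :=
    measurePreserving_prodAssoc a b (c.prod d)
  have h2 : MeasurePreserving (MeasurableEquiv.prodAssoc : (B × C) × D ≃ᵐ _)
      ((b.prod c).prod d) (b.prod (c.prod d)) := measurePreserving_prodAssoc b c d
  have h2' := h2.symm
  have h3 : MeasurePreserving (Prod.map (Prod.swap : B × C → C × B) (id : D → D))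
      ((b.prod c).prod d) ((c.prod b).prod d) :=
    (measurePreserving_swap).prod (MeasurePreserving.id d)
  have h4 : MeasurePreserving (MeasurableEquiv.prodAssoc : (C × B) × D ≃ᵐ _)
      ((c.prod b).prod d) (c.prod (b.prod d)) := measurePreserving_prodAssoc c b d
  have h5 := (MeasurePreserving.id a).prod (h4.comp (h3.comp h2'))
  have h6 : MeasurePreserving (MeasurableEquiv.prodAssoc : (A × C) × (B × D) ≃ᵐ _)
      ((a.prod c).prod (b.prod d)) (a.prod (c.prod (b.prod d))) :=
    measurePreserving_prodAssoc a c (b.prod d)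
  have h7 := (h6.symm).comp (h5.comp h1)
  exact h7

end Pool.Agent.helper885_ct
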