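import Pool.Agent.helper885_ct.Meas

/-!
Rotation invariance of the level chain.
-/

set_option linter.unusedSectionVars false

namespace Pool.Agent.helper885_ct

open MeasureTheory Set Measure
open scoped ENNReal

lemma rtg_map {V W : Type*} {r : V → V → Prop} {q : W → W → Prop} (f : V → W)
    (h : ∀ a b, r a b → q (f a) (f b)) {a b : V} (hab : Relation.ReflTransGen r a b) :
    Relation.ReflTransGen q (f a) (f b) := by
  induction hab with
  | refl => exact Relation.ReflTransGen.refl
  | tail _ h2 ih => exact ih.tail (h _ _ h2)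

/-- rotation by `t` of `[0, m)` -/
def rotE (m t : ℕ) : ℕ ≃ ℕ where
  toFun j := if j < m then (if j + t % m < m then j + t % m else j + t % m - m) else j
  invFun j := if j < m then (if t % m ≤ j then j - t % m else j + m - t % m) else j
  left_inv j := by
    by_cases hj : j < m
    · have hr : t % m < m := Nat.mod_lt _ (by omega)
      generalize t % m = r at *
      simp only
      split_ifs <;> omega
    · simp [hj]
  right_inv j := by
    by_cases hj : j < m
    · have hr : t % m < m := Nat.mod_lt _ (by omega)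
      generalize t % m = r at *
      simp only
      split_ifs <;> omega
    · simp [hj]

lemma rotE_apply {m t j : ℕ} (hj : j < m) : rotE m t j = (j + t) % m := by
  have hr : t % m < m := Nat.mod_lt _ (by omega)
  have h1 : (j + t) % m = (j + t % m) % m := by simp
  rw [h1]
  change (if j < m then (if j + t % m < m then j + t % m else j + t % m - m) else j) = _
  generalize t % m = r at *
  rw [if_pos hj]
  split_ifs with h
  · rw [Nat.mod_eq_of_lt h]
  · rw [Nat.mod_eq_sub_mod (by omega), Nat.mod_eq_of_lt (by omega)]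

lemma rotE_lt {m t j : ℕ} : rotE m t j < m ↔ j < m := by
  constructor
  · intro h
    by_contra hj
    have : rotE m t j = j := if_neg hj
    omega
  · intro h
    rw [rotE_apply h]
    exact Nat.mod_lt _ (by omega)

lemma rotE_symm_lt {m t j : ℕ} : (rotE m t).symm j < m ↔ j < m := by
  rw [← rotE_lt (m := m) (t := t), Equiv.apply_symm_apply]

/-- permutation of the edges of a row -/
def tauE (ρ σ : ℕ ≃ ℕ) : REdge ≃ REdge := Equiv.sumCongr (ρ.prodCongr (Equiv.refl ℕ)) σ

/-- the rotated row -/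
def rowRot (k : ℕ) (x : Row) : Row :=
  (fun i => x.1 ((rotE k 1).symm i),
    fun e => x.2 ((tauE (rotE k 1) (rotE (rS x k) (x.1 (k - 1)))).symm e))

lemma measurable_rowRot (k : ℕ) : Measurable (rowRot k) := by
  refine Measurable.prodMk (by fun_prop) (measurable_pi_lambda _ fun e => ?_)
  rcases e with ⟨i, c⟩ | j
  · have : Measurable (fun x : Row => x.2 (Sum.inl ((rotE k 1).symm i, c))) := by fun_prop
    exact this
  · have h1 : Measurable (fun q : ℕ × Row => q.2.2 (Sum.inr q.1)) :=
      measurable_from_prod_countable_right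
        (fun i => (measurable_pi_apply (Sum.inr i)).comp measurable_snd)
    have h2 : Measurable (fun x : Row => (rotE (rS x k) (x.1 (k - 1))).symm j) := by
      have h3 : Measurable (fun x : Row => (rS x k, x.1 (k - 1))) :=
        (measurable_rS k).prodMk (by fun_prop)
      exact (Measurable.of_discrete (f := fun q : ℕ × ℕ => (rotE q.1 q.2).symm j)).comp h3
    exact h1.comp (h2.prodMk measurable_id)

lemma map_perm {ι X : Type*} [MeasurableSpace X] (μ : Measure X) [IsProbabilityMeasure μ]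
    (e : ι ≃ ι) {F : (ι → X) → ℝ≥0∞} (hF : Measurable F) :
    ∫⁻ f, F (fun i => f (e i)) ∂(infinitePi fun _ : ι => μ) =
      ∫⁻ f, F f ∂(infinitePi fun _ : ι => μ) := by
  have h := map_infinitePi_infinitePi_of_inj (P := fun _ : ι => μ) e.injective
  conv_rhs => rw [← h]
  rw [lintegral_map hF (by fun_prop)]

variable {α : ℝ} [hα : Fact (0 < α ∧ α < 1)]

lemma lintegral_rowRot (k : ℕ) {F : Row → ℝ≥0∞} (hF : Measurable F) :
    ∫⁻ x, F (rowRot k x) ∂rowLaw α = ∫⁻ x, F x ∂rowLaw α := by
  unfold rowLaw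
  have hm : Measurable (fun x => F (rowRot k x)) := hF.comp (measurable_rowRot k)
  rw [lintegral_prod _ hm.aemeasurable, lintegral_prod _ hF.aemeasurable]
  have h1 : ∀ ξ : ℕ → ℕ, ∫⁻ u, F (rowRot k (ξ, u)) ∂(infinitePi fun _ : REdge => unifLaw) =
      ∫⁻ u, F (fun i => ξ ((rotE k 1).symm i), u) ∂(infinitePi fun _ : REdge => unifLaw) := by
    intro ξ
    have hF' : Measurable (fun u : REdge → ℝ => F (fun i => ξ ((rotE k 1).symm i), u)) :=
      hF.comp (measurable_const.prodMk measurable_id)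
    rw [← map_perm unifLaw
      (tauE (rotE k 1) (rotE (∑ j ∈ Finset.range k, ξ j) (ξ (k - 1)))).symm hF']
    rfl
  simp_rw [h1]
  have hG : Measurable (fun ξ : ℕ → ℕ =>
      ∫⁻ u, F (ξ, u) ∂(infinitePi fun _ : REdge => unifLaw)) := hF.lintegral_prod_right'
  exact map_perm (geomLaw α) (rotE k 1).symm hG

section equivariance

variable {p : ℝ} {k : ℕ} {x : Row}

lemma rS_succ (x : Row) (i : ℕ) : rS x (i + 1) = rS x i + x.1 i := by
  simp [rS, Finset.sum_range_succ]

lemma rS_mono (x : Row) : Monotone (rS x) :=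
  monotone_nat_of_le_succ fun i => by rw [rS_succ]; omega

lemma rowRot_xi (i : ℕ) : (rowRot k x).1 ((rotE k 1) i) = x.1 i := by
  simp [rowRot]

lemma rowRot_up (i c : ℕ) :
    (rowRot k x).2 (Sum.inl ((rotE k 1) i, c)) = x.2 (Sum.inl (i, c)) := by
  simp [rowRot, tauE]

lemma rowRot_hor (j : ℕ) :
    (rowRot k x).2 (Sum.inr ((rotE (rS x k) (x.1 (k - 1))) j)) = x.2 (Sum.inr j) := by
  simp [rowRot, tauE]

lemma rS_rowRot_k : rS (rowRot k x) k = rS x k := by
  unfold rS
  refine (Finset.sum_bij (fun i _ => rotE k 1 i) ?_ ?_ ?_ ?_).symm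
  · intro i hi
    rw [Finset.mem_range] at hi ⊢
    exact rotE_lt.2 hi
  · intro a _ b _ h
    exact (rotE k 1).injective h
  · intro b hb
    refine ⟨(rotE k 1).symm b, ?_, by simp⟩
    rw [Finset.mem_range] at hb ⊢
    exact rotE_symm_lt.2 hb
  · intro i _
    exact (rowRot_xi i).symm

lemma rotE_one_of_lt {i : ℕ} (h : i + 1 < k) : rotE k 1 i = i + 1 := by
  rw [rotE_apply (by omega), Nat.mod_eq_of_lt h]

lemma rotE_one_last (h : 0 < k) : rotE k 1 (k - 1) = 0 := by
  rw [rotE_apply (by omega)]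
  have : k - 1 + 1 = k := by omega
  rw [this, Nat.mod_self]

lemma rS_rowRot_succ {i : ℕ} (h : i + 1 ≤ k) :
    rS (rowRot k x) (i + 1) = x.1 (k - 1) + rS x i := by
  induction i with
  | zero =>
    rw [rS_succ]
    have h1 : (rowRot k x).1 0 = x.1 (k - 1) := by
      rw [← rotE_one_last (k := k) (by omega), rowRot_xi]
    simp [rS, h1]
  | succ i ih =>
    rw [rS_succ, ih (by omega), rS_succ]
    have h1 : (rowRot k x).1 (i + 1) = x.1 i := by
      rw [← rotE_one_of_lt (k := k) (i := i) (by omega), rowRot_xi]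
    rw [h1]
    ring

/-- positions rotate -/
lemma rS_rot {i : ℕ} (hi : i < k) (c : ℕ) :
    (rS (rowRot k x) (rotE k 1 i) + c) % rS x k =
      ((rS x i + c) % rS x k + x.1 (k - 1)) % rS x k := by
  rw [Nat.mod_add_mod]
  by_cases h : i + 1 < k
  · rw [rotE_one_of_lt h, rS_rowRot_succ (by omega)]
    congr 1
    ring
  · have h2 : i = k - 1 := by omega
    subst h2
    rw [rotE_one_last (by omega)]
    have h3 : rS x (k - 1) + x.1 (k - 1) = rS x k := by
      rw [← rS_succ]
      congr 1
      omega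
    have h4 : rS x (k - 1) + c + x.1 (k - 1) = c + rS x k := by omega
    rw [h4, Nat.add_mod_right]
    simp [rS]

lemma direct_rot {A : Finset ℕ} (hA : ∀ i ∈ A, i < k) (j : ℕ) :
    direct p (rowRot k x) ⟨k, A.image (rotE k 1)⟩ (rotE (rS x k) (x.1 (k - 1)) j) ↔
      direct p x ⟨k, A⟩ j := by
  unfold direct
  simp only [rS_rowRot_k]
  constructor
  · rintro ⟨h1, i', hi', hik', c, hc, hp, hj⟩
    obtain ⟨i, hi, rfl⟩ := Finset.mem_image.1 hi'
    have hik := hA i hi
    rw [rotE_lt] at h1
    refine ⟨h1, i, hi, hik, c, ?_, ?_, ?_⟩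
    · rwa [rowRot_xi] at hc
    · rwa [rowRot_up] at hp
    · rw [rS_rot hik] at hj
      have h2 : (rS x i + c) % rS x k < rS x k := Nat.mod_lt _ (by omega)
      rw [← rotE_apply h2] at hj
      exact (rotE _ _).injective hj
  · rintro ⟨h1, i, hi, hik, c, hc, hp, hj⟩
    refine ⟨rotE_lt.2 h1, rotE k 1 i, Finset.mem_image_of_mem _ hi, rotE_lt.2 hik, c, ?_, ?_, ?_⟩
    · rwa [rowRot_xi]
    · rwa [rowRot_up]
    · rw [rS_rot hik]
      have h2 : (rS x i + c) % rS x k < rS x k := Nat.mod_lt _ (by omega)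
      rw [← rotE_apply h2, hj]

lemma hnext_rot (a b : ℕ) :
    hnext p (rowRot k x) (rS x k) (rotE (rS x k) (x.1 (k - 1)) a)
      (rotE (rS x k) (x.1 (k - 1)) b) ↔ hnext p x (rS x k) a b := by
  unfold hnext
  rw [rotE_lt, rowRot_hor]
  refine and_congr_right fun ha => and_congr_left fun _ => ?_
  have h1 : (a + 1) % rS x k < rS x k := Nat.mod_lt _ (by omega)
  have h2 : (rotE (rS x k) (x.1 (k - 1)) a + 1) % rS x k =
      rotE (rS x k) (x.1 (k - 1)) ((a + 1) % rS x k) := by
    rw [rotE_apply ha, rotE_apply h1]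
    simp only [Nat.mod_add_mod]
    congr 1
    ring
  rw [h2]
  exact (rotE _ _).injective.eq_iff

lemma hadj_rot (a b : ℕ) :
    hadj p (rowRot k x) (rS x k) (rotE (rS x k) (x.1 (k - 1)) a)
      (rotE (rS x k) (x.1 (k - 1)) b) ↔ hadj p x (rS x k) a b :=
  or_congr (hnext_rot a b) (hnext_rot b a)

lemma nxt_rot {A : Finset ℕ} (hA : ∀ i ∈ A, i < k) :
    nxt p (rowRot k x) ⟨k, A.image (rotE k 1)⟩ =
      ⟨rS x k, (nxt p x ⟨k, A⟩).A.image (rotE (rS x k) (x.1 (k - 1)))⟩ := by
  have key : (nxt p (rowRot k x) ⟨k, A.image (rotE k 1)⟩).A =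
      (nxt p x ⟨k, A⟩).A.image (rotE (rS x k) (x.1 (k - 1))) := by
    set σ := rotE (rS x k) (x.1 (k - 1)) with hσ
    ext j'
    obtain ⟨j, rfl⟩ := σ.surjective j'
    rw [Function.Injective.mem_finset_image σ.injective, mem_nxt, mem_nxt]
    simp only [rS_rowRot_k]
    rw [hσ, rotE_lt, ← hσ]
    refine and_congr_right fun hj => ?_
    constructor
    · rintro ⟨d', hd', hpath⟩
      obtain ⟨d, rfl⟩ := σ.surjective d'
      refine ⟨d, (direct_rot hA d).1 hd', ?_⟩
      have := rtg_map (r := hadj p (rowRot k x) (rS x k))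
        (q := hadj p x (rS x k)) σ.symm (fun a b hab => by
          rw [← hadj_rot]
          simpa [hσ] using hab) hpath
      simpa using this
    · rintro ⟨d, hd, hpath⟩
      refine ⟨σ d, (direct_rot hA d).2 hd, ?_⟩
      exact rtg_map (r := hadj p x (rS x k))
        (q := hadj p (rowRot k x) (rS x k)) σ (fun a b hab => (hadj_rot a b).2 hab) hpath
  have hk : (nxt p (rowRot k x) ⟨k, A.image (rotE k 1)⟩).k = rS x k := by
    rw [nxt_k, rS_rowRot_k]
  cases h : nxt p (rowRot k x) ⟨k, A.image (rotE k 1)⟩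
  simp_all

end equivariance

lemma nxt_lt {p : ℝ} {x : Row} {s : St} {j : ℕ} (h : j ∈ (nxt p x s).A) : j < (nxt p x s).k :=
  (mem_nxt.1 h).1

lemma rotE_zero (m : ℕ) : ∀ j, rotE m 0 j = j := by
  intro j
  by_cases hj : j < m
  · rw [rotE_apply hj, add_zero, Nat.mod_eq_of_lt hj]
  · exact if_neg hj

lemma Un_rot (p : ℝ) (n : ℕ) {k : ℕ} (t : ℕ) {A : Finset ℕ} (hA : ∀ i ∈ A, i < k) :
    Un α (nxt p) n ⟨k, A.image (rotE k t)⟩ = Un α (nxt p) n ⟨k, A⟩ := by
  induction n generalizing k t A with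
  | zero =>
    unfold Un
    simp
  | succ n ih =>
    have h1 : ∀ A : Finset ℕ, (∀ i ∈ A, i < k) →
        Un α (nxt p) (n + 1) ⟨k, A.image (rotE k 1)⟩ = Un α (nxt p) (n + 1) ⟨k, A⟩ := by
      intro A hA
      rw [Un_succ (good_nxt p), Un_succ (good_nxt p),
        ← lintegral_rowRot k (measurable_Un_T (good_nxt p) n ⟨k, A.image (rotE k 1)⟩)]
      refine lintegral_congr fun x => ?_
      rw [nxt_rot hA]
      exact ih (k := rS x k) _ (A := (nxt p x ⟨k, A⟩).A) (fun i hi => nxt_lt hi)
    induction t with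
    | zero =>
      have : A.image (rotE k 0) = A := by
        ext j
        simp [rotE_zero]
      rw [this]
    | succ t iht =>
      have h2 : A.image (rotE k (t + 1)) = (A.image (rotE k t)).image (rotE k 1) := by
        rw [Finset.image_image]
        refine Finset.image_congr fun j hj => ?_
        have hj' : j < k := hA j hj
        have h3 : (j + t) % k < k := Nat.mod_lt _ (by omega)
        simp only [Function.comp]
        rw [rotE_apply hj', rotE_apply hj', rotE_apply h3, Nat.mod_add_mod, add_assoc]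
      rw [h2, h1 _ ?_, iht]
      intro i hi
      obtain ⟨j, hj, rfl⟩ := Finset.mem_image.1 hi
      exact rotE_lt.2 (hA j hj)

lemma Un_single (p : ℝ) (n : ℕ) {k i j : ℕ} (hi : i < k) (hj : j < k) :
    Un α (nxt p) n ⟨k, {i}⟩ = Un α (nxt p) n ⟨k, {j}⟩ := by
  rw [← Un_rot p n (k := k) (j + (k - i)) (A := {i}) (by simpa using hi)]
  congr 2
  rw [Finset.image_singleton, rotE_apply hi]
  have : i + (j + (k - i)) = j + k := by omega
  rw [this, Nat.add_mod_right, Nat.mod_eq_of_lt hj]

lemma Ui_single (p : ℝ) {k i j : ℕ} (hi : i < k) (hj : j < k) :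
    Ui α (nxt p) ⟨k, {i}⟩ = Ui α (nxt p) ⟨k, {j}⟩ := by
  rw [Ui_eq_iInf (good_nxt p), Ui_eq_iInf (good_nxt p)]
  exact iInf_congr fun n => Un_single p n hi hj

end Pool.Agent.helper885_ct
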