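import Pool.Agent.helper885_ct.Prob

/-!
Rows, the one-row transition and the level chain.
-/

namespace Pool.Agent.helper885_ct

open MeasureTheory Set Measure
open scoped ENNReal

/-- edges of one row -/
abbrev REdge := (ℕ × ℕ) ⊕ ℕ

/-- one row: offspring numbers and labels -/
abbrev Row := (ℕ → ℕ) × (REdge → ℝ)

/-- the law of a row -/
noncomputable def rowLaw (α : ℝ) : Measure Row :=
  (Measure.infinitePi fun _ : ℕ => geomLaw α).prod (Measure.infinitePi fun _ : REdge => unifLaw)

/-- index splitting for offspring numbers -/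
def eX : ℕ ⊕ (ℕ × ℕ) ≃ ℕ × ℕ where
  toFun := fun x => match x with
    | Sum.inl i => (0, i)
    | Sum.inr (r, i) => (r + 1, i)
  invFun := fun x => match x with
    | (0, i) => Sum.inl i
    | (r + 1, i) => Sum.inr (r, i)
  left_inv := by rintro (i | ⟨r, i⟩) <;> rfl
  right_inv := by rintro ⟨_ | r, i⟩ <;> rfl

/-- index splitting for labels -/
def eU : REdge ⊕ Edge ≃ Edge where
  toFun := fun x => match x with
    | Sum.inl (Sum.inl (i, k)) => Sum.inl (0, i, k)
    | Sum.inl (Sum.inr i) => Sum.inr (0, i)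
    | Sum.inr (Sum.inl (r, i, k)) => Sum.inl (r + 1, i, k)
    | Sum.inr (Sum.inr (r, i)) => Sum.inr (r + 1, i)
  invFun := fun x => match x with
    | Sum.inl (0, i, k) => Sum.inl (Sum.inl (i, k))
    | Sum.inr (0, i) => Sum.inl (Sum.inr i)
    | Sum.inl (r + 1, i, k) => Sum.inr (Sum.inl (r, i, k))
    | Sum.inr (r + 1, i) => Sum.inr (Sum.inr (r, i))
  left_inv := by rintro ((⟨i, k⟩ | i) | (⟨r, i, k⟩ | ⟨r, i⟩)) <;> rfl
  right_inv := by rintro (⟨_ | r, i, k⟩ | ⟨_ | r, i⟩) <;> rfl

/-- put a row below a configuration -/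
def cons (x : Row) (ω : Cfg) : Cfg := (glue eX (x.1, ω.1), glue eU (x.2, ω.2))

@[simp] lemma cons_xi_zero (x : Row) (ω : Cfg) (i : ℕ) : (cons x ω).1 (0, i) = x.1 i := rfl
@[simp] lemma cons_xi_succ (x : Row) (ω : Cfg) (r i : ℕ) :
    (cons x ω).1 (r + 1, i) = ω.1 (r, i) := rfl
@[simp] lemma cons_up_zero (x : Row) (ω : Cfg) (i k : ℕ) :
    (cons x ω).2 (Sum.inl (0, i, k)) = x.2 (Sum.inl (i, k)) := rfl
@[simp] lemma cons_up_succ (x : Row) (ω : Cfg) (r i k : ℕ) :
    (cons x ω).2 (Sum.inl (r + 1, i, k)) = ω.2 (Sum.inl (r, i, k)) := rfl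
@[simp] lemma cons_hor_zero (x : Row) (ω : Cfg) (i : ℕ) :
    (cons x ω).2 (Sum.inr (0, i)) = x.2 (Sum.inr i) := rfl
@[simp] lemma cons_hor_succ (x : Row) (ω : Cfg) (r i : ℕ) :
    (cons x ω).2 (Sum.inr (r + 1, i)) = ω.2 (Sum.inr (r, i)) := rfl

/-- the lowest row -/
def head (ω : Cfg) : Row := (fun i => ω.1 (0, i), fun e => ω.2 (eU (Sum.inl e)))

/-- the configuration without its lowest row -/
def tail (ω : Cfg) : Cfg := (fun v => ω.1 (v.1 + 1, v.2), fun e => ω.2 (eU (Sum.inr e)))

@[simp] lemma head_cons (x : Row) (ω : Cfg) : head (cons x ω) = x := by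
  refine Prod.ext rfl ?_
  funext e
  rcases e with ⟨i, k⟩ | i <;> rfl

@[simp] lemma tail_cons (x : Row) (ω : Cfg) : tail (cons x ω) = ω := by
  refine Prod.ext rfl ?_
  funext e
  rcases e with ⟨r, i, k⟩ | ⟨r, i⟩ <;> rfl

lemma measurable_head : Measurable head := by
  unfold head
  fun_prop

lemma measurable_tail : Measurable tail := by
  unfold tail
  fun_prop

lemma measurable_cons : Measurable (fun q : Row × Cfg => cons q.1 q.2) := by
  unfold cons
  have h1 : Measurable (fun q : Row × Cfg => (q.1.1, q.2.1)) := by fun_prop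
  have h2 : Measurable (fun q : Row × Cfg => (q.1.2, q.2.2)) := by fun_prop
  exact ((measurable_glue eX).comp h1).prodMk ((measurable_glue eU).comp h2)

variable {α : ℝ} [hα : Fact (0 < α ∧ α < 1)]

instance isProb_geomLaw' : IsProbabilityMeasure (geomLaw α) :=
  isProb_geomLaw hα.out.1.le hα.out.2

instance isProb_rowLaw : IsProbabilityMeasure (rowLaw α) := by
  unfold rowLaw; infer_instance

instance isProb_cfgLaw : IsProbabilityMeasure (cfgLaw α) := by
  unfold cfgLaw; infer_instance

lemma cons_measurePreserving :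
    MeasurePreserving (fun q : Row × Cfg => cons q.1 q.2) ((rowLaw α).prod (cfgLaw α))
      (cfgLaw α) := by
  have h1 := measurePreserving_middle (Measure.infinitePi fun _ : ℕ => geomLaw α)
    (Measure.infinitePi fun _ : REdge => unifLaw) (Measure.infinitePi fun _ : ℕ × ℕ => geomLaw α)
    (Measure.infinitePi fun _ : Edge => unifLaw)
  have h2 := (glue_measurePreserving (geomLaw α) eX).prod (glue_measurePreserving unifLaw eU)
  exact h2.comp h1

lemma lintegral_cons {f : Cfg → ℝ≥0∞} (hf : Measurable f) :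
    ∫⁻ ω, f ω ∂cfgLaw α = ∫⁻ x, ∫⁻ ω, f (cons x ω) ∂cfgLaw α ∂rowLaw α := by
  rw [← (cons_measurePreserving (α := α)).lintegral_comp hf]
  exact lintegral_prod _ (hf.comp measurable_cons).aemeasurable

lemma measure_cons {E : Set Cfg} (hE : MeasurableSet E) :
    cfgLaw α E = ∫⁻ x, cfgLaw α {ω | cons x ω ∈ E} ∂rowLaw α := by
  rw [← lintegral_indicator_one hE, lintegral_cons (measurable_one.indicator hE)]
  refine lintegral_congr fun x => ?_
  have hm : Measurable (fun ω : Cfg => cons x ω) :=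
    measurable_cons.comp (measurable_const.prodMk measurable_id)
  have : MeasurableSet {ω | cons x ω ∈ E} := hm hE
  rw [← lintegral_indicator_one this]
  rfl

/-- states of the level chain: number of vertices and set of reached vertices -/
structure St where
  /-- number of vertices -/
  k : ℕ
  /-- reached vertices -/
  A : Finset ℕ
  deriving DecidableEq

instance : Countable St := by
  have : Function.Injective (fun s : St => (s.k, s.A)) := by
    rintro ⟨a, b⟩ ⟨c, d⟩ h
    simp only [Prod.mk.injEq] at h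
    simp [h.1, h.2]
  exact this.countable

instance : MeasurableSpace St := ⊤

instance : DiscreteMeasurableSpace St := ⟨fun _ => trivial⟩

/-- partial sums of the offspring numbers -/
def rS (x : Row) (i : ℕ) : ℕ := ∑ j ∈ Finset.range i, x.1 j

/-- directly reached vertices -/
def direct (p : ℝ) (x : Row) (s : St) (j : ℕ) : Prop :=
  j < rS x s.k ∧ ∃ i ∈ s.A, i < s.k ∧ ∃ c ≤ x.1 i, x.2 (Sum.inl (i, c)) < p ∧
    j = (rS x i + c) % rS x s.k

/-- open horizontal edge to the next vertex -/
def hnext (p : ℝ) (x : Row) (m a b : ℕ) : Prop := a < m ∧ b = (a + 1) % m ∧ x.2 (Sum.inr a) < p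

/-- open horizontal edge -/
def hadj (p : ℝ) (x : Row) (m a b : ℕ) : Prop := hnext p x m a b ∨ hnext p x m b a

open Classical in
/-- the one-row transition -/
noncomputable def nxt (p : ℝ) (x : Row) (s : St) : St :=
  ⟨rS x s.k, (Finset.range (rS x s.k)).filter fun j =>
    ∃ d, direct p x s d ∧ Relation.ReflTransGen (hadj p x (rS x s.k)) d j⟩

lemma nxt_k (p : ℝ) (x : Row) (s : St) : (nxt p x s).k = rS x s.k := rfl

lemma mem_nxt {p : ℝ} {x : Row} {s : St} {j : ℕ} : j ∈ (nxt p x s).A ↔ j < rS x s.k ∧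
    ∃ d, direct p x s d ∧ Relation.ReflTransGen (hadj p x (rS x s.k)) d j := by
  classical
  simp [nxt]

lemma nxt_empty (p : ℝ) (x : Row) (k : ℕ) : nxt p x ⟨k, ∅⟩ = ⟨rS x k, ∅⟩ := by
  have h : (nxt p x ⟨k, ∅⟩).A = ∅ := by
    ext j
    rw [mem_nxt]
    simp [direct]
  have h2 := nxt_k p x ⟨k, ∅⟩
  cases h3 : nxt p x ⟨k, ∅⟩
  simp_all

/-- iteration of a one-row transition, `n` rows -/
def run (T : Row → St → St) : ℕ → Cfg → St → St
  | 0, _, s => s
  | n + 1, ω, s => run T n (tail ω) (T (head ω) s)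

@[simp] lemma run_zero (T : Row → St → St) (ω : Cfg) (s : St) : run T 0 ω s = s := rfl
lemma run_succ (T : Row → St → St) (n : ℕ) (ω : Cfg) (s : St) :
    run T (n + 1) ω s = run T n (tail ω) (T (head ω) s) := rfl
@[simp] lemma run_succ_cons (T : Row → St → St) (n : ℕ) (x : Row) (ω : Cfg) (s : St) :
    run T (n + 1) (cons x ω) s = run T n ω (T x s) := by
  rw [run_succ, head_cons, tail_cons]

lemma run_succ' (T : Row → St → St) (n : ℕ) (ω : Cfg) (s : St) :
    run T (n + 1) ω s = T (head (tail^[n] ω)) (run T n ω s) := by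
  induction n generalizing ω s with
  | zero => rfl
  | succ n ih =>
    rw [run_succ, ih, Function.iterate_succ_apply]
    rfl

/-- transitions of level chains -/
structure Good (T : Row → St → St) : Prop where
  meas : ∀ s, Measurable fun x => T x s
  empty : ∀ x s, ¬ s.A.Nonempty → ¬ (T x s).A.Nonempty
  kk : ∀ x s, (T x s).k = rS x s.k

end Pool.Agent.helper885_ct
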