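import Pool.Agent.helper885_ct.Thr

/-!
Reading a row symbol by symbol.
-/

set_option linter.unusedSectionVars false
set_option linter.unusedVariables false

namespace Pool.Agent.helper885_ct

open MeasureTheory Set Measure
open scoped ENNReal

/-- reindexing of labels when passing to the next vertex -/
def bE : REdge → REdge := Sum.elim (fun q => Sum.inl (q.1 + 1, q.2)) Sum.inr

/-- reindexing of labels when passing one upward edge of the first vertex -/
def tE : REdge → REdge :=
  Sum.elim (fun q => if q.1 = 0 then Sum.inl (0, q.2 + 1) else Sum.inl q) (fun j => Sum.inr (j + 1))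

lemma bE_inj : Function.Injective bE := by
  rintro (⟨i, c⟩ | j) (⟨i', c'⟩ | j') h <;> simp_all [bE]

lemma tE_inj : Function.Injective tE := by
  rintro (⟨i, c⟩ | j) (⟨i', c'⟩ | j') h
  · simp only [tE, Sum.elim_inl] at h
    split_ifs at h with h1 h2 h2
    · simp_all
    · simp only [Sum.inl.injEq, Prod.mk.injEq] at h
      omega
    · simp only [Sum.inl.injEq, Prod.mk.injEq] at h
      omega
    · exact h
  · simp only [tE, Sum.elim_inl, Sum.elim_inr] at h
    split_ifs at h
  · simp only [tE, Sum.elim_inl, Sum.elim_inr] at h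
    split_ifs at h
  · simp_all [tE]

/-- the row after the first vertex -/
def sB (x : Row) : Row := (fun i => x.1 (i + 1), fun e => x.2 (bE e))

/-- the row after the first upward edge of the first vertex -/
def sT (x : Row) : Row := (fun i => if i = 0 then x.1 0 - 1 else x.1 i, fun e => x.2 (tE e))

lemma measurable_sB : Measurable sB := by
  unfold sB
  fun_prop

lemma measurable_sT : Measurable sT := by
  unfold sT
  refine Measurable.prodMk (measurable_pi_lambda _ fun i => ?_) (by fun_prop)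
  by_cases h : i = 0
  · simp only [h, if_true]
    exact (measurable_from_top (f := fun n : ℕ => n - 1)).comp
      ((measurable_pi_apply 0).comp measurable_fst)
  · simp only [h, if_false]
    fun_prop

section labels

variable {ι X : Type*} [MeasurableSpace X] [Inhabited X] (μ : Measure X) [IsProbabilityMeasure μ]

lemma lintegral_reindex {κ : Type*} (σ : κ → ι) (hσ : Function.Injective σ)
    {F : (κ → X) → ℝ≥0∞} (hF : Measurable F) :
    ∫⁻ f, F (fun i => f (σ i)) ∂(infinitePi fun _ : ι => μ) =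
      ∫⁻ f, F f ∂(infinitePi fun _ : κ => μ) := by
  have h := map_infinitePi_infinitePi_of_inj (P := fun _ : ι => μ) hσ
  rw [← h, lintegral_map hF (by fun_prop)]

lemma lintegral_ind_mul {E : Set (ι → X)} (hE : MeasurableSet E) {I : Set ι} (hEI : SDep E I)
    {κ : Type*} (σ : κ → ι) (hσ : Function.Injective σ) (hd : Disjoint I (range σ))
    {F : (κ → X) → ℝ≥0∞} (hF : Measurable F) :
    ∫⁻ f, E.indicator (fun _ => 1) f * F (fun i => f (σ i)) ∂(infinitePi fun _ : ι => μ) =
      (infinitePi fun _ : ι => μ) E * ∫⁻ f, F f ∂(infinitePi fun _ : κ => μ) := by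
  have hm : Measurable (fun f : ι → X => F (fun i => f (σ i))) := hF.comp (by fun_prop)
  have hdep : DependsOn (fun f : ι → X => F (fun i => f (σ i))) (range σ) := by
    intro x y hxy
    simp only
    congr 1
    funext i
    exact hxy _ ⟨i, rfl⟩
  rw [lintegral_mul_of_dep' μ hd (measurable_const.indicator hE) hm
    (hEI.indicator 1) hdep, lintegral_reindex μ σ hσ hF,
    lintegral_indicator_const hE, one_mul]

end labels

section twolabels

variable {ι : Type*}

lemma ms_lab (p : ℝ) (e : ι) : MeasurableSet {u : ι → ℝ | u e < p} :=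
  (measurable_pi_apply e : Measurable fun u : ι → ℝ => u e) measurableSet_Iio

lemma sdep_lab (p : ℝ) (e : ι) : SDep {u : ι → ℝ | u e < p} {e} := by
  intro x y h
  simp only [mem_ofPred_eq]
  rw [h e rfl]

lemma meas_lab {p : ℝ} (hp1 : p ≤ 1) (e : ι) :
    (infinitePi fun _ : ι => unifLaw) {u : ι → ℝ | u e < p} = ENNReal.ofReal p := by
  have h := measure_all_coord unifLaw ({e} : Finset ι) {y | y < p} measurableSet_Iio
  have h2 : unifLaw {y | y < p} = ENNReal.ofReal p := unifLaw_lt hp1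
  rw [h2, Finset.card_singleton, pow_one] at h
  rw [← h]
  congr 1
  ext u
  simp

lemma meas_lab_compl {p : ℝ} (hp0 : 0 ≤ p) (e : ι) :
    (infinitePi fun _ : ι => unifLaw) {u : ι → ℝ | u e < p}ᶜ = ENNReal.ofReal (1 - p) := by
  have h := measure_all_coord unifLaw ({e} : Finset ι) {y | p ≤ y} measurableSet_Ici
  have h2 : unifLaw {y | p ≤ y} = ENNReal.ofReal (1 - p) := unifLaw_ge hp0
  rw [h2, Finset.card_singleton, pow_one] at h
  rw [← h]
  congr 1
  ext u
  simp

open Classical in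
lemma lintegral_one_label {p : ℝ} (hp0 : 0 ≤ p) (hp1 : p ≤ 1) (e : ι) {κ : Type*} (σ : κ → ι)
    (hσ : Function.Injective σ) (he : e ∉ range σ) {F : Bool → (κ → ℝ) → ℝ≥0∞}
    (hF : ∀ b, Measurable (F b)) :
    ∫⁻ f, F (decide (f e < p)) (fun i => f (σ i)) ∂(infinitePi fun _ : ι => unifLaw) =
      ENNReal.ofReal p * (∫⁻ f, F true f ∂(infinitePi fun _ : κ => unifLaw)) +
      ENNReal.ofReal (1 - p) * ∫⁻ f, F false f ∂(infinitePi fun _ : κ => unifLaw) := by
  have hd : Disjoint {e} (range σ) := by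
    rw [Set.disjoint_singleton_left]; exact he
  have h1 : ∀ f : ι → ℝ, F (decide (f e < p)) (fun i => f (σ i)) =
      {u : ι → ℝ | u e < p}.indicator (fun _ => 1) f * F true (fun i => f (σ i)) +
      ({u : ι → ℝ | u e < p}ᶜ).indicator (fun _ => 1) f * F false (fun i => f (σ i)) := by
    intro f
    by_cases h : f e < p <;> simp [h]
  simp_rw [h1]
  rw [lintegral_add_left, lintegral_ind_mul unifLaw (ms_lab p e) (sdep_lab p e) σ hσ hd (hF true),
    lintegral_ind_mul unifLaw (ms_lab p e).compl (sdep_lab p e).compl σ hσ hd (hF false),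
    meas_lab hp1, meas_lab_compl hp0]
  exact (measurable_const.indicator (ms_lab p e)).mul ((hF true).comp (by fun_prop))

lemma measurable_dec {Ω : Type*} [MeasurableSpace Ω] {p : ℝ} {g : Ω → ℝ} (hg : Measurable g)
    {F : Bool → Ω → ℝ≥0∞} (hF : ∀ b, Measurable (F b)) :
    Measurable (fun x => F (decide (g x < p)) x) := by
  have : (fun x => F (decide (g x < p)) x) = fun x => if g x < p then F true x else F false x := by
    funext x
    by_cases h : g x < p <;> simp [h]
  rw [this]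
  exact Measurable.ite (hg measurableSet_Iio) (hF true) (hF false)

lemma lintegral_two_label {p : ℝ} (hp0 : 0 ≤ p) (hp1 : p ≤ 1) (e₀ e₁ : ι) (hne : e₁ ≠ e₀)
    {κ : Type*} (σ : κ → ι) (hσ : Function.Injective σ) (he₀ : e₀ ∉ range σ) (he₁ : e₁ ∉ range σ)
    {F : Bool → Bool → (κ → ℝ) → ℝ≥0∞} (hF : ∀ b c, Measurable (F b c)) :
    ∫⁻ f, F (decide (f e₀ < p)) (decide (f e₁ < p)) (fun i => f (σ i))
        ∂(infinitePi fun _ : ι => unifLaw) =
      ENNReal.ofReal p * (ENNReal.ofReal p * (∫⁻ f, F true true f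
          ∂(infinitePi fun _ : κ => unifLaw)) +
        ENNReal.ofReal (1 - p) * ∫⁻ f, F true false f ∂(infinitePi fun _ : κ => unifLaw)) +
      ENNReal.ofReal (1 - p) * (ENNReal.ofReal p * (∫⁻ f, F false true f
          ∂(infinitePi fun _ : κ => unifLaw)) +
        ENNReal.ofReal (1 - p) * ∫⁻ f, F false false f ∂(infinitePi fun _ : κ => unifLaw)) := by
  have h0 : ∀ i, σ i ≠ e₀ := fun i h => he₀ ⟨i, h⟩
  set σ₁ : {e : ι // e ≠ e₀} → ι := Subtype.val with hσ₁
  set σ₂ : κ → {e : ι // e ≠ e₀} := fun i => ⟨σ i, h0 i⟩ with hσ₂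
  set F' : Bool → ({e : ι // e ≠ e₀} → ℝ) → ℝ≥0∞ := fun b v =>
    F b (decide (v ⟨e₁, hne⟩ < p)) (fun i => v (σ₂ i)) with hF'
  have hF'm : ∀ b, Measurable (F' b) := by
    intro b
    exact measurable_dec (g := fun v : {e : ι // e ≠ e₀} → ℝ => v ⟨e₁, hne⟩)
      (measurable_pi_apply _) (F := fun c v => F b c (fun i => v (σ₂ i)))
      (fun c => (hF b c).comp (by fun_prop))
  have h1 := lintegral_one_label hp0 hp1 e₀ σ₁ Subtype.val_injective
    (by rintro ⟨⟨a, ha⟩, h⟩; exact ha h) hF'm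
  have hσ₂i : Function.Injective σ₂ := by
    intro a b hab
    simp only [hσ₂, Subtype.mk.injEq] at hab
    exact hσ hab
  have he₁' : (⟨e₁, hne⟩ : {e : ι // e ≠ e₀}) ∉ range σ₂ := by
    rintro ⟨i, hi⟩
    simp only [hσ₂, Subtype.mk.injEq] at hi
    exact he₁ ⟨i, hi⟩
  have h2 : ∀ b, ∫⁻ v, F' b v ∂(infinitePi fun _ : {e : ι // e ≠ e₀} => unifLaw) =
      ENNReal.ofReal p * (∫⁻ f, F b true f ∂(infinitePi fun _ : κ => unifLaw)) +
      ENNReal.ofReal (1 - p) * ∫⁻ f, F b false f ∂(infinitePi fun _ : κ => unifLaw) := by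
    intro b
    exact lintegral_one_label hp0 hp1 (⟨e₁, hne⟩ : {e : ι // e ≠ e₀}) σ₂ hσ₂i he₁' (hF b)
  rw [h2, h2] at h1
  exact h1

end twolabels

lemma lin2 {Ω : Type*} [MeasurableSpace Ω] (μ : Measure Ω) (P Q : ℝ≥0∞) {a b : Ω → ℝ≥0∞}
    (ha : Measurable a) (hb : Measurable b) :
    ∫⁻ x, (P * a x + Q * b x) ∂μ = P * (∫⁻ x, a x ∂μ) + Q * ∫⁻ x, b x ∂μ := by
  rw [lintegral_add_left (ha.const_mul P), lintegral_const_mul _ ha, lintegral_const_mul _ hb]

lemma lin4 {Ω : Type*} [MeasurableSpace Ω] (μ : Measure Ω) (P Q : ℝ≥0∞) {a b c d : Ω → ℝ≥0∞}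
    (ha : Measurable a) (hb : Measurable b) (hc : Measurable c) (hd : Measurable d) :
    ∫⁻ x, (P * (P * a x + Q * b x) + Q * (P * c x + Q * d x)) ∂μ =
      P * (P * (∫⁻ x, a x ∂μ) + Q * ∫⁻ x, b x ∂μ) +
      Q * (P * (∫⁻ x, c x ∂μ) + Q * ∫⁻ x, d x ∂μ) := by
  have h1 := lin2 μ P Q (a := fun x => P * a x + Q * b x) (b := fun x => P * c x + Q * d x)
    ((ha.const_mul P).add (hb.const_mul Q)) ((hc.const_mul P).add (hd.const_mul Q))
  rw [lin2 μ P Q ha hb, lin2 μ P Q hc hd] at h1
  exact h1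

section geom

variable {α : ℝ} [hα : Fact (0 < α ∧ α < 1)]

/-- put a number in front of a sequence -/
def consN (n : ℕ) (ξ : ℕ → ℕ) (i : ℕ) : ℕ := match i with
  | 0 => n
  | i + 1 => ξ i

/-- one more child for the first vertex -/
def incN (ξ : ℕ → ℕ) (i : ℕ) : ℕ := if i = 0 then ξ 0 + 1 else ξ i

lemma measurable_consN : Measurable (fun q : ℕ × (ℕ → ℕ) => consN q.1 q.2) := by
  refine measurable_pi_lambda _ fun i => ?_
  cases i with
  | zero => exact measurable_fst
  | succ i => exact (measurable_pi_apply i).comp measurable_snd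

lemma measurable_incN : Measurable incN := by
  refine measurable_pi_lambda _ fun i => ?_
  unfold incN
  by_cases h : i = 0
  · simp only [h, if_true]
    exact (measurable_from_top (f := fun n : ℕ => n + 1)).comp (measurable_pi_apply 0)
  · simp only [h, if_false]
    exact measurable_pi_apply i

/-- splitting off the first coordinate -/
def eN : Unit ⊕ ℕ ≃ ℕ where
  toFun := fun x => match x with
    | Sum.inl _ => 0
    | Sum.inr i => i + 1
  invFun := fun i => match i with
    | 0 => Sum.inl ()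
    | i + 1 => Sum.inr i
  left_inv := by rintro (⟨⟩ | i) <;> rfl
  right_inv := by rintro (_ | i) <;> rfl

lemma lintegral_consN {f : (ℕ → ℕ) → ℝ≥0∞} (hf : Measurable f) :
    ∫⁻ ξ, f ξ ∂(infinitePi fun _ : ℕ => geomLaw α) =
      ∫⁻ n, ∫⁻ ξ, f (consN n ξ) ∂(infinitePi fun _ : ℕ => geomLaw α) ∂geomLaw α := by
  have h1 := glue_measurePreserving (geomLaw α) eN
  have h2 : Measurable (fun q : (Unit → ℕ) × (ℕ → ℕ) => f (glue eN q)) := hf.comp h1.measurable
  rw [← h1.lintegral_comp hf, lintegral_prod _ h2.aemeasurable]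
  have h3 : ∀ (g : Unit → ℕ) (ξ : ℕ → ℕ), glue eN (g, ξ) = consN (g ()) ξ := by
    intro g ξ
    funext i
    cases i with
    | zero => rfl
    | succ i => rfl
  simp_rw [h3]
  have hH : Measurable (fun n : ℕ =>
      ∫⁻ ξ, f (consN n ξ) ∂(infinitePi fun _ : ℕ => geomLaw α)) := measurable_from_top
  exact (measurePreserving_eval_infinitePi (fun _ : Unit => geomLaw α) ()).lintegral_comp hH

lemma lintegral_geomLaw_split (f : ℕ → ℝ≥0∞) :
    ∫⁻ n, f n ∂geomLaw α = ENNReal.ofReal (1 - α) * f 0 +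
      ENNReal.ofReal α * ∫⁻ n, f (n + 1) ∂geomLaw α := by
  have hα0 := hα.out.1
  have hα1 := hα.out.2
  rw [lintegral_geomLaw, lintegral_geomLaw, tsum_eq_zero_add' ENNReal.summable, pow_zero, one_mul,
    ← ENNReal.tsum_mul_left]
  congr 1
  refine tsum_congr fun k => ?_
  rw [← mul_assoc, ← ENNReal.ofReal_mul hα0.le]
  congr 2
  ring

lemma lintegral_geom_seq {f : (ℕ → ℕ) → ℝ≥0∞} (hf : Measurable f) :
    ∫⁻ ξ, f ξ ∂(infinitePi fun _ : ℕ => geomLaw α) =
      ENNReal.ofReal (1 - α) * (∫⁻ ξ, f (consN 0 ξ) ∂(infinitePi fun _ : ℕ => geomLaw α)) +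
      ENNReal.ofReal α * ∫⁻ ξ, f (incN ξ) ∂(infinitePi fun _ : ℕ => geomLaw α) := by
  rw [lintegral_consN hf, lintegral_geomLaw_split]
  congr 2
  rw [lintegral_consN (f := fun ξ => f (incN ξ)) (hf.comp measurable_incN)]
  refine lintegral_congr fun n => lintegral_congr fun ξ => ?_
  congr 1
  funext i
  cases i with
  | zero => rfl
  | succ i => rfl

/-- reading the first symbol of a row -/
lemma lintegral_sym {p : ℝ} (hp0 : 0 ≤ p) (hp1 : p ≤ 1) {FB : Bool → Row → ℝ≥0∞}
    {FT : Bool → Bool → Row → ℝ≥0∞} (hB : ∀ b, Measurable (FB b))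
    (hT : ∀ b c, Measurable (FT b c)) :
    ∫⁻ x, (if x.1 0 = 0 then FB (decide (x.2 (Sum.inl (0, 0)) < p)) (sB x) else
      FT (decide (x.2 (Sum.inl (0, 0)) < p)) (decide (x.2 (Sum.inr 0) < p)) (sT x)) ∂rowLaw α =
    ENNReal.ofReal (1 - α) * (ENNReal.ofReal p * (∫⁻ x, FB true x ∂rowLaw α) +
      ENNReal.ofReal (1 - p) * ∫⁻ x, FB false x ∂rowLaw α) +
    ENNReal.ofReal α * (ENNReal.ofReal p * (ENNReal.ofReal p * (∫⁻ x, FT true true x ∂rowLaw α) +
        ENNReal.ofReal (1 - p) * ∫⁻ x, FT true false x ∂rowLaw α) +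
      ENNReal.ofReal (1 - p) * (ENNReal.ofReal p * (∫⁻ x, FT false true x ∂rowLaw α) +
        ENNReal.ofReal (1 - p) * ∫⁻ x, FT false false x ∂rowLaw α)) := by
  have hmB : Measurable (fun x : Row => FB (decide (x.2 (Sum.inl (0, 0)) < p)) (sB x)) :=
    measurable_dec (g := fun x : Row => x.2 (Sum.inl (0, 0))) (by fun_prop)
      (F := fun b x => FB b (sB x)) (fun b => (hB b).comp measurable_sB)
  have hmT : Measurable (fun x : Row => FT (decide (x.2 (Sum.inl (0, 0)) < p))
      (decide (x.2 (Sum.inr 0) < p)) (sT x)) :=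
    measurable_dec (g := fun x : Row => x.2 (Sum.inl (0, 0))) (by fun_prop)
      (F := fun b x => FT b (decide (x.2 (Sum.inr 0) < p)) (sT x)) (fun b =>
        measurable_dec (g := fun x : Row => x.2 (Sum.inr 0)) (by fun_prop)
          (F := fun c x => FT b c (sT x)) (fun c => (hT b c).comp measurable_sT))
  have hx0 : Measurable (fun x : Row => x.1 0) := by fun_prop
  have hm : Measurable (fun x : Row => if x.1 0 = 0 then
      FB (decide (x.2 (Sum.inl (0, 0)) < p)) (sB x) else
      FT (decide (x.2 (Sum.inl (0, 0)) < p)) (decide (x.2 (Sum.inr 0) < p)) (sT x)) :=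
    Measurable.ite (ms1 hx0 (fun n => n = 0)) hmB hmT
  unfold rowLaw
  rw [lintegral_prod _ hm.aemeasurable]
  have hf : Measurable (fun ξ : ℕ → ℕ => ∫⁻ u, (if ξ 0 = 0 then
      FB (decide (u (Sum.inl (0, 0)) < p)) (sB (ξ, u)) else
      FT (decide (u (Sum.inl (0, 0)) < p)) (decide (u (Sum.inr 0) < p)) (sT (ξ, u)))
      ∂(infinitePi fun _ : REdge => unifLaw)) := hm.lintegral_prod_right'
  have hsplit := lintegral_geom_seq (α := α) hf
  have e1 : ∀ ξ : ℕ → ℕ, ∫⁻ u, (if consN 0 ξ 0 = 0 then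
      FB (decide (u (Sum.inl (0, 0)) < p)) (sB (consN 0 ξ, u)) else
      FT (decide (u (Sum.inl (0, 0)) < p)) (decide (u (Sum.inr 0) < p)) (sT (consN 0 ξ, u)))
      ∂(infinitePi fun _ : REdge => unifLaw) =
      ENNReal.ofReal p * (∫⁻ u, FB true (ξ, u) ∂(infinitePi fun _ : REdge => unifLaw)) +
      ENNReal.ofReal (1 - p) * ∫⁻ u, FB false (ξ, u) ∂(infinitePi fun _ : REdge => unifLaw) := by
    intro ξ
    have h0 : consN 0 ξ 0 = 0 := rfl
    simp only [h0, if_true]
    refine lintegral_one_label hp0 hp1 (Sum.inl (0, 0) : REdge) bE bE_inj ?_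
      (F := fun b u => FB b (ξ, u)) (fun b => (hB b).comp (measurable_const.prodMk measurable_id))
    rintro ⟨(⟨i, c⟩ | j), h⟩ <;> simp [bE] at h
  have e2 : ∀ ξ : ℕ → ℕ, ∫⁻ u, (if incN ξ 0 = 0 then
      FB (decide (u (Sum.inl (0, 0)) < p)) (sB (incN ξ, u)) else
      FT (decide (u (Sum.inl (0, 0)) < p)) (decide (u (Sum.inr 0) < p)) (sT (incN ξ, u)))
      ∂(infinitePi fun _ : REdge => unifLaw) =
      ENNReal.ofReal p * (ENNReal.ofReal p * (∫⁻ u, FT true true (ξ, u)
          ∂(infinitePi fun _ : REdge => unifLaw)) +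
        ENNReal.ofReal (1 - p) * ∫⁻ u, FT true false (ξ, u)
          ∂(infinitePi fun _ : REdge => unifLaw)) +
      ENNReal.ofReal (1 - p) * (ENNReal.ofReal p * (∫⁻ u, FT false true (ξ, u)
          ∂(infinitePi fun _ : REdge => unifLaw)) +
        ENNReal.ofReal (1 - p) * ∫⁻ u, FT false false (ξ, u)
          ∂(infinitePi fun _ : REdge => unifLaw)) := by
    intro ξ
    have h0 : incN ξ 0 ≠ 0 := by simp [incN]
    simp only [h0, if_false]
    have h1 : ∀ u : REdge → ℝ, sT (incN ξ, u) = (ξ, fun e => u (tE e)) := by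
      intro u
      refine Prod.ext ?_ rfl
      funext i
      by_cases h : i = 0
      · subst h; simp [sT, incN]
      · simp [sT, incN, h]
    simp_rw [h1]
    refine lintegral_two_label hp0 hp1 (Sum.inl (0, 0) : REdge) (Sum.inr 0) (by simp) tE tE_inj ?_ ?_
      (F := fun b c u => FT b c (ξ, u))
      (fun b c => (hT b c).comp (measurable_const.prodMk measurable_id))
    · rintro ⟨(⟨i, c⟩ | j), h⟩
      · simp only [tE, Sum.elim_inl] at h
        split_ifs at h with h2
        · simp at h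
        · simp only [Sum.inl.injEq, Prod.mk.injEq] at h
          exact h2 h.1
      · simp [tE] at h
    · rintro ⟨(⟨i, c⟩ | j), h⟩
      · simp only [tE, Sum.elim_inl] at h
        split_ifs at h
      · simp [tE] at h
  rw [hsplit]
  simp_rw [e1, e2]
  have mB : ∀ b, Measurable fun ξ : ℕ → ℕ => ∫⁻ u, FB b (ξ, u)
      ∂(infinitePi fun _ : REdge => unifLaw) := fun b => (hB b).lintegral_prod_right'
  have mT : ∀ b c, Measurable fun ξ : ℕ → ℕ => ∫⁻ u, FT b c (ξ, u)
      ∂(infinitePi fun _ : REdge => unifLaw) := fun b c => (hT b c).lintegral_prod_right'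
  rw [lin2 _ _ _ (mB true) (mB false), lin4 _ _ _ (mT true true) (mT true false) (mT false true)
    (mT false false), lintegral_prod _ (hB true).aemeasurable,
    lintegral_prod _ (hB false).aemeasurable,
    lintegral_prod _ (hT true true).aemeasurable, lintegral_prod _ (hT true false).aemeasurable,
    lintegral_prod _ (hT false true).aemeasurable, lintegral_prod _ (hT false false).aemeasurable]

end geom

end Pool.Agent.helper885_ct
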