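import Pool.Agent.helper885_ct.NonUniq2

/-!
Finite checks.
-/

set_option linter.unusedSectionVars false
set_option linter.unusedVariables false

namespace Pool.Agent.helper885_ct

open MeasureTheory Set Measure
open scoped ENNReal

/-- multiply all gains by `S` -/
def Aut.scale {Q : Type} (M : Aut Q) (S : ℕ) : Aut Q where
  up := fun a o q => ((M.up a o q).1, S * (M.up a o q).2)
  tt := fun h q => ((M.tt h q).1, S * (M.tt h q).2)
  bb := fun a q => ((M.bb a q).1, S * (M.bb a q).2)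

lemma oB_scale {Q : Type} (M : Aut Q) (S : ℕ) (a o : Bool) (q : Q) :
    (M.scale S).oB a o q = ((M.oB a o q).1, S * (M.oB a o q).2) := by
  simp [Aut.oB, Aut.scale, Nat.mul_add]

lemma oT_scale {Q : Type} (M : Aut Q) (S : ℕ) (a o h : Bool) (q : Q) :
    (M.scale S).oT a o h q = ((M.oT a o h q).1, S * (M.oT a o h q).2) := by
  simp [Aut.oT, Aut.scale, Nat.mul_add]

lemma gn_scale {Q : Type} (M : Aut Q) (S : ℕ) (p : ℝ) (n k : ℕ) (a : ℕ → Bool) (q : Q) (x : Row) :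
    gn (M.scale S) p n k a q x = S * gn M p n k a q x := by
  induction n generalizing k a q x with
  | zero => simp [gn]
  | succ n ih =>
    cases k with
    | zero => simp [gn]
    | succ k =>
      by_cases h : x.1 0 = 0
      · simp only [gn, symF, h, if_true, oB_scale, ih, Nat.mul_add]
      · simp only [gn, symF, h, if_false, oT_scale, ih, Nat.mul_add]

lemma VV_scale (S L : ℕ) (ω : ℕ → ℕ) (A : Finset ℕ) :
    VV L (fun l => S * ω l) A = S * VV L ω A := by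
  unfold VV
  rw [Finset.mul_sum]
  exact Finset.sum_congr rfl fun l _ => Nat.mul_assoc _ _ _

lemma ph_scale (S L : ℕ) (ω : ℕ → ℕ) (g : ℕ) :
    ph L (fun l => S * ω l) g = S * ph L ω g := by
  unfold ph
  rw [Finset.mul_sum]
  exact Finset.sum_congr rfl fun l _ => Nat.mul_assoc _ _ _

/-- computable form of `ph` -/
def phc : ℕ → (ℕ → ℕ) → ℕ → ℕ
  | 0, _, _ => 0
  | L + 1, ω, g => phc L ω g + ω L * min g (L + 1)

lemma ph_eq_phc (L : ℕ) (ω : ℕ → ℕ) : ph L ω = phc L ω := by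
  funext g
  induction L with
  | zero => rfl
  | succ L ih =>
    unfold ph at ih ⊢
    rw [Finset.sum_range_succ, ih]
    rfl

/-- the certified inequality as a computation -/
def six (a₀ a₁ D P R n₀ n₁ n₂ n₃ n₄ n₅ n₆ : ℕ) : Bool :=
  (Nat.blt (D * R * R * n₀) (wsum a₀ D P R n₁ n₂ n₃ n₄ n₅ n₆) &&
    Nat.blt (D * R * R * n₀) (wsum a₁ D P R n₁ n₂ n₃ n₄ n₅ n₆)) ||
  (Nat.beq n₁ n₀ && Nat.beq n₂ n₀ && Nat.beq n₃ n₀ && Nat.beq n₄ n₀ && Nat.beq n₅ n₀ &&
    Nat.beq n₆ n₀)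

lemma sixOK_of_six {a₀ a₁ D P R n₀ n₁ n₂ n₃ n₄ n₅ n₆ : ℕ}
    (h : six a₀ a₁ D P R n₀ n₁ n₂ n₃ n₄ n₅ n₆ = true) :
    SixOK a₀ a₁ D P R n₀ n₁ n₂ n₃ n₄ n₅ n₆ := by
  unfold six at h
  rw [Bool.or_eq_true] at h
  rcases h with h | h
  · rw [Bool.and_eq_true] at h
    refine Or.inl ⟨?_, ?_⟩
    · have := h.1
      rw [Nat.blt_eq] at this
      exact this
    · have := h.2
      rw [Nat.blt_eq] at this
      exact this
  · simp only [Bool.and_eq_true, Nat.beq_eq] at h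
    obtain ⟨⟨⟨⟨⟨h1, h2⟩, h3⟩, h4⟩, h5⟩, h6⟩ := h
    exact Or.inr ⟨h1, h2, h3, h4, h5, h6⟩

/-- table lookup, entries below `2 ^ 20` -/
def tl (T i : ℕ) : ℕ := T / 1048576 ^ i % 1048576

lemma tl_le (T i : ℕ) : tl T i ≤ 1048576 := (Nat.mod_lt _ (by norm_num)).le

/-- index of the memory -/
def mi (d : ℕ) (b c : Bool) : ℕ := (d * 2 + b.toNat) * 2 + c.toNat

/-- the check of one state -/
def chkS {Q : Type} (M : Aut Q) (W : Q → ℕ → Bool → Bool → ℕ) (ch : ℕ → ℕ)
    (L a₀ a₁ D P R : ℕ) (q : Q) (d : ℕ) (b₁ b₂ b₃ : Bool) : Bool :=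
  six a₀ a₁ D P R
    (W q d b₁ b₂ + (if b₁ then ch d else 0))
    ((M.oB (decide (d = 0)) true q).2 + W (M.oB (decide (d = 0)) true q).1 (nd L d b₁) b₂ b₃)
    ((M.oB (decide (d = 0)) false q).2 + W (M.oB (decide (d = 0)) false q).1 (nd L d b₁) b₂ b₃)
    ((M.oT (decide (d = 0)) true true q).2 +
      W (M.oT (decide (d = 0)) true true q).1 d b₁ b₂ + (if b₁ then ch d else 0))
    ((M.oT (decide (d = 0)) true false q).2 +
      W (M.oT (decide (d = 0)) true false q).1 d b₁ b₂ + (if b₁ then ch d else 0))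
    ((M.oT (decide (d = 0)) false true q).2 +
      W (M.oT (decide (d = 0)) false true q).1 d b₁ b₂ + (if b₁ then ch d else 0))
    ((M.oT (decide (d = 0)) false false q).2 +
      W (M.oT (decide (d = 0)) false false q).1 d b₁ b₂ + (if b₁ then ch d else 0))

/-- both truth values -/
def bl : List Bool := [false, true]

lemma mem_bl (b : Bool) : b ∈ bl := by cases b <;> simp [bl]

/-- the check of a list of states -/
def chkAll {Q : Type} (sts : List Q) (L : ℕ) (c : Q → ℕ → Bool → Bool → Bool → Bool) : Bool :=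
  sts.all fun q => (List.range L).all fun d => bl.all fun b₁ => bl.all fun b₂ => bl.all fun b₃ =>
    c q d b₁ b₂ b₃

lemma chkAll_spec {Q : Type} {sts : List Q} {L : ℕ} {c : Q → ℕ → Bool → Bool → Bool → Bool}
    (h : chkAll sts L c = true) {q : Q} (hq : q ∈ sts) {d : ℕ} (hd : d < L) (b₁ b₂ b₃ : Bool) :
    c q d b₁ b₂ b₃ = true := by
  unfold chkAll at h
  have h1 := List.all_eq_true.1 h q hq
  have h2 := List.all_eq_true.1 h1 d (List.mem_range.2 hd)
  have h3 := List.all_eq_true.1 h2 b₁ (mem_bl _)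
  have h4 := List.all_eq_true.1 h3 b₂ (mem_bl _)
  exact List.all_eq_true.1 h4 b₃ (mem_bl _)

variable {α : ℝ} [hα : Fact (0 < α ∧ α < 1)]

/-- from a certificate to robust survival -/
theorem robust_of_cert {Q : Type} {M : Aut Q} {ok : Q → Prop} (hok : M.Closed ok) {L : ℕ}
    (hL : 2 ≤ L) {ω : ℕ → ℕ} (hω : 1 ≤ ω 0) {W : Q → ℕ → Bool → Bool → ℕ} {ch : ℕ → ℕ}
    (hch : ∀ d < L, ph L ω (d + 1) + 1 ≤ ch d) {Gm Wm Cm K : ℕ} (hchm : ∀ d < L, ch d ≤ Cm)
    (hgu : ∀ q, ok q → ∀ a o, (M.up a o q).2 ≤ Gm) (hgt : ∀ q, ok q → ∀ h, (M.tt h q).2 ≤ Gm)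
    (hgb : ∀ q, ok q → ∀ a, (M.bb a q).2 ≤ Gm)
    (hW : ∀ q, ok q → ∀ d b c, W q d b c ≤ Wm)
    {a₀ a₁ D P R : ℕ} (hD : 0 < D) (hR : 0 < R)
    (hPR : P ≤ R) (h1D : a₁ ≤ D) (h01 : a₀ ≤ a₁) (hα0 : (a₀ : ℝ) / D ≤ α)
    (hα1 : α ≤ (a₁ : ℝ) / D)
    (hcert : ∀ q, ok q → ∀ d < L, ∀ b₁ b₂ b₃ : Bool, SixOK a₀ a₁ D P R
      (W q d b₁ b₂ + (if b₁ then ch d else 0))
      ((M.oB (decide (d = 0)) true q).2 + W (M.oB (decide (d = 0)) true q).1 (nd L d b₁) b₂ b₃)
      ((M.oB (decide (d = 0)) false q).2 + W (M.oB (decide (d = 0)) false q).1 (nd L d b₁) b₂ b₃)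
      ((M.oT (decide (d = 0)) true true q).2 +
        W (M.oT (decide (d = 0)) true true q).1 d b₁ b₂ + (if b₁ then ch d else 0))
      ((M.oT (decide (d = 0)) true false q).2 +
        W (M.oT (decide (d = 0)) true false q).1 d b₁ b₂ + (if b₁ then ch d else 0))
      ((M.oT (decide (d = 0)) false true q).2 +
        W (M.oT (decide (d = 0)) false true q).1 d b₁ b₂ + (if b₁ then ch d else 0))
      ((M.oT (decide (d = 0)) false false q).2 +
        W (M.oT (decide (d = 0)) false false q).1 d b₁ b₂ + (if b₁ then ch d else 0)))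
    {T : Row → St → St} (hT : Good T) {Inv : St → Prop} (hinv : ∀ x s, Inv s → Inv (T x s))
    (hInv : ∀ st, Inv st → ∀ j ∈ st.A, j < st.k) {q₀ : Q} (hq₀ : ok q₀)
    (hcorr : ∀ st, Inv st → ∀ x n,
      gn M ((P : ℝ) / R) n st.k (pat st.A) q₀ x ≤ VV L ω (T x st).A + K) :
    Robust α T Inv := by
  set Mx : ℕ := 2 * Gm + Wm + Cm + 1 with hMx
  have hD' : (1 : ℝ) ≤ D := by exact_mod_cast hD
  have hR' : (1 : ℝ) ≤ R := by exact_mod_cast hR
  have hMx' : (1 : ℝ) ≤ Mx := by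
    have : 1 ≤ Mx := by omega
    exact_mod_cast this
  set B : ℝ := (Mx : ℝ) ^ 2 * (D * R * R) with hB
  have hB1 : 1 ≤ B := by
    have h1 : (1 : ℝ) ≤ (Mx : ℝ) ^ 2 := one_le_pow₀ hMx'
    have h2 : (1 : ℝ) ≤ D * R * R :=
      one_le_mul_of_one_le_of_one_le (one_le_mul_of_one_le_of_one_le hD' hR') hR'
    exact one_le_mul_of_one_le_of_one_le h1 h2
  set y : ℝ := 1 / (2 * B) with hy
  have hy0 : 0 < y := by rw [hy]; positivity
  have hy1 : y < 1 := by
    rw [hy, div_lt_one (by positivity)]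
    linarith
  have hyB : y * (Mx : ℝ) ^ 2 * (D * R * R) ≤ 2 := by
    have : y * (Mx : ℝ) ^ 2 * (D * R * R) = y * B := by rw [hB]; ring
    rw [this, hy]
    have : 1 / (2 * B) * B = 1 / 2 := by field_simp
    rw [this]
    norm_num
  set s : ℝ≥0∞ := ENNReal.ofReal (1 - y) with hs
  have hs0 : s ≠ 0 := by
    rw [hs]
    simp only [ne_eq, ENNReal.ofReal_eq_zero, not_le]
    linarith
  have hs1 : s < 1 := by
    rw [hs, ← ENNReal.ofReal_one]
    exact (ENNReal.ofReal_lt_ofReal_iff one_pos).2 (by linarith)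
  have hp0 : (0 : ℝ) ≤ (P : ℝ) / R := div_nonneg (Nat.cast_nonneg P) (Nat.cast_nonneg R)
  have hp1 : (P : ℝ) / R ≤ 1 := by
    refine (div_le_one (by linarith)).2 ?_
    exact_mod_cast hPR
  have hLI : LocIneq M ok L W ch ((P : ℝ) / R) α s := by
    refine locIneq_of_cert hD hR hPR h1D h01 hα0 hα1 (Mx := Mx) ?_ ?_ hy0.le hy1.le hyB hcert
    · intro q hq a o d b c
      have h1 := hgu q hq a o
      have h2 := hgb _ (hok.up a o q hq) a
      have h3 := hW _ (hok.oB a o hq) d b c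
      simp only [Aut.oB] at h3 ⊢
      omega
    · intro q hq a o h d b c e hd
      have h1 := hgu q hq a o
      have h2 := hgt _ (hok.up a o q hq) h
      have h3 := hW _ (hok.oT a o h hq) d b c
      have h4 := hchm d hd
      simp only [Aut.oT] at h3 ⊢
      split_ifs <;> omega
  refine robust_of_V hT Inv hinv (L := L) (by omega) hω hs1 hs0
    (N := K + Wm + ph L ω L + 1) ?_
  intro st hst hcard
  exact step_bound hok hL hch hW hp0 hp1 hs0 hs1.le hLI hq₀ hT st (hInv st hst)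
    (hcorr st hst) hcard

/-! ### the primal chain -/

/-- index of a state -/
def stP (L : ℕ) : PQ → ℕ
  | PQ.fl => 0
  | PQ.un r G => 1 + (r - 1) * L + (G - 1)

/-- the potential -/
def WP (T L : ℕ) (q : PQ) (d : ℕ) (b c : Bool) : ℕ := tl T (stP L q * (4 * L) + mi d b c)

/-- admissible states -/
def okP (cap L : ℕ) : PQ → Prop
  | PQ.fl => True
  | PQ.un r G => 1 ≤ r ∧ r ≤ cap ∧ 1 ≤ G ∧ G ≤ L

/-- list of admissible states -/
def lsP (cap L : ℕ) : List PQ :=
  PQ.fl :: (List.range cap).flatMap fun r => (List.range L).map fun G => PQ.un (r + 1) (G + 1)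

lemma mem_lsP {cap L : ℕ} {q : PQ} (h : okP cap L q) : q ∈ lsP cap L := by
  cases q with
  | fl => simp [lsP]
  | un r G =>
    obtain ⟨h1, h2, h3, h4⟩ := h
    simp only [lsP, List.mem_cons, reduceCtorEq, List.mem_flatMap, List.mem_range, List.mem_map,
      PQ.un.injEq, false_or]
    exact ⟨r - 1, by omega, G - 1, by omega, by omega, by omega⟩

lemma closedP {cap L : ℕ} (hcap : 1 ≤ cap) (hL : 1 ≤ L) (f : ℕ → ℕ) (S : ℕ) :
    ((autP cap L f).scale S).Closed (okP cap L) where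
  up := by
    intro a o q hq
    cases q with
    | fl => simp [Aut.scale, autP, okP]
    | un r G =>
      simp only [Aut.scale, autP]
      split_ifs
      · simp [okP]
      · exact hq
  tt := by
    intro h q hq
    cases q with
    | fl =>
      simp only [Aut.scale, autP]
      split_ifs
      · simp [okP]
      · simp only [okP]; omega
    | un r G =>
      obtain ⟨h1, h2, h3, h4⟩ := hq
      simp only [Aut.scale, autP]
      split_ifs <;> simp only [okP] <;> omega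
  bb := by
    intro a q hq
    exact hq

/-- the check for the primal chain -/
def chkP (a₀ a₁ D P R cap L S T : ℕ) (ω : ℕ → ℕ) : Bool :=
  chkAll (lsP cap L) L (chkS ((autP cap L (phc L ω)).scale S) (WP T L)
    (fun d => S * phc L ω (d + 1) + 1) L a₀ a₁ D P R)

theorem cert_P {a₀ a₁ D P R cap L S T : ℕ} {ω : ℕ → ℕ} (hD : 0 < D) (hR : 0 < R)
    (hPR : P ≤ R) (h1D : a₁ ≤ D) (h01 : a₀ ≤ a₁) (hL : 2 ≤ L) (hcap : 1 ≤ cap)
    (hω : 1 ≤ ω 0) (hS : 1 ≤ S) (hchk : chkP a₀ a₁ D P R cap L S T ω = true)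
    (hα0 : (a₀ : ℝ) / D ≤ α) (hα1 : α ≤ (a₁ : ℝ) / D) :
    Robust α (nxt ((P : ℝ) / R)) fun st => ∀ j ∈ st.A, j < st.k := by
  set f := phc L ω with hf
  have hfp : ph L ω = f := ph_eq_phc L ω
  have hfm : ∀ g, f g ≤ f L := by
    intro g
    rw [← hfp]
    by_cases h : g ≤ L
    · exact ph_mono L ω h
    · rw [ph_top L ω (by omega)]
  refine robust_of_cert (M := (autP cap L f).scale S) (ok := okP cap L)
    (closedP hcap (by omega) f S) hL (ω := fun l => S * ω l) (Nat.mul_pos hS hω)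
    (W := WP T L) (ch := fun d => S * f (d + 1) + 1) ?_ (Gm := S * (f L + cap * f L))
    (Wm := 1048576) (Cm := S * f L + 1) (K := S * f L) ?_ ?_ ?_ ?_ ?_ hD hR hPR h1D h01 hα0 hα1 ?_
    (good_nxt _) ?_ (fun st h => h) (q₀ := PQ.un 1 L) ?_ ?_
  · intro d _
    rw [ph_scale, hfp]
  · intro d _
    exact Nat.add_le_add_right (Nat.mul_le_mul_left S (hfm (d + 1))) 1
  · intro q hq a o
    cases q with
    | fl => simp [Aut.scale, autP]
    | un r G =>
      obtain ⟨h1, h2, h3, h4⟩ := hq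
      simp only [Aut.scale, autP]
      split_ifs
      · refine Nat.mul_le_mul_left S (Nat.add_le_add (hfm G) ?_)
        exact Nat.mul_le_mul (by omega) (hfm 1)
      · simp
  · intro q hq h
    have h0 : f 1 ≤ f L + cap * f L := (hfm 1).trans (Nat.le_add_right _ _)
    cases q with
    | fl =>
      simp only [Aut.scale, autP]
      split_ifs
      · exact Nat.mul_le_mul_left S h0
      · simp
    | un r G =>
      simp only [Aut.scale, autP]
      split_ifs <;> simp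
  · intro q hq a
    simp [Aut.scale, autP]
  · intro q hq d b c
    exact tl_le _ _
  · intro q hq d hd b₁ b₂ b₃
    exact sixOK_of_six (chkAll_spec hchk (mem_lsP hq) hd b₁ b₂ b₃)
  · intro x s _ j hj
    exact nxt_lt hj
  · exact ⟨le_rfl, hcap, by omega, le_rfl⟩
  · intro st hst x n
    rw [gn_scale, VV_scale, ← Nat.mul_add]
    refine Nat.mul_le_mul_left S ?_
    have := gnP_le (p := (P : ℝ) / R) cap L (by omega) ω x st hst n
    rw [hfp] at this
    exact this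

/-! ### the dual chain -/

/-- the potential -/
def WD (T TS L : ℕ) : DQ → ℕ → Bool → Bool → ℕ
  | DQ.fl g, d, b, c => tl T ((g - 1) * (4 * L) + mi d b c)
  | DQ.un g, d, b, c => tl T ((L + (g - 1)) * (4 * L) + mi d b c)
  | DQ.pe g₀ g v, d, b, c =>
      tl TS (mi d b c) * v + tl T ((2 * L + (g₀ - 1) * L + (g - 1)) * (4 * L) + mi d b c)

/-- admissible states -/
def okD (Cm L : ℕ) : DQ → Prop
  | DQ.fl g => 1 ≤ g ∧ g ≤ L
  | DQ.un g => 1 ≤ g ∧ g ≤ L
  | DQ.pe g₀ g v => 1 ≤ g₀ ∧ g₀ ≤ L ∧ 1 ≤ g ∧ g ≤ L ∧ v ≤ Cm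

lemma closedD {Cm L : ℕ} (hL : 1 ≤ L) (f : ℕ → ℕ) (S : ℕ) :
    ((autD Cm L f).scale S).Closed (okD Cm L) where
  up := by
    intro a o q hq
    cases q <;> simp only [Aut.scale, autD] <;> split_ifs <;> simp only [okD] at hq ⊢ <;> omega
  tt := by
    intro h q hq
    cases q <;> simp only [Aut.scale, autD] <;> split_ifs <;> simp only [okD] at hq ⊢ <;> omega
  bb := by
    intro a q hq
    cases q <;> simp only [Aut.scale, autD] <;> split_ifs <;> simp only [okD] at hq ⊢ <;> omega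

/-- list of the flagged and the empty states -/
def lsD (L : ℕ) : List DQ :=
  ((List.range L).map fun g => DQ.fl (g + 1)) ++ (List.range L).map fun g => DQ.un (g + 1)

/-- the check for the pending states, linear in the value -/
def chkPe (a₀ a₁ D P R Cm L S T TS : ℕ) (f : ℕ → ℕ) (g₀ g d : ℕ) (b₁ b₂ b₃ : Bool) : Bool :=
  let W := WD T TS L
  let c := if b₁ then S * f (d + 1) + 1 else 0
  let d' := nd L d b₁
  let A0 := tl TS (mi d b₁ b₂)
  let A2 := if d = 0 then S else tl TS (mi d' b₂ b₃)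
  let B0 := W (DQ.pe g₀ g 0) d b₁ b₂ + c
  let B1 := if d = 0 then W (DQ.fl g₀) d' b₂ b₃ else W (DQ.un g₀) d' b₂ b₃
  let B2 := if d = 0 then W (DQ.fl g) d' b₂ b₃ else W (DQ.pe g₀ g 0) d' b₂ b₃
  let B3 := W (DQ.un (min (g₀ + 1) L)) d b₁ b₂ + c
  let B4 := W (DQ.pe (min (g₀ + 1) L) 1 (f g₀)) d b₁ b₂ + c
  let B5 := W (DQ.pe (min (g₀ + 1) L) (min (g + 1) L) 0) d b₁ b₂ + c
  let B6 := W (DQ.pe (min (g₀ + 1) L) 1 (f g)) d b₁ b₂ + c
  let C1 := Cm - f L
  Nat.ble (f L) Cm &&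
  ((Nat.ble (D * R * R * A0) (wsum a₀ D P R 0 A2 0 0 A0 A0) &&
    Nat.ble (D * R * R * A0) (wsum a₁ D P R 0 A2 0 0 A0 A0) &&
    Nat.blt (D * R * R * B0) (wsum a₀ D P R B1 B2 B3 B4 B5 B6) &&
    Nat.blt (D * R * R * B0) (wsum a₁ D P R B1 B2 B3 B4 B5 B6) &&
    Nat.blt (D * R * R * (A0 * C1 + B0))
      (wsum a₀ D P R 0 A2 0 0 A0 A0 * C1 + wsum a₀ D P R B1 B2 B3 B4 B5 B5) &&
    Nat.blt (D * R * R * (A0 * C1 + B0))
      (wsum a₁ D P R 0 A2 0 0 A0 A0 * C1 + wsum a₁ D P R B1 B2 B3 B4 B5 B5)) ||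
  (Nat.beq A0 0 && Nat.beq A2 0 && Nat.beq B1 B0 && Nat.beq B2 B0 && Nat.beq B3 B0 &&
    Nat.beq B4 B0 && Nat.beq B5 B0 && Nat.beq B6 B0))

lemma wsum_lin (a D P R : ℕ) (v x₁ x₂ x₃ x₄ x₅ x₆ y₁ y₂ y₃ y₄ y₅ y₆ : ℕ) :
    wsum a D P R (x₁ * v + y₁) (x₂ * v + y₂) (x₃ * v + y₃) (x₄ * v + y₄) (x₅ * v + y₅)
      (x₆ * v + y₆) = wsum a D P R x₁ x₂ x₃ x₄ x₅ x₆ * v + wsum a D P R y₁ y₂ y₃ y₄ y₅ y₆ := by
  unfold wsum
  ring

lemma strict_lin {X Y X' Y' v : ℕ} (h1 : X ≤ X') (h2 : Y < Y') : X * v + Y < X' * v + Y' := by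
  have := Nat.mul_le_mul_right v h1
  omega

lemma strict_lin' {X Y X' Y' v w : ℕ} (h1 : X ≤ X') (hw : w ≤ v) (h2 : X * w + Y < X' * w + Y') :
    X * v + Y < X' * v + Y' := by
  obtain ⟨t, rfl⟩ := Nat.exists_eq_add_of_le hw
  have := Nat.mul_le_mul_right t h1
  rw [Nat.mul_add, Nat.mul_add]
  omega

section evalD

variable {Cm L : ℕ} {f : ℕ → ℕ} {g₀ g v : ℕ} (a : Bool)

lemma evD1 : (autD Cm L f).oB a true (DQ.pe g₀ g v) =
    ((if a then DQ.fl g₀ else DQ.un g₀), 0) := by cases a <;> rfl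

lemma evD2 : (autD Cm L f).oB a false (DQ.pe g₀ g v) =
    if a then (DQ.fl g, v) else (DQ.pe g₀ g v, 0) := by
  cases a <;> simp [Aut.oB, autD]

lemma evD3 : (autD Cm L f).oT a true true (DQ.pe g₀ g v) = (DQ.un (min (g₀ + 1) L), 0) := rfl

lemma evD4 (h : f g₀ ≤ Cm) : (autD Cm L f).oT a true false (DQ.pe g₀ g v) =
    (DQ.pe (min (g₀ + 1) L) 1 (f g₀), 0) := by
  simp [Aut.oT, autD, h]

lemma evD5 : (autD Cm L f).oT a false true (DQ.pe g₀ g v) =
    (DQ.pe (min (g₀ + 1) L) (min (g + 1) L) v, 0) := rfl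

lemma evD6 (h : v + f g ≤ Cm) : (autD Cm L f).oT a false false (DQ.pe g₀ g v) =
    (DQ.pe (min (g₀ + 1) L) 1 (v + f g), 0) := by
  simp [Aut.oT, autD, h]

lemma evD7 (h : ¬ v + f g ≤ Cm) : (autD Cm L f).oT a false false (DQ.pe g₀ g v) =
    (DQ.pe (min (g₀ + 1) L) (min (g + 1) L) v, 0) := by
  simp [Aut.oT, autD, h]

end evalD

lemma sixOK_pe {a₀ a₁ D P R Cm L S T TS g₀ g d : ℕ} {f : ℕ → ℕ} (hfm : ∀ g, f g ≤ f L)
    {b₁ b₂ b₃ : Bool} (h : chkPe a₀ a₁ D P R Cm L S T TS f g₀ g d b₁ b₂ b₃ = true) {v : ℕ}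
    (hv : v ≤ Cm) : SixOK a₀ a₁ D P R
      (WD T TS L (DQ.pe g₀ g v) d b₁ b₂ + (if b₁ then S * f (d + 1) + 1 else 0))
      ((((autD Cm L f).scale S).oB (decide (d = 0)) true (DQ.pe g₀ g v)).2 + WD T TS L
        (((autD Cm L f).scale S).oB (decide (d = 0)) true (DQ.pe g₀ g v)).1 (nd L d b₁) b₂ b₃)
      ((((autD Cm L f).scale S).oB (decide (d = 0)) false (DQ.pe g₀ g v)).2 + WD T TS L
        (((autD Cm L f).scale S).oB (decide (d = 0)) false (DQ.pe g₀ g v)).1 (nd L d b₁) b₂ b₃)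
      ((((autD Cm L f).scale S).oT (decide (d = 0)) true true (DQ.pe g₀ g v)).2 + WD T TS L
        (((autD Cm L f).scale S).oT (decide (d = 0)) true true (DQ.pe g₀ g v)).1 d b₁ b₂ +
        (if b₁ then S * f (d + 1) + 1 else 0))
      ((((autD Cm L f).scale S).oT (decide (d = 0)) true false (DQ.pe g₀ g v)).2 + WD T TS L
        (((autD Cm L f).scale S).oT (decide (d = 0)) true false (DQ.pe g₀ g v)).1 d b₁ b₂ +
        (if b₁ then S * f (d + 1) + 1 else 0))
      ((((autD Cm L f).scale S).oT (decide (d = 0)) false true (DQ.pe g₀ g v)).2 + WD T TS L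
        (((autD Cm L f).scale S).oT (decide (d = 0)) false true (DQ.pe g₀ g v)).1 d b₁ b₂ +
        (if b₁ then S * f (d + 1) + 1 else 0))
      ((((autD Cm L f).scale S).oT (decide (d = 0)) false false (DQ.pe g₀ g v)).2 + WD T TS L
        (((autD Cm L f).scale S).oT (decide (d = 0)) false false (DQ.pe g₀ g v)).1 d b₁ b₂ +
        (if b₁ then S * f (d + 1) + 1 else 0)) := by
  unfold chkPe at h
  extract_lets W c d' A0 A2 B0 B1 B2 B3 B4 B5 B6 C1 at h
  rw [Bool.and_eq_true, Nat.ble_eq] at h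
  obtain ⟨hfC, h⟩ := h
  have hfg := hfm g
  have hfg₀ : f g₀ ≤ Cm := (hfm g₀).trans hfC
  have e0 : WD T TS L (DQ.pe g₀ g v) d b₁ b₂ + (if b₁ then S * f (d + 1) + 1 else 0) =
      A0 * v + B0 := by
    simp only [WD, A0, B0, W, c]
    ring
  have e1 : (((autD Cm L f).scale S).oB (decide (d = 0)) true (DQ.pe g₀ g v)).2 + WD T TS L
        (((autD Cm L f).scale S).oB (decide (d = 0)) true (DQ.pe g₀ g v)).1 (nd L d b₁) b₂ b₃ =
      0 * v + B1 := by
    rw [oB_scale, evD1]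
    simp only [B1, W, d']
    by_cases hd : d = 0 <;> simp [hd]
  have e2 : (((autD Cm L f).scale S).oB (decide (d = 0)) false (DQ.pe g₀ g v)).2 + WD T TS L
        (((autD Cm L f).scale S).oB (decide (d = 0)) false (DQ.pe g₀ g v)).1 (nd L d b₁) b₂ b₃ =
      A2 * v + B2 := by
    rw [oB_scale, evD2]
    simp only [A2, B2, W, d']
    by_cases hd : d = 0 <;> simp [hd, WD]
  have e3 : (((autD Cm L f).scale S).oT (decide (d = 0)) true true (DQ.pe g₀ g v)).2 + WD T TS L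
        (((autD Cm L f).scale S).oT (decide (d = 0)) true true (DQ.pe g₀ g v)).1 d b₁ b₂ +
        (if b₁ then S * f (d + 1) + 1 else 0) = 0 * v + B3 := by
    rw [oT_scale, evD3]
    simp [B3, W, c]
  have e4 : (((autD Cm L f).scale S).oT (decide (d = 0)) true false (DQ.pe g₀ g v)).2 + WD T TS L
        (((autD Cm L f).scale S).oT (decide (d = 0)) true false (DQ.pe g₀ g v)).1 d b₁ b₂ +
        (if b₁ then S * f (d + 1) + 1 else 0) = 0 * v + B4 := by
    rw [oT_scale, evD4 _ hfg₀]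
    simp [B4, W, c]
  have e5 : (((autD Cm L f).scale S).oT (decide (d = 0)) false true (DQ.pe g₀ g v)).2 + WD T TS L
        (((autD Cm L f).scale S).oT (decide (d = 0)) false true (DQ.pe g₀ g v)).1 d b₁ b₂ +
        (if b₁ then S * f (d + 1) + 1 else 0) = A0 * v + B5 := by
    rw [oT_scale, evD5]
    simp only [A0, B5, W, c, WD]
    ring
  rw [e0, e1, e2, e3, e4, e5]
  by_cases hkeep : v + f g ≤ Cm
  · have e6 : (((autD Cm L f).scale S).oT (decide (d = 0)) false false (DQ.pe g₀ g v)).2 +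
        WD T TS L (((autD Cm L f).scale S).oT (decide (d = 0)) false false
          (DQ.pe g₀ g v)).1 d b₁ b₂ + (if b₁ then S * f (d + 1) + 1 else 0) = A0 * v + B6 := by
      rw [oT_scale, evD6 _ hkeep]
      simp only [A0, B6, W, c, WD]
      ring
    rw [e6]
    rw [Bool.or_eq_true] at h
    rcases h with h | h
    · simp only [Bool.and_eq_true, Nat.ble_eq, Nat.blt_eq] at h
      obtain ⟨⟨⟨⟨⟨h1, h2⟩, h3⟩, h4⟩, _⟩, _⟩ := h
      refine Or.inl ⟨?_, ?_⟩
      · rw [wsum_lin, Nat.mul_add, ← Nat.mul_assoc]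
        exact strict_lin h1 h3
      · rw [wsum_lin, Nat.mul_add, ← Nat.mul_assoc]
        exact strict_lin h2 h4
    · simp only [Bool.and_eq_true, Nat.beq_eq] at h
      obtain ⟨⟨⟨⟨⟨⟨⟨h1, h2⟩, h3⟩, h4⟩, h5⟩, h6⟩, h7⟩, h8⟩ := h
      right
      rw [h1, h2, h3, h4, h5, h6, h7, h8]
      simp
  · have e6 : (((autD Cm L f).scale S).oT (decide (d = 0)) false false (DQ.pe g₀ g v)).2 +
        WD T TS L (((autD Cm L f).scale S).oT (decide (d = 0)) false false
          (DQ.pe g₀ g v)).1 d b₁ b₂ + (if b₁ then S * f (d + 1) + 1 else 0) = A0 * v + B5 := by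
      rw [oT_scale, evD7 _ hkeep]
      simp only [A0, B5, W, c, WD]
      ring
    rw [e6]
    have hC1 : C1 ≤ v := by
      simp only [C1]
      omega
    rw [Bool.or_eq_true] at h
    rcases h with h | h
    · simp only [Bool.and_eq_true, Nat.ble_eq, Nat.blt_eq] at h
      obtain ⟨⟨⟨⟨⟨h1, h2⟩, _⟩, _⟩, h3⟩, h4⟩ := h
      rw [Nat.mul_add, ← Nat.mul_assoc] at h3 h4
      refine Or.inl ⟨?_, ?_⟩
      · rw [wsum_lin, Nat.mul_add, ← Nat.mul_assoc]
        exact strict_lin' h1 hC1 h3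
      · rw [wsum_lin, Nat.mul_add, ← Nat.mul_assoc]
        exact strict_lin' h2 hC1 h4
    · simp only [Bool.and_eq_true, Nat.beq_eq] at h
      obtain ⟨⟨⟨⟨⟨⟨⟨h1, h2⟩, h3⟩, h4⟩, h5⟩, h6⟩, h7⟩, h8⟩ := h
      right
      rw [h1, h2, h3, h4, h5, h6, h7]
      simp

/-- the check for the dual chain -/
def chkD (a₀ a₁ D P R Cm L S T TS : ℕ) (ω : ℕ → ℕ) : Bool :=
  chkAll (lsD L) L (chkS ((autD Cm L (phc L ω)).scale S) (WD T TS L)
    (fun d => S * phc L ω (d + 1) + 1) L a₀ a₁ D P R) &&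
  (List.range L).all fun g₀ => chkAll (List.range L) L fun g d b₁ b₂ b₃ =>
    chkPe a₀ a₁ D P R Cm L S T TS (phc L ω) (g₀ + 1) (g + 1) d b₁ b₂ b₃

theorem cert_D {a₀ a₁ D P R Cm L S T TS : ℕ} {ω : ℕ → ℕ} (hD : 0 < D) (hR : 0 < R)
    (hPR : P ≤ R) (h1D : a₁ ≤ D) (h01 : a₀ ≤ a₁) (hL : 2 ≤ L)
    (hω : 1 ≤ ω 0) (hS : 1 ≤ S) (hchk : chkD a₀ a₁ D P R Cm L S T TS ω = true)
    (hα0 : (a₀ : ℝ) / D ≤ α) (hα1 : α ≤ (a₁ : ℝ) / D) :
    Robust α (dC ((P : ℝ) / R)) fun st => ∀ j ∈ st.A, j + 1 < st.k := by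
  set f := phc L ω with hf
  have hfp : ph L ω = f := ph_eq_phc L ω
  have hfm : ∀ g, f g ≤ f L := by
    intro g
    rw [← hfp]
    by_cases h : g ≤ L
    · exact ph_mono L ω h
    · rw [ph_top L ω (by omega)]
  unfold chkD at hchk
  rw [Bool.and_eq_true] at hchk
  obtain ⟨hchk1, hchk2⟩ := hchk
  rw [← hf] at hchk1 hchk2
  refine robust_of_cert (M := (autD Cm L f).scale S) (ok := okD Cm L)
    (closedD (by omega) f S) hL (ω := fun l => S * ω l) (Nat.mul_pos hS hω)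
    (W := WD T TS L) (ch := fun d => S * f (d + 1) + 1) ?_ (Gm := S * (f L + Cm))
    (Wm := 1048576 * Cm + 1048576) (Cm := S * f L + 1) (K := S * f L) ?_ ?_ ?_ ?_ ?_
    hD hR hPR h1D h01 hα0 hα1 ?_
    (good_dC _) ?_ ?_ (q₀ := DQ.un L) ?_ ?_
  · intro d _
    rw [ph_scale, hfp]
  · intro d _
    exact Nat.add_le_add_right (Nat.mul_le_mul_left S (hfm (d + 1))) 1
  · intro q hq a o
    cases q <;> simp only [Aut.scale, autD] <;> split_ifs <;> simp
  · intro q hq h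
    cases q with
    | fl g =>
      simp only [Aut.scale, autD]
      split_ifs
      · simp
      · exact Nat.mul_le_mul_left S ((hfm g).trans (Nat.le_add_right _ _))
    | un g => simp only [Aut.scale, autD]; split_ifs <;> simp
    | pe g₀ g v => simp only [Aut.scale, autD]; split_ifs <;> simp
  · intro q hq a
    cases q with
    | fl g => simp only [Aut.scale, autD]; split_ifs <;> simp
    | un g => simp only [Aut.scale, autD]; split_ifs <;> simp
    | pe g₀ g v =>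
      simp only [okD] at hq
      simp only [Aut.scale, autD]
      split_ifs
      · exact Nat.mul_le_mul_left S (by omega)
      · simp
  · intro q hq d b c
    cases q with
    | fl g => exact (tl_le _ _).trans (Nat.le_add_left _ _)
    | un g => exact (tl_le _ _).trans (Nat.le_add_left _ _)
    | pe g₀ g v =>
      simp only [okD] at hq
      exact Nat.add_le_add (Nat.mul_le_mul (tl_le _ _) (by omega)) (tl_le _ _)
  · intro q hq d hd b₁ b₂ b₃
    cases q with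
    | fl g =>
      have hmem : DQ.fl g ∈ lsD L := by
        simp only [okD] at hq
        simp only [lsD, List.mem_append, List.mem_map, List.mem_range]
        exact Or.inl ⟨g - 1, by omega, by congr 1; omega⟩
      exact sixOK_of_six (chkAll_spec hchk1 hmem hd b₁ b₂ b₃)
    | un g =>
      have hmem : DQ.un g ∈ lsD L := by
        simp only [okD] at hq
        simp only [lsD, List.mem_append, List.mem_map, List.mem_range]
        exact Or.inr ⟨g - 1, by omega, by congr 1; omega⟩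
      exact sixOK_of_six (chkAll_spec hchk1 hmem hd b₁ b₂ b₃)
    | pe g₀ g v =>
      simp only [okD] at hq
      have h1 := List.all_eq_true.1 hchk2 (g₀ - 1) (List.mem_range.2 (by omega))
      have h2 := chkAll_spec h1 (List.mem_range.2 (show g - 1 < L by omega)) hd b₁ b₂ b₃
      have e1 : g₀ - 1 + 1 = g₀ := by omega
      have e2 : g - 1 + 1 = g := by omega
      rw [e1, e2] at h2
      exact sixOK_pe hfm h2 hq.2.2.2.2
  · intro x s _
    exact dC_inv _ x s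
  · intro st h j hj
    have := h j hj
    omega
  · exact ⟨by omega, le_rfl⟩
  · intro st hst x n
    rw [gn_scale, VV_scale, ← Nat.mul_add]
    refine Nat.mul_le_mul_left S ?_
    have := gnD_le (p := (P : ℝ) / R) Cm L (by omega) ω x st n
    rw [hfp] at this
    exact this

end Pool.Agent.helper885_ct
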