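import Pool.Agent.helper885_ct.Dep
import Pool.Agent.helper885_ct.Contract

/-!
Survival from growth of the cardinality above a threshold.
-/

set_option linter.unusedSectionVars false
set_option linter.unusedVariables false

namespace Pool.Agent.helper885_ct

open MeasureTheory Set Measure
open scoped ENNReal

/-- second order Bernoulli inequality -/
lemma pow_add_le {y : ℝ} (hy0 : 0 ≤ y) (hy1 : y ≤ 1) (n : ℕ) :
    (1 - y) ^ n + y * n ≤ 1 + y ^ 2 / 2 * (n : ℝ) ^ 2 := by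
  induction n with
  | zero => simp
  | succ n ih =>
    have h1 : (1 - y) ^ (n + 1) ≤ (1 + y ^ 2 / 2 * (n : ℝ) ^ 2 - y * n) * (1 - y) := by
      rw [pow_succ]
      exact mul_le_mul_of_nonneg_right (by linarith) (by linarith)
    have h2 : 0 ≤ y ^ 3 * (n : ℝ) ^ 2 := by positivity
    have h3 : 0 ≤ y ^ 2 * (n : ℝ) := by positivity
    push_cast
    nlinarith

/-- the local exponential bound -/
lemma local_exp {Ω : Type*} [MeasurableSpace Ω] (μ : Measure Ω) [IsProbabilityMeasure μ]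
    {N : Ω → ℕ} (hN : Measurable N) {n : ℕ} (hn : ∀ u, N u ≤ n) {y : ℝ} (hy0 : 0 ≤ y)
    (hy1 : y ≤ 1) :
    ∫⁻ u, ENNReal.ofReal (1 - y) ^ N u ∂μ + ENNReal.ofReal y * ∫⁻ u, (N u : ℝ≥0∞) ∂μ ≤
      1 + ENNReal.ofReal (y ^ 2 / 2) * (n : ℝ≥0∞) ^ 2 := by
  have hm1 : Measurable fun u => (N u : ℝ≥0∞) :=
    (measurable_from_top (f := fun m : ℕ => (m : ℝ≥0∞))).comp hN
  have hm2 : Measurable fun u => ENNReal.ofReal (1 - y) ^ N u :=
    (measurable_from_top (f := fun m : ℕ => ENNReal.ofReal (1 - y) ^ m)).comp hN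
  rw [← lintegral_const_mul _ hm1, ← lintegral_add_left hm2]
  have h1 : ∀ u, ENNReal.ofReal (1 - y) ^ N u + ENNReal.ofReal y * (N u : ℝ≥0∞) ≤
      1 + ENNReal.ofReal (y ^ 2 / 2) * (n : ℝ≥0∞) ^ 2 := by
    intro u
    have h2 := pow_add_le hy0 hy1 (N u)
    have h3 : (N u : ℝ) ^ 2 ≤ (n : ℝ) ^ 2 := by
      have : (N u : ℝ) ≤ n := by exact_mod_cast hn u
      gcongr
    have h4 : (N u : ℝ≥0∞) = ENNReal.ofReal (N u : ℝ) := (ENNReal.ofReal_natCast _).symm
    have h5 : (n : ℝ≥0∞) = ENNReal.ofReal (n : ℝ) := (ENNReal.ofReal_natCast _).symm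
    rw [h4, h5, ← ENNReal.ofReal_pow (by linarith), ← ENNReal.ofReal_pow (by positivity),
      ← ENNReal.ofReal_mul hy0, ← ENNReal.ofReal_mul (by positivity), ← ENNReal.ofReal_one,
      ← ENNReal.ofReal_add (pow_nonneg (by linarith) _) (by positivity),
      ← ENNReal.ofReal_add zero_le_one (by positivity)]
    refine ENNReal.ofReal_le_ofReal ?_
    have h6 : y ^ 2 / 2 * (N u : ℝ) ^ 2 ≤ y ^ 2 / 2 * (n : ℝ) ^ 2 := by gcongr
    linarith
  refine (lintegral_mono h1).trans ?_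
  simp

variable {α : ℝ} [hα : Fact (0 < α ∧ α < 1)]

lemma dead_thr {T : Row → St → St} (hT : Good T) (Inv : St → Prop)
    (hinv : ∀ x s, Inv s → Inv (T x s)) {s : ℝ≥0∞} (hs1 : s ≤ 1) {N : ℕ}
    (h : ∀ st : St, Inv st → N ≤ st.A.card →
      ∫⁻ x, s ^ (T x st).A.card ∂rowLaw α ≤ s ^ st.A.card)
    (n : ℕ) (st : St) (hst : Inv st) :
    cfgLaw α {ω | ¬ (run T n ω st).A.Nonempty} * s ^ N ≤ s ^ st.A.card := by
  induction n generalizing st with
  | zero =>
    by_cases h0 : st.A.Nonempty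
    · have : {ω : Cfg | ¬ (run T 0 ω st).A.Nonempty} = ∅ := by
        ext ω
        simp only [run_zero, mem_ofPred_eq, mem_empty_iff_false, iff_false, not_not]
        exact h0
      rw [this, measure_empty, zero_mul]
      exact bot_le
    · rw [Finset.not_nonempty_iff_eq_empty.1 h0, Finset.card_empty, pow_zero]
      exact mul_le_one' prob_le_one (pow_le_one' hs1 N)
  | succ n ih =>
    by_cases hN : N ≤ st.A.card
    · rw [measure_dead_succ hT]
      have hmeas : Measurable (fun x : Row =>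
          cfgLaw α {ω | ¬ (run T n ω (T x st)).A.Nonempty}) :=
        (measurable_from_top (f := fun s' : St =>
          cfgLaw α {ω | ¬ (run T n ω s').A.Nonempty})).comp (hT.meas st)
      rw [← lintegral_mul_const _ hmeas]
      exact (lintegral_mono fun x => ih (T x st) (hinv x st hst)).trans (h st hst hN)
    · have h1 : s ^ N ≤ s ^ st.A.card := pow_le_pow_right_of_le_one' hs1 (by omega)
      refine le_trans ?_ h1
      calc _ ≤ 1 * s ^ N := by
            gcongr
            exact prob_le_one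
        _ = s ^ N := one_mul _

lemma Ui_thr {T : Row → St → St} (hT : Good T) (Inv : St → Prop)
    (hinv : ∀ x s, Inv s → Inv (T x s)) {s : ℝ≥0∞} (hs1 : s ≤ 1) (hs0 : s ≠ 0) {N : ℕ}
    (h : ∀ st : St, Inv st → N ≤ st.A.card →
      ∫⁻ x, s ^ (T x st).A.card ∂rowLaw α ≤ s ^ st.A.card)
    (st : St) (hst : Inv st) {j : ℕ} (hj : N + j ≤ st.A.card) :
    cfgLaw α {ω | ∀ n, (run T n ω st).A.Nonempty}ᶜ ≤ s ^ j := by
  have h1 : {ω | ∀ n, (run T n ω st).A.Nonempty}ᶜ = ⋃ n, {ω | ¬ (run T n ω st).A.Nonempty} := by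
    ext ω
    simp
  have hmono : Monotone fun n => {ω | ¬ (run T n ω st).A.Nonempty} := by
    intro n m hnm ω hω
    exact fun h => hω (alive_mono hT hnm ω _ h)
  rw [h1, hmono.measure_iUnion]
  refine iSup_le fun n => ?_
  have h2 := dead_thr hT Inv hinv hs1 h n st hst
  have h3 : s ^ st.A.card ≤ s ^ (N + j) := pow_le_pow_right_of_le_one' hs1 hj
  have h4 := h2.trans h3
  rw [pow_add, mul_comm] at h4
  have hne : s ^ N ≠ 0 := pow_ne_zero _ hs0
  have hne' : s ^ N ≠ ⊤ := ENNReal.pow_ne_top (ne_top_of_le_ne_top ENNReal.one_ne_top hs1)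
  exact (ENNReal.mul_le_mul_iff_right hne hne').1 h4

end Pool.Agent.helper885_ct
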