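import Pool.Agent.helper885_ct.Line

/-!
A uniform lower bound for survival probabilities.
-/

set_option linter.unusedSectionVars false
set_option linter.unusedVariables false

namespace Pool.Agent.helper885_ct

open MeasureTheory Set Measure
open scoped ENNReal

lemma nxt_mono (p : ℝ) (x : Row) (s s' : St) (h : s.k = s'.k ∧ s.A ⊆ s'.A) :
    (nxt p x s).k = (nxt p x s').k ∧ (nxt p x s).A ⊆ (nxt p x s').A := by
  refine ⟨by rw [nxt_k, nxt_k, h.1], fun j hj => ?_⟩
  obtain ⟨h1, d, ⟨h2, i, hi, hik, c, hc, hp, hd⟩, h3⟩ := mem_nxt.1 hj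
  rw [h.1] at h1 h2 h3 hik hd
  exact mem_nxt.2 ⟨h1, d, ⟨h2, i, h.2 hi, hik, c, hc, hp, hd⟩, h3⟩

lemma nxt_union (p : ℝ) (x : Row) (k : ℕ) (A B : Finset ℕ) :
    nxt p x ⟨k, A ∪ B⟩ = ⟨rS x k, (nxt p x ⟨k, A⟩).A ∪ (nxt p x ⟨k, B⟩).A⟩ := by
  have h : (nxt p x ⟨k, A ∪ B⟩).A = (nxt p x ⟨k, A⟩).A ∪ (nxt p x ⟨k, B⟩).A := by
    refine Finset.Subset.antisymm ?_ ?_
    · intro j hj
      obtain ⟨h1, d, ⟨h2, i, hi, hik, c, hc, hp, hd⟩, h3⟩ := mem_nxt.1 hj
      rcases Finset.mem_union.1 hi with hi | hi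
      · exact Finset.mem_union_left _ (mem_nxt.2 ⟨h1, d, ⟨h2, i, hi, hik, c, hc, hp, hd⟩, h3⟩)
      · exact Finset.mem_union_right _ (mem_nxt.2 ⟨h1, d, ⟨h2, i, hi, hik, c, hc, hp, hd⟩, h3⟩)
    · exact Finset.union_subset
        (nxt_mono p x ⟨k, A⟩ ⟨k, A ∪ B⟩ ⟨rfl, Finset.subset_union_left⟩).2
        (nxt_mono p x ⟨k, B⟩ ⟨k, A ∪ B⟩ ⟨rfl, Finset.subset_union_right⟩).2
  have hk : (nxt p x ⟨k, A ∪ B⟩).k = rS x k := rfl
  cases h2 : nxt p x ⟨k, A ∪ B⟩
  simp_all

lemma run_union (p : ℝ) (n : ℕ) (ω : Cfg) (k : ℕ) (A B : Finset ℕ) :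
    (run (nxt p) n ω ⟨k, A ∪ B⟩).A =
      (run (nxt p) n ω ⟨k, A⟩).A ∪ (run (nxt p) n ω ⟨k, B⟩).A := by
  induction n generalizing ω k A B with
  | zero => rfl
  | succ n ih =>
    rw [run_succ, run_succ, run_succ, nxt_union, ih]
    rfl

variable {α : ℝ} [hα : Fact (0 < α ∧ α < 1)]

lemma Ui_union (p : ℝ) (k : ℕ) (A B : Finset ℕ) :
    Ui α (nxt p) ⟨k, A ∪ B⟩ ≤ Ui α (nxt p) ⟨k, A⟩ + Ui α (nxt p) ⟨k, B⟩ := by
  refine le_trans (measure_mono ?_) (measure_union_le _ _)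
  intro ω hω
  by_contra hcon
  simp only [mem_union, mem_ofPred_eq, not_or, not_forall] at hcon
  obtain ⟨⟨n, hn⟩, ⟨m, hm⟩⟩ := hcon
  have h1 := hω (max n m)
  rw [run_union] at h1
  rcases Finset.union_nonempty.1 h1 with h | h
  · exact hn (alive_mono (good_nxt p) (le_max_left n m) ω _ h)
  · exact hm (alive_mono (good_nxt p) (le_max_right n m) ω _ h)

lemma Ui_le_sum (p : ℝ) (k : ℕ) (A : Finset ℕ) :
    Ui α (nxt p) ⟨k, A⟩ ≤ ∑ i ∈ A, Ui α (nxt p) ⟨k, {i}⟩ := by
  induction A using Finset.induction_on with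
  | empty => rw [Ui_empty (good_nxt p) (by simp)]; simp
  | insert a A ha ih =>
    rw [Finset.sum_insert ha, Finset.insert_eq]
    exact (Ui_union p k {a} A).trans (by gcongr)

lemma Ui_mono (p : ℝ) (k : ℕ) {A B : Finset ℕ} (h : A ⊆ B) :
    Ui α (nxt p) ⟨k, A⟩ ≤ Ui α (nxt p) ⟨k, B⟩ :=
  Ui_rel (fun s s' => s.k = s'.k ∧ s.A ⊆ s'.A) (fun x s s' => nxt_mono p x s s')
    (fun s s' h h' => h'.mono h.2) ⟨rfl, h⟩

lemma Ui_le_line {p l : ℝ} (hp0 : 0 ≤ p) (hpl : p < l) (hl1 : l ≤ 1) {C : ℝ≥0∞} {D : ℕ}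
    (hC : 1 ≤ C * ENNReal.ofReal l ^ D) (hC1 : 1 ≤ C)
    (hD : ∀ g, D ≤ g → ENNReal.ofReal (1 / (l - p) + 1) *
      ENNReal.ofReal ((1 - α) / (1 - α * l)) ^ g ≤ ENNReal.ofReal l ^ g)
    (k : ℕ) (A : Finset ℕ) (a b : ℕ) (hA : ∀ j ∈ A, a ≤ j ∧ j + b < k) :
    Ui α (nxt p) ⟨k, A⟩ ≤ Ui α (lnxt p) ⟨k, A⟩ +
      C * (ENNReal.ofReal l ^ a + ENNReal.ofReal l ^ b) := by
  rw [Ui_eq_iInf (good_lnxt p), ENNReal.iInf_add]
  refine le_iInf fun n => ?_
  exact (Ui_le_Un n _).trans (Un_le_line hp0 hpl hl1 hC hC1 hD n k A a b hA)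

lemma Ui_le_emb (p : ℝ) {k k' : ℕ} {A : Finset ℕ} (hk : k ≤ k') :
    Ui α (lnxt p) ⟨k, A⟩ ≤ Ui α (nxt p) ⟨k', A⟩ :=
  Ui_rel emb (emb_nxt p) (fun s s' h h' => h'.mono h.2) ⟨hk, Finset.Subset.refl _⟩

/-- constants for the comparison -/
lemma exists_consts (hα2 : 1 / 2 < α) {p : ℝ} (hp0 : 0 ≤ p) (hp1 : p < 1) :
    ∃ (l : ℝ) (C : ℝ) (D : ℕ), p < l ∧ 0 < l ∧ l < 1 ∧ 1 ≤ C ∧
      1 ≤ ENNReal.ofReal C * ENNReal.ofReal l ^ D ∧
      ∀ g, D ≤ g → ENNReal.ofReal (1 / (l - p) + 1) *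
        ENNReal.ofReal ((1 - α) / (1 - α * l)) ^ g ≤ ENNReal.ofReal l ^ g := by
  have hα0 := hα.out.1
  have hα1 := hα.out.2
  have h1 : (1 - α) / α < 1 := by
    rw [div_lt_one hα0]; linarith
  obtain ⟨l, hl, hl1⟩ := exists_between (max_lt hp1 h1)
  have hpl : p < l := lt_of_le_of_lt (le_max_left _ _) hl
  have hl2 : (1 - α) / α < l := lt_of_le_of_lt (le_max_right _ _) hl
  have hl0 : 0 < l := lt_of_le_of_lt hp0 hpl
  have hal : α * l < 1 := by nlinarith
  set β := (1 - α) / (1 - α * l) with hβ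
  have hβ0 : 0 < β := div_pos (by linarith) (by linarith)
  have hβl : β < l := by
    rw [hβ, div_lt_iff₀ (by linarith)]
    rw [div_lt_iff₀ hα0] at hl2
    nlinarith [mul_pos (sub_pos.2 hl1) (sub_pos.2 hl2)]
  have hr : β / l < 1 := (div_lt_one hl0).2 hβl
  have hr0 : 0 ≤ β / l := by positivity
  set K := 1 / (l - p) + 1 with hK
  have hK0 : 0 < K := by
    have : 0 < l - p := by linarith
    positivity
  obtain ⟨D, hD⟩ := exists_pow_lt_of_lt_one (show 0 < 1 / K by positivity) hr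
  refine ⟨l, max 1 (1 / l ^ D), D, hpl, hl0, hl1, le_max_left _ _, ?_, ?_⟩
  · rw [← ENNReal.ofReal_pow hl0.le, ← ENNReal.ofReal_mul (by positivity), ← ENNReal.ofReal_one]
    refine ENNReal.ofReal_le_ofReal ?_
    calc (1 : ℝ) = 1 / l ^ D * l ^ D := by field_simp
      _ ≤ _ := by gcongr; exact le_max_right _ _
  · intro g hg
    rw [← ENNReal.ofReal_pow hl0.le, ← ENNReal.ofReal_pow hβ0.le, ← ENNReal.ofReal_mul hK0.le]
    refine ENNReal.ofReal_le_ofReal ?_
    have h2 : (β / l) ^ g ≤ 1 / K := by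
      calc (β / l) ^ g ≤ (β / l) ^ D := pow_le_pow_of_le_one hr0 hr.le hg
        _ ≤ 1 / K := hD.le
    rw [div_pow, div_le_iff₀ (by positivity)] at h2
    calc K * β ^ g ≤ K * (1 / K * l ^ g) := by gcongr
      _ = l ^ g := by field_simp

section population

/-- indicator of a small positive population -/
noncomputable def fsm (M : ℕ) (s : St) : ℝ≥0∞ := if 0 < s.k ∧ s.k < M then 1 else 0

/-- indicator of a positive population -/
noncomputable def fpos (s : St) : ℝ≥0∞ := if 0 < s.k then 1 else 0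

/-- small but positive population after `n` rows -/
noncomputable def gsm (α p : ℝ) (M n : ℕ) (s : St) : ℝ≥0∞ :=
  ∫⁻ ω, fsm M (run (nxt p) n ω s) ∂cfgLaw α

/-- positive population after `n` rows -/
noncomputable def apos (α p : ℝ) (n : ℕ) (s : St) : ℝ≥0∞ :=
  ∫⁻ ω, fpos (run (nxt p) n ω s) ∂cfgLaw α

lemma gsm_zero (p : ℝ) (M : ℕ) (s : St) : gsm α p M 0 s = fsm M s := by
  unfold gsm
  simp only [run_zero]
  rw [lintegral_const, measure_univ, mul_one]

lemma apos_zero (p : ℝ) (s : St) : apos α p 0 s = fpos s := by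
  unfold apos
  simp only [run_zero]
  rw [lintegral_const, measure_univ, mul_one]

lemma gsm_succ (p : ℝ) (M n : ℕ) (s : St) :
    gsm α p M (n + 1) s = ∫⁻ x, gsm α p M n (nxt p x s) ∂rowLaw α :=
  lintegral_run_succ (good_nxt p) n s (fsm M)

lemma apos_succ (p : ℝ) (n : ℕ) (s : St) :
    apos α p (n + 1) s = ∫⁻ x, apos α p n (nxt p x s) ∂rowLaw α :=
  lintegral_run_succ (good_nxt p) n s fpos

lemma measurable_F_nxt (p : ℝ) (s : St) (F : St → ℝ≥0∞) : Measurable (fun x => F (nxt p x s)) :=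
  (measurable_from_top (f := F)).comp (measurable_nxt p s)

lemma rowLaw_fst {E : Set (ℕ → ℕ)} : rowLaw α {x | x.1 ∈ E} =
    (infinitePi fun _ : ℕ => geomLaw α) E := by
  unfold rowLaw
  have : {x : Row | x.1 ∈ E} = E ×ˢ (univ : Set (REdge → ℝ)) := by
    ext x; simp
  rw [this, Measure.prod_prod, measure_univ, mul_one]

lemma geomLaw_singleton (k : ℕ) : geomLaw α {k} = ENNReal.ofReal (α ^ k * (1 - α)) := by
  rw [← lintegral_indicator_one (MeasurableSet.singleton k), lintegral_geomLaw,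
    tsum_eq_single k]
  · simp
  · intro b hb
    simp [hb]

lemma measure_dead (k : ℕ) : rowLaw α {x | rS x k = 0} = ENNReal.ofReal (1 - α) ^ k := by
  have h1 := measure_all_coord (geomLaw α) (Finset.range k) {0} (MeasurableSet.singleton 0)
  rw [geomLaw_singleton, Finset.card_range, pow_zero, one_mul] at h1
  rw [← h1, ← rowLaw_fst]
  congr 1
  ext x
  simp [rS]

lemma gsm_step (p : ℝ) (M n : ℕ) (s : St) :
    ENNReal.ofReal (1 - α) ^ M * gsm α p M n s + apos α p (n + 1) s ≤ apos α p n s := by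
  have hα0 := hα.out.1
  induction n generalizing s with
  | zero =>
    rw [gsm_zero, apos_zero, apos_succ]
    simp only [apos_zero]
    by_cases hk : 0 < s.k
    · have h2 : ∫⁻ x, fpos (nxt p x s) ∂rowLaw α +
          rowLaw α {x | rS x s.k = 0} = 1 := by
        have hm : MeasurableSet {x : Row | rS x s.k = 0} := ms1 (measurable_rS s.k) (· = 0)
        have h3 : ∀ x : Row, fpos (nxt p x s) =
            ({x : Row | rS x s.k = 0}ᶜ).indicator (fun _ => 1) x := by
          intro x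
          unfold fpos
          rw [nxt_k]
          by_cases h : 0 < rS x s.k
          · have : x ∈ ({x : Row | rS x s.k = 0}ᶜ) := by
              simp only [mem_compl_iff, mem_ofPred_eq]; omega
            rw [if_pos h, Set.indicator_of_mem this]
          · have : x ∉ ({x : Row | rS x s.k = 0}ᶜ) := by
              simp only [mem_compl_iff, mem_ofPred_eq]; omega
            rw [if_neg h, Set.indicator_of_notMem this]
        simp_rw [h3]
        rw [lintegral_indicator_const hm.compl, one_mul, add_comm, measure_add_measure_compl hm,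
          measure_univ]
      rw [measure_dead] at h2
      have h5 : fpos s = 1 := if_pos hk
      rw [h5, ← h2]
      by_cases hM : s.k < M
      · have h6 : fsm M s = 1 := if_pos ⟨hk, hM⟩
        have h4 : ENNReal.ofReal (1 - α) ≤ 1 := by
          rw [← ENNReal.ofReal_one]
          exact ENNReal.ofReal_le_ofReal (by linarith)
        rw [h6, mul_one, add_comm]
        exact add_le_add le_rfl (pow_le_pow_right_of_le_one' h4 hM.le)
      · have h6 : fsm M s = 0 := if_neg (by tauto)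
        rw [h6, mul_zero, zero_add]
        exact le_self_add
    · have h0 : s.k = 0 := by omega
      have h1 : fsm M s = 0 := if_neg (by omega)
      have h2 : ∀ x, fpos (nxt p x s) = 0 := by
        intro x
        refine if_neg ?_
        rw [nxt_k, h0]
        simp [rS]
      rw [h1]
      simp [h2]
  | succ n ih =>
    rw [gsm_succ, apos_succ p (n + 1), apos_succ p n,
      ← lintegral_const_mul _ (measurable_F_nxt p s (gsm α p M n)),
      ← lintegral_add_left ((measurable_F_nxt p s (gsm α p M n)).const_mul _)]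
    exact lintegral_mono fun x => ih _

lemma gsm_sum (p : ℝ) (M N : ℕ) (s : St) :
    ENNReal.ofReal (1 - α) ^ M * ∑ n ∈ Finset.range N, gsm α p M n s + apos α p N s ≤ 1 := by
  induction N with
  | zero =>
    simp only [Finset.range_zero, Finset.sum_empty, mul_zero, zero_add, apos_zero, fpos]
    split_ifs <;> simp
  | succ N ih =>
    rw [Finset.sum_range_succ, mul_add, add_assoc]
    exact le_trans (add_le_add le_rfl (gsm_step p M N s)) ih

lemma exists_gsm_le (p : ℝ) (M : ℕ) (s : St) {ε : ℝ≥0∞} (hε : ε ≠ 0) : ∃ n, gsm α p M n s ≤ ε := by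
  have hα1 := hα.out.2
  by_contra hcon
  push Not at hcon
  have hc : ENNReal.ofReal (1 - α) ^ M ≠ 0 := by
    refine pow_ne_zero _ ?_
    simp only [ne_eq, ENNReal.ofReal_eq_zero, not_le]
    linarith
  have hcε : ENNReal.ofReal (1 - α) ^ M * ε ≠ 0 := mul_ne_zero hc hε
  obtain ⟨N, hN⟩ := ENNReal.exists_nat_mul_gt hcε (show (1 : ℝ≥0∞) ≠ ∞ by simp)
  have h1 := gsm_sum (α := α) p M N s
  have h2 : (N : ℝ≥0∞) * (ENNReal.ofReal (1 - α) ^ M * ε) ≤
      ENNReal.ofReal (1 - α) ^ M * ∑ n ∈ Finset.range N, gsm α p M n s := by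
    have h3 : (N : ℝ≥0∞) * ε ≤ ∑ n ∈ Finset.range N, gsm α p M n s := by
      calc (N : ℝ≥0∞) * ε = ∑ n ∈ Finset.range N, ε := by simp
        _ ≤ _ := Finset.sum_le_sum fun n _ => (hcon n).le
    calc (N : ℝ≥0∞) * (ENNReal.ofReal (1 - α) ^ M * ε)
        = ENNReal.ofReal (1 - α) ^ M * (N * ε) := by ring
      _ ≤ _ := by gcongr
  exact absurd (lt_of_lt_of_le hN (h2.trans (le_self_add.trans h1))) (lt_irrefl _)

lemma Ui_le_gsm (p : ℝ) (M : ℕ) {B : ℝ≥0∞}
    (hB : ∀ k, M ≤ k → Ui α (nxt p) ⟨k, Finset.range k⟩ ≤ B) (n : ℕ) (s : St)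
    (hs : ∀ j ∈ s.A, j < s.k) : Ui α (nxt p) s ≤ gsm α p M n s + B := by
  induction n generalizing s with
  | zero =>
    rw [gsm_zero]
    unfold fsm
    by_cases h0 : 0 < s.k
    · by_cases hM : s.k < M
      · rw [if_pos ⟨h0, hM⟩]
        exact (Ui_le_one _).trans le_self_add
      · refine le_trans ?_ le_add_self
        refine le_trans ?_ (hB s.k (by omega))
        exact Ui_mono p s.k (fun j hj => Finset.mem_range.2 (hs j hj))
    · rw [Ui_empty (good_nxt p)]
      · exact bot_le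
      · rintro ⟨j, hj⟩
        have := hs j hj
        omega
  | succ n ih =>
    calc Ui α (nxt p) s ≤ ∫⁻ x, Ui α (nxt p) (nxt p x s) ∂rowLaw α := Ui_eq' (good_nxt p) s
      _ ≤ ∫⁻ x, (gsm α p M n (nxt p x s) + B) ∂rowLaw α :=
          lintegral_mono fun x => ih _ (fun j hj => nxt_lt hj)
      _ = gsm α p M (n + 1) s + B := by
          rw [lintegral_add_right _ measurable_const, lintegral_const, measure_univ, mul_one,
            gsm_succ]

end population

/-- if the cut chain always dies out, then so does the chain started from one vertex -/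
lemma exists_line_pos (hα2 : 1 / 2 < α) {p : ℝ} (hp0 : 0 ≤ p) (hp1 : p < 1)
    (h : Ui α (nxt p) ⟨1, {0}⟩ ≠ 0) :
    ∃ k i, i < k ∧ Ui α (lnxt p) ⟨k, {i}⟩ ≠ 0 := by
  by_contra hcon
  push Not at hcon
  apply h
  obtain ⟨l, C, D, hpl, hl0, hl1, hC1, hC, hD⟩ := exists_consts hα2 hp0 hp1
  have hC1' : 1 ≤ ENNReal.ofReal C := by
    rw [← ENNReal.ofReal_one]; exact ENNReal.ofReal_le_ofReal hC1
  -- bound for the full level
  have hfull : ∀ j k : ℕ, (k - 1) / 2 = j → 0 < k →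
      Ui α (nxt p) ⟨k, Finset.range k⟩ ≤ ENNReal.ofReal ((2 * j + 2) * (C * (2 * l ^ j))) := by
    intro j k hj hk
    have h1 : ∀ i ∈ Finset.range k, Ui α (nxt p) ⟨k, {i}⟩ ≤ ENNReal.ofReal (C * (2 * l ^ j)) := by
      intro i hi
      rw [Finset.mem_range] at hi
      rw [Ui_single p hi (show j < k by omega)]
      refine (Ui_le_line hp0 hpl hl1.le hC hC1' hD k {j} j j ?_).trans ?_
      · intro i hi
        rw [Finset.mem_singleton] at hi
        subst hi
        omega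
      · rw [hcon k j (by omega), zero_add, ← ENNReal.ofReal_pow hl0.le,
          ← ENNReal.ofReal_add (by positivity) (by positivity),
          ← ENNReal.ofReal_mul (by linarith)]
        exact ENNReal.ofReal_le_ofReal (le_of_eq (by ring))
    calc Ui α (nxt p) ⟨k, Finset.range k⟩
        ≤ ∑ i ∈ Finset.range k, Ui α (nxt p) ⟨k, {i}⟩ := Ui_le_sum p k _
      _ ≤ ∑ i ∈ Finset.range k, ENNReal.ofReal (C * (2 * l ^ j)) := Finset.sum_le_sum h1
      _ = (k : ℝ≥0∞) * ENNReal.ofReal (C * (2 * l ^ j)) := by simp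
      _ ≤ ENNReal.ofReal (2 * j + 2) * ENNReal.ofReal (C * (2 * l ^ j)) := by
          gcongr
          rw [← ENNReal.ofReal_natCast]
          refine ENNReal.ofReal_le_ofReal ?_
          have : k ≤ 2 * j + 2 := by omega
          exact_mod_cast this
      _ = _ := by rw [← ENNReal.ofReal_mul (by positivity)]
  -- the bound tends to zero
  have hlim : Filter.Tendsto (fun j : ℕ => ENNReal.ofReal ((2 * j + 2) * (C * (2 * l ^ j))))
      Filter.atTop (nhds 0) := by
    have h1 : Filter.Tendsto (fun j : ℕ => (2 * (j : ℝ) + 2) * (C * (2 * l ^ j)))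
        Filter.atTop (nhds 0) := by
      have h2 := tendsto_self_mul_const_pow_of_lt_one hl0.le hl1
      have h3 := tendsto_pow_atTop_nhds_zero_of_lt_one hl0.le hl1
      have h4 := (h2.const_mul (4 * C)).add (h3.const_mul (4 * C))
      simp only [mul_zero, add_zero] at h4
      refine h4.congr fun j => ?_
      ring
    have := ENNReal.tendsto_ofReal h1
    rwa [ENNReal.ofReal_zero] at this
  refine le_antisymm (ENNReal.le_of_forall_pos_le_add fun ε hε _ => ?_) bot_le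
  have hε2 : (0 : ℝ≥0∞) < (ε : ℝ≥0∞) / 2 := by
    refine ENNReal.half_pos ?_
    exact_mod_cast hε.ne'
  obtain ⟨J, hJ⟩ := (hlim.eventually (gt_mem_nhds hε2)).exists_forall_of_atTop
  have hB : ∀ k, 2 * J + 1 ≤ k → Ui α (nxt p) ⟨k, Finset.range k⟩ ≤ (ε : ℝ≥0∞) / 2 := by
    intro k hk
    exact (hfull _ k rfl (by omega)).trans (hJ ((k - 1) / 2) (by omega)).le
  obtain ⟨n, hn⟩ := exists_gsm_le (α := α) p (2 * J + 1) ⟨1, {0}⟩ hε2.ne'
  calc Ui α (nxt p) ⟨1, {0}⟩ ≤ gsm α p (2 * J + 1) n ⟨1, {0}⟩ + (ε : ℝ≥0∞) / 2 :=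
        Ui_le_gsm p (2 * J + 1) hB n _ (by simp)
    _ ≤ (ε : ℝ≥0∞) / 2 + (ε : ℝ≥0∞) / 2 := by gcongr
    _ = 0 + ε := by rw [ENNReal.add_halves, zero_add]

lemma geom_tail_pos (k : ℕ) :
    (infinitePi fun _ : ℕ => geomLaw α) {ξ | ξ 0 = k} ≠ 0 := by
  have h := (measurePreserving_eval_infinitePi (fun _ : ℕ => geomLaw α) 0).measure_preimage
    (MeasurableSet.singleton k).nullMeasurableSet
  have h2 : (fun ξ : ℕ → ℕ => ξ 0) ⁻¹' {k} = {ξ | ξ 0 = k} := rfl
  have h3 : (infinitePi fun _ : ℕ => geomLaw α) {ξ | ξ 0 = k} = geomLaw α {k} := h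
  rw [h3, geomLaw_singleton]
  have hα0 := hα.out.1
  have hα1 : 0 < 1 - α := by linarith [hα.out.2]
  simp only [ne_eq, ENNReal.ofReal_eq_zero, not_le]
  positivity

/-- uniform lower bound for the survival probability -/
lemma uniform_lower (hα2 : 1 / 2 < α) {p : ℝ} (hp0 : 0 < p) (hp1 : p < 1)
    (h : Ui α (nxt p) ⟨1, {0}⟩ ≠ 0) :
    ∃ c : ℝ≥0∞, c ≠ 0 ∧ ∀ k i, i < k → c ≤ Ui α (nxt p) ⟨k, {i}⟩ := by
  obtain ⟨k₀, i₀, hi₀, hpos⟩ := exists_line_pos hα2 hp0.le hp1 h
  set c₁ := Ui α (lnxt p) ⟨k₀, {i₀}⟩ with hc₁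
  have hbig : ∀ k i, k₀ ≤ k → i < k → c₁ ≤ Ui α (nxt p) ⟨k, {i}⟩ := by
    intro k i hk hi
    rw [Ui_single p hi (show i₀ < k by omega)]
    exact Ui_le_emb p hk
  set E : Set Row := {ξ : ℕ → ℕ | ξ 0 = k₀} ×ˢ {u : REdge → ℝ | u (Sum.inl (0, 0)) < p} with hE
  have hEm : MeasurableSet E := by
    refine MeasurableSet.prod ?_ ?_
    · exact (measurable_pi_apply (0 : ℕ) : Measurable fun ξ : ℕ → ℕ => ξ 0)
        (MeasurableSet.singleton k₀)
    · exact (measurable_pi_apply (Sum.inl (0, 0)) : Measurable fun u : REdge → ℝ => _)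
        measurableSet_Iio
  have hEpos : rowLaw α E ≠ 0 := by
    unfold rowLaw
    rw [hE, Measure.prod_prod]
    refine mul_ne_zero (geom_tail_pos k₀) ?_
    have h1 := measure_all_coord unifLaw ({Sum.inl (0, 0)} : Finset REdge) {y | y < p}
      measurableSet_Iio
    have h2 : {f : REdge → ℝ | ∀ i ∈ ({Sum.inl (0, 0)} : Finset REdge), f i ∈ {y | y < p}} =
        {u : REdge → ℝ | u (Sum.inl (0, 0)) < p} := by
      ext u; simp
    rw [h2] at h1
    rw [h1, unifLaw_lt hp1.le, Finset.card_singleton, pow_one]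
    simpa using hp0
  have hsmall : ∀ k, 0 < k → rowLaw α E * c₁ ≤ Ui α (nxt p) ⟨k, {0}⟩ := by
    intro k hk
    rw [Ui_eq (good_nxt p) _ (by simp)]
    calc rowLaw α E * c₁ = ∫⁻ x, E.indicator (fun _ => c₁) x ∂rowLaw α := by
          rw [lintegral_indicator_const hEm, mul_comm]
      _ ≤ _ := by
          refine lintegral_mono fun x => ?_
          by_cases hx : x ∈ E
          · rw [Set.indicator_of_mem hx]
            obtain ⟨hx1, hx2⟩ := hx
            have hx1 : x.1 0 = k₀ := hx1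
            have hx2 : x.2 (Sum.inl (0, 0)) < p := hx2
            have hk₀ : k₀ ≤ rS x k := by
              rw [← hx1]
              exact Finset.single_le_sum (f := fun j => x.1 j) (fun _ _ => Nat.zero_le _)
                (Finset.mem_range.2 hk)
            have h0 : 0 ∈ (nxt p x ⟨k, {0}⟩).A := by
              refine mem_nxt.2 ⟨by simp only; omega, 0, ⟨by simp only; omega, 0, by simp, hk, 0,
                Nat.zero_le _, hx2, ?_⟩, Relation.ReflTransGen.refl⟩
              simp [rS]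
            have h1 : c₁ ≤ Ui α (nxt p) ⟨rS x k, {0}⟩ := hbig _ _ hk₀ (by omega)
            refine h1.trans ?_
            exact Ui_mono p (rS x k) (B := (nxt p x ⟨k, {0}⟩).A) (by simpa using h0)
          · rw [Set.indicator_of_notMem hx]
            exact bot_le
  refine ⟨rowLaw α E * c₁, mul_ne_zero hEpos hpos, fun k i hi => ?_⟩
  rw [Ui_single p hi (show 0 < k by omega)]
  exact hsmall k (by omega)

end Pool.Agent.helper885_ct
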